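import Mathlib

set_option autoImplicit false
set_option linter.dupNamespace false

namespace Pool.Agent.Helper22.Auto

variable {α : Type}

/-- column `i` of the convolution of a tuple of words -/
def col {ι : Type} (w : ι → List α) (i : ℕ) : ι → Option α := fun j => (w j)[i]?

/-- state after reading `N` columns -/
def run {ι Q : Type} (δ : Q → (ι → Option α) → Q) (q : Q) (w : ι → List α) : ℕ → Q
  | 0 => q
  | N + 1 => δ (run δ q w N) (col w N)

/-- automatic relations on tuples of words -/
def Auto {ι : Type} (R : (ι → List α) → Prop) : Prop :=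
  ∃ (Q : Type) (_ : Finite Q) (δ : Q → (ι → Option α) → Q) (q₀ : Q) (F : Set Q),
    ∀ (w : ι → List α) (N : ℕ), (∀ j, (w j).length ≤ N) → (R w ↔ run δ q₀ w N ∈ F)

variable {ι : Type}

theorem Auto.congr {R S : (ι → List α) → Prop} (h : Auto R) (e : ∀ w, R w ↔ S w) : Auto S := by
  obtain ⟨Q, hQ, δ, q₀, F, h⟩ := h
  exact ⟨Q, hQ, δ, q₀, F, fun w N hN => (e w).symm.trans (h w N hN)⟩

theorem Auto.const_prop (p : Prop) : Auto (fun _ : ι → List α => p) :=
  ⟨Unit, inferInstance, fun _ _ => (), (), {_q | p}, fun _ _ _ => Iff.rfl⟩

theorem Auto.not {R : (ι → List α) → Prop} (h : Auto R) : Auto (fun w => ¬ R w) := by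
  obtain ⟨Q, hQ, δ, q₀, F, h⟩ := h
  exact ⟨Q, hQ, δ, q₀, Fᶜ, fun w N hN => not_congr (h w N hN)⟩

theorem run_pi {I : Type} {Q : I → Type} (δ : ∀ i, Q i → (ι → Option α) → Q i) (q : ∀ i, Q i)
    (w : ι → List α) (N : ℕ) :
    run (fun (x : ∀ i, Q i) g => fun i => δ i (x i) g) q w N = fun i => run (δ i) (q i) w N := by
  induction N with
  | zero => rfl
  | succ N ih => simp only [run, ih]

theorem Auto.exists_fin {I : Type} [Finite I] {R : I → (ι → List α) → Prop}
    (h : ∀ i, Auto (R i)) : Auto (fun w => ∃ i, R i w) := by
  choose Q hQ δ q₀ F h using h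
  refine ⟨∀ i, Q i, inferInstance, fun x g => fun i => δ i (x i) g, q₀,
    {x | ∃ i, x i ∈ F i}, fun w N hN => ?_⟩
  rw [run_pi]
  constructor
  · rintro ⟨i, hi⟩
    exact ⟨i, (h i w N hN).1 hi⟩
  · rintro ⟨i, hi⟩
    exact ⟨i, (h i w N hN).2 hi⟩

theorem Auto.forall_fin {I : Type} [Finite I] {R : I → (ι → List α) → Prop}
    (h : ∀ i, Auto (R i)) : Auto (fun w => ∀ i, R i w) := by
  refine ((Auto.exists_fin (fun i => (h i).not)).not).congr (fun w => ?_)
  push Not
  rfl

theorem Auto.or {R S : (ι → List α) → Prop} (h₁ : Auto R) (h₂ : Auto S) :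
    Auto (fun w => R w ∨ S w) := by
  refine (Auto.exists_fin (I := Bool) (R := fun b => if b then R else S) ?_).congr ?_
  · intro b
    cases b
    · simpa using h₂
    · simpa using h₁
  · intro w
    simp only [Bool.exists_bool, Bool.false_eq_true, if_false, if_true]
    tauto

theorem Auto.and {R S : (ι → List α) → Prop} (h₁ : Auto R) (h₂ : Auto S) :
    Auto (fun w => R w ∧ S w) := by
  refine (Auto.forall_fin (I := Bool) (R := fun b => if b then R else S) ?_).congr ?_
  · intro b
    cases b
    · simpa using h₂
    · simpa using h₁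
  · intro w
    simp only [Bool.forall_bool, Bool.false_eq_true, if_false, if_true]
    tauto

theorem Auto.imp {R S : (ι → List α) → Prop} (h₁ : Auto R) (h₂ : Auto S) :
    Auto (fun w => R w → S w) := by
  refine (h₁.not.or h₂).congr (fun w => ?_)
  tauto

theorem run_comap {ι' Q : Type} (f : ι → ι') (δ : Q → (ι → Option α) → Q) (q : Q)
    (w : ι' → List α) (N : ℕ) :
    run (fun x g => δ x (g ∘ f)) q w N = run δ q (w ∘ f) N := by
  induction N with
  | zero => rfl
  | succ N ih =>
    simp only [run, ih]
    rfl

theorem Auto.comap {ι' : Type} (f : ι → ι') {R : (ι → List α) → Prop} (h : Auto R) :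
    Auto (fun w : ι' → List α => R (w ∘ f)) := by
  obtain ⟨Q, hQ, δ, q₀, F, h⟩ := h
  refine ⟨Q, hQ, fun x g => δ x (g ∘ f), q₀, F, fun w N hN => ?_⟩
  rw [run_comap]
  exact h _ N (fun j => hN (f j))

/-- extend a tuple by one word -/
def ext (u : List α) (w : ι → List α) : Option ι → List α := fun o => o.elim u w

theorem run_congr {Q : Type} (δ : Q → (ι → Option α) → Q) (q : Q) {w w' : ι → List α} {N : ℕ}
    (h : ∀ i < N, col w i = col w' i) : run δ q w N = run δ q w' N := by
  induction N with
  | zero => rfl
  | succ N ih =>
    simp only [run]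
    rw [ih (fun i hi => h i (Nat.lt_succ_of_lt hi)), h N (Nat.lt_succ_self N)]

theorem col_ext (u : List α) (w : ι → List α) (i : ℕ) :
    col (ext u w) i = fun o => o.elim u[i]? (col w i) := by
  funext o
  cases o <;> rfl

theorem run_add {Q : Type} (δ : Q → (ι → Option α) → Q) (q : Q) (w : ι → List α) (N M : ℕ) :
    run δ q w (N + M) = run δ (run δ q w N) (fun j => (w j).drop N) M := by
  induction M with
  | zero => rfl
  | succ M ih =>
    rw [← Nat.add_assoc]
    simp only [run, ih]
    congr 1
    funext j
    simp [col, List.getElem?_drop]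

/-- Projection: automatic relations are closed under existential quantification. -/
theorem Auto.ex [Finite α] {R : (Option ι → List α) → Prop} (h : Auto R) :
    Auto (fun w : ι → List α => ∃ u, R (ext u w)) := by
  obtain ⟨Q, hQ, δ, q₀, F, h⟩ := h
  -- the two components: words of full length so far, words already ended
  let step : Set Q × Set Q → (ι → Option α) → Set Q × Set Q := fun st g =>
    ({q | ∃ p ∈ st.1, ∃ a : α, q = δ p (fun o => o.elim (some a) g)},
     {q | (∃ p ∈ st.2, q = δ p (fun o => o.elim none g)) ∨
       ∃ p ∈ st.1, ∃ a : α, q = δ p (fun o => o.elim (some a) g)})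
  have key : ∀ (w : ι → List α) (N : ℕ),
      (run step ({q₀}, {q₀}) w N).1 = {q | ∃ u : List α, u.length = N ∧ q = run δ q₀ (ext u w) N} ∧
      (run step ({q₀}, {q₀}) w N).2 = {q | ∃ u : List α, u.length ≤ N ∧ q = run δ q₀ (ext u w) N} := by
    intro w N
    induction N with
    | zero =>
      constructor
      · ext q
        simp only [run, Set.mem_singleton_iff, Set.mem_ofPred_eq, List.length_eq_zero_iff]
        constructor
        · rintro rfl
          exact ⟨[], rfl, rfl⟩
        · rintro ⟨u, -, h⟩
          exact h
      · ext q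
        simp only [run, Set.mem_singleton_iff, Set.mem_ofPred_eq]
        constructor
        · rintro rfl
          exact ⟨[], le_rfl, rfl⟩
        · rintro ⟨u, -, h⟩
          exact h
    | succ N ih =>
      have k1 : (run step ({q₀}, {q₀}) w (N + 1)).1 =
          {q | ∃ u : List α, u.length = N + 1 ∧ q = run δ q₀ (ext u w) (N + 1)} := by
        ext q
        simp only [run, step, Set.mem_ofPred_eq]
        constructor
        · rintro ⟨p, hp, a, rfl⟩
          have hp' : p ∈ (run step ({q₀}, {q₀}) w N).1 := hp
          rw [ih.1] at hp'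
          obtain ⟨u, hu, rfl⟩ := hp'
          refine ⟨u ++ [a], by simp [hu], ?_⟩
          have e1 : run δ q₀ (ext (u ++ [a]) w) N = run δ q₀ (ext u w) N := by
            refine run_congr δ q₀ (fun i hi => ?_)
            rw [col_ext, col_ext, List.getElem?_append_left (by omega)]
          rw [e1, col_ext]
          congr 1
          funext o
          cases o with
          | none => simp [hu]
          | some j => rfl
        · rintro ⟨u, hu, rfl⟩
          have hN : N < u.length := by omega
          refine ⟨run δ q₀ (ext (u.take N) w) N, ?_, u[N], ?_⟩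
          · change _ ∈ (run step ({q₀}, {q₀}) w N).1
            rw [ih.1]
            exact ⟨u.take N, by simp [hu], rfl⟩
          · have e1 : run δ q₀ (ext (u.take N) w) N = run δ q₀ (ext u w) N := by
              refine run_congr δ q₀ (fun i hi => ?_)
              rw [col_ext, col_ext, List.getElem?_take_of_lt hi]
            rw [e1, col_ext, List.getElem?_eq_getElem hN]
      refine ⟨k1, ?_⟩
      ext q
      have k2 : q ∈ (run step ({q₀}, {q₀}) w (N + 1)).2 ↔
          (∃ p ∈ (run step ({q₀}, {q₀}) w N).2, q = δ p (fun o => o.elim none (col w N))) ∨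
          q ∈ (run step ({q₀}, {q₀}) w (N + 1)).1 := Iff.rfl
      rw [k2, k1, ih.2]
      simp only [Set.mem_ofPred_eq]
      constructor
      · rintro (⟨p, ⟨u, hu, rfl⟩, rfl⟩ | ⟨u, hu, rfl⟩)
        · refine ⟨u, by omega, ?_⟩
          simp only [run]
          rw [col_ext, List.getElem?_eq_none hu]
        · exact ⟨u, by omega, rfl⟩
      · rintro ⟨u, hu, rfl⟩
        rcases Nat.lt_or_ge N u.length with h1 | h1
        · right
          exact ⟨u, by omega, rfl⟩
        · left
          refine ⟨_, ⟨u, h1, rfl⟩, ?_⟩
          simp only [run]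
          rw [col_ext, List.getElem?_eq_none h1]
  refine ⟨Set Q × Set Q, inferInstance, step, ({q₀}, {q₀}),
    {st | (∃ q ∈ st.2, q ∈ F) ∨ ∃ q ∈ st.1, ∃ v : List α,
      run δ q (ext v (fun _ : ι => [])) v.length ∈ F}, fun w N hN => ?_⟩
  simp only [Set.mem_ofPred_eq, (key w N).1, (key w N).2]
  have hdrop : (fun j => (w j).drop N) = fun _ : ι => ([] : List α) := by
    funext j
    exact List.drop_eq_nil_of_le (hN j)
  constructor
  · rintro ⟨u, hu⟩
    rcases Nat.lt_or_ge N u.length with h1 | h1
    · right
      refine ⟨_, ⟨u.take N, by simp; omega, rfl⟩, u.drop N, ?_⟩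
      have h2 := (h (ext u w) u.length (by
        intro o
        cases o with
        | none => exact le_rfl
        | some j => exact (hN j).trans h1.le)).1 hu
      have h3 : u.length = N + (u.drop N).length := by simp; omega
      rw [h3, run_add] at h2
      have e1 : run δ q₀ (ext (u.take N) w) N = run δ q₀ (ext u w) N := by
        refine run_congr δ q₀ (fun i hi => ?_)
        rw [col_ext, col_ext, List.getElem?_take_of_lt hi]
      rw [e1]
      have e2 : (fun o => (ext u w o).drop N) = ext (u.drop N) (fun _ : ι => []) := by
        funext o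
        cases o with
        | none => rfl
        | some j => exact congrFun hdrop j
      rw [e2] at h2
      exact h2
    · left
      refine ⟨_, ⟨u, h1, rfl⟩, ?_⟩
      refine (h (ext u w) N ?_).1 hu
      intro o
      cases o with
      | none => exact h1
      | some j => exact hN j
  · rintro (⟨q, ⟨u, hu, rfl⟩, hq⟩ | ⟨q, ⟨u, hu, rfl⟩, v, hq⟩)
    · refine ⟨u, (h (ext u w) N ?_).2 hq⟩
      intro o
      cases o with
      | none => exact hu
      | some j => exact hN j
    · refine ⟨u ++ v, (h (ext (u ++ v) w) (N + v.length) ?_).2 ?_⟩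
      · intro o
        cases o with
        | none => simp [ext, hu]
        | some j => exact (hN j).trans (Nat.le_add_right _ _)
      · rw [run_add]
        have e1 : run δ q₀ (ext (u ++ v) w) N = run δ q₀ (ext u w) N := by
          refine run_congr δ q₀ (fun i hi => ?_)
          rw [col_ext, col_ext, List.getElem?_append_left (by omega)]
        have e2 : (fun o => (ext (u ++ v) w o).drop N) = ext v (fun _ : ι => []) := by
          funext o
          cases o with
          | none => simp [ext, ← hu]
          | some j => exact congrFun hdrop j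
        rw [e1, e2]
        exact hq

theorem Auto.all [Finite α] {R : (Option ι → List α) → Prop} (h : Auto R) :
    Auto (fun w : ι → List α => ∀ u, R (ext u w)) := by
  refine ((Auto.ex h.not).not).congr (fun w => ?_)
  push Not
  rfl

/-- Substituting a constant word. -/
theorem Auto.subst {R : (Option ι → List α) → Prop} (h : Auto R) (cw : List α) :
    Auto (fun w : ι → List α => R (ext cw w)) := by
  obtain ⟨Q, hQ, δ, q₀, F, h⟩ := h
  let step : Q × Fin (cw.length + 1) → (ι → Option α) → Q × Fin (cw.length + 1) := fun st g =>
    (δ st.1 (fun o => o.elim (cw[st.2.val]?) g), ⟨min (st.2.val + 1) cw.length, by omega⟩)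
  have key : ∀ (w : ι → List α) (N : ℕ),
      (run step (q₀, ⟨0, by omega⟩) w N).1 = run δ q₀ (ext cw w) N ∧
      (run step (q₀, ⟨0, by omega⟩) w N).2.val = min N cw.length := by
    intro w N
    induction N with
    | zero => simp [run]
    | succ N ih =>
      constructor
      · simp only [run, step]
        rw [ih.1, ih.2, col_ext]
        congr 1
        funext o
        cases o with
        | none =>
          simp only [Option.elim]
          rcases Nat.lt_or_ge N cw.length with h1 | h1
          · rw [min_eq_left h1.le]
          · rw [min_eq_right h1, List.getElem?_eq_none le_rfl, List.getElem?_eq_none h1]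
        | some j => rfl
      · simp only [run, step]
        rw [ih.2]
        omega
  refine ⟨Q × Fin (cw.length + 1), inferInstance, step, (q₀, ⟨0, by omega⟩),
    {st | run δ st.1 (ext (cw.drop st.2.val) (fun _ : ι => [])) (cw.length - st.2.val) ∈ F},
    fun w N hN => ?_⟩
  simp only [Set.mem_ofPred_eq]
  rw [(key w N).1, (key w N).2]
  have hlen : ∀ o, (ext cw w o).length ≤ N + (cw.length - min N cw.length) := by
    intro o
    cases o with
    | none => simp only [ext, Option.elim]; omega
    | some j => exact (hN j).trans (Nat.le_add_right _ _)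
  rw [h (ext cw w) _ hlen, run_add]
  have e2 : (fun o => (ext cw w o).drop N) = ext (cw.drop (min N cw.length)) (fun _ : ι => []) := by
    funext o
    cases o with
    | none =>
      simp only [ext, Option.elim]
      rcases Nat.lt_or_ge N cw.length with h1 | h1
      · rw [min_eq_left h1.le]
      · rw [min_eq_right h1, List.drop_eq_nil_of_le h1, List.drop_eq_nil_of_le le_rfl]
    | some j => exact List.drop_eq_nil_of_le (hN j)
  rw [e2]

/-- Equality of two tapes. -/
theorem Auto.eq (i j : ι) : Auto (fun w : ι → List α => w i = w j) := by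
  classical
  let step : Prop → (ι → Option α) → Prop := fun p g => p ∧ g i = g j
  have key : ∀ (w : ι → List α) (N : ℕ),
      run step True w N ↔ ∀ m < N, (w i)[m]? = (w j)[m]? := by
    intro w N
    induction N with
    | zero => simp [run]
    | succ N ih =>
      simp only [run]
      constructor
      · rintro ⟨h1, h2⟩ m hm
        rcases Nat.lt_succ_iff_lt_or_eq.1 hm with h | h
        · exact ih.1 h1 m h
        · subst h
          exact h2
      · intro h
        exact ⟨ih.2 (fun m hm => h m (Nat.lt_succ_of_lt hm)), h N (Nat.lt_succ_self N)⟩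
  refine ⟨Prop, inferInstance, step, True, {p | p}, fun w N hN => ?_⟩
  simp only [Set.mem_ofPred_eq]
  rw [key]
  constructor
  · intro h m _
    rw [h]
  · intro h
    apply List.ext_getElem?
    intro m
    rcases Nat.lt_or_ge m N with h1 | h1
    · exact h m h1
    · rw [List.getElem?_eq_none ((hN i).trans h1), List.getElem?_eq_none ((hN j).trans h1)]

/-- From a unary automatic relation to a DFA. -/
theorem Auto.toDFA {A : Language α} (h : Auto (fun w : Unit → List α => w () ∈ A)) :
    ∃ (k : ℕ) (M : DFA α (Fin k)), M.accepts = A := by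
  obtain ⟨Q, hQ, δ, q₀, F, h⟩ := h
  obtain ⟨k, ⟨f⟩⟩ := Finite.exists_equiv_fin Q
  let M : DFA α (Fin k) :=
    { step := fun q a => f (δ (f.symm q) (fun _ => some a))
      start := f q₀
      accept := {q | f.symm q ∈ F} }
  have key : ∀ x : List α, f.symm (M.evalFrom M.start x) =
      run δ q₀ (fun _ : Unit => x) x.length := by
    intro x
    induction x using List.reverseRecOn with
    | nil => simp [M, run]
    | append_singleton x a ih =>
      rw [DFA.evalFrom_append_singleton]
      simp only [List.length_append, List.length_singleton, run]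
      have e1 : run δ q₀ (fun _ : Unit => x ++ [a]) x.length = run δ q₀ (fun _ : Unit => x) x.length := by
        refine run_congr δ q₀ (fun i hi => ?_)
        funext _
        simp only [col]
        rw [List.getElem?_append_left (by omega)]
      rw [e1, ← ih]
      simp only [M, Equiv.symm_apply_apply]
      congr 1
      funext _
      simp [col]
  refine ⟨k, M, ?_⟩
  ext x
  rw [DFA.mem_accepts]
  have h1 := h (fun _ => x) x.length (fun _ => le_rfl)
  rw [← key x] at h1
  exact h1.symm

end Pool.Agent.Helper22.Auto
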