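import Mathlib

set_option autoImplicit false

namespace Pool.Agent.Helper22.Beauquier

/-- the six letters `a, b, c, d, x, y` -/
inductive Ltr
  | a | b | c | d | x | y

/-- the language `E`, generated by `S → a S b S c | d` -/
inductive InE : List Ltr → Prop
  | leaf : InE [Ltr.d]
  | node (u v : List Ltr) : InE u → InE v → InE (Ltr.a :: u ++ Ltr.b :: v ++ [Ltr.c])

/-- the language `xEy` -/
def InXEY (z : List Ltr) : Prop := ∃ e, InE e ∧ z = Ltr.x :: e ++ [Ltr.y]

/-- six words `#₁, #₂, α, β, γ, δ` over `X` -/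
structure Words (X : Type) where
  h1 : List X
  h2 : List X
  α : List X
  β : List X
  γ : List X
  δ : List X

/-- images of the letters: `a ↦ α`, `b ↦ β`, `c ↦ γ`, `d ↦ δ`, `x ↦ #₁`, `y ↦ #₂` -/
def Words.img {X : Type} (W : Words X) : Ltr → List X
  | Ltr.a => W.α
  | Ltr.b => W.β
  | Ltr.c => W.γ
  | Ltr.d => W.δ
  | Ltr.x => W.h1
  | Ltr.y => W.h2

/-- the morphism `h` -/
def Words.hom {X : Type} (W : Words X) (z : List Ltr) : List X := z.flatMap W.img

/-- derivation trees from `S` in the grammar `S → α S β S γ | δ` -/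
inductive Tree
  | leaf : Tree
  | node : Tree → Tree → Tree

/-- the terminal word of a derivation tree -/
def Words.yield {X : Type} (W : Words X) : Tree → List X
  | Tree.leaf => W.δ
  | Tree.node l r => W.α ++ W.yield l ++ W.β ++ W.yield r ++ W.γ

/-- Condition (i): the grammar `A → #₁ S #₂`, `S → α S β S γ | δ` is non-ambiguous. -/
def Words.NonAmbiguous {X : Type} (W : Words X) : Prop :=
  ∀ t t' : Tree, W.h1 ++ W.yield t ++ W.h2 = W.h1 ++ W.yield t' ++ W.h2 → t = t'

/-- Condition (ii): this grammar generates exactly `L ∩ R`. -/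
def Words.Generates {X : Type} (W : Words X) (L R : Language X) : Prop :=
  ∀ w : List X, (w ∈ L ∧ w ∈ R) ↔ ∃ t : Tree, w = W.h1 ++ W.yield t ++ W.h2

/-- Condition (iii), second half: `h⁻¹(L ∩ R) = xEy`. -/
def Words.PreimageCap {X : Type} (W : Words X) (L R : Language X) : Prop :=
  ∀ z : List Ltr, (W.hom z ∈ L ∧ W.hom z ∈ R) ↔ InXEY z

/-- Condition (iii), first half: `h⁻¹(L) = xEy`. -/
def Words.PreimageFull {X : Type} (W : Words X) (L : Language X) : Prop :=
  ∀ z : List Ltr, W.hom z ∈ L ↔ InXEY z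

/-- Beauquier data for `L`: a regular set `R` with (i), (ii) and
(iii) `h⁻¹(L ∩ R) = h⁻¹(L) = xEy`. -/
def IsData {X : Type} (L : Language X) (W : Words X) (R : Language X) : Prop :=
  R.IsRegular ∧ W.NonAmbiguous ∧ W.Generates L R ∧ W.PreimageCap L R ∧ W.PreimageFull L

/-- The weaker version of Beauquier data in which (iii) is only `h⁻¹(L ∩ R) = xEy`. -/
def IsWeakData {X : Type} (L : Language X) (W : Words X) (R : Language X) : Prop :=
  R.IsRegular ∧ W.NonAmbiguous ∧ W.Generates L R ∧ W.PreimageCap L R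

/-- the four words `α, β, γ, δ` form a code -/
def Words.IsCode {X : Type} (W : Words X) : Prop :=
  ∀ w₁ w₂ : List (Fin 4),
    w₁.flatMap (![W.α, W.β, W.γ, W.δ] : Fin 4 → List X) =
      w₂.flatMap (![W.α, W.β, W.γ, W.δ] : Fin 4 → List X) → w₁ = w₂

end Pool.Agent.Helper22.Beauquier
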