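import Mathlib

set_option autoImplicit false

namespace Pool.Agent.Helper22.Beauquier

/-- obligations: `(true, s)` stands for `s F* q`, `(false, s)` for `{s}` -/
def Obl {X : Type} {ι : Type} (f : ι → List X) (q : List X) : Bool × List X → Language X
  | (true, s) => {w | ∃ z : List ι, w = s ++ z.flatMap f ++ q}
  | (false, s) => {s}

variable {X ι : Type}

/-- all suffixes that can occur -/
def Suff (f : ι → List X) (p q : List X) : Set (List X) :=
  {s | s <:+ p ∨ s <:+ q ∨ ∃ i, s <:+ f i}

theorem Suff.finite [Finite ι] (f : ι → List X) (p q : List X) : (Suff f p q).Finite := by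
  classical
  have hs : ∀ l : List X, {s : List X | s <:+ l}.Finite := by
    intro l
    apply (l.tails.toFinset.finite_toSet).subset
    intro s hs
    simp only [Finset.mem_coe, List.mem_toFinset, List.mem_tails]
    exact hs
  have : Suff f p q = {s | s <:+ p} ∪ ({s | s <:+ q} ∪ ⋃ i, {s | s <:+ f i}) := by
    ext s
    simp [Suff]
  rw [this]
  exact (hs p).union ((hs q).union (Set.finite_iUnion (fun i => hs (f i))))

/-- derivative -/
def der (f : ι → List X) (q : List X) (o : Bool × List X) (x : X) : Set (Bool × List X) :=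
  {o' | (o.2 = x :: o'.2 ∧ o'.1 = o.1) ∨
    (o = (true, []) ∧ ((∃ i, f i = x :: o'.2 ∧ o'.1 = true) ∨ (q = x :: o'.2 ∧ o'.1 = false)))}

theorem cons_mem_obl (f : ι → List X) (q : List X) (o : Bool × List X) (x : X) (w : List X) :
    x :: w ∈ Obl f q o ↔ ∃ o' ∈ der f q o x, w ∈ Obl f q o' := by
  obtain ⟨m, s⟩ := o
  constructor
  · intro h
    cases m with
    | false =>
      have h' : x :: w = s := h
      exact ⟨(false, w), Or.inl ⟨h'.symm, rfl⟩, rfl⟩
    | true =>
      obtain ⟨z, hz⟩ := h
      rcases s with _ | ⟨y, s⟩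
      · -- first nonempty block
        have key : ∀ z : List ι, x :: w = z.flatMap f ++ q →
            ∃ o' ∈ der f q (true, []) x, w ∈ Obl f q o' := by
          intro z
          induction z with
          | nil =>
            intro hz
            simp only [List.flatMap_nil, List.nil_append] at hz
            exact ⟨(false, w), Or.inr ⟨rfl, Or.inr ⟨hz.symm, rfl⟩⟩, rfl⟩
          | cons i z ih =>
            intro hz
            rw [List.flatMap_cons] at hz
            rcases hfi : f i with _ | ⟨y, r⟩
            · rw [hfi, List.nil_append] at hz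
              exact ih hz
            · rw [hfi] at hz
              simp only [List.cons_append, List.cons.injEq] at hz
              obtain ⟨rfl, hz⟩ := hz
              refine ⟨(true, r), Or.inr ⟨rfl, Or.inl ⟨i, hfi, rfl⟩⟩, z, ?_⟩
              rw [hz]
        exact key z (by simpa using hz)
      · simp only [List.cons_append, List.cons.injEq] at hz
        obtain ⟨rfl, hz⟩ := hz
        exact ⟨(true, s), Or.inl ⟨rfl, rfl⟩, z, hz⟩
  · rintro ⟨⟨m', s'⟩, ho', hw⟩
    rcases ho' with ⟨h1, h2⟩ | ⟨h1, h2⟩
    · simp only at h1 h2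
      subst h1 h2
      cases m' with
      | false =>
        have h' : w = s' := hw
        rw [h']
        rfl
      | true =>
        obtain ⟨z, hz⟩ := hw
        exact ⟨z, by rw [hz]; rfl⟩
    · simp only [Prod.mk.injEq] at h1
      obtain ⟨rfl, rfl⟩ := h1
      rcases h2 with ⟨i, hi, h3⟩ | ⟨hq, h3⟩
      · simp only at hi h3
        subst h3
        obtain ⟨z, hz⟩ := hw
        refine ⟨i :: z, ?_⟩
        rw [List.flatMap_cons, hi, hz]
        simp
      · simp only at hq h3
        subst h3
        have h' : w = s' := hw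
        refine ⟨[], ?_⟩
        rw [h', ← hq]
        simp

theorem regular_block [Finite ι] (f : ι → List X) (p q : List X) (K : Language X)
    (hK : ∀ w, w ∈ K ↔ ∃ z : List ι, w = p ++ z.flatMap f ++ q) : K.IsRegular := by
  classical
  have hfin : Finite (Suff f p q) := (Suff.finite f p q).to_subtype
  let emb : Bool × Suff f p q → Bool × List X := fun o => (o.1, o.2.1)
  let M : NFA X (Bool × Suff f p q) :=
    { step := fun o x => {o' | emb o' ∈ der f q (emb o) x}
      start := {(true, ⟨p, Or.inl (List.suffix_refl p)⟩)}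
      accept := {o | [] ∈ Obl f q (emb o)} }
  have hder : ∀ (o : Bool × Suff f p q) (x : X) (o' : Bool × List X), o' ∈ der f q (emb o) x →
      ∃ o'' : Bool × Suff f p q, emb o'' = o' := by
    rintro ⟨m, s, hs⟩ x ⟨m', s'⟩ ho'
    have hs' : s' ∈ Suff f p q := by
      rcases ho' with ⟨h1, -⟩ | ⟨-, h1 | h1⟩
      · simp only [emb] at h1
        have h2 : s' <:+ s := ⟨[x], by rw [h1]; rfl⟩
        rcases hs with h | h | ⟨i, h⟩
        · exact Or.inl (h2.trans h)
        · exact Or.inr (Or.inl (h2.trans h))
        · exact Or.inr (Or.inr ⟨i, h2.trans h⟩)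
      · obtain ⟨i, hi, -⟩ := h1
        exact Or.inr (Or.inr ⟨i, ⟨[x], by rw [hi]; rfl⟩⟩)
      · exact Or.inr (Or.inl ⟨[x], by rw [h1.1]; rfl⟩)
    exact ⟨(m', ⟨s', hs'⟩), rfl⟩
  have key : ∀ (w : List X) (S : Set (Bool × Suff f p q)),
      w ∈ M.acceptsFrom S ↔ ∃ o ∈ S, w ∈ Obl f q (emb o) := by
    intro w
    induction w with
    | nil =>
      intro S
      rw [NFA.nil_mem_acceptsFrom]
      rfl
    | cons x w ih =>
      intro S
      rw [NFA.cons_mem_acceptsFrom, ih]
      constructor
      · rintro ⟨o', ho', hw⟩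
        rw [NFA.mem_stepSet] at ho'
        obtain ⟨o, ho, hstep⟩ := ho'
        exact ⟨o, ho, (cons_mem_obl f q (emb o) x w).2 ⟨emb o', hstep, hw⟩⟩
      · rintro ⟨o, ho, hw⟩
        obtain ⟨o', ho', hw'⟩ := (cons_mem_obl f q (emb o) x w).1 hw
        obtain ⟨o'', rfl⟩ := hder o x o' ho'
        refine ⟨o'', ?_, hw'⟩
        rw [NFA.mem_stepSet]
        exact ⟨o, ho, ho'⟩
  have hfin2 : Finite (Set (Bool × Suff f p q)) := inferInstance
  refine ⟨Set (Bool × Suff f p q), Fintype.ofFinite _, M.toDFA, ?_⟩
  rw [NFA.toDFA_correct]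
  ext w
  change w ∈ M.acceptsFrom M.start ↔ _
  rw [key, hK]
  constructor
  · rintro ⟨o, rfl, hw⟩
    exact hw
  · intro hw
    exact ⟨_, rfl, hw⟩

end Pool.Agent.Helper22.Beauquier
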