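import Mathlib
import Pool.Agent.Helper22.BeauquierDefs
import Pool.Agent.Helper22.BeauquierReg

set_option autoImplicit false

namespace Pool.Agent.Helper22.Beauquier

open Ltr

/-! ### A deterministic pushdown parser for `xEy` -/

/-- states: `st false s` needs a phrase, `st true s` has just read one; the stack holds `false`
after an `a`, `true` after the corresponding `b` -/
inductive St
  | init : St
  | st : Bool → List Bool → St
  | fin : St

def step : St → Ltr → Option St
  | St.init, Ltr.x => some (St.st false [])
  | St.st false s, Ltr.a => some (St.st false (false :: s))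
  | St.st false s, Ltr.d => some (St.st true s)
  | St.st true (false :: s), Ltr.b => some (St.st false (true :: s))
  | St.st true (true :: s), Ltr.c => some (St.st true s)
  | St.st true [], Ltr.y => some St.fin
  | _, _ => none

def run : List Ltr → St → Option St
  | [], q => some q
  | l :: z, q => (step q l).bind (run z)

theorem run_append (z z' : List Ltr) (q : St) : run (z ++ z') q = (run z q).bind (run z') := by
  induction z generalizing q with
  | nil => rfl
  | cons l z ih =>
    simp only [List.cons_append, run]
    cases step q l with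
    | none => rfl
    | some q' => exact ih q'

theorem run_E {e : List Ltr} (he : InE e) : ∀ s, run e (St.st false s) = some (St.st true s) := by
  induction he with
  | leaf => intro s; rfl
  | node u v _ _ ihu ihv =>
    intro s
    rw [List.cons_append, List.cons_append, List.append_assoc]
    simp only [run, step, Option.bind_some]
    rw [run_append, ihu]
    simp only [Option.bind_some, List.cons_append, run, step]
    rw [run_append, ihv]
    rfl

/-- the words leading to a state -/
inductive Inv : St → List Ltr → Prop
  | init : Inv St.init []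
  | start : Inv (St.st false []) [x]
  | push1 (s z) : Inv (St.st false s) z → Inv (St.st false (false :: s)) (z ++ [a])
  | push2 (s z e) : Inv (St.st false s) z → InE e → Inv (St.st false (true :: s)) (z ++ a :: e ++ [b])
  | have' (s z e) : Inv (St.st false s) z → InE e → Inv (St.st true s) (z ++ e)
  | fin (e) : InE e → Inv St.fin (x :: e ++ [y])

theorem Inv.need_nil {z : List Ltr} (h : Inv (St.st false []) z) : z = [x] := by
  cases h
  rfl

theorem Inv.step_some {q q' : St} {z : List Ltr} {l : Ltr} (h : Inv q z)
    (hs : step q l = some q') : Inv q' (z ++ [l]) := by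
  cases h with
  | init =>
    cases l <;> simp only [step, reduceCtorEq, Option.some.injEq] at hs
    subst hs
    exact Inv.start
  | start =>
    cases l <;> simp only [step, reduceCtorEq, Option.some.injEq] at hs
    · subst hs
      exact Inv.push1 _ _ Inv.start
    · subst hs
      exact Inv.have' _ _ _ Inv.start InE.leaf
  | push1 s z h =>
    cases l <;> simp only [step, reduceCtorEq, Option.some.injEq] at hs
    · subst hs
      exact Inv.push1 _ _ (Inv.push1 _ _ h)
    · subst hs
      exact Inv.have' _ _ _ (Inv.push1 _ _ h) InE.leaf
  | push2 s z e h he =>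
    cases l <;> simp only [step, reduceCtorEq, Option.some.injEq] at hs
    · subst hs
      exact Inv.push1 _ _ (Inv.push2 _ _ _ h he)
    · subst hs
      exact Inv.have' _ _ _ (Inv.push2 _ _ _ h he) InE.leaf
  | have' s z e h he =>
    rcases s with _ | ⟨m, s⟩
    · cases l <;> simp only [step, reduceCtorEq, Option.some.injEq] at hs
      subst hs
      rw [h.need_nil]
      exact Inv.fin e he
    · cases m with
      | false =>
        cases l <;> simp only [step, reduceCtorEq, Option.some.injEq] at hs
        subst hs
        cases h with
        | push1 s z' h' =>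
          have := Inv.push2 _ _ e h' he
          simpa using this
      | true =>
        cases l <;> simp only [step, reduceCtorEq, Option.some.injEq] at hs
        subst hs
        cases h with
        | push2 s z' e' h' he' =>
          have := Inv.have' _ _ _ h' (InE.node e' e he' he)
          simpa using this
  | fin e he =>
    cases l <;> simp only [step, reduceCtorEq] at hs

theorem Inv.run {q q' : St} {z z' : List Ltr} (h : Inv q z) (hs : run z' q = some q') :
    Inv q' (z ++ z') := by
  induction z' generalizing q z with
  | nil =>
    simp only [Beauquier.run, Option.some.injEq] at hs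
    subst hs
    simpa using h
  | cons l z' ih =>
    simp only [Beauquier.run] at hs
    cases hst : step q l with
    | none => rw [hst] at hs; simp at hs
    | some q₁ =>
      rw [hst, Option.bind_some] at hs
      have := ih (h.step_some hst) hs
      simpa using this

theorem xey_iff (z : List Ltr) : InXEY z ↔ run z St.init = some St.fin := by
  constructor
  · rintro ⟨e, he, rfl⟩
    rw [List.cons_append]
    simp only [run, step, Option.bind_some]
    rw [run_append, run_E he]
    rfl
  · intro h
    have h2 := Inv.init.run h
    rw [List.nil_append] at h2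
    cases h2 with
    | fin e he => exact ⟨e, he, rfl⟩

/-! ### The substitution -/

/-- two words of `E` with the same letters -/
def ew : Bool → List Ltr
  | true => [a, a, d, b, d, c, b, d, c]
  | false => [a, d, b, a, d, b, d, c, c]

theorem ew_E (i : Bool) : InE (ew i) := by
  have h0 : InE [a, d, b, d, c] := InE.node [d] [d] InE.leaf InE.leaf
  cases i with
  | true => exact InE.node [a, d, b, d, c] [d] h0 InE.leaf
  | false => exact InE.node [d] [a, d, b, d, c] InE.leaf h0

def xs (I : List Bool) : List Ltr := I.flatMap (fun i => a :: ew i ++ [b])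
def ys (J : List Bool) : List Ltr := J.flatMap (fun i => b :: ew i ++ [c])

theorem run_xs (I : List Bool) (s : List Bool) :
    run (xs I) (St.st false s) = some (St.st false (List.replicate I.length true ++ s)) := by
  induction I generalizing s with
  | nil => rfl
  | cons i I ih =>
    have e : xs (i :: I) = a :: (ew i ++ b :: xs I) := by simp [xs]
    rw [e]
    simp only [run, step, Option.bind_some]
    rw [run_append, run_E (ew_E i)]
    simp only [Option.bind_some, run, step]
    rw [ih, List.length_cons, List.replicate_succ']
    simp

theorem run_ys (J : List Bool) (s : List Bool) :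
    run (ys J) (St.st true (List.replicate J.length false ++ s)) = some (St.st true s) := by
  induction J generalizing s with
  | nil => rfl
  | cons i J ih =>
    have e : ys (i :: J) = b :: (ew i ++ c :: ys J) := by simp [ys]
    rw [e, List.length_cons, List.replicate_succ, List.cons_append]
    simp only [run, step, Option.bind_some]
    rw [run_append, run_E (ew_E i)]
    simp only [Option.bind_some, run, step]
    exact ih s

theorem run_as (m : ℕ) (s : List Bool) :
    run (List.replicate m a) (St.st false s) = some (St.st false (List.replicate m false ++ s)) := by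
  induction m generalizing s with
  | zero => rfl
  | succ m ih =>
    rw [List.replicate_succ]
    simp only [run, step, Option.bind_some]
    rw [ih, List.replicate_succ']
    simp

theorem run_cs (k : ℕ) (s : List Bool) :
    run (List.replicate k c) (St.st true (List.replicate k true ++ s)) = some (St.st true s) := by
  induction k generalizing s with
  | zero => rfl
  | succ k ih =>
    rw [List.replicate_succ, List.replicate_succ, List.cons_append]
    simp only [run, step, Option.bind_some]
    exact ih s

/-- parameters of the substitution: four nonempty binary sequences with matching lengths -/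
structure Par where
  I : List Bool
  I' : List Bool
  J : List Bool
  J' : List Bool
  hI : I ≠ []
  hI' : I' ≠ []
  hJ : J ≠ []
  hJJ : J'.length = J.length

def Par.u (P : Par) : List Ltr := xs P.I ++ a :: List.replicate P.J.length a
def Par.v (P : Par) : List Ltr := ys P.J ++ b :: List.replicate P.J'.length a
def Par.w (P : Par) : List Ltr := ys P.J' ++ c :: List.replicate P.I.length c
def Par.t (P : Par) : List Ltr := xs P.I' ++ d :: List.replicate P.I'.length c

/-- the substitution -/
def Par.sub (P : Par) : Ltr → List Ltr
  | Ltr.a => P.u
  | Ltr.b => P.v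
  | Ltr.c => P.w
  | Ltr.d => P.t
  | Ltr.x => [x]
  | Ltr.y => [y]

/-- stack encoding -/
def Par.stk (P : Par) : List Bool → List Bool
  | [] => []
  | false :: s => List.replicate P.J.length false ++ false ::
      (List.replicate P.I.length true ++ P.stk s)
  | true :: s => List.replicate P.J'.length false ++ true ::
      (List.replicate P.I.length true ++ P.stk s)

def Par.enc (P : Par) : St → St
  | St.init => St.init
  | St.st m s => St.st m (P.stk s)
  | St.fin => St.fin

theorem J'_ne {P : Par} : P.J' ≠ [] := by
  intro h
  have := P.hJJ
  rw [h, List.length_nil] at this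
  exact P.hJ (List.length_eq_zero_iff.1 this.symm)

/-- reading a word whose first letter is not readable -/
theorem run_cons_none {q : St} {l : Ltr} {z : List Ltr} (h : step q l = none) :
    run (l :: z) q = none := by
  simp [run, h]

theorem xs_ne {I : List Bool} (h : I ≠ []) : ∃ z, xs I = a :: z := by
  rcases I with _ | ⟨i, I⟩
  · exact absurd rfl h
  · exact ⟨ew i ++ b :: xs I, by simp [xs]⟩

theorem ys_ne {J : List Bool} (h : J ≠ []) : ∃ z, ys J = b :: z := by
  rcases J with _ | ⟨i, J⟩
  · exact absurd rfl h
  · exact ⟨ew i ++ c :: ys J, by simp [ys]⟩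

theorem head_u (P : Par) : ∃ z, P.u = a :: z := by
  obtain ⟨z, hz⟩ := xs_ne P.hI
  exact ⟨_, by rw [Par.u, hz]; rfl⟩
theorem head_v (P : Par) : ∃ z, P.v = b :: z := by
  obtain ⟨z, hz⟩ := ys_ne P.hJ
  exact ⟨_, by rw [Par.v, hz]; rfl⟩
theorem head_w (P : Par) : ∃ z, P.w = b :: z := by
  obtain ⟨z, hz⟩ := ys_ne (J'_ne (P := P))
  exact ⟨_, by rw [Par.w, hz]; rfl⟩
theorem head_t (P : Par) : ∃ z, P.t = a :: z := by
  obtain ⟨z, hz⟩ := xs_ne P.hI'
  exact ⟨_, by rw [Par.t, hz]; rfl⟩

theorem stk_cases (P : Par) (s : List Bool) :
    (s = [] ∧ P.stk s = []) ∨ ∃ m l, P.stk s = m :: l := by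
  rcases s with _ | ⟨m, s⟩
  · exact Or.inl ⟨rfl, rfl⟩
  · right
    have key : ∀ l₁ : List Bool, ∀ n b, ∃ m l, List.replicate n false ++ b :: l₁ = m :: l := by
      intro l₁ n b
      cases n with
      | zero => exact ⟨b, l₁, rfl⟩
      | succ n => exact ⟨false, _, rfl⟩
    cases m with
    | false => exact key _ _ _
    | true => exact key _ _ _

theorem run_u (P : Par) (s : List Bool) :
    run P.u (St.st false (P.stk s)) = some (St.st false (P.stk (false :: s))) := by
  rw [Par.u, run_append, run_xs, Option.bind_some]
  simp only [run, step, Option.bind_some]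
  rw [run_as]
  rfl

theorem run_t (P : Par) (s : List Bool) :
    run P.t (St.st false (P.stk s)) = some (St.st true (P.stk s)) := by
  rw [Par.t, run_append, run_xs, Option.bind_some]
  simp only [run, step, Option.bind_some]
  rw [run_cs]

theorem run_v_false (P : Par) (s : List Bool) :
    run P.v (St.st true (P.stk (false :: s))) = some (St.st false (P.stk (true :: s))) := by
  rw [Par.v, run_append, Par.stk, run_ys, Option.bind_some]
  simp only [run, step, Option.bind_some]
  rw [run_as]
  rfl

theorem run_v_true (P : Par) (s : List Bool) :
    run P.v (St.st true (P.stk (true :: s))) = none := by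
  rw [Par.v, run_append, Par.stk, P.hJJ, run_ys, Option.bind_some]
  rfl

theorem run_w_true (P : Par) (s : List Bool) :
    run P.w (St.st true (P.stk (true :: s))) = some (St.st true (P.stk s)) := by
  rw [Par.w, run_append, Par.stk, run_ys, Option.bind_some]
  simp only [run, step, Option.bind_some]
  rw [run_cs]

theorem run_w_false (P : Par) (s : List Bool) :
    run P.w (St.st true (P.stk (false :: s))) = none := by
  rw [Par.w, run_append, Par.stk, ← P.hJJ, run_ys, Option.bind_some]
  rfl

theorem step_true_a (s : List Bool) : step (St.st true s) a = none := by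
  rcases s with _ | ⟨m, s⟩
  · rfl
  · cases m <;> rfl

theorem step_sub (P : Par) (q : St) (l : Ltr) :
    run (P.sub l) (P.enc q) = (step q l).map P.enc := by
  obtain ⟨zu, hu⟩ := head_u P
  obtain ⟨zv, hv⟩ := head_v P
  obtain ⟨zw, hw⟩ := head_w P
  obtain ⟨zt, ht⟩ := head_t P
  cases q with
  | init =>
    cases l
    · simp only [Par.sub, Par.enc, hu, step, Option.map_none]; exact run_cons_none rfl
    · simp only [Par.sub, Par.enc, hv, step, Option.map_none]; exact run_cons_none rfl
    · simp only [Par.sub, Par.enc, hw, step, Option.map_none]; exact run_cons_none rfl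
    · simp only [Par.sub, Par.enc, ht, step, Option.map_none]; exact run_cons_none rfl
    · rfl
    · rfl
  | fin =>
    cases l
    · simp only [Par.sub, Par.enc, hu, step, Option.map_none]; exact run_cons_none rfl
    · simp only [Par.sub, Par.enc, hv, step, Option.map_none]; exact run_cons_none rfl
    · simp only [Par.sub, Par.enc, hw, step, Option.map_none]; exact run_cons_none rfl
    · simp only [Par.sub, Par.enc, ht, step, Option.map_none]; exact run_cons_none rfl
    · rfl
    · rfl
  | st m s =>
    cases m with
    | false =>
      cases l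
      · simp only [Par.sub, Par.enc, step, Option.map_some]
        exact run_u P s
      · simp only [Par.sub, Par.enc, hv, step, Option.map_none]; exact run_cons_none rfl
      · simp only [Par.sub, Par.enc, hw, step, Option.map_none]; exact run_cons_none rfl
      · simp only [Par.sub, Par.enc, step, Option.map_some]
        exact run_t P s
      · rfl
      · rfl
    | true =>
      rcases s with _ | ⟨m, s⟩
      · cases l
        · simp only [Par.sub, Par.enc, hu, step, Option.map_none]; exact run_cons_none rfl
        · simp only [Par.sub, Par.enc, hv, step, Option.map_none]; exact run_cons_none rfl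
        · simp only [Par.sub, Par.enc, hw, step, Option.map_none]; exact run_cons_none rfl
        · simp only [Par.sub, Par.enc, ht, step, Option.map_none]; exact run_cons_none rfl
        · rfl
        · rfl
      · have hy : run [y] (St.st true (P.stk (m :: s))) = none := by
          rcases stk_cases P (m :: s) with ⟨h, -⟩ | ⟨m', l', h⟩
          · exact absurd h (by simp)
          · rw [h]
            cases m' <;> rfl
        have hx : run [x] (St.st true (P.stk (m :: s))) = none := by
          rcases stk_cases P (m :: s) with ⟨h, -⟩ | ⟨m', l', h⟩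
          · exact absurd h (by simp)
          · rw [h]
            cases m' <;> rfl
        cases m with
        | false =>
          cases l
          · simp only [Par.sub, Par.enc, hu, step, Option.map_none]
            exact run_cons_none (step_true_a _)
          · simp only [Par.sub, Par.enc, step, Option.map_some]
            exact run_v_false P s
          · simp only [Par.sub, Par.enc, step, Option.map_none]
            exact run_w_false P s
          · simp only [Par.sub, Par.enc, ht, step, Option.map_none]
            exact run_cons_none (step_true_a _)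
          · exact hx
          · exact hy
        | true =>
          cases l
          · simp only [Par.sub, Par.enc, hu, step, Option.map_none]
            exact run_cons_none (step_true_a _)
          · simp only [Par.sub, Par.enc, step, Option.map_none]
            exact run_v_true P s
          · simp only [Par.sub, Par.enc, step, Option.map_some]
            exact run_w_true P s
          · simp only [Par.sub, Par.enc, ht, step, Option.map_none]
            exact run_cons_none (step_true_a _)
          · exact hx
          · exact hy

theorem run_sub (P : Par) (z : List Ltr) (q : St) :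
    run (z.flatMap P.sub) (P.enc q) = (run z q).map P.enc := by
  induction z generalizing q with
  | nil => rfl
  | cons l z ih =>
    rw [List.flatMap_cons, run_append, step_sub]
    simp only [run]
    cases step q l with
    | none => rfl
    | some q' =>
      simp only [Option.map_some, Option.bind_some]
      exact ih q'

theorem xey_sub (P : Par) (z : List Ltr) : InXEY (z.flatMap P.sub) ↔ InXEY z := by
  rw [xey_iff, xey_iff]
  have h := run_sub P z St.init
  change run (z.flatMap P.sub) St.init = _ at h
  rw [h]
  cases hr : run z St.init with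
  | none => simp
  | some q =>
    cases q <;> simp [Par.enc]

/-! ### Trees and words of `E` -/

def enc4 : Tree → List (Fin 4)
  | Tree.leaf => [3]
  | Tree.node l r => 0 :: enc4 l ++ 1 :: enc4 r ++ [2]

def toLtr : Fin 4 → Ltr := ![a, b, c, d]

theorem toLtr_injective : Function.Injective toLtr := by
  intro i j h
  fin_cases i <;> fin_cases j <;> simp [toLtr] at h ⊢

theorem enc4_unique (T T' : Tree) (r r' : List (Fin 4)) (h : enc4 T ++ r = enc4 T' ++ r') :
    T = T' ∧ r = r' := by
  induction T generalizing T' r r' with
  | leaf =>
    cases T' with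
    | leaf => exact ⟨rfl, by simpa [enc4] using h⟩
    | node l' r'' => simp [enc4] at h
  | node l₁ r₁ ihl ihr =>
    cases T' with
    | leaf => simp [enc4] at h
    | node l₂ r₂ =>
      simp only [enc4, List.cons_append, List.append_assoc, List.cons.injEq, true_and] at h
      obtain ⟨h1, h2⟩ := ihl _ _ _ h
      simp only [List.cons.injEq, true_and] at h2
      obtain ⟨h3, h4⟩ := ihr _ _ _ h2
      simp only [List.nil_append, List.cons.injEq, true_and] at h4
      exact ⟨by rw [h1, h3], h4⟩

theorem enc4_injective : Function.Injective enc4 := by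
  intro T T' h
  exact (enc4_unique T T' [] [] (by rw [h])).1

theorem inE_iff (e : List Ltr) : InE e ↔ ∃ T : Tree, e = (enc4 T).map toLtr := by
  constructor
  · intro h
    induction h with
    | leaf => exact ⟨Tree.leaf, rfl⟩
    | node u v _ _ ihu ihv =>
      obtain ⟨l, rfl⟩ := ihu
      obtain ⟨r, rfl⟩ := ihv
      refine ⟨Tree.node l r, ?_⟩
      simp [enc4, toLtr]
  · rintro ⟨T, rfl⟩
    induction T with
    | leaf => exact InE.leaf
    | node l r ihl ihr =>
      have := InE.node _ _ ihl ihr
      simpa [enc4, toLtr] using this

variable {X : Type}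

def Words.cw (W : Words X) : Fin 4 → List X := ![W.α, W.β, W.γ, W.δ]

theorem hom_map (W : Words X) (z : List (Fin 4)) : W.hom (z.map toLtr) = z.flatMap W.cw := by
  unfold Words.hom
  rw [List.flatMap_map]
  congr 1
  funext i
  fin_cases i <;> rfl

theorem yield_eq (W : Words X) (T : Tree) : W.yield T = (enc4 T).flatMap W.cw := by
  induction T with
  | leaf => simp [Words.yield, enc4, Words.cw]
  | node l r ihl ihr =>
    simp only [Words.yield, enc4, ihl, ihr, List.cons_append, List.append_assoc,
      List.flatMap_cons, List.flatMap_append, List.flatMap_nil]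
    simp [Words.cw]

theorem hom_append (W : Words X) (z z' : List Ltr) : W.hom (z ++ z') = W.hom z ++ W.hom z' := by
  simp [Words.hom]

theorem hom_xey (W : Words X) (e : List Ltr) :
    W.hom (x :: e ++ [y]) = W.h1 ++ W.hom e ++ W.h2 := by
  simp [Words.hom, Words.img]

/-- the substituted words -/
def Par.W' (P : Par) (W : Words X) : Words X :=
  { h1 := W.h1
    h2 := W.h2
    α := W.hom P.u
    β := W.hom P.v
    γ := W.hom P.w
    δ := W.hom P.t }

theorem hom_sub (P : Par) (W : Words X) (z : List Ltr) :
    (P.W' W).hom z = W.hom (z.flatMap P.sub) := by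
  unfold Words.hom
  rw [List.flatMap_assoc]
  congr 1
  funext l
  cases l
  · rfl
  · rfl
  · rfl
  · rfl
  · simp [Par.W', Words.img, Par.sub]
  · simp [Par.W', Words.img, Par.sub]

/-! ### Uniform prefixes -/

theorem flatMap_len (g : Bool → List X) (n : ℕ) (hg : ∀ i, (g i).length = n) (I : List Bool) :
    (I.flatMap g).length = I.length * n := by
  induction I with
  | nil => simp
  | cons i I ih =>
    rw [List.flatMap_cons, List.length_append, ih, hg, List.length_cons]
    ring

theorem flatMap_inj (g : Bool → List X) (n : ℕ) (hg : ∀ i, (g i).length = n)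
    (hne : g true ≠ g false) : ∀ I J : List Bool, I.length = J.length →
      I.flatMap g = J.flatMap g → I = J := by
  intro I
  induction I with
  | nil =>
    intro J hl _
    exact (List.length_eq_zero_iff.1 hl.symm).symm
  | cons i I ih =>
    intro J hl h
    rcases J with _ | ⟨j, J⟩
    · simp at hl
    · rw [List.flatMap_cons, List.flatMap_cons] at h
      obtain ⟨h1, h2⟩ := List.append_inj h (by rw [hg, hg])
      have hij : i = j := by
        cases i <;> cases j
        · rfl
        · exact absurd h1.symm hne
        · exact absurd h1 hne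
        · rfl
      rw [hij, ih J (by simpa using hl) h2]

/-- uniform distinct prefixes give a code -/
theorem code_of_prefix (f : Fin 4 → List X) (ℓ : ℕ) (hℓ : 0 < ℓ) (pr : Fin 4 → List X)
    (hlen : ∀ i, (pr i).length = ℓ) (hpr : ∀ i, ∃ r, f i = pr i ++ r)
    (hinj : Function.Injective pr) :
    ∀ w₁ w₂ : List (Fin 4), w₁.flatMap f = w₂.flatMap f → w₁ = w₂ := by
  have hne : ∀ i z, f i ++ z ≠ [] := by
    intro i z h
    obtain ⟨r, hr⟩ := hpr i
    have h1 := congrArg List.length h
    rw [hr] at h1
    simp only [List.length_append, List.length_nil, hlen] at h1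
    omega
  intro w₁
  induction w₁ with
  | nil =>
    intro w₂ h
    rcases w₂ with _ | ⟨j, w₂⟩
    · rfl
    · rw [List.flatMap_nil, List.flatMap_cons] at h
      exact absurd h.symm (hne _ _)
  | cons i w₁ ih =>
    intro w₂ h
    rcases w₂ with _ | ⟨j, w₂⟩
    · rw [List.flatMap_nil, List.flatMap_cons] at h
      exact absurd h (hne _ _)
    · rw [List.flatMap_cons, List.flatMap_cons] at h
      have hij : i = j := by
        apply hinj
        obtain ⟨r, hr⟩ := hpr i
        obtain ⟨r', hr'⟩ := hpr j
        rw [hr, hr', List.append_assoc, List.append_assoc] at h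
        exact (List.append_inj h (by rw [hlen, hlen])).1
      subst hij
      rw [ih w₂ (List.append_cancel_left h)]

/-- lengths of images depend only on letter counts -/
theorem len_ew (W : Words X) : (W.hom (ew true)).length = (W.hom (ew false)).length := by
  simp only [Words.hom, ew, List.flatMap_cons, List.flatMap_nil, List.length_append, Words.img,
    List.length_nil]
  ring

theorem hom_xs (W : Words X) (I : List Bool) :
    W.hom (xs I) = I.flatMap (fun i => W.α ++ W.hom (ew i) ++ W.β) := by
  unfold Words.hom xs
  rw [List.flatMap_assoc]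
  congr 1
  funext i
  simp [Words.img]

theorem hom_ys (W : Words X) (I : List Bool) :
    W.hom (ys I) = I.flatMap (fun i => W.β ++ W.hom (ew i) ++ W.γ) := by
  unfold Words.hom ys
  rw [List.flatMap_assoc]
  congr 1
  funext i
  simp [Words.img]

theorem exists_par (W : Words X) (hne : W.hom (ew true) ≠ W.hom (ew false)) :
    ∃ P : Par, (P.W' W).IsCode := by
  classical
  obtain ⟨p, hp⟩ : ∃ p, p = (W.hom (ew true)).length := ⟨_, rfl⟩
  have hlen : ∀ i, (W.hom (ew i)).length = p := by
    intro i
    cases i
    · rw [hp, len_ew]
    · rw [hp]
  have hp2 : 2 ≤ p := by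
    have h1 : p = 2 * W.α.length + 2 * W.β.length + 2 * W.γ.length + 3 * W.δ.length := by
      rw [hp]
      simp only [Words.hom, ew, List.flatMap_cons, List.flatMap_nil, List.length_append,
        Words.img, List.length_nil]
      ring
    have h2 : p ≠ 0 := by
      intro h0
      apply hne
      have e1 : W.hom (ew true) = [] := List.length_eq_zero_iff.1 (by rw [hlen, h0])
      have e2 : W.hom (ew false) = [] := List.length_eq_zero_iff.1 (by rw [hlen, h0])
      rw [e1, e2]
    omega
  let gx : Bool → List X := fun i => W.α ++ W.hom (ew i) ++ W.β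
  let gy : Bool → List X := fun i => W.β ++ W.hom (ew i) ++ W.γ
  obtain ⟨m, hm⟩ : ∃ m, m = W.α.length + p + W.β.length := ⟨_, rfl⟩
  obtain ⟨k, hk⟩ : ∃ k, k = W.β.length + p + W.γ.length := ⟨_, rfl⟩
  have hgx : ∀ i, (gx i).length = m := by
    intro i
    simp only [gx, List.length_append, hlen, hm]
  have hgy : ∀ i, (gy i).length = k := by
    intro i
    simp only [gy, List.length_append, hlen, hk]
  have hgxne : gx true ≠ gx false := by
    intro h
    apply hne
    simp only [gx, List.append_assoc] at h
    have h1 := List.append_cancel_left h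
    exact (List.append_inj h1 (by rw [hlen, hlen])).1
  have hgyne : gy true ≠ gy false := by
    intro h
    apply hne
    simp only [gy, List.append_assoc] at h
    have h1 := List.append_cancel_left h
    exact (List.append_inj h1 (by rw [hlen, hlen])).1
  obtain ⟨k', rfl⟩ : ∃ k', k = k' + 2 := ⟨k - 2, by omega⟩
  obtain ⟨m', rfl⟩ : ∃ m', m = m' + 2 := ⟨m - 2, by omega⟩
  -- sequences for β, γ
  obtain ⟨J, hJ⟩ : ∃ J : List Bool, J = true :: List.replicate (m' + 1) true := ⟨_, rfl⟩
  obtain ⟨J', hJ'⟩ : ∃ J' : List Bool, J' = false :: List.replicate (m' + 1) true := ⟨_, rfl⟩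
  have hJl : J.length = m' + 2 := by rw [hJ]; simp
  have hJ'l : J'.length = m' + 2 := by rw [hJ']; simp
  have hJJ' : J ≠ J' := by
    rw [hJ, hJ']
    simp
  -- candidates for α, δ
  let cand : Bool × Bool → List Bool := fun b => b.1 :: b.2 :: List.replicate k' true
  have hcand : Function.Injective (fun b => (cand b).flatMap gx) := by
    intro b b' h
    have := flatMap_inj gx _ hgx hgxne (cand b) (cand b') (by simp [cand]) h
    simp only [cand, List.cons.injEq, and_true] at this
    exact Prod.ext this.1 this.2
  let Sset : Finset (List X) := Finset.univ.image (fun b : Bool × Bool => (cand b).flatMap gx)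
  have hS : Sset.card = 4 := by
    rw [Finset.card_image_of_injective _ hcand]
    rfl
  have hS2 : 2 ≤ (Sset \ {J.flatMap gy, J'.flatMap gy}).card := by
    have h1 := Finset.le_card_sdiff ({J.flatMap gy, J'.flatMap gy} : Finset (List X)) Sset
    have h2 : ({J.flatMap gy, J'.flatMap gy} : Finset (List X)).card ≤ 2 := Finset.card_le_two
    omega
  obtain ⟨p₁, hp₁, p₂, hp₂, hp12⟩ := Finset.one_lt_card.1 hS2
  simp only [Finset.mem_sdiff, Sset, Finset.mem_image, Finset.mem_univ, true_and,
    Finset.mem_insert, Finset.mem_singleton, not_or] at hp₁ hp₂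
  obtain ⟨⟨b₁, rfl⟩, h11, h12⟩ := hp₁
  obtain ⟨⟨b₂, rfl⟩, h21, h22⟩ := hp₂
  let P : Par :=
    { I := cand b₁
      I' := cand b₂
      J := J
      J' := J'
      hI := by simp [cand]
      hI' := by simp [cand]
      hJ := by rw [hJ]; simp
      hJJ := by rw [hJl, hJ'l] }
  refine ⟨P, ?_⟩
  have hyy : J.flatMap gy ≠ J'.flatMap gy := by
    intro h
    exact hJJ' (flatMap_inj gy _ hgy hgyne J J' (by rw [hJl, hJ'l]) h)
  refine code_of_prefix _ ((k' + 2) * (m' + 2)) (by positivity)
    ![(cand b₁).flatMap gx, J.flatMap gy, J'.flatMap gy, (cand b₂).flatMap gx] ?_ ?_ ?_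
  · intro i
    fin_cases i
    · change ((cand b₁).flatMap gx).length = _
      rw [flatMap_len gx _ hgx]
      simp [cand]
    · change (J.flatMap gy).length = _
      rw [flatMap_len gy _ hgy, hJl]
      ring
    · change (J'.flatMap gy).length = _
      rw [flatMap_len gy _ hgy, hJ'l]
      ring
    · change ((cand b₂).flatMap gx).length = _
      rw [flatMap_len gx _ hgx]
      simp [cand]
  · intro i
    fin_cases i
    · change ∃ r, W.hom P.u = (cand b₁).flatMap gx ++ r
      exact ⟨_, by rw [Par.u, hom_append, hom_xs]⟩
    · change ∃ r, W.hom P.v = J.flatMap gy ++ r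
      exact ⟨_, by rw [Par.v, hom_append, hom_ys]⟩
    · change ∃ r, W.hom P.w = J'.flatMap gy ++ r
      exact ⟨_, by rw [Par.w, hom_append, hom_ys]⟩
    · change ∃ r, W.hom P.t = (cand b₂).flatMap gx ++ r
      exact ⟨_, by rw [Par.t, hom_append, hom_xs]⟩
  · have d1 := h11
    have d2 := h12
    have d3 := h21
    have d4 := h22
    intro i j hij
    fin_cases i <;> fin_cases j <;>
      simp only [Fin.zero_eta, Fin.mk_one, Fin.reduceFinMk, Matrix.cons_val_zero,
        Matrix.cons_val_one, Matrix.cons_val] at hij ⊢ <;>
      first
        | rfl
        | exact absurd hij d1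
        | exact absurd hij d2
        | exact absurd hij.symm d3
        | exact absurd hij.symm d4
        | exact absurd hij hp12
        | exact absurd hij.symm d1
        | exact absurd hij.symm d2
        | exact absurd hij d3
        | exact absurd hij d4
        | exact absurd hij.symm hp12
        | exact absurd hij hyy
        | exact absurd hij.symm hyy

/-! ### The refinement -/

theorem weak_refine {L : Language X} {W : Words X} {R : Language X} (h : IsWeakData L W R) :
    ∃ (P : Par) (R' : Language X), (P.W' W).IsCode ∧ IsWeakData L (P.W' W) R' := by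
  obtain ⟨hR, hi, hii, hiii⟩ := h
  have hne : W.hom (ew true) ≠ W.hom (ew false) := by
    intro heq
    obtain ⟨T, hT⟩ := (inE_iff _).1 (ew_E true)
    obtain ⟨T', hT'⟩ := (inE_iff _).1 (ew_E false)
    have h1 : W.yield T = W.yield T' := by
      rw [yield_eq, yield_eq, ← hom_map, ← hom_map, ← hT, ← hT', heq]
    have h2 : T = T' := hi T T' (by rw [h1])
    rw [h2, ← hT'] at hT
    simp [ew] at hT
  obtain ⟨P, hcode⟩ := exists_par W hne
  obtain ⟨K, hK⟩ : ∃ K : Language X, ∀ w, w ∈ K ↔
      ∃ z : List (Fin 4), w = W.h1 ++ z.flatMap (P.W' W).cw ++ W.h2 :=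
    ⟨{w | ∃ z : List (Fin 4), w = W.h1 ++ z.flatMap (P.W' W).cw ++ W.h2}, fun w => Iff.rfl⟩
  have hKreg := regular_block (P.W' W).cw W.h1 W.h2 K hK
  have htree : ∀ T : Tree, (P.W' W).h1 ++ (P.W' W).yield T ++ (P.W' W).h2 ∈ L ∧
      (P.W' W).h1 ++ (P.W' W).yield T ++ (P.W' W).h2 ∈ R ⊓ K := by
    intro T
    have h1 : InXEY (x :: (enc4 T).map toLtr ++ [y]) := ⟨_, (inE_iff _).2 ⟨T, rfl⟩, rfl⟩
    have h2 := (hiii ((x :: (enc4 T).map toLtr ++ [y]).flatMap P.sub)).2 ((xey_sub P _).2 h1)
    rw [← hom_sub, hom_xey, hom_map, ← yield_eq] at h2
    refine ⟨h2.1, h2.2, (hK _).2 ⟨enc4 T, ?_⟩⟩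
    rw [yield_eq]
    rfl
  have hpre : ∀ z : List Ltr, ((P.W' W).hom z ∈ L ∧ (P.W' W).hom z ∈ R) ↔ InXEY z := by
    intro z
    rw [hom_sub, hiii, xey_sub]
  refine ⟨P, R ⊓ K, hcode, hR.inf hKreg, ?_, ?_, ?_⟩
  · intro T T' heq
    have h1 := List.append_cancel_right heq
    have h2 := List.append_cancel_left h1
    rw [yield_eq, yield_eq] at h2
    exact enc4_injective (hcode _ _ h2)
  · intro w
    constructor
    · rintro ⟨hwL, hwR, hwK⟩
      obtain ⟨z, hz⟩ := (hK w).1 hwK
      have h1 : w = (P.W' W).hom (x :: z.map toLtr ++ [y]) := by
        rw [hom_xey, hom_map, hz]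
        rfl
      rw [h1] at hwL hwR
      obtain ⟨e, he, heq⟩ := (hpre _).1 ⟨hwL, hwR⟩
      obtain ⟨T, rfl⟩ := (inE_iff _).1 he
      refine ⟨T, ?_⟩
      rw [h1, heq, hom_xey, hom_map, yield_eq]
    · rintro ⟨T, rfl⟩
      exact htree T
  · intro z
    constructor
    · rintro ⟨h1, h2⟩
      exact (hpre z).1 ⟨h1, h2.1⟩
    · rintro ⟨e, he, rfl⟩
      obtain ⟨T, rfl⟩ := (inE_iff _).1 he
      rw [hom_xey, hom_map, ← yield_eq]
      exact htree T

theorem refine {L : Language X} {W : Words X} {R : Language X} (h : IsData L W R) :
    ∃ (W' : Words X) (R' : Language X), IsData L W' R' ∧ W'.IsCode := by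
  obtain ⟨hR, hi, hii, hiii, hfull⟩ := h
  obtain ⟨P, R', hcode, hR', hi', hii', hiii'⟩ := weak_refine ⟨hR, hi, hii, hiii⟩
  refine ⟨P.W' W, R', ⟨hR', hi', hii', hiii', ?_⟩, hcode⟩
  intro z
  rw [hom_sub, hfull, xey_sub]

end Pool.Agent.Helper22.Beauquier
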