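import Mathlib

set_option autoImplicit false

namespace Pool.Agent.Helper22.CF

open ContextFreeGrammar

variable {T : Type}

/-- Size-indexed derivations of terminal words from lists of symbols. -/
inductive Der (g : ContextFreeGrammar T) : List (Symbol T g.NT) → List T → ℕ → Prop
  | nil : Der g [] [] 0
  | term (t : T) (s : List (Symbol T g.NT)) (w : List T) (n : ℕ) (h : Der g s w n) :
      Der g (Symbol.terminal t :: s) (t :: w) n
  | nonterm (r : ContextFreeRule T g.NT) (hr : r ∈ g.rules) (s : List (Symbol T g.NT))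
      (w₁ w₂ : List T) (n₁ n₂ : ℕ) (h₁ : Der g r.output w₁ n₁) (h₂ : Der g s w₂ n₂) :
      Der g (Symbol.nonterminal r.input :: s) (w₁ ++ w₂) (n₁ + n₂ + 1)

/-- A word is generated from a list of symbols. -/
def Gen (g : ContextFreeGrammar T) (s : List (Symbol T g.NT)) (w : List T) : Prop :=
  ∃ n, Der g s w n

variable {g : ContextFreeGrammar T}

theorem Der.append {s₁ s₂ : List (Symbol T g.NT)} {w₁ w₂ : List T} {n₁ n₂ : ℕ}
    (h₁ : Der g s₁ w₁ n₁) (h₂ : Der g s₂ w₂ n₂) :
    Der g (s₁ ++ s₂) (w₁ ++ w₂) (n₁ + n₂) := by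
  induction h₁ with
  | nil => simpa using h₂
  | term t s w n h ih => simpa using Der.term t _ _ _ ih
  | nonterm r hr s v₁ v₂ m₁ m₂ h1 h2 ih1 ih2 =>
    have := Der.nonterm r hr (s ++ s₂) v₁ (v₂ ++ w₂) m₁ (m₂ + n₂) h1 ih2
    have e : m₁ + m₂ + 1 + n₂ = m₁ + (m₂ + n₂) + 1 := by omega
    rw [e]
    simpa using this

theorem Der.split {s₁ s₂ : List (Symbol T g.NT)} {w : List T} {n : ℕ}
    (h : Der g (s₁ ++ s₂) w n) :
    ∃ w₁ w₂ n₁ n₂, w = w₁ ++ w₂ ∧ n = n₁ + n₂ ∧ Der g s₁ w₁ n₁ ∧ Der g s₂ w₂ n₂ := by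
  induction s₁ generalizing w n with
  | nil => exact ⟨[], w, 0, n, by simp, by simp, Der.nil, h⟩
  | cons x s ih =>
    cases h with
    | term t _ w' _ h' =>
      obtain ⟨w₁, w₂, n₁, n₂, e1, e2, h1, h2⟩ := ih h'
      exact ⟨t :: w₁, w₂, n₁, n₂, by simp [e1], e2, Der.term _ _ _ _ h1, h2⟩
    | nonterm r hr _ v₁ v₂ m₁ m₂ h1 h2 =>
      obtain ⟨w₁, w₂, n₁, n₂, e1, e2, h3, h4⟩ := ih h2
      refine ⟨v₁ ++ w₁, w₂, m₁ + n₁ + 1, n₂, by simp [e1], by omega, Der.nonterm r hr _ _ _ _ _ h1 h3, h4⟩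

theorem Der.derives {s : List (Symbol T g.NT)} {w : List T} {n : ℕ}
    (h : Der g s w n) : g.Derives s (w.map Symbol.terminal) := by
  induction h with
  | nil => exact Derives.refl _
  | term t s w n h ih => simpa using ih.append_left [Symbol.terminal t]
  | nonterm r hr s v₁ v₂ m₁ m₂ h1 h2 ih1 ih2 =>
    have a1 : g.Produces (Symbol.nonterminal r.input :: s) (r.output ++ s) :=
      ⟨r, hr, ContextFreeRule.Rewrites.head s⟩
    have a2 : g.Derives (r.output ++ s) (v₁.map Symbol.terminal ++ s) := ih1.append_right s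
    have a3 : g.Derives (v₁.map Symbol.terminal ++ s)
        (v₁.map Symbol.terminal ++ v₂.map Symbol.terminal) := ih2.append_left _
    have := (a1.trans_derives a2).trans a3
    simpa using this

theorem der_terminal (w : List T) : Der g (w.map Symbol.terminal) w 0 := by
  induction w with
  | nil => exact Der.nil
  | cons t w ih => exact Der.term t _ _ _ ih

theorem Der.single {r : ContextFreeRule T g.NT} (hr : r ∈ g.rules) {w : List T} {n : ℕ}
    (h : Der g r.output w n) : Der g [Symbol.nonterminal r.input] w (n + 1) := by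
  simpa using Der.nonterm r hr [] w [] n 0 h Der.nil

theorem gen_of_derives {s : List (Symbol T g.NT)} {w : List T}
    (h : g.Derives s (w.map Symbol.terminal)) : Gen g s w := by
  induction h using Relation.ReflTransGen.head_induction_on with
  | refl => exact ⟨0, der_terminal w⟩
  | head h1 h2 ih =>
    obtain ⟨r, hr, hrw⟩ := h1
    obtain ⟨p, q, rfl, rfl⟩ := hrw.exists_parts
    obtain ⟨n, hn⟩ := ih
    obtain ⟨w₁, w₂, n₁, n₂, e1, e2, h3, h4⟩ := Der.split hn
    obtain ⟨w₃, w₄, n₃, n₄, e3, e4, h5, h6⟩ := Der.split h3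
    rw [e1, e3]
    exact ⟨_, (h5.append (Der.single hr h6)).append h4⟩

theorem gen_iff_derives {s : List (Symbol T g.NT)} {w : List T} :
    Gen g s w ↔ g.Derives s (w.map Symbol.terminal) :=
  ⟨fun ⟨_, h⟩ => h.derives, gen_of_derives⟩

theorem mem_language_iff_gen {w : List T} :
    w ∈ g.language ↔ Gen g [Symbol.nonterminal g.initial] w := by
  rw [gen_iff_derives]
  exact ContextFreeGrammar.mem_language_iff g w

theorem Gen.append {s₁ s₂ : List (Symbol T g.NT)} {w₁ w₂ : List T}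
    (h₁ : Gen g s₁ w₁) (h₂ : Gen g s₂ w₂) : Gen g (s₁ ++ s₂) (w₁ ++ w₂) := by
  obtain ⟨n₁, h₁⟩ := h₁
  obtain ⟨n₂, h₂⟩ := h₂
  exact ⟨_, h₁.append h₂⟩

theorem Gen.single {r : ContextFreeRule T g.NT} (hr : r ∈ g.rules) {w : List T}
    (h : Gen g r.output w) : Gen g [Symbol.nonterminal r.input] w := by
  obtain ⟨n, h⟩ := h
  exact ⟨_, h.single hr⟩

/-- Inversion for a single nonterminal. -/
theorem Der.inv {A : g.NT} {w : List T} {n : ℕ} (h : Der g [Symbol.nonterminal A] w n) :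
    ∃ r ∈ g.rules, r.input = A ∧ ∃ m, n = m + 1 ∧ Der g r.output w m := by
  cases h with
  | nonterm r hr _ v₁ v₂ m₁ m₂ h1 h2 =>
    cases h2
    exact ⟨r, hr, rfl, m₁, by simp, by simpa using h1⟩

theorem Der.inv_terminal {t : T} {w : List T} {n : ℕ} (h : Der g [Symbol.terminal t] w n) :
    w = [t] := by
  cases h with
  | term _ _ w' _ h' => cases h'; rfl

theorem der_terminal_inv {u w : List T} {n : ℕ}
    (h : Der g (u.map Symbol.terminal) w n) : w = u := by
  induction u generalizing w n with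
  | nil => cases h; rfl
  | cons t u ih =>
    cases h with
    | term _ _ w' _ h' => rw [ih h']

theorem Der.inv_nil {w : List T} {n : ℕ} (h : Der g [] w n) : w = [] := by
  cases h; rfl

/-! ### Closure properties -/

/-- Map nonterminals of a symbol. -/
def mapSym {N N' : Type} (f : N → N') : Symbol T N → Symbol T N'
  | Symbol.terminal t => Symbol.terminal t
  | Symbol.nonterminal A => Symbol.nonterminal (f A)

/-- Map nonterminals of a rule. -/
def mapRule {N N' : Type} (f : N → N') (r : ContextFreeRule T N) : ContextFreeRule T N' :=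
  ⟨f r.input, r.output.map (mapSym f)⟩

theorem der_map_of_der {G : ContextFreeGrammar T} (f : g.NT → G.NT)
    (hf : ∀ r ∈ g.rules, mapRule f r ∈ G.rules)
    {s : List (Symbol T g.NT)} {w : List T} {n : ℕ} (h : Der g s w n) :
    Der G (s.map (mapSym f)) w n := by
  induction h with
  | nil => exact Der.nil
  | term t s w n h ih => exact Der.term t _ _ _ ih
  | nonterm r hr s v₁ v₂ m₁ m₂ h1 h2 ih1 ih2 =>
    exact Der.nonterm (mapRule f r) (hf r hr) _ _ _ _ _ ih1 ih2

theorem der_of_der_map {G : ContextFreeGrammar T} (f : g.NT → G.NT)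
    (hinj : Function.Injective f)
    (hf : ∀ r ∈ G.rules, ∀ A, r.input = f A → ∃ r' ∈ g.rules, r = mapRule f r')
    {s : List (Symbol T G.NT)} {w : List T} {n : ℕ} (h : Der G s w n) :
    ∀ s' : List (Symbol T g.NT), s = s'.map (mapSym f) → Der g s' w n := by
  induction h with
  | nil =>
    intro s' hs'
    have : s' = [] := by simpa using hs'.symm
    subst this
    exact Der.nil
  | term t s w n h ih =>
    intro s' hs'
    cases s' with
    | nil => simp at hs'
    | cons x s'' =>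
      cases x with
      | terminal t' =>
        simp only [List.map_cons, mapSym, List.cons.injEq, Symbol.terminal.injEq] at hs'
        rw [hs'.1]
        exact Der.term _ _ _ _ (ih _ hs'.2)
      | nonterminal A => simp [mapSym] at hs'
  | nonterm r hr s v₁ v₂ m₁ m₂ h1 h2 ih1 ih2 =>
    intro s' hs'
    cases s' with
    | nil => simp at hs'
    | cons x s'' =>
      cases x with
      | terminal t' => simp [mapSym] at hs'
      | nonterminal A =>
        simp only [List.map_cons, mapSym, List.cons.injEq, Symbol.nonterminal.injEq] at hs'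
        obtain ⟨r', hr', rfl⟩ := hf r hr A hs'.1
        have hA : r'.input = A := hinj hs'.1
        rw [← hA]
        exact Der.nonterm r' hr' _ _ _ _ _ (ih1 _ rfl) (ih2 _ hs'.2)

/-- A set of words is generated by a context-free grammar. -/
def IsCF (K : Set (List T)) : Prop :=
  ∃ g : ContextFreeGrammar T, ∀ w, Gen g [Symbol.nonterminal g.initial] w ↔ w ∈ K

/-- The combination of two grammars with a fresh initial symbol and given right-hand sides. -/
noncomputable def comb (g₁ g₂ : ContextFreeGrammar T)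
    (R : List (List (Symbol T (Option (g₁.NT ⊕ g₂.NT))))) : ContextFreeGrammar T := by
  classical
  exact
  { NT := Option (g₁.NT ⊕ g₂.NT)
    initial := none
    rules := ((R.map (fun o => (⟨none, o⟩ : ContextFreeRule T (Option (g₁.NT ⊕ g₂.NT))))).toFinset
      ∪ g₁.rules.image (mapRule (fun A => some (Sum.inl A))))
      ∪ g₂.rules.image (mapRule (fun A => some (Sum.inr A))) }

section comb

variable {g₁ g₂ : ContextFreeGrammar T} {R : List (List (Symbol T (Option (g₁.NT ⊕ g₂.NT))))}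

theorem mem_comb_rules (r : ContextFreeRule T (Option (g₁.NT ⊕ g₂.NT))) :
    r ∈ (comb g₁ g₂ R).rules ↔
      (∃ o ∈ R, r = ⟨none, o⟩) ∨ (∃ r' ∈ g₁.rules, r = mapRule (fun A => some (Sum.inl A)) r') ∨
        (∃ r' ∈ g₂.rules, r = mapRule (fun A => some (Sum.inr A)) r') := by
  classical
  unfold comb
  simp only [Finset.mem_union, List.mem_toFinset, List.mem_map, Finset.mem_image]
  constructor
  · rintro ((⟨o, ho, rfl⟩ | ⟨r', hr', rfl⟩) | ⟨r', hr', rfl⟩)
    · exact Or.inl ⟨o, ho, rfl⟩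
    · exact Or.inr (Or.inl ⟨r', hr', rfl⟩)
    · exact Or.inr (Or.inr ⟨r', hr', rfl⟩)
  · rintro (⟨o, ho, rfl⟩ | ⟨r', hr', rfl⟩ | ⟨r', hr', rfl⟩)
    · exact Or.inl (Or.inl ⟨o, ho, rfl⟩)
    · exact Or.inl (Or.inr ⟨r', hr', rfl⟩)
    · exact Or.inr ⟨r', hr', rfl⟩

theorem comb_left (A : g₁.NT) (w : List T) :
    Gen (comb g₁ g₂ R) [Symbol.nonterminal (some (Sum.inl A))] w ↔
      Gen g₁ [Symbol.nonterminal A] w := by
  constructor
  · rintro ⟨n, h⟩
    refine ⟨n, der_of_der_map (G := comb g₁ g₂ R) (fun A => some (Sum.inl A)) ?_ ?_ h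
      [Symbol.nonterminal A] rfl⟩
    · intro x y hxy
      exact Sum.inl.inj (Option.some.inj hxy)
    · intro r hr B hB
      rcases (mem_comb_rules r).1 hr with ⟨o, ho, rfl⟩ | ⟨r', hr', rfl⟩ | ⟨r', hr', rfl⟩
      · cases (hB : (none : Option (g₁.NT ⊕ g₂.NT)) = some (Sum.inl B))
      · exact ⟨r', hr', rfl⟩
      · cases (Option.some.inj (hB : (some (Sum.inr r'.input) : Option (g₁.NT ⊕ g₂.NT)) =
          some (Sum.inl B)))
  · rintro ⟨n, h⟩
    refine ⟨n, der_map_of_der (G := comb g₁ g₂ R) (fun A => some (Sum.inl A)) ?_ h⟩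
    intro r hr
    exact (mem_comb_rules _).2 (Or.inr (Or.inl ⟨r, hr, rfl⟩))

theorem comb_right (A : g₂.NT) (w : List T) :
    Gen (comb g₁ g₂ R) [Symbol.nonterminal (some (Sum.inr A))] w ↔
      Gen g₂ [Symbol.nonterminal A] w := by
  constructor
  · rintro ⟨n, h⟩
    refine ⟨n, der_of_der_map (G := comb g₁ g₂ R) (fun A => some (Sum.inr A)) ?_ ?_ h
      [Symbol.nonterminal A] rfl⟩
    · intro x y hxy
      exact Sum.inr.inj (Option.some.inj hxy)
    · intro r hr B hB
      rcases (mem_comb_rules r).1 hr with ⟨o, ho, rfl⟩ | ⟨r', hr', rfl⟩ | ⟨r', hr', rfl⟩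
      · cases (hB : (none : Option (g₁.NT ⊕ g₂.NT)) = some (Sum.inr B))
      · cases (Option.some.inj (hB : (some (Sum.inl r'.input) : Option (g₁.NT ⊕ g₂.NT)) =
          some (Sum.inr B)))
      · exact ⟨r', hr', rfl⟩
  · rintro ⟨n, h⟩
    refine ⟨n, der_map_of_der (G := comb g₁ g₂ R) (fun A => some (Sum.inr A)) ?_ h⟩
    intro r hr
    exact (mem_comb_rules _).2 (Or.inr (Or.inr ⟨r, hr, rfl⟩))

theorem comb_none_inv {w : List T} {n : ℕ}
    (h : Der (comb g₁ g₂ R) [Symbol.nonterminal (none : Option (g₁.NT ⊕ g₂.NT))] w n) :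
    ∃ o ∈ R, ∃ m, n = m + 1 ∧ Der (comb g₁ g₂ R) o w m := by
  obtain ⟨r, hr, hi, m, hm, h'⟩ := Der.inv h
  rcases (mem_comb_rules r).1 hr with ⟨o, ho, rfl⟩ | ⟨r', hr', rfl⟩ | ⟨r', hr', rfl⟩
  · exact ⟨o, ho, m, hm, h'⟩
  · simp [mapRule] at hi
  · simp [mapRule] at hi

theorem comb_none {w : List T} {o : List (Symbol T (Option (g₁.NT ⊕ g₂.NT)))} (ho : o ∈ R)
    (h : Gen (comb g₁ g₂ R) o w) :
    Gen (comb g₁ g₂ R) [Symbol.nonterminal (none : Option (g₁.NT ⊕ g₂.NT))] w :=
  Gen.single (g := comb g₁ g₂ R) (r := ⟨none, o⟩) ((mem_comb_rules _).2 (Or.inl ⟨o, ho, rfl⟩)) h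

end comb

theorem IsCF.union {K₁ K₂ : Set (List T)} (h₁ : IsCF K₁) (h₂ : IsCF K₂) : IsCF (K₁ ∪ K₂) := by
  obtain ⟨g₁, h₁⟩ := h₁
  obtain ⟨g₂, h₂⟩ := h₂
  refine ⟨comb g₁ g₂ [[Symbol.nonterminal (some (Sum.inl g₁.initial))],
    [Symbol.nonterminal (some (Sum.inr g₂.initial))]], fun w => ?_⟩
  constructor
  · rintro ⟨n, h⟩
    obtain ⟨o, ho, m, -, h'⟩ := comb_none_inv h
    simp only [List.mem_cons, List.not_mem_nil, or_false] at ho
    rcases ho with rfl | rfl
    · left; exact (h₁ w).1 ((comb_left _ _).1 ⟨m, h'⟩)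
    · right; exact (h₂ w).1 ((comb_right _ _).1 ⟨m, h'⟩)
  · rintro (h | h)
    · exact comb_none (List.mem_cons_self) ((comb_left _ _).2 ((h₁ w).2 h))
    · exact comb_none (List.mem_cons_of_mem _ (List.mem_singleton.2 rfl))
        ((comb_right _ _).2 ((h₂ w).2 h))

theorem IsCF.concat {K₁ K₂ : Set (List T)} (h₁ : IsCF K₁) (h₂ : IsCF K₂) :
    IsCF {w | ∃ u ∈ K₁, ∃ v ∈ K₂, w = u ++ v} := by
  obtain ⟨g₁, h₁⟩ := h₁
  obtain ⟨g₂, h₂⟩ := h₂
  refine ⟨comb g₁ g₂ [[Symbol.nonterminal (some (Sum.inl g₁.initial)),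
    Symbol.nonterminal (some (Sum.inr g₂.initial))]], fun w => ?_⟩
  constructor
  · rintro ⟨n, h⟩
    obtain ⟨o, ho, m, -, h'⟩ := comb_none_inv h
    simp only [List.mem_cons, List.not_mem_nil, or_false] at ho
    subst ho
    obtain ⟨w₁, w₂, n₁, n₂, rfl, -, h3, h4⟩ := Der.split (s₁ := [_]) h'
    exact ⟨w₁, (h₁ _).1 ((comb_left _ _).1 ⟨_, h3⟩), w₂,
      (h₂ _).1 ((comb_right _ _).1 ⟨_, h4⟩), rfl⟩
  · rintro ⟨u, hu, v, hv, rfl⟩
    refine comb_none (List.mem_singleton.2 rfl) ?_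
    exact Gen.append (s₁ := [_]) ((comb_left _ _).2 ((h₁ u).2 hu))
      ((comb_right _ _).2 ((h₂ v).2 hv))

theorem IsCF.eps : IsCF ({[]} : Set (List T)) := by
  classical
  let r₀ : ContextFreeRule T Unit := ⟨(), []⟩
  let g : ContextFreeGrammar T := { NT := Unit, initial := (), rules := {r₀} }
  refine ⟨g, fun w => ?_⟩
  constructor
  · rintro ⟨n, h⟩
    obtain ⟨r, hr, -, m, -, h'⟩ := Der.inv h
    have : r = r₀ := Finset.mem_singleton.1 hr
    subst this
    exact Der.inv_nil h'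
  · intro h
    have : w = [] := h
    subst this
    exact Gen.single (g := g) (r := r₀) (Finset.mem_singleton.2 rfl) ⟨0, Der.nil⟩

theorem IsCF.congr {K₁ K₂ : Set (List T)} (h : IsCF K₁) (e : K₁ = K₂) : IsCF K₂ := e ▸ h

/-- iterate a word -/
def rep (u : List T) : ℕ → List T
  | 0 => []
  | n + 1 => u ++ rep u n

theorem rep_succ' (u : List T) (n : ℕ) : rep u (n + 1) = rep u n ++ u := by
  induction n with
  | zero => simp [rep]
  | succ n ih =>
    calc rep u (n + 1 + 1) = u ++ rep u (n + 1) := rfl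
      _ = u ++ (rep u n ++ u) := by rw [ih]
      _ = (u ++ rep u n) ++ u := by rw [List.append_assoc]
      _ = rep u (n + 1) ++ u := rfl

theorem IsCF.wrap {K : Set (List T)} (h : IsCF K) (u v : List T) :
    IsCF {w | ∃ m : ℕ, ∃ x ∈ K, w = rep u m ++ x ++ rep v m} := by
  obtain ⟨g, h⟩ := h
  refine ⟨comb g g [u.map Symbol.terminal ++ [Symbol.nonterminal none] ++ v.map Symbol.terminal,
    [Symbol.nonterminal (some (Sum.inl g.initial))]], fun w => ?_⟩
  constructor
  · rintro ⟨n, hn⟩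
    induction n using Nat.strong_induction_on generalizing w with
    | _ n ih =>
      obtain ⟨o, ho, m, hm, h'⟩ := comb_none_inv hn
      simp only [List.mem_cons, List.not_mem_nil, or_false] at ho
      rcases ho with rfl | rfl
      · obtain ⟨w₁, w₂, n₁, n₂, rfl, e1, h3, h4⟩ := Der.split h'
        obtain ⟨w₃, w₅, n₃, n₅, rfl, e2, h5, h6⟩ := Der.split h3
        have a1 : w₃ = u := der_terminal_inv h5
        have a2 : w₂ = v := der_terminal_inv h4
        subst a1 a2
        obtain ⟨k, x, hx, rfl⟩ := ih n₅ (by omega) _ h6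
        refine ⟨k + 1, x, hx, ?_⟩
        rw [rep_succ' w₂, rep]
        simp
      · exact ⟨0, w, (h w).1 ((comb_left _ _).1 ⟨m, h'⟩), by simp [rep]⟩
  · rintro ⟨m, x, hx, rfl⟩
    induction m with
    | zero =>
      simp only [rep, List.nil_append, List.append_nil]
      exact comb_none (List.mem_cons_of_mem _ (List.mem_singleton.2 rfl))
        ((comb_left _ _).2 ((h x).2 hx))
    | succ m ih =>
      rw [rep_succ' v, rep]
      have e : u ++ rep u m ++ x ++ (rep v m ++ v) = u ++ (rep u m ++ x ++ rep v m) ++ v := by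
        simp
      rw [e]
      refine comb_none (List.mem_cons_self) ?_
      exact ((Gen.append ⟨0, der_terminal u⟩ ih).append ⟨0, der_terminal v⟩)

end Pool.Agent.Helper22.CF
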