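import Pool.Agent.Helper22.CFPump

set_option autoImplicit false

namespace Pool.Agent.Helper22.CF

/-- context: everything generated by `s`, plus counts `γ`, lies in the count set -/
def OK (g : ContextFreeGrammar (Fin 4)) (s : List (Symbol (Fin 4) g.NT)) (γ : Vec) : Prop :=
  ∀ u, Gen g s u → InS (u.count 0 + γ 0) (u.count 1 + γ 1) (u.count 2 + γ 2) (u.count 3 + γ 3)

/-- total counts -/
def Tot (n : ℕ) (u : List (Fin 4)) (γ : Vec) : Prop :=
  u.count 0 + γ 0 = 8 * n ∧ u.count 1 + γ 1 = 2 * n ∧ u.count 2 + γ 2 = 3 * n ∧
    u.count 3 + γ 3 = 3 * n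

variable {g : ContextFreeGrammar (Fin 4)}

theorem OK.rule {r : ContextFreeRule (Fin 4) g.NT} (hr : r ∈ g.rules) {γ : Vec}
    (h : OK g [Symbol.nonterminal r.input] γ) : OK g r.output γ :=
  fun u hu => h u (Gen.single hr hu)

theorem OK.mid {s1 s s2 : List (Symbol (Fin 4) g.NT)} {γ : Vec} (h : OK g (s1 ++ s ++ s2) γ)
    {u1 u2 : List (Fin 4)} (h1 : Gen g s1 u1) (h2 : Gen g s2 u2) :
    OK g s (fun k => γ k + u1.count k + u2.count k) := by
  intro u hu
  have := h _ (Gen.append (Gen.append h1 hu) h2)
  simp only [List.count_append] at this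
  have e : ∀ k : Fin 4, u.count k + (γ k + u1.count k + u2.count k) =
      u1.count k + u.count k + u2.count k + γ k := by intro k; omega
  simp only [e]
  exact this

theorem Tot.mid {n : ℕ} {γ : Vec} {u1 u u2 : List (Fin 4)} (h : Tot n (u1 ++ u ++ u2) γ) :
    Tot n u (fun k => γ k + u1.count k + u2.count k) := by
  obtain ⟨a, b, c, d⟩ := h
  simp only [List.count_append] at a b c d
  refine ⟨?_, ?_, ?_, ?_⟩ <;> dsimp only <;> omega

/-- standing assumptions -/
structure Std (g : ContextFreeGrammar (Fin 4)) (R N n : ℕ) (V : Finset g.NT) : Prop where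
  out : ∀ r ∈ g.rules, r.output.length ≤ R
  inp : ∀ r ∈ g.rules, r.input ∈ V
  pump : ∀ (ℓ : Fin 4) (A : g.NT) (h : List (Fin 4)), Gen g [Symbol.nonterminal A] h →
    N ≤ h.count ℓ → Pumpable g ℓ A h
  N1 : 1 ≤ N
  n1 : R * N + N ≤ n

variable {R N n : ℕ} {V : Finset g.NT}

theorem star1 (H : Std g R N n V) {A : g.NT} {z : List (Fin 4)} {γ : Vec}
    (hz : Gen g [Symbol.nonterminal A] z) (hok : OK g [Symbol.nonterminal A] γ) (ht : Tot n z γ)
    (h2 : z.count 2 = 0) (h3 : z.count 3 = 0) : z.count 0 < N ∧ z.count 1 < N := by
  have hn := H.n1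
  have hN := H.N1
  have key : ∀ ℓ : Fin 4, ℓ = 0 ∨ ℓ = 1 → z.count ℓ < N := by
    intro ℓ hℓ
    by_contra hcon
    obtain ⟨z', g1, g2, g3⟩ := H.pump ℓ A z hz (not_lt.1 hcon) (z.count ℓ + 1)
    have hS := hok z' g1
    obtain ⟨t0, t1, t2, t3⟩ := ht
    have q0 := (g3 0).1
    have q1 := (g3 1).1
    have q2 := (g3 2).2 h2
    have q3 := (g3 3).2 h3
    unfold InS at hS
    rcases hℓ with rfl | rfl <;> omega
  exact ⟨key 0 (Or.inl rfl), key 1 (Or.inr rfl)⟩

theorem star1_list (H : Std g R N n V) {s : List (Symbol (Fin 4) g.NT)} {z : List (Fin 4)} {γ : Vec}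
    (hlen : s.length ≤ R)
    (hz : Gen g s z) (hok : OK g s γ) (ht : Tot n z γ)
    (h2 : z.count 2 = 0) (h3 : z.count 3 = 0) : z.count 0 ≤ R * N ∧ z.count 1 ≤ R * N := by
  have hN := H.N1
  have key : ∀ ℓ : Fin 4, ℓ = 0 ∨ ℓ = 1 → z.count ℓ ≤ R * N := by
    intro ℓ hℓ
    by_contra hcon
    obtain ⟨m, hz⟩ := hz
    have hk : N * s.length < z.count ℓ := by
      have : s.length * N ≤ R * N := Nat.mul_le_mul_right _ hlen
      rw [mul_comm]
      omega
    obtain ⟨s1, X, s2, w1, x, w2, n1, n', n2, e1, e2, h1, hx, h2', hle, hk'⟩ := pigeon ℓ N hz hk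
    rw [e1] at hok
    rw [e2] at ht h2 h3
    simp only [List.count_append] at h2 h3
    cases X with
    | terminal t =>
      have := Der.inv_terminal hx
      rw [this] at hk'
      have h3 : ([t] : List (Fin 4)).count ℓ ≤ 1 := by
        simpa using List.count_le_length (a := ℓ) (l := [t])
      omega
    | nonterminal D =>
      have := star1 H ⟨_, hx⟩ (hok.mid ⟨_, h1⟩ ⟨_, h2'⟩) ht.mid (by omega) (by omega)
      rcases hℓ with rfl | rfl <;> omega
  exact ⟨key 0 (Or.inl rfl), key 1 (Or.inr rfl)⟩

/-- Finding the node generating `b^j c ...`. -/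
theorem find (H : Std g R N n V) : ∀ m : ℕ, ∀ (s : List (Symbol (Fin 4) g.NT)) (γ : Vec) (p : ℕ)
    (e' : List (Fin 4)), s.length ≤ R → 
    Der g s (List.replicate p 0 ++ List.replicate n 1 ++ 2 :: e') m → OK g s γ →
    Tot n (List.replicate p 0 ++ List.replicate n 1 ++ 2 :: e') γ →
    ∃ (Z : g.NT) (z2 z3 : List (Fin 4)) (j : ℕ), e' = z2 ++ z3 ∧ (j ≤ n ∧ n ≤ j + R * N) ∧
      Gen g [Symbol.nonterminal Z] (List.replicate j 1 ++ 2 :: z2) ∧
      ∀ z', Gen g [Symbol.nonterminal Z] z' → ∃ u, Gen g s u ∧ ∀ k,
        u.count k + (List.replicate j 1 ++ 2 :: z2).count k =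
          z'.count k + (List.replicate p 0 ++ List.replicate n 1 ++ 2 :: e').count k := by
  have hn := H.n1
  have hN := H.N1
  intro m
  induction m using Nat.strong_induction_on with
  | _ m ih =>
    intro s γ p e' hlen hd hok ht
    obtain ⟨s1, W, s2, u1, w1, w2, u2, n1, n', n2, e1, h1, hW, h2, hle, e2, e3⟩ := Der.locate hd
    rw [e1] at hok hlen
    have hlen1 : s1.length ≤ R := by
      simp only [List.length_append] at hlen
      omega
    have ht' : Tot n (u1 ++ (w1 ++ 2 :: w2) ++ u2) γ := by
      have : u1 ++ (w1 ++ 2 :: w2) ++ u2 =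
          List.replicate p 0 ++ List.replicate n 1 ++ 2 :: e' := by
        rw [e2, e3]; simp
      rw [this]
      exact ht
    have hmid := OK.mid hok ⟨_, h1⟩ ⟨_, h2⟩
    have hcount : ∀ k, (List.replicate p 0 ++ List.replicate n 1 ++ 2 :: e').count k =
        u1.count k + (w1 ++ 2 :: w2).count k + u2.count k := by
      intro k
      have : u1 ++ (w1 ++ 2 :: w2) ++ u2 =
          List.replicate p 0 ++ List.replicate n 1 ++ 2 :: e' := by
        rw [e2, e3]; simp
      rw [← this, List.count_append, List.count_append]
    rcases rep_append_split e2.symm with ⟨i, j, hij, hj, a1, a2⟩ | ⟨v1, a1, a2⟩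
    · -- recursion
      rw [a2] at hW
      cases W with
      | terminal t =>
        have := Der.inv_terminal hW
        have h5 := congrArg List.length this
        simp at h5
        omega
      | nonterminal W =>
        obtain ⟨r, hr, rfl, m', hm', hW'⟩ := Der.inv hW
        obtain ⟨Z, z2, z3, j', b1, b2, b3, b4⟩ := ih m' (by omega) r.output _ j w2 (H.out r hr) hW'
          (OK.rule hr hmid) (by rw [a2] at ht'; exact ht'.mid)
        refine ⟨Z, z2, z3 ++ u2, j', by rw [e3, b1]; simp, b2, b3, ?_⟩
        intro z' hz'
        obtain ⟨u, hu, hu'⟩ := b4 z' hz'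
        refine ⟨u1 ++ u ++ u2, ?_, ?_⟩
        · rw [e1]
          exact Gen.append (Gen.append ⟨_, h1⟩ (Gen.single hr hu)) ⟨_, h2⟩
        · intro k
          rw [hcount k]
          have := hu' k
          rw [a2]
          rw [List.count_append, List.count_append]
          omega
    · obtain ⟨i, j, hij, c1, c2⟩ := rep_split a2
      -- bound on i
      have hs1 : Gen g s1 u1 := ⟨_, h1⟩
      have hok1 : OK g s1 (fun k => γ k + (([] : List (Fin 4)).count k) +
          ((w1 ++ 2 :: w2) ++ u2).count k) := by
        refine OK.mid (s1 := []) (s2 := [W] ++ s2) ?_ ⟨0, Der.nil⟩ (Gen.append ⟨_, hW⟩ ⟨_, h2⟩)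
        simpa using hok
      have htot1 : Tot n u1 (fun k => γ k + (([] : List (Fin 4)).count k) +
          ((w1 ++ 2 :: w2) ++ u2).count k) := by
        refine Tot.mid ?_
        simpa using ht'
      have hb := star1_list H hlen1 hs1 hok1 htot1 (by rw [a1, c1]; simp [List.count_replicate])
        (by rw [a1, c1]; simp [List.count_replicate])
      have hi : i ≤ R * N := by
        have := hb.2
        rw [a1, c1] at this
        simpa [List.count_replicate] using this
      rw [c2] at hW
      cases W with
      | terminal t =>
        have := Der.inv_terminal hW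
        have h5 := congrArg List.length this
        simp at h5
        omega
      | nonterminal W =>
        refine ⟨W, w2, u2, j, e3, ⟨by omega, by omega⟩, ⟨_, hW⟩, ?_⟩
        intro z' hz'
        refine ⟨u1 ++ z' ++ u2, ?_, ?_⟩
        · rw [e1]
          exact Gen.append (Gen.append ⟨_, h1⟩ hz') ⟨_, h2⟩
        · intro k
          rw [hcount k, c2, List.count_append, List.count_append]
          omega

/-- both c and d can be pumped while no a occurs: contradiction -/
theorem good1 (H : Std g R N n V) {Y : g.NT} {y : List (Fin 4)} {γ : Vec}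
    (hy : Gen g [Symbol.nonterminal Y] y) (hok : OK g [Symbol.nonterminal Y] γ) (ht : Tot n y γ)
    (h0 : y.count 0 = 0) (h2 : N ≤ y.count 2) (h3 : N ≤ y.count 3) : False := by
  obtain ⟨y', a1, a2, a3⟩ := H.pump 2 Y y hy h2 (8 * n + 1)
  obtain ⟨y'', b1, b2, b3⟩ := H.pump 3 Y y' a1 (h3.trans (a3 3).1) (8 * n + 1)
  have hS := hok y'' b1
  obtain ⟨t0, t1, t2, t3⟩ := ht
  have q0 := (b3 0).2 ((a3 0).2 h0)
  have q2 := (b3 2).1
  unfold InS at hS
  omega

/-- joint version -/
theorem good2 (H : Std g R N n V) {Z Y : g.NT} {z y : List (Fin 4)} {γ : Vec}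
    (hz : Gen g [Symbol.nonterminal Z] z) (hy : Gen g [Symbol.nonterminal Y] y)
    (hok : ∀ z' y', Gen g [Symbol.nonterminal Z] z' → Gen g [Symbol.nonterminal Y] y' →
      InS (z'.count 0 + y'.count 0 + γ 0) (z'.count 1 + y'.count 1 + γ 1)
        (z'.count 2 + y'.count 2 + γ 2) (z'.count 3 + y'.count 3 + γ 3))
    (t0 : z.count 0 + y.count 0 + γ 0 = 8 * n) (t1 : z.count 1 + y.count 1 + γ 1 = 2 * n)
    (t2 : z.count 2 + y.count 2 + γ 2 = 3 * n) (t3 : z.count 3 + y.count 3 + γ 3 = 3 * n)
    (hz0 : z.count 0 = 0) (hy0 : y.count 0 = 0)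
    (hz1 : N ≤ z.count 1) (hy1 : N ≤ y.count 1)
    (hz2 : N ≤ z.count 2 ∨ z.count 3 = 0) (hy2 : N ≤ y.count 3 ∨ y.count 2 = 0) : False := by
  have hn := H.n1
  have hN := H.N1
  -- z'' with many c's
  have c1 : ∃ z'', Gen g [Symbol.nonterminal Z] z'' ∧ 8 * n + 1 ≤ z''.count 2 ∧ z''.count 0 = 0 := by
    rcases hz2 with h | h
    · obtain ⟨z', a1, a2, a3⟩ := H.pump 2 Z z hz h (8 * n + 1)
      exact ⟨z', a1, a2, (a3 0).2 hz0⟩
    · obtain ⟨z', a1, a2, a3⟩ := H.pump 1 Z z hz hz1 (10 * n)
      have hS := hok z' y a1 hy
      have q0 := (a3 0).2 hz0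
      have q3 := (a3 3).2 h
      have q2 := (a3 2).1
      have h5 : n ≤ z'.count 2 := by
        unfold InS at hS
        omega
      obtain ⟨z'', b1, b2, b3⟩ := H.pump 2 Z z' a1 (by omega) (8 * n + 1)
      exact ⟨z'', b1, b2, (b3 0).2 q0⟩
  have c2 : ∃ y'', Gen g [Symbol.nonterminal Y] y'' ∧ 8 * n + 1 ≤ y''.count 3 ∧ y''.count 0 = 0 := by
    rcases hy2 with h | h
    · obtain ⟨y', a1, a2, a3⟩ := H.pump 3 Y y hy h (8 * n + 1)
      exact ⟨y', a1, a2, (a3 0).2 hy0⟩
    · obtain ⟨y', a1, a2, a3⟩ := H.pump 1 Y y hy hy1 (10 * n)
      have hS := hok z y' hz a1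
      have q0 := (a3 0).2 hy0
      have q2 := (a3 2).2 h
      have q3 := (a3 3).1
      have h5 : n ≤ y'.count 3 := by
        unfold InS at hS
        omega
      obtain ⟨y'', b1, b2, b3⟩ := H.pump 3 Y y' a1 (by omega) (8 * n + 1)
      exact ⟨y'', b1, b2, (b3 0).2 q0⟩
  obtain ⟨z', a1, a2, a3⟩ := c1
  obtain ⟨y', b1, b2, b3⟩ := c2
  have hS := hok z' y' a1 b1
  unfold InS at hS
  omega

theorem spine (H : Std g R N n V) : ∀ m : ℕ, ∀ (A : g.NT) (γ : Vec) (p q : ℕ) (seen : Finset g.NT),
    Der g [Symbol.nonterminal A] (List.replicate p 0 ++ (List.replicate n 1 ++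
      (List.replicate (3 * n) 2 ++ List.replicate (3 * n - 1) 3)) ++ 3 :: List.replicate q 1) m →
    OK g [Symbol.nonterminal A] γ →
    Tot n (List.replicate p 0 ++ (List.replicate n 1 ++
      (List.replicate (3 * n) 2 ++ List.replicate (3 * n - 1) 3)) ++ 3 :: List.replicate q 1) γ →
    1 ≤ p → seen ⊆ V →
    (V.card - seen.card) * (R * N) + (R * N + N) ≤ q →
    (∀ C ∈ seen, ∃ i j : ℕ, 1 ≤ i + j ∧ ∀ u, Gen g [Symbol.nonterminal A] u →
      ∃ u', Gen g [Symbol.nonterminal C] u' ∧ u'.count 0 = u.count 0 + i ∧
        u'.count 1 = u.count 1 + j ∧ u'.count 2 = u.count 2 ∧ u'.count 3 = u.count 3) → False := by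
  classical
  have hn := H.n1
  have hN := H.N1
  intro m
  induction m using Nat.strong_induction_on with
  | _ m ih =>
    intro A γ p q seen hd hok ht hp hsV hq hseen
    by_cases hA : A ∈ seen
    · obtain ⟨i, j, hij, hu⟩ := hseen A hA
      obtain ⟨u', hu', e0, e1, e2, e3⟩ := hu _ ⟨_, hd⟩
      have hS := hok u' hu'
      obtain ⟨t0, t1, t2, t3⟩ := ht
      rw [e0, e1, e2, e3] at hS
      unfold InS at hS
      omega
    · obtain ⟨r, hr, rfl, m', hm', hd'⟩ := Der.inv hd
      have hins : insert r.input seen ⊆ V := Finset.insert_subset (H.inp r hr) hsV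
      have hcard : seen.card + 1 ≤ V.card := by
        have := Finset.card_le_card hins
        rwa [Finset.card_insert_of_notMem hA] at this
      have hoko := OK.rule hr hok
      obtain ⟨s1, Y, s2, u1, y1, y2, u2, n1, n', n2, e1, h1, hY, h2, hle, e2, e3⟩ := Der.locate hd'
      have hlen := H.out r hr
      rw [e1] at hoko hlen
      have hlen1 : s1.length ≤ R := by
        simp only [List.length_append] at hlen
        omega
      have hlen2 : s2.length ≤ R := by
        simp only [List.length_append] at hlen
        omega
      obtain ⟨q2, q4, hq24, d1, d2⟩ := rep_split e3.symm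
      have hw : u1 ++ (y1 ++ 3 :: y2) ++ u2 = List.replicate p 0 ++ (List.replicate n 1 ++
          (List.replicate (3 * n) 2 ++ List.replicate (3 * n - 1) 3)) ++ 3 :: List.replicate q 1 := by
        rw [e2, e3]; simp
      have ht' : Tot n (u1 ++ (y1 ++ 3 :: y2) ++ u2) γ := by rw [hw]; exact ht
      -- bound on q4
      have hok4 : OK g s2 (fun k => γ k + (u1 ++ (y1 ++ 3 :: y2)).count k +
          ([] : List (Fin 4)).count k) := by
        refine OK.mid (s1 := s1 ++ [Y]) (s2 := []) ?_ (Gen.append ⟨_, h1⟩ ⟨_, hY⟩) ⟨0, Der.nil⟩
        simpa using hoko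
      have htot4 : Tot n u2 (fun k => γ k + (u1 ++ (y1 ++ 3 :: y2)).count k +
          ([] : List (Fin 4)).count k) := by
        refine Tot.mid ?_
        simpa using ht'
      have hb4 := star1_list H hlen2 ⟨_, h2⟩ hok4 htot4 (by rw [d2]; simp [List.count_replicate])
        (by rw [d2]; simp [List.count_replicate])
      have hq4 : q4 ≤ R * N := by
        have := hb4.2
        rw [d2] at this
        simpa [List.count_replicate] using this
      have hqle : (V.card - seen.card) * (R * N) = (V.card - (seen.card + 1)) * (R * N) + R * N := by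
        have : V.card - seen.card = (V.card - (seen.card + 1)) + 1 := by omega
        rw [this]
        ring
      -- Y is a nonterminal
      cases Y with
      | terminal t =>
        have := Der.inv_terminal hY
        have h5 := congrArg List.length this
        rw [d1] at h5
        simp at h5
        omega
      | nonterminal Y =>
        have hmid := OK.mid hoko ⟨_, h1⟩ ⟨_, h2⟩
        have hctx := fun x' hx' => Der.ctx hr e1 h1 h2 x' hx'
        rcases rep_append_split e2.symm with ⟨i, j, hij, hj, a1, a2⟩ | ⟨P', a1, a2⟩
        · -- recursion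
          rw [a2, d1] at hY
          have htY := ht'.mid
          rw [a2, d1] at htY
          by_cases hz : i + q4 = 0
          · refine ih n' (by omega) Y _ j q2 seen hY hmid htY hj hsV (by omega) ?_
            intro C hC
            obtain ⟨i', j', hij', hu⟩ := hseen C hC
            refine ⟨i', j', hij', ?_⟩
            intro u hu0
            obtain ⟨u', c1, c2, c3, c4, c5⟩ := hu _ (hctx u hu0)
            have hi0 : i = 0 := by omega
            have hq0 : q4 = 0 := by omega
            rw [a1, d2, hi0, hq0] at c2 c3 c4 c5
            refine ⟨u', c1, ?_, ?_, ?_, ?_⟩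
            · simpa using c2
            · simpa using c3
            · simpa using c4
            · simpa using c5
          · refine ih n' (by omega) Y _ j q2 (insert r.input seen) hY hmid htY hj hins
              (by rw [Finset.card_insert_of_notMem hA]; omega) ?_
            intro C hC
            rcases Finset.mem_insert.1 hC with rfl | hC
            · refine ⟨i, q4, by omega, ?_⟩
              intro u hu0
              refine ⟨_, hctx u hu0, ?_, ?_, ?_, ?_⟩ <;> rw [a1, d2] <;>
                simp [List.count_append, List.count_replicate] <;> omega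
            · obtain ⟨i', j', hij', hu⟩ := hseen C hC
              refine ⟨i + i', q4 + j', by omega, ?_⟩
              intro u hu0
              obtain ⟨u', c1, c2, c3, c4, c5⟩ := hu _ (hctx u hu0)
              rw [a1, d2] at c2 c3 c4 c5
              simp [List.count_append, List.count_replicate] at c2 c3 c4 c5
              exact ⟨u', c1, by omega, by omega, by omega, by omega⟩
        · -- P' ++ y1 = b^n c^{3n} d^{3n-1}
          have htY := ht'.mid
          rcases rep_append_split a2 with ⟨i, j, hij, hj, b1, b2⟩ | ⟨P'', b1, b2⟩
          · refine good1 H ⟨_, hY⟩ hmid htY ?_ ?_ ?_ <;> rw [b2, d1] <;>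
              simp [List.count_append, List.count_replicate] <;> omega
          · -- P'' ++ y1 = c^{3n} d^{3n-1}
            cases P'' with
            | nil =>
              simp only [List.nil_append] at b2
              refine good1 H ⟨_, hY⟩ hmid htY ?_ ?_ ?_ <;> rw [b2, d1] <;>
                simp [List.count_append, List.count_replicate] <;> omega
            | cons t e' =>
              have h3n : 3 * n = (3 * n - 1) + 1 := by omega
              rw [h3n, List.replicate_succ] at b2
              simp only [List.cons_append, List.cons.injEq, Nat.add_sub_cancel] at b2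
              obtain ⟨rfl, b2⟩ := b2
              -- e' ++ y1 = c^{3n-1} d^{3n-1}
              have hu1 : u1 = List.replicate p 0 ++ List.replicate n 1 ++ 2 :: e' := by
                rw [a1, b1]; simp
              have h1' := h1
              rw [hu1] at h1'
              have hok1 : OK g s1 (fun k => γ k + (([] : List (Fin 4)).count k) +
                  ((y1 ++ 3 :: y2) ++ u2).count k) := by
                refine OK.mid (s1 := []) (s2 := [Symbol.nonterminal Y] ++ s2) ?_ ⟨0, Der.nil⟩
                  (Gen.append ⟨_, hY⟩ ⟨_, h2⟩)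
                simpa using hoko
              have htot1 : Tot n u1 (fun k => γ k + (([] : List (Fin 4)).count k) +
                  ((y1 ++ 3 :: y2) ++ u2).count k) := by
                refine Tot.mid ?_
                simpa using ht'
              rw [hu1] at htot1
              obtain ⟨Z, z2, z3, j, f1, f2, f3, f4⟩ := find H n1 s1 _ p e' hlen1 h1' hok1 htot1
              -- structure of z2 and y1
              have g1 : z2.count 0 = 0 ∧ z2.count 1 = 0 ∧ (z2.count 3 = 0 ∨ z2.count 2 = 3 * n - 1) := by
                rw [f1, List.append_assoc] at b2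
                rcases rep_append_split b2 with ⟨i, j, hij, hj, c1, c2⟩ | ⟨v, c1, c2⟩
                · rw [c1]; simp [List.count_replicate]
                · obtain ⟨i', j', hij', v1, v2⟩ := rep_split c2
                  rw [c1, v1]; simp [List.count_replicate]
              have g2 : y1.count 0 = 0 ∧ y1.count 1 = 0 ∧ (y1.count 2 = 0 ∨ y1.count 3 = 3 * n - 1) := by
                rcases rep_append_split b2 with ⟨i, j, hij, hj, c1, c2⟩ | ⟨v, c1, c2⟩
                · rw [c2]; simp [List.count_replicate]
                · obtain ⟨i', j', hij', v1, v2⟩ := rep_split c2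
                  rw [v2]; simp [List.count_replicate]
              have hzc : ∀ k, (List.replicate j 1 ++ 2 :: z2).count k =
                  (List.replicate j (1 : Fin 4)).count k + (([2] : List (Fin 4)).count k + z2.count k) := by
                intro k
                rw [show List.replicate j 1 ++ 2 :: z2 = List.replicate j 1 ++ ([2] ++ z2) by simp,
                  List.count_append, List.count_append]
              have hyc : ∀ k, (y1 ++ 3 :: y2).count k =
                  y1.count k + (([3] : List (Fin 4)).count k + (List.replicate q2 (1 : Fin 4)).count k) := by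
                intro k
                rw [d1, show y1 ++ 3 :: List.replicate q2 1 = y1 ++ ([3] ++ List.replicate q2 1) by simp,
                  List.count_append, List.count_append]
              have hzu : ∀ k, (List.replicate j 1 ++ 2 :: z2).count k ≤ u1.count k := by
                intro k
                rw [hzc, hu1, f1, show List.replicate p (0 : Fin 4) ++ List.replicate n 1 ++ 2 :: (z2 ++ z3) =
                  List.replicate p 0 ++ (List.replicate n 1 ++ ([2] ++ (z2 ++ z3))) by simp]
                simp only [List.count_append]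
                have : (List.replicate j (1 : Fin 4)).count k ≤ (List.replicate n (1 : Fin 4)).count k := by
                  simp only [List.count_replicate]
                  split
                  · exact f2.1
                  · exact le_rfl
                omega
              obtain ⟨t0, t1, t2, t3⟩ := ht'
              simp only [List.count_append] at t0 t1 t2 t3
              rw [← List.count_append] at t0 t1 t2 t3
              have z0 := hzu 0
              have z1 := hzu 1
              have z2' := hzu 2
              have z3' := hzu 3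
              have e20 : ([2] : List (Fin 4)).count 0 = 0 := by decide
              have e21 : ([2] : List (Fin 4)).count 1 = 0 := by decide
              have e22 : ([2] : List (Fin 4)).count 2 = 1 := by decide
              have e23 : ([2] : List (Fin 4)).count 3 = 0 := by decide
              have e30 : ([3] : List (Fin 4)).count 0 = 0 := by decide
              have e31 : ([3] : List (Fin 4)).count 1 = 0 := by decide
              have e32 : ([3] : List (Fin 4)).count 2 = 0 := by decide
              have e33 : ([3] : List (Fin 4)).count 3 = 1 := by decide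
              have hzc0 := hzc 0
              have hzc1 := hzc 1
              have hzc2 := hzc 2
              have hzc3 := hzc 3
              have hyc0 := hyc 0
              have hyc1 := hyc 1
              have hyc2 := hyc 2
              have hyc3 := hyc 3
              simp only [List.count_replicate_self] at hzc1 hyc1
              have r0 : ∀ m : ℕ, (List.replicate m (1 : Fin 4)).count 0 = 0 := by
                intro m; simp [List.count_replicate]
              have r2 : ∀ m : ℕ, (List.replicate m (1 : Fin 4)).count 2 = 0 := by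
                intro m; simp [List.count_replicate]
              have r3 : ∀ m : ℕ, (List.replicate m (1 : Fin 4)).count 3 = 0 := by
                intro m; simp [List.count_replicate]
              rw [r0] at hzc0 hyc0
              rw [r2] at hzc2 hyc2
              rw [r3] at hzc3 hyc3
              refine good2 (γ := fun k => (u1.count k - (List.replicate j 1 ++ 2 :: z2).count k) +
                u2.count k + γ k) H f3 ⟨_, hY⟩ ?_ ?_ ?_ ?_ ?_ ?_ ?_ ?_ ?_ ?_ ?_
              · intro z' y' hz' hy'
                obtain ⟨u, hu, hu'⟩ := f4 z' hz'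
                have := hoko _ (Gen.append (Gen.append hu hy') ⟨_, h2⟩)
                simp only [List.count_append] at this
                have key : ∀ k, u.count k + y'.count k + u2.count k + γ k =
                    z'.count k + y'.count k + ((u1.count k -
                      (List.replicate j 1 ++ 2 :: z2).count k) + u2.count k + γ k) := by
                  intro k
                  have q1 := hu' k
                  rw [← hu1] at q1
                  have q2 := hzu k
                  omega
                rw [key 0, key 1, key 2, key 3] at this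
                exact this
              · omega
              · omega
              · omega
              · omega
              · omega
              · omega
              · omega
              · omega
              · omega
              · omega

end Pool.Agent.Helper22.CF
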