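import Pool.Agent.Helper22.CFSorted

set_option autoImplicit false

namespace Pool.Agent.Helper22.CF

/-- the counterexample language -/
def LL : Language (Fin 4) := {w | InS (w.count 0) (w.count 1) (w.count 2) (w.count 3)}

theorem mem_LL (w : List (Fin 4)) :
    w ∈ LL ↔ InS (w.count 0) (w.count 1) (w.count 2) (w.count 3) := Iff.rfl

theorem count_word (σ : Equiv.Perm (Fin 4)) (n : Vec) (k : Fin 4) : (word σ n).count k = n k := by
  obtain ⟨i, rfl⟩ := σ.surjective k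
  unfold word
  simp only [List.count_append, List.count_replicate]
  fin_cases i <;> simp

theorem word_perm (σ : Equiv.Perm (Fin 4)) (w : List (Fin 4)) :
    w.Perm (word σ (fun k => w.count k)) := by
  rw [List.perm_iff_count]
  intro k
  rw [count_word]

theorem word_sorted (σ : Equiv.Perm (Fin 4)) (n : Vec) :
    List.Pairwise (fun x y => σ.symm x ≤ σ.symm y) (word σ n) := by
  unfold word
  have key : ∀ i : Fin 4, ∀ m : ℕ, List.Pairwise (fun x y => σ.symm x ≤ σ.symm y)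
      (List.replicate m (σ i)) := by
    intro i m
    rw [List.pairwise_replicate]
    right
    exact le_rfl
  simp only [List.pairwise_append, key, true_and, List.mem_append, List.mem_replicate]
  refine ⟨⟨?_, ?_⟩, ?_⟩
  · rintro _ ⟨-, rfl⟩ _ ⟨-, rfl⟩
    simp
  · rintro _ ⟨-, rfl⟩ _ (⟨-, rfl⟩ | ⟨-, rfl⟩)
    · simp
    · simp
  · rintro _ ⟨-, rfl⟩ _ (⟨-, rfl⟩ | ⟨-, rfl⟩ | ⟨-, rfl⟩)
    · simp
    · simp
    · simp

theorem sorted_iff (σ : Equiv.Perm (Fin 4)) (w : List (Fin 4)) :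
    List.Pairwise (fun x y => σ.symm x ≤ σ.symm y) w ↔ w = word σ (fun k => w.count k) := by
  constructor
  · intro h
    refine List.Perm.eq_of_pairwise ?_ h (word_sorted σ _) (word_perm σ w)
    intro x y _ _ h1 h2
    exact σ.symm.injective (le_antisymm h1 h2)
  · intro h
    rw [h]
    exact word_sorted σ _

theorem crit (P : List Gn)
    (hP : ∀ p0 p1 p2 p3 : Fin 4, p0 ≠ p1 → p0 ≠ p2 → p0 ≠ p3 → p1 ≠ p2 → p1 ≠ p3 → p2 ≠ p3 →
      ((∀ x ∈ P, ¬ ((x.l = p1 ∧ x.l' = p3) ∨ (x.l = p3 ∧ x.l' = p1))) ∨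
      (∀ x ∈ P, ¬ ((x.l = p0 ∧ x.l' = p2) ∨ (x.l = p2 ∧ x.l' = p0)))))
    (σ : Equiv.Perm (Fin 4)) : CFS σ (Mo P) := by
  have hne : ∀ i j : Fin 4, i ≠ j → σ i ≠ σ j := fun i j h h' => h (σ.injective h')
  exact CFS_Mo σ P (hP (σ 0) (σ 1) (σ 2) (σ 3) (hne _ _ (by decide)) (hne _ _ (by decide))
    (hne _ _ (by decide)) (hne _ _ (by decide)) (hne _ _ (by decide)) (hne _ _ (by decide)))

set_option maxRecDepth 100000 in
theorem cf_Q1 (σ : Equiv.Perm (Fin 4)) : CFS σ (Mo PQ1) := crit _ (by unfold PQ1; decide) σ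
set_option maxRecDepth 100000 in
theorem cf_Q2 (σ : Equiv.Perm (Fin 4)) : CFS σ (Mo PQ2) := crit _ (by unfold PQ2; decide) σ
set_option maxRecDepth 100000 in
theorem cf_A (σ : Equiv.Perm (Fin 4)) : CFS σ (Mo PA) := crit _ (by unfold PA; decide) σ
set_option maxRecDepth 100000 in
theorem cf_A' (σ : Equiv.Perm (Fin 4)) : CFS σ (Mo PA') := crit _ (by unfold PA'; decide) σ

set_option maxRecDepth 100000 in
theorem cf_E (σ : Equiv.Perm (Fin 4)) : CFS σ (Mo PE1) ∨ CFS σ (Mo PE2) := by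
  have hne : ∀ i j : Fin 4, i ≠ j → σ i ≠ σ j := fun i j h h' => h (σ.injective h')
  have key : ∀ p0 p1 p2 p3 : Fin 4, p0 ≠ p1 → p0 ≠ p2 → p0 ≠ p3 → p1 ≠ p2 → p1 ≠ p3 → p2 ≠ p3 →
      ((∀ x ∈ PE1, ¬ ((x.l = p1 ∧ x.l' = p3) ∨ (x.l = p3 ∧ x.l' = p1))) ∨
      (∀ x ∈ PE1, ¬ ((x.l = p0 ∧ x.l' = p2) ∨ (x.l = p2 ∧ x.l' = p0)))) ∨
      ((∀ x ∈ PE2, ¬ ((x.l = p1 ∧ x.l' = p3) ∨ (x.l = p3 ∧ x.l' = p1))) ∨
      (∀ x ∈ PE2, ¬ ((x.l = p0 ∧ x.l' = p2) ∨ (x.l = p2 ∧ x.l' = p0)))) := by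
    unfold PE1 PE2
    decide
  rcases key (σ 0) (σ 1) (σ 2) (σ 3) (hne _ _ (by decide)) (hne _ _ (by decide))
    (hne _ _ (by decide)) (hne _ _ (by decide)) (hne _ _ (by decide)) (hne _ _ (by decide)) with h | h
  · left; exact CFS_Mo σ _ h
  · right; exact CFS_Mo σ _ h

theorem sorted_cf (σ : Equiv.Perm (Fin 4)) :
    ∃ g : ContextFreeGrammar (Fin 4), ∀ w : List (Fin 4),
      w ∈ g.language ↔ (w ∈ LL ∧ List.Pairwise (fun x y => σ.symm x ≤ σ.symm y) w) := by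
  have main : IsCF {w : List (Fin 4) | w ∈ LL ∧ List.Pairwise (fun x y => σ.symm x ≤ σ.symm y) w} := by
    rcases cf_E σ with hE | hE
    · refine ((((cf_Q1 σ).union (cf_Q2 σ)).union ((cf_A σ).union (cf_A' σ))).union hE).congr ?_
      ext w
      simp only [Set.mem_union, Set.mem_ofPred_eq, sorted_iff, mem_LL]
      constructor
      · rintro (((⟨n, hn, rfl⟩ | ⟨n, hn, rfl⟩) | (⟨n, hn, rfl⟩ | ⟨n, hn, rfl⟩)) | ⟨n, hn, rfl⟩)
        all_goals
          simp only [count_word]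
          refine ⟨(inS_iff1 n).2 ?_, trivial⟩
          tauto
      · rintro ⟨h1, h2⟩
        have := (inS_iff1 (fun k => w.count k)).1 h1
        rcases this with h | h | h | h | h
        · exact Or.inl (Or.inl (Or.inl ⟨_, h, h2⟩))
        · exact Or.inl (Or.inl (Or.inr ⟨_, h, h2⟩))
        · exact Or.inl (Or.inr (Or.inl ⟨_, h, h2⟩))
        · exact Or.inl (Or.inr (Or.inr ⟨_, h, h2⟩))
        · exact Or.inr ⟨_, h, h2⟩
    · refine ((((cf_Q1 σ).union (cf_Q2 σ)).union ((cf_A σ).union (cf_A' σ))).union hE).congr ?_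
      ext w
      simp only [Set.mem_union, Set.mem_ofPred_eq, sorted_iff, mem_LL]
      constructor
      · rintro (((⟨n, hn, rfl⟩ | ⟨n, hn, rfl⟩) | (⟨n, hn, rfl⟩ | ⟨n, hn, rfl⟩)) | ⟨n, hn, rfl⟩)
        all_goals
          simp only [count_word]
          refine ⟨(inS_iff2 n).2 ?_, trivial⟩
          tauto
      · rintro ⟨h1, h2⟩
        have := (inS_iff2 (fun k => w.count k)).1 h1
        rcases this with h | h | h | h | h
        · exact Or.inl (Or.inl (Or.inl ⟨_, h, h2⟩))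
        · exact Or.inl (Or.inl (Or.inr ⟨_, h, h2⟩))
        · exact Or.inl (Or.inr (Or.inl ⟨_, h, h2⟩))
        · exact Or.inl (Or.inr (Or.inr ⟨_, h, h2⟩))
        · exact Or.inr ⟨_, h, h2⟩
  obtain ⟨g, hg⟩ := main
  exact ⟨g, fun w => (mem_language_iff_gen).trans (hg w)⟩

end Pool.Agent.Helper22.CF
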