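import Pool.Agent.Helper22.CFMain

set_option autoImplicit false

namespace Pool.Agent.Helper22.CF

section general

variable {T : Type} [DecidableEq T] {g : ContextFreeGrammar T}

def Pumpable (g : ContextFreeGrammar T) (ℓ : T) (A : g.NT) (h : List T) : Prop :=
  ∀ M : ℕ, ∃ h', Gen g [Symbol.nonterminal A] h' ∧ M ≤ h'.count ℓ ∧
    ∀ x, h.count x ≤ h'.count x ∧ (h.count x = 0 → h'.count x = 0)

theorem pump_iter {ℓ : T} {C : g.NT} {h p q h2 : List T} (hh : Gen g [Symbol.nonterminal C] h)
    (e : h = p ++ h2 ++ q)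
    (hc : ∀ h', Gen g [Symbol.nonterminal C] h' → Gen g [Symbol.nonterminal C] (p ++ h' ++ q))
    (h1 : 1 ≤ p.count ℓ + q.count ℓ) : Pumpable g ℓ C h := by
  intro M
  have key : ∀ M : ℕ, ∃ h', Gen g [Symbol.nonterminal C] h' ∧
      ∀ x, h'.count x = h.count x + M * (p.count x + q.count x) := by
    intro M
    induction M with
    | zero => exact ⟨h, hh, by simp⟩
    | succ M ih =>
      obtain ⟨h', h1', h2'⟩ := ih
      refine ⟨p ++ h' ++ q, hc _ h1', fun x => ?_⟩
      simp only [List.count_append, h2' x]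
      ring
  obtain ⟨h', h1', h2'⟩ := key M
  refine ⟨h', h1', ?_, fun x => ⟨?_, ?_⟩⟩
  · rw [h2']
    have : M * 1 ≤ M * (p.count ℓ + q.count ℓ) := Nat.mul_le_mul_left M h1
    omega
  · rw [h2']
    exact Nat.le_add_right _ _
  · intro hx
    have : p.count x + q.count x = 0 := by
      rw [e] at hx
      simp only [List.count_append] at hx
      omega
    rw [h2', this, hx, Nat.mul_zero]

theorem Pumpable.lift {ℓ : T} {B D : g.NT} {h x w1 w2 : List T} (e : h = w1 ++ x ++ w2)
    (ctx : ∀ x', Gen g [Symbol.nonterminal D] x' → Gen g [Symbol.nonterminal B] (w1 ++ x' ++ w2))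
    (hp : Pumpable g ℓ D x) : Pumpable g ℓ B h := by
  intro M
  obtain ⟨x', h1, h2, h3⟩ := hp M
  refine ⟨w1 ++ x' ++ w2, ctx _ h1, ?_, fun y => ?_⟩
  · simp only [List.count_append]
    omega
  · rw [e]
    simp only [List.count_append]
    have := h3 y
    constructor
    · omega
    · intro h
      have := this.2 (by omega)
      omega

theorem pigeon (ℓ : T) (k : ℕ) {s : List (Symbol T g.NT)} {w : List T} {n : ℕ} (h : Der g s w n)
    (hk : k * s.length < w.count ℓ) :
    ∃ s1 X s2 w1 x w2 n1 n' n2, s = s1 ++ [X] ++ s2 ∧ w = w1 ++ x ++ w2 ∧ Der g s1 w1 n1 ∧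
      Der g [X] x n' ∧ Der g s2 w2 n2 ∧ n' ≤ n ∧ k < x.count ℓ := by
  induction s generalizing w n with
  | nil =>
    have := Der.inv_nil h
    subst this
    simp at hk
  | cons Y s ih =>
    obtain ⟨y, w', n1, n2, rfl, rfl, h1, h2⟩ := Der.split (s₁ := [Y]) h
    by_cases hy : k < y.count ℓ
    · exact ⟨[], Y, s, [], y, w', 0, n1, n2, by simp, by simp, Der.nil, h1, h2, by omega, hy⟩
    · have : k * s.length < w'.count ℓ := by
        simp only [List.length_cons, List.count_append] at hk
        have e : k * (s.length + 1) = k * s.length + k := by ring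
        omega
      obtain ⟨s1, X, s2, w1, x, w2, m1, m', m2, rfl, rfl, a1, a2, a3, a4, a5⟩ := ih h2 this
      exact ⟨Y :: s1, X, s2, y ++ w1, x, w2, n1 + m1, m', m2, by simp, by simp,
        Der.append (s₁ := [Y]) h1 a1, a2, a3, by omega, a5⟩

omit [DecidableEq T] in
theorem Der.ctx {s1 s2 : List (Symbol T g.NT)} {X : Symbol T g.NT} {w1 w2 : List T} {n1 n2 : ℕ}
    {r : ContextFreeRule T g.NT} (hr : r ∈ g.rules) (e : r.output = s1 ++ [X] ++ s2)
    (h1 : Der g s1 w1 n1) (h2 : Der g s2 w2 n2) (x : List T) (hx : Gen g [X] x) :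
    Gen g [Symbol.nonterminal r.input] (w1 ++ x ++ w2) := by
  refine Gen.single hr ?_
  rw [e]
  exact (Gen.append (Gen.append ⟨_, h1⟩ hx) ⟨_, h2⟩)

theorem pump_aux (g : ContextFreeGrammar T) (ℓ : T) (R : ℕ) (hR : 2 ≤ R)
    (hRo : ∀ r ∈ g.rules, r.output.length ≤ R)
    (V : Finset g.NT) (hV : ∀ r ∈ g.rules, r.input ∈ V) :
    ∀ n : ℕ, ∀ (B : g.NT) (h : List T) (seen : Finset g.NT), seen ⊆ V →
      Der g [Symbol.nonterminal B] h n →
      R ^ (V.card - seen.card) < h.count ℓ →
      Pumpable g ℓ B h ∨ ∃ C ∈ seen, ∃ p h2 q, h = p ++ h2 ++ q ∧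
        (∀ h', Gen g [Symbol.nonterminal C] h' → Gen g [Symbol.nonterminal B] (p ++ h' ++ q)) := by
  classical
  intro n
  induction n using Nat.strong_induction_on with
  | _ n ih =>
    intro B h seen hs hd hc
    by_cases hB : B ∈ seen
    · right
      exact ⟨B, hB, [], h, [], by simp, by simp⟩
    · obtain ⟨r, hr, rfl, m, hm, hd'⟩ := Der.inv hd
      have hins : insert r.input seen ⊆ V := Finset.insert_subset (hV r hr) hs
      have hcard : seen.card + 1 ≤ V.card := by
        have := Finset.card_le_card hins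
        rwa [Finset.card_insert_of_notMem hB] at this
      have hpow : R ^ (V.card - seen.card) = R ^ (V.card - (seen.card + 1)) * R := by
        rw [← pow_succ]
        congr 1
        omega
      have hk : R ^ (V.card - (seen.card + 1)) * r.output.length < h.count ℓ := by
        refine lt_of_le_of_lt ?_ hc
        rw [hpow]
        exact Nat.mul_le_mul_left _ (hRo r hr)
      obtain ⟨s1, X, s2, w1, x, w2, n1, n', n2, e1, e2, h1, hx, h2, hle, hk'⟩ := pigeon ℓ _ hd' hk
      cases X with
      | terminal t =>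
        exfalso
        have := Der.inv_terminal hx
        rw [this] at hk'
        have h3 : ([t] : List T).count ℓ ≤ 1 := by
          simpa using List.count_le_length (a := ℓ) (l := [t])
        have h4 : 1 ≤ R ^ (V.card - (seen.card + 1)) := Nat.one_le_pow _ _ (by omega)
        omega
      | nonterminal D =>
        have ctx := fun x' hx' => Der.ctx hr e1 h1 h2 x' hx'
        by_cases hcc : x.count ℓ = h.count ℓ
        · rcases ih n' (by omega) D x seen hs hx (by rw [hcc]; exact hc) with
            hp | ⟨C, hC, p, h2', q, e, hctx⟩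
          · left
            exact hp.lift e2 ctx
          · right
            refine ⟨C, hC, w1 ++ p, h2', q ++ w2, by rw [e2, e]; simp, fun h' hh' => ?_⟩
            have := ctx _ (hctx h' hh')
            simpa using this
        · rcases ih n' (by omega) D x (insert r.input seen) hins hx
            (by rw [Finset.card_insert_of_notMem hB]; exact hk') with
            hp | ⟨C, hC, p, h2', q, e, hctx⟩
          · left
            exact hp.lift e2 ctx
          · rcases Finset.mem_insert.1 hC with rfl | hC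
            · left
              refine pump_iter (p := w1 ++ p) (q := q ++ w2) (h2 := h2') ⟨n, hd⟩ (by rw [e2, e]; simp)
                (fun h' hh' => ?_) ?_
              · have := ctx _ (hctx h' hh')
                simpa using this
              · have : h.count ℓ = w1.count ℓ + x.count ℓ + w2.count ℓ := by
                  rw [e2]; simp only [List.count_append]
                simp only [List.count_append]
                omega
            · right
              refine ⟨C, hC, w1 ++ p, h2', q ++ w2, by rw [e2, e]; simp, fun h' hh' => ?_⟩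
              have := ctx _ (hctx h' hh')
              simpa using this

theorem pump_lemma (g : ContextFreeGrammar T) (R : ℕ) (hR : 2 ≤ R)
    (hRo : ∀ r ∈ g.rules, r.output.length ≤ R)
    (V : Finset g.NT) (hV : ∀ r ∈ g.rules, r.input ∈ V) (ℓ : T) (A : g.NT) (h : List T)
    (hd : Gen g [Symbol.nonterminal A] h) (hc : R ^ V.card + 1 ≤ h.count ℓ) :
    Pumpable g ℓ A h := by
  obtain ⟨n, hd⟩ := hd
  rcases pump_aux g ℓ R hR hRo V hV n A h ∅ (Finset.empty_subset _) hd (by simpa using hc) with
    hp | ⟨C, hC, -⟩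
  · exact hp
  · simp at hC

omit [DecidableEq T] in
theorem Der.locate {s : List (Symbol T g.NT)} {α β : List T} {t : T} {n : ℕ}
    (h : Der g s (α ++ t :: β) n) :
    ∃ s1 X s2 u1 x1 x2 u2 n1 n' n2, s = s1 ++ [X] ++ s2 ∧ Der g s1 u1 n1 ∧
      Der g [X] (x1 ++ t :: x2) n' ∧ Der g s2 u2 n2 ∧ n' ≤ n ∧ α = u1 ++ x1 ∧ β = x2 ++ u2 := by
  induction s generalizing α n with
  | nil =>
    have := Der.inv_nil h
    simp at this
  | cons Y s ih =>
    obtain ⟨y, w', n1, n2, e, rfl, h1, h2⟩ := Der.split (s₁ := [Y]) h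
    rcases List.append_eq_append_iff.1 e with ⟨a', e1, e2⟩ | ⟨c', e1, e2⟩
    · cases a' with
      | nil =>
        simp only [List.append_nil, List.nil_append] at e1 e2
        subst e1
        rw [← e2] at h2
        obtain ⟨s1, X, s2, u1, x1, x2, u2, m1, m', m2, rfl, b1, b2, b3, b4, b5, b6⟩ :=
          ih (α := []) h2
        exact ⟨Y :: s1, X, s2, y ++ u1, x1, x2, u2, n1 + m1, m', m2, by simp,
          Der.append (s₁ := [Y]) h1 b1, b2, b3, by omega, by rw [List.append_assoc, ← b5]; simp, b6⟩
      | cons t' a'' =>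
        simp only [List.cons_append, List.cons.injEq] at e2
        obtain ⟨rfl, e2⟩ := e2
        rw [e1] at h1
        exact ⟨[], Y, s, [], α, a'', w', 0, n1, n2, by simp, Der.nil, h1, h2, by omega, by simp, e2⟩
    · rw [e2] at h2
      obtain ⟨s1, X, s2, u1, x1, x2, u2, m1, m', m2, rfl, b1, b2, b3, b4, b5, b6⟩ := ih h2
      exact ⟨Y :: s1, X, s2, y ++ u1, x1, x2, u2, n1 + m1, m', m2, by simp,
          Der.append (s₁ := [Y]) h1 b1, b2, b3, by omega, by rw [List.append_assoc, ← b5, e1], b6⟩

omit [DecidableEq T] in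
theorem rep_split {u w : List T} {b : T} {n : ℕ} (h : u ++ w = List.replicate n b) :
    ∃ i j, i + j = n ∧ u = List.replicate i b ∧ w = List.replicate j b := by
  have := List.append_eq_replicate_iff.1 h
  exact ⟨u.length, w.length, this.1, this.2.1, this.2.2⟩

omit [DecidableEq T] in
theorem rep_append_split {u w v : List T} {a : T} {p : ℕ}
    (h : u ++ w = List.replicate p a ++ v) :
    (∃ i j, i + j = p ∧ 1 ≤ j ∧ u = List.replicate i a ∧ w = List.replicate j a ++ v) ∨
    (∃ v1, u = List.replicate p a ++ v1 ∧ v1 ++ w = v) := by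
  rcases List.append_eq_append_iff.1 h with ⟨a', e1, e2⟩ | ⟨c', e1, e2⟩
  · obtain ⟨i, j, hij, h1, h2⟩ := rep_split e1.symm
    rcases Nat.eq_zero_or_pos j with hj | hj
    · subst hj
      simp only [List.replicate_zero] at h2
      subst h2
      right
      refine ⟨[], ?_, by simpa using e2⟩
      simp only [List.append_nil] at e1 ⊢
      exact e1.symm
    · left
      exact ⟨i, j, hij, hj, h1, by rw [e2, h2]⟩
  · right
    exact ⟨c', e1, e2.symm⟩

end general

end Pool.Agent.Helper22.CF
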