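import Pool.Agent.Helper22.CFBasic

set_option autoImplicit false

namespace Pool.Agent.Helper22.CF

abbrev Vec := Fin 4 → ℕ

/-- The word with blocks in the order `σ` and letter counts `n`. -/
def word (σ : Equiv.Perm (Fin 4)) (n : Vec) : List (Fin 4) :=
  List.replicate (n (σ 0)) (σ 0) ++ (List.replicate (n (σ 1)) (σ 1) ++
    (List.replicate (n (σ 2)) (σ 2) ++ List.replicate (n (σ 3)) (σ 3)))

def CFS (σ : Equiv.Perm (Fin 4)) (U : AddSubmonoid Vec) : Prop :=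
  IsCF {w | ∃ n ∈ U, w = word σ n}

/-- vectors supported on the positions `i, ..., j` -/
def SuppSub (σ : Equiv.Perm (Fin 4)) (i j : Fin 4) : AddSubmonoid Vec where
  carrier := {n | ∀ p : Fin 4, (p < i ∨ j < p) → n (σ p) = 0}
  zero_mem' := by intro p _; rfl
  add_mem' := by
    intro a b ha hb p hp
    simp [ha p hp, hb p hp]

theorem rep_replicate (p : ℕ) (a : Fin 4) (m : ℕ) :
    rep (List.replicate p a) m = List.replicate (m * p) a := by
  induction m with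
  | zero => simp [rep]
  | succ m ih =>
    rw [rep, ih, ← List.replicate_add]
    congr 1
    ring

theorem rep_merge (a b : ℕ) (x : Fin 4) (X : List (Fin 4)) :
    List.replicate a x ++ (List.replicate b x ++ X) = List.replicate (a + b) x ++ X := by
  rw [← List.append_assoc, List.replicate_append_replicate]

theorem word_wrap (σ : Equiv.Perm (Fin 4)) (i j : Fin 4) (hij : i ≤ j) (n : Vec)
    (hn : n ∈ SuppSub σ i j) (p q m : ℕ) :
    word σ (n + m • (Pi.single (σ i) p + Pi.single (σ j) q)) =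
      List.replicate (m * p) (σ i) ++ word σ n ++ List.replicate (m * q) (σ j) := by
  have h0 := hn 0
  have h1 := hn 1
  have h2 := hn 2
  have h3 := hn 3
  fin_cases i <;> fin_cases j <;> simp at hij <;> simp at h0 h1 h2 h3 <;>
    simp [word, h0, h1, h2, h3, rep_merge] <;> ring_nf

theorem word_concat (σ : Equiv.Perm (Fin 4)) (k : Fin 4) (u v : Vec)
    (hu : u ∈ SuppSub σ 0 k) (hv : v ∈ SuppSub σ k 3) :
    word σ (u + v) = word σ u ++ word σ v := by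
  have u0 := hu 0
  have u1 := hu 1
  have u2 := hu 2
  have u3 := hu 3
  have v0 := hv 0
  have v1 := hv 1
  have v2 := hv 2
  have v3 := hv 3
  fin_cases k <;> simp at u0 u1 u2 u3 v0 v1 v2 v3 <;>
    simp [word, u0, u1, u2, u3, v0, v1, v2, v3, rep_merge]

theorem CFS.bot (σ : Equiv.Perm (Fin 4)) : CFS σ ⊥ := by
  refine IsCF.eps.congr ?_
  ext w
  simp only [Set.mem_singleton_iff, Set.mem_ofPred_eq, AddSubmonoid.mem_bot]
  constructor
  · rintro rfl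
    exact ⟨0, rfl, by simp [word]⟩
  · rintro ⟨n, rfl, rfl⟩
    simp [word]

theorem CFS.wrap {σ : Equiv.Perm (Fin 4)} {U : AddSubmonoid Vec} (i j : Fin 4) (hij : i ≤ j)
    (hU : U ≤ SuppSub σ i j) (h : CFS σ U) (p q : ℕ) :
    CFS σ (U ⊔ AddSubmonoid.closure {Pi.single (σ i) p + Pi.single (σ j) q}) := by
  refine (IsCF.wrap h (List.replicate p (σ i)) (List.replicate q (σ j))).congr ?_
  ext w
  simp only [Set.mem_ofPred_eq, AddSubmonoid.mem_sup, AddSubmonoid.mem_closure_singleton]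
  constructor
  · rintro ⟨m, x, ⟨n, hn, rfl⟩, rfl⟩
    refine ⟨_, ⟨n, hn, _, ⟨m, rfl⟩, rfl⟩, ?_⟩
    rw [word_wrap σ i j hij n (hU hn), rep_replicate, rep_replicate]
  · rintro ⟨_, ⟨n, hn, _, ⟨m, rfl⟩, rfl⟩, rfl⟩
    refine ⟨m, _, ⟨n, hn, rfl⟩, ?_⟩
    rw [word_wrap σ i j hij n (hU hn), rep_replicate, rep_replicate]

theorem CFS.concat {σ : Equiv.Perm (Fin 4)} {U V : AddSubmonoid Vec} (k : Fin 4)
    (hU : U ≤ SuppSub σ 0 k) (hV : V ≤ SuppSub σ k 3) (h : CFS σ U) (h' : CFS σ V) :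
    CFS σ (U ⊔ V) := by
  refine (IsCF.concat h h').congr ?_
  ext w
  simp only [Set.mem_ofPred_eq, AddSubmonoid.mem_sup]
  constructor
  · rintro ⟨_, ⟨u, hu, rfl⟩, _, ⟨v, hv, rfl⟩, rfl⟩
    exact ⟨_, ⟨u, hu, v, hv, rfl⟩, (word_concat σ k u v (hU hu) (hV hv)).symm⟩
  · rintro ⟨_, ⟨u, hu, v, hv, rfl⟩, rfl⟩
    exact ⟨_, ⟨u, hu, rfl⟩, _, ⟨v, hv, rfl⟩, word_concat σ k u v (hU hu) (hV hv)⟩

/-- A generator: two letters with multiplicities. -/
structure Gn where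
  l : Fin 4
  l' : Fin 4
  p : ℕ
  q : ℕ

def Gn.vec (x : Gn) : Vec := Pi.single x.l x.p + Pi.single x.l' x.q

/-- the submonoid generated by a list of generators -/
def Mo (P : List Gn) : AddSubmonoid Vec := AddSubmonoid.closure {v | ∃ x ∈ P, v = x.vec}

theorem Mo_nil : Mo [] = ⊥ := by
  unfold Mo
  have : {v : Vec | ∃ x ∈ ([] : List Gn), v = x.vec} = ∅ := by
    ext v
    simp
  rw [this, AddSubmonoid.closure_empty]

theorem Mo_cons (x : Gn) (P : List Gn) : Mo (x :: P) = Mo P ⊔ AddSubmonoid.closure {x.vec} := by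
  unfold Mo
  rw [← AddSubmonoid.closure_union]
  congr 1
  ext v
  simp only [List.mem_cons, Set.mem_ofPred_eq, Set.mem_union, Set.mem_singleton_iff]
  constructor
  · rintro ⟨y, rfl | hy, rfl⟩
    · right; rfl
    · left; exact ⟨y, hy, rfl⟩
  · rintro (⟨y, hy, rfl⟩ | rfl)
    · exact ⟨y, Or.inr hy, rfl⟩
    · exact ⟨x, Or.inl rfl, rfl⟩

/-- generators whose two letters sit at positions `i` and `j` -/
def PP (σ : Equiv.Perm (Fin 4)) (P : List Gn) (i j : Fin 4) : List Gn :=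
  P.filter (fun x => (x.l = σ i ∧ x.l' = σ j) ∨ (x.l = σ j ∧ x.l' = σ i))

theorem vec_mem_supp {σ : Equiv.Perm (Fin 4)} {i j : Fin 4} (hij : i ≤ j) (p q : ℕ) :
    (Pi.single (σ i) p + Pi.single (σ j) q : Vec) ∈ SuppSub σ i j := by
  intro k hk
  have h1 : k ≠ i := by rintro rfl; rcases hk with h | h; exact absurd h (lt_irrefl _); exact absurd h (not_lt.2 hij)
  have h2 : k ≠ j := by rintro rfl; rcases hk with h | h; exact absurd h (not_lt.2 hij); exact absurd h (lt_irrefl _)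
  simp [Pi.single_apply, h1, h2]

theorem gn_vec_mem_supp {σ : Equiv.Perm (Fin 4)} {i j : Fin 4} (hij : i ≤ j) (x : Gn)
    (hx : (x.l = σ i ∧ x.l' = σ j) ∨ (x.l = σ j ∧ x.l' = σ i)) : x.vec ∈ SuppSub σ i j := by
  unfold Gn.vec
  rcases hx with ⟨h1, h2⟩ | ⟨h1, h2⟩
  · rw [h1, h2]; exact vec_mem_supp hij _ _
  · rw [h1, h2, add_comm]; exact vec_mem_supp hij _ _

theorem Mo_PP_supp {σ : Equiv.Perm (Fin 4)} {i j : Fin 4} (hij : i ≤ j) (P : List Gn) :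
    Mo (PP σ P i j) ≤ SuppSub σ i j := by
  refine (AddSubmonoid.closure_le).2 ?_
  rintro _ ⟨x, hx, rfl⟩
  refine gn_vec_mem_supp hij x ?_
  simpa using (List.mem_filter.1 hx).2

theorem CFS.wraps {σ : Equiv.Perm (Fin 4)} {U : AddSubmonoid Vec} (i j : Fin 4) (hij : i ≤ j)
    (hU : U ≤ SuppSub σ i j) (h : CFS σ U) (P : List Gn)
    (hP : ∀ x ∈ P, (x.l = σ i ∧ x.l' = σ j) ∨ (x.l = σ j ∧ x.l' = σ i)) :
    CFS σ (U ⊔ Mo P) := by
  induction P with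
  | nil => rw [Mo_nil, sup_bot_eq]; exact h
  | cons x P ih =>
    rw [Mo_cons, ← sup_assoc]
    have h1 := ih (fun y hy => hP y (List.mem_cons_of_mem _ hy))
    have h2 : U ⊔ Mo P ≤ SuppSub σ i j := by
      refine sup_le hU ((AddSubmonoid.closure_le).2 ?_)
      rintro _ ⟨y, hy, rfl⟩
      exact gn_vec_mem_supp hij y (hP y (List.mem_cons_of_mem _ hy))
    rcases hP x List.mem_cons_self with ⟨e1, e2⟩ | ⟨e1, e2⟩
    · have : x.vec = Pi.single (σ i) x.p + Pi.single (σ j) x.q := by rw [Gn.vec, e1, e2]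
      rw [this]
      exact h1.wrap i j hij h2 _ _
    · have : x.vec = Pi.single (σ i) x.q + Pi.single (σ j) x.p := by
        rw [Gn.vec, e1, e2, add_comm]
      rw [this]
      exact h1.wrap i j hij h2 _ _

theorem CFS.wrapsPP {σ : Equiv.Perm (Fin 4)} {U : AddSubmonoid Vec} (i j : Fin 4) (hij : i ≤ j)
    (hU : U ≤ SuppSub σ i j) (h : CFS σ U) (P : List Gn) :
    CFS σ (U ⊔ Mo (PP σ P i j)) := by
  refine CFS.wraps i j hij hU h _ ?_
  intro x hx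
  simpa using (List.mem_filter.1 hx).2

theorem SuppSub_mono (σ : Equiv.Perm (Fin 4)) {i j i' j' : Fin 4} (hi : i' ≤ i) (hj : j ≤ j') :
    SuppSub σ i j ≤ SuppSub σ i' j' := by
  intro n hn p hp
  refine hn p ?_
  rcases hp with h | h
  · exact Or.inl (lt_of_lt_of_le h hi)
  · exact Or.inr (lt_of_le_of_lt hj h)

section tt
variable (σ : Equiv.Perm (Fin 4)) (P : List Gn)

def T1 (i : Fin 4) : AddSubmonoid Vec := ⊥ ⊔ Mo (PP σ P i i)

def T01 : AddSubmonoid Vec := (T1 σ P 0 ⊔ T1 σ P 1) ⊔ Mo (PP σ P 0 1)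
def T12 : AddSubmonoid Vec := (T1 σ P 1 ⊔ T1 σ P 2) ⊔ Mo (PP σ P 1 2)
def T23 : AddSubmonoid Vec := (T1 σ P 2 ⊔ T1 σ P 3) ⊔ Mo (PP σ P 2 3)
def T02 : AddSubmonoid Vec := (T01 σ P ⊔ T12 σ P) ⊔ Mo (PP σ P 0 2)
def T13 : AddSubmonoid Vec := (T12 σ P ⊔ T23 σ P) ⊔ Mo (PP σ P 1 3)
def T03 : AddSubmonoid Vec := (T02 σ P ⊔ T23 σ P) ⊔ Mo (PP σ P 0 3)
def T03' : AddSubmonoid Vec := (T01 σ P ⊔ T13 σ P) ⊔ Mo (PP σ P 0 3)

theorem T1_supp (i : Fin 4) : T1 σ P i ≤ SuppSub σ i i := sup_le bot_le (Mo_PP_supp le_rfl P)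

theorem T1_cf (i : Fin 4) : CFS σ (T1 σ P i) :=
  CFS.wrapsPP i i le_rfl bot_le (CFS.bot σ) P

theorem T01_supp : T01 σ P ≤ SuppSub σ 0 1 :=
  sup_le (sup_le ((T1_supp σ P 0).trans (SuppSub_mono σ (by decide) (by decide)))
    ((T1_supp σ P 1).trans (SuppSub_mono σ (by decide) (by decide)))) (Mo_PP_supp (by decide) P)

theorem T12_supp : T12 σ P ≤ SuppSub σ 1 2 :=
  sup_le (sup_le ((T1_supp σ P 1).trans (SuppSub_mono σ (by decide) (by decide)))
    ((T1_supp σ P 2).trans (SuppSub_mono σ (by decide) (by decide)))) (Mo_PP_supp (by decide) P)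

theorem T23_supp : T23 σ P ≤ SuppSub σ 2 3 :=
  sup_le (sup_le ((T1_supp σ P 2).trans (SuppSub_mono σ (by decide) (by decide)))
    ((T1_supp σ P 3).trans (SuppSub_mono σ (by decide) (by decide)))) (Mo_PP_supp (by decide) P)

theorem T02_supp : T02 σ P ≤ SuppSub σ 0 2 :=
  sup_le (sup_le ((T01_supp σ P).trans (SuppSub_mono σ (by decide) (by decide)))
    ((T12_supp σ P).trans (SuppSub_mono σ (by decide) (by decide)))) (Mo_PP_supp (by decide) P)

theorem T13_supp : T13 σ P ≤ SuppSub σ 1 3 :=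
  sup_le (sup_le ((T12_supp σ P).trans (SuppSub_mono σ (by decide) (by decide)))
    ((T23_supp σ P).trans (SuppSub_mono σ (by decide) (by decide)))) (Mo_PP_supp (by decide) P)

theorem cf_pair {i j i' j' : Fin 4} (hi : 0 ≤ i) (h1 : i ≤ j) (k : Fin 4) (hjk : j ≤ k) (hk : k ≤ i')
    (h2 : i' ≤ j') {U V : AddSubmonoid Vec} (hU : U ≤ SuppSub σ i j) (hV : V ≤ SuppSub σ i' j')
    (h : CFS σ U) (h' : CFS σ V) : CFS σ (U ⊔ V) :=
  CFS.concat k (hU.trans (SuppSub_mono σ (Fin.zero_le i) hjk))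
    (hV.trans (SuppSub_mono σ hk (Fin.le_last j'))) h h'

theorem T01_cf : CFS σ (T01 σ P) := by
  refine CFS.wrapsPP 0 1 (by decide) ?_ ?_ P
  · exact sup_le ((T1_supp σ P 0).trans (SuppSub_mono σ (by decide) (by decide)))
      ((T1_supp σ P 1).trans (SuppSub_mono σ (by decide) (by decide)))
  · exact cf_pair σ (by decide) le_rfl 1 (by decide) (by decide) le_rfl (T1_supp σ P 0) (T1_supp σ P 1)
      (T1_cf σ P 0) (T1_cf σ P 1)

theorem T12_cf : CFS σ (T12 σ P) := by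
  refine CFS.wrapsPP 1 2 (by decide) ?_ ?_ P
  · exact sup_le ((T1_supp σ P 1).trans (SuppSub_mono σ (by decide) (by decide)))
      ((T1_supp σ P 2).trans (SuppSub_mono σ (by decide) (by decide)))
  · exact cf_pair σ (by decide) le_rfl 1 (by decide) (by decide) le_rfl (T1_supp σ P 1) (T1_supp σ P 2)
      (T1_cf σ P 1) (T1_cf σ P 2)

theorem T23_cf : CFS σ (T23 σ P) := by
  refine CFS.wrapsPP 2 3 (by decide) ?_ ?_ P
  · exact sup_le ((T1_supp σ P 2).trans (SuppSub_mono σ (by decide) (by decide)))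
      ((T1_supp σ P 3).trans (SuppSub_mono σ (by decide) (by decide)))
  · exact cf_pair σ (by decide) le_rfl 2 (by decide) (by decide) le_rfl (T1_supp σ P 2) (T1_supp σ P 3)
      (T1_cf σ P 2) (T1_cf σ P 3)

theorem T02_cf : CFS σ (T02 σ P) := by
  refine CFS.wrapsPP 0 2 (by decide) ?_ ?_ P
  · exact sup_le ((T01_supp σ P).trans (SuppSub_mono σ (by decide) (by decide)))
      ((T12_supp σ P).trans (SuppSub_mono σ (by decide) (by decide)))
  · exact cf_pair σ (by decide) (by decide) 1 (by decide) (by decide) (by decide) (T01_supp σ P)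
      (T12_supp σ P) (T01_cf σ P) (T12_cf σ P)

theorem T13_cf : CFS σ (T13 σ P) := by
  refine CFS.wrapsPP 1 3 (by decide) ?_ ?_ P
  · exact sup_le ((T12_supp σ P).trans (SuppSub_mono σ (by decide) (by decide)))
      ((T23_supp σ P).trans (SuppSub_mono σ (by decide) (by decide)))
  · exact cf_pair σ (by decide) (by decide) 2 (by decide) (by decide) (by decide) (T12_supp σ P)
      (T23_supp σ P) (T12_cf σ P) (T23_cf σ P)

theorem T03_cf : CFS σ (T03 σ P) := by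
  refine CFS.wrapsPP 0 3 (by decide) ?_ ?_ P
  · exact sup_le ((T02_supp σ P).trans (SuppSub_mono σ (by decide) (by decide)))
      ((T23_supp σ P).trans (SuppSub_mono σ (by decide) (by decide)))
  · exact cf_pair σ (by decide) (by decide) 2 (by decide) (by decide) (by decide) (T02_supp σ P)
      (T23_supp σ P) (T02_cf σ P) (T23_cf σ P)

theorem T03'_cf : CFS σ (T03' σ P) := by
  refine CFS.wrapsPP 0 3 (by decide) ?_ ?_ P
  · exact sup_le ((T01_supp σ P).trans (SuppSub_mono σ (by decide) (by decide)))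
      ((T13_supp σ P).trans (SuppSub_mono σ (by decide) (by decide)))
  · exact cf_pair σ (by decide) (by decide) 1 (by decide) (by decide) (by decide) (T01_supp σ P)
      (T13_supp σ P) (T01_cf σ P) (T13_cf σ P)

theorem Mo_PP_le (i j : Fin 4) : Mo (PP σ P i j) ≤ Mo P := by
  refine AddSubmonoid.closure_mono ?_
  rintro _ ⟨x, hx, rfl⟩
  exact ⟨x, (List.mem_filter.1 hx).1, rfl⟩

theorem T1_le (i : Fin 4) : T1 σ P i ≤ Mo P := sup_le bot_le (Mo_PP_le σ P i i)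
theorem T01_le : T01 σ P ≤ Mo P := sup_le (sup_le (T1_le σ P 0) (T1_le σ P 1)) (Mo_PP_le σ P 0 1)
theorem T12_le : T12 σ P ≤ Mo P := sup_le (sup_le (T1_le σ P 1) (T1_le σ P 2)) (Mo_PP_le σ P 1 2)
theorem T23_le : T23 σ P ≤ Mo P := sup_le (sup_le (T1_le σ P 2) (T1_le σ P 3)) (Mo_PP_le σ P 2 3)
theorem T02_le : T02 σ P ≤ Mo P := sup_le (sup_le (T01_le σ P) (T12_le σ P)) (Mo_PP_le σ P 0 2)
theorem T13_le : T13 σ P ≤ Mo P := sup_le (sup_le (T12_le σ P) (T23_le σ P)) (Mo_PP_le σ P 1 3)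
theorem T03_le : T03 σ P ≤ Mo P := sup_le (sup_le (T02_le σ P) (T23_le σ P)) (Mo_PP_le σ P 0 3)
theorem T03'_le : T03' σ P ≤ Mo P := sup_le (sup_le (T01_le σ P) (T13_le σ P)) (Mo_PP_le σ P 0 3)

theorem le_T (T : AddSubmonoid Vec)
    (h : ∀ x ∈ P, ∀ i j : Fin 4, i ≤ j →
      ((x.l = σ i ∧ x.l' = σ j) ∨ (x.l = σ j ∧ x.l' = σ i)) → Mo (PP σ P i j) ≤ T) :
    Mo P ≤ T := by
  refine (AddSubmonoid.closure_le).2 ?_
  rintro _ ⟨x, hx, rfl⟩
  have key : ∀ i j : Fin 4, i ≤ j →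
      ((x.l = σ i ∧ x.l' = σ j) ∨ (x.l = σ j ∧ x.l' = σ i)) → x.vec ∈ T := by
    intro i j hij hh
    refine h x hx i j hij hh ?_
    refine AddSubmonoid.subset_closure ⟨x, List.mem_filter.2 ⟨hx, by simpa using hh⟩, rfl⟩
  rcases le_total (σ.symm x.l) (σ.symm x.l') with h1 | h1
  · exact key _ _ h1 (Or.inl ⟨by simp, by simp⟩)
  · exact key _ _ h1 (Or.inr ⟨by simp, by simp⟩)

theorem PP_le_T03 : ∀ i j : Fin 4, i ≤ j → ¬ (i = 1 ∧ j = 3) → Mo (PP σ P i j) ≤ T03 σ P := by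
  have b02 : T02 σ P ≤ T03 σ P := le_sup_left.trans le_sup_left
  have b23 : T23 σ P ≤ T03 σ P := le_sup_right.trans le_sup_left
  have b01 : T01 σ P ≤ T03 σ P := (le_sup_left.trans le_sup_left).trans b02
  have b12 : T12 σ P ≤ T03 σ P := (le_sup_right.trans le_sup_left).trans b02
  have c0 : T1 σ P 0 ≤ T03 σ P := (le_sup_left.trans le_sup_left).trans b01
  have c1 : T1 σ P 1 ≤ T03 σ P := (le_sup_right.trans le_sup_left).trans b01
  have c2 : T1 σ P 2 ≤ T03 σ P := (le_sup_right.trans le_sup_left).trans b12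
  have c3 : T1 σ P 3 ≤ T03 σ P := (le_sup_right.trans le_sup_left).trans b23
  intro i j hij hne
  fin_cases i <;> fin_cases j <;> simp at hij hne
  · exact le_sup_right.trans c0
  · exact le_sup_right.trans b01
  · exact le_sup_right.trans b02
  · exact le_sup_right
  · exact le_sup_right.trans c1
  · exact le_sup_right.trans b12
  · exact le_sup_right.trans c2
  · exact le_sup_right.trans b23
  · exact le_sup_right.trans c3

theorem PP_le_T03' : ∀ i j : Fin 4, i ≤ j → ¬ (i = 0 ∧ j = 2) → Mo (PP σ P i j) ≤ T03' σ P := by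
  have b13 : T13 σ P ≤ T03' σ P := le_sup_right.trans le_sup_left
  have b01 : T01 σ P ≤ T03' σ P := le_sup_left.trans le_sup_left
  have b12 : T12 σ P ≤ T03' σ P := (le_sup_left.trans le_sup_left).trans b13
  have b23 : T23 σ P ≤ T03' σ P := (le_sup_right.trans le_sup_left).trans b13
  have c0 : T1 σ P 0 ≤ T03' σ P := (le_sup_left.trans le_sup_left).trans b01
  have c1 : T1 σ P 1 ≤ T03' σ P := (le_sup_right.trans le_sup_left).trans b01
  have c2 : T1 σ P 2 ≤ T03' σ P := (le_sup_right.trans le_sup_left).trans b12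
  have c3 : T1 σ P 3 ≤ T03' σ P := (le_sup_right.trans le_sup_left).trans b23
  intro i j hij hne
  fin_cases i <;> fin_cases j <;> simp at hij hne
  · exact le_sup_right.trans c0
  · exact le_sup_right.trans b01
  · exact le_sup_right
  · exact le_sup_right.trans c1
  · exact le_sup_right.trans b12
  · exact le_sup_right.trans b13
  · exact le_sup_right.trans c2
  · exact le_sup_right.trans b23
  · exact le_sup_right.trans c3

/-- Main criterion: if no generator joins positions 1 and 3, or none joins positions 0 and 2,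
the sorted words with counts in the generated monoid form a context-free language. -/
theorem CFS_Mo (h : (∀ x ∈ P, ¬ ((x.l = σ 1 ∧ x.l' = σ 3) ∨ (x.l = σ 3 ∧ x.l' = σ 1))) ∨
    (∀ x ∈ P, ¬ ((x.l = σ 0 ∧ x.l' = σ 2) ∨ (x.l = σ 2 ∧ x.l' = σ 0)))) :
    CFS σ (Mo P) := by
  rcases h with h | h
  · have e : T03 σ P = Mo P := by
      refine le_antisymm (T03_le σ P) (le_T σ P _ ?_)
      intro x hx i j hij hh
      refine PP_le_T03 σ P i j hij ?_
      rintro ⟨rfl, rfl⟩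
      exact h x hx hh
    rw [← e]
    exact T03_cf σ P
  · have e : T03' σ P = Mo P := by
      refine le_antisymm (T03'_le σ P) (le_T σ P _ ?_)
      intro x hx i j hij hh
      refine PP_le_T03' σ P i j hij ?_
      rintro ⟨rfl, rfl⟩
      exact h x hx hh
    rw [← e]
    exact T03'_cf σ P

end tt

/-! ### The pieces -/

def PQ1 : List Gn := [⟨0, 3, 1, 1⟩, ⟨3, 3, 1, 0⟩, ⟨0, 2, 1, 1⟩, ⟨1, 1, 1, 0⟩]
def PQ2 : List Gn := [⟨0, 3, 1, 1⟩, ⟨2, 2, 1, 0⟩, ⟨0, 2, 1, 1⟩, ⟨1, 1, 1, 0⟩]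
def PA : List Gn := [⟨0, 3, 1, 1⟩, ⟨0, 3, 2, 1⟩, ⟨1, 1, 1, 0⟩, ⟨2, 2, 1, 0⟩]
def PA' : List Gn := [⟨0, 2, 1, 1⟩, ⟨0, 2, 2, 1⟩, ⟨1, 1, 1, 0⟩, ⟨3, 3, 1, 0⟩]
def PE1 : List Gn := [⟨0, 3, 2, 1⟩, ⟨1, 2, 1, 1⟩, ⟨0, 2, 2, 1⟩, ⟨0, 2, 1, 1⟩, ⟨2, 2, 1, 0⟩]
def PE2 : List Gn := [⟨0, 2, 2, 1⟩, ⟨1, 3, 1, 1⟩, ⟨0, 3, 2, 1⟩, ⟨0, 3, 1, 1⟩, ⟨3, 3, 1, 0⟩]

theorem mem_Mo_of {P : List Gn} {x : Gn} (hx : x ∈ P) (m : ℕ) : m • x.vec ∈ Mo P :=
  nsmul_mem (AddSubmonoid.subset_closure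
    (show x.vec ∈ {v | ∃ y ∈ P, v = y.vec} from ⟨x, hx, rfl⟩)) m

/-- homogeneous inequality submonoid -/
def Ineq (f : Vec → Prop) (h0 : f 0) (ha : ∀ x y, f x → f y → f (x + y)) : AddSubmonoid Vec where
  carrier := {n | f n}
  zero_mem' := h0
  add_mem' := fun {a b} h1 h2 => ha a b h1 h2

theorem mem_PQ1 (n : Vec) : n ∈ Mo PQ1 ↔ (n 2 ≤ n 0 ∧ n 0 ≤ n 2 + n 3) := by
  constructor
  · intro hn
    have : Mo PQ1 ≤ Ineq (fun n => n 2 ≤ n 0 ∧ n 0 ≤ n 2 + n 3) (by simp)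
        (by intro x y hx hy; simp only [Pi.add_apply]; omega) := by
      refine (AddSubmonoid.closure_le).2 ?_
      rintro _ ⟨x, hx, rfl⟩
      simp only [PQ1, List.mem_cons, List.not_mem_nil, or_false] at hx
      rcases hx with rfl | rfl | rfl | rfl <;>
        simp [Ineq, Gn.vec, Pi.single_apply]
    exact this hn
  · rintro ⟨h1, h2⟩
    have e : n = (n 0 - n 2) • (⟨0, 3, 1, 1⟩ : Gn).vec + (n 3 - (n 0 - n 2)) • (⟨3, 3, 1, 0⟩ : Gn).vec +
        (n 2) • (⟨0, 2, 1, 1⟩ : Gn).vec + (n 1) • (⟨1, 1, 1, 0⟩ : Gn).vec := by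
      funext k
      fin_cases k <;> simp [Gn.vec, Pi.single_apply] <;> omega
    rw [e]
    refine add_mem (add_mem (add_mem (mem_Mo_of ?_ _) (mem_Mo_of ?_ _)) (mem_Mo_of ?_ _)) (mem_Mo_of ?_ _) <;>
      simp [PQ1]

theorem mem_PQ2 (n : Vec) : n ∈ Mo PQ2 ↔ (n 3 ≤ n 0 ∧ n 0 ≤ n 2 + n 3) := by
  constructor
  · intro hn
    have : Mo PQ2 ≤ Ineq (fun n => n 3 ≤ n 0 ∧ n 0 ≤ n 2 + n 3) (by simp)
        (by intro x y hx hy; simp only [Pi.add_apply]; omega) := by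
      refine (AddSubmonoid.closure_le).2 ?_
      rintro _ ⟨x, hx, rfl⟩
      simp only [PQ2, List.mem_cons, List.not_mem_nil, or_false] at hx
      rcases hx with rfl | rfl | rfl | rfl <;>
        simp [Ineq, Gn.vec, Pi.single_apply]
    exact this hn
  · rintro ⟨h1, h2⟩
    have e : n = (n 3) • (⟨0, 3, 1, 1⟩ : Gn).vec + (n 2 - (n 0 - n 3)) • (⟨2, 2, 1, 0⟩ : Gn).vec +
        (n 0 - n 3) • (⟨0, 2, 1, 1⟩ : Gn).vec + (n 1) • (⟨1, 1, 1, 0⟩ : Gn).vec := by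
      funext k
      fin_cases k <;> simp [Gn.vec, Pi.single_apply] <;> omega
    rw [e]
    refine add_mem (add_mem (add_mem (mem_Mo_of ?_ _) (mem_Mo_of ?_ _)) (mem_Mo_of ?_ _)) (mem_Mo_of ?_ _) <;>
      simp [PQ2]

theorem mem_PA (n : Vec) : n ∈ Mo PA ↔ (n 3 ≤ n 0 ∧ n 0 ≤ 2 * n 3) := by
  constructor
  · intro hn
    have : Mo PA ≤ Ineq (fun n => n 3 ≤ n 0 ∧ n 0 ≤ 2 * n 3) (by simp)
        (by intro x y hx hy; simp only [Pi.add_apply]; omega) := by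
      refine (AddSubmonoid.closure_le).2 ?_
      rintro _ ⟨x, hx, rfl⟩
      simp only [PA, List.mem_cons, List.not_mem_nil, or_false] at hx
      rcases hx with rfl | rfl | rfl | rfl <;>
        simp [Ineq, Gn.vec, Pi.single_apply]
    exact this hn
  · rintro ⟨h1, h2⟩
    have e : n = (n 3 - (n 0 - n 3)) • (⟨0, 3, 1, 1⟩ : Gn).vec + (n 0 - n 3) • (⟨0, 3, 2, 1⟩ : Gn).vec +
        (n 1) • (⟨1, 1, 1, 0⟩ : Gn).vec + (n 2) • (⟨2, 2, 1, 0⟩ : Gn).vec := by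
      funext k
      fin_cases k <;> simp [Gn.vec, Pi.single_apply] <;> omega
    rw [e]
    refine add_mem (add_mem (add_mem (mem_Mo_of ?_ _) (mem_Mo_of ?_ _)) (mem_Mo_of ?_ _)) (mem_Mo_of ?_ _) <;>
      simp [PA]

theorem mem_PA' (n : Vec) : n ∈ Mo PA' ↔ (n 2 ≤ n 0 ∧ n 0 ≤ 2 * n 2) := by
  constructor
  · intro hn
    have : Mo PA' ≤ Ineq (fun n => n 2 ≤ n 0 ∧ n 0 ≤ 2 * n 2) (by simp)
        (by intro x y hx hy; simp only [Pi.add_apply]; omega) := by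
      refine (AddSubmonoid.closure_le).2 ?_
      rintro _ ⟨x, hx, rfl⟩
      simp only [PA', List.mem_cons, List.not_mem_nil, or_false] at hx
      rcases hx with rfl | rfl | rfl | rfl <;>
        simp [Ineq, Gn.vec, Pi.single_apply]
    exact this hn
  · rintro ⟨h1, h2⟩
    have e : n = (n 2 - (n 0 - n 2)) • (⟨0, 2, 1, 1⟩ : Gn).vec + (n 0 - n 2) • (⟨0, 2, 2, 1⟩ : Gn).vec +
        (n 1) • (⟨1, 1, 1, 0⟩ : Gn).vec + (n 3) • (⟨3, 3, 1, 0⟩ : Gn).vec := by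
      funext k
      fin_cases k <;> simp [Gn.vec, Pi.single_apply] <;> omega
    rw [e]
    refine add_mem (add_mem (add_mem (mem_Mo_of ?_ _) (mem_Mo_of ?_ _)) (mem_Mo_of ?_ _)) (mem_Mo_of ?_ _) <;>
      simp [PA']

theorem mem_PE1 (n : Vec) : n ∈ Mo PE1 ↔ (2 * n 3 ≤ n 0 ∧ n 0 + 2 * n 1 ≤ 2 * n 2 + 2 * n 3) := by
  constructor
  · intro hn
    have : Mo PE1 ≤ Ineq (fun n => 2 * n 3 ≤ n 0 ∧ n 0 + 2 * n 1 ≤ 2 * n 2 + 2 * n 3) (by simp)
        (by intro x y hx hy; simp only [Pi.add_apply]; omega) := by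
      refine (AddSubmonoid.closure_le).2 ?_
      rintro _ ⟨x, hx, rfl⟩
      simp only [PE1, List.mem_cons, List.not_mem_nil, or_false] at hx
      rcases hx with rfl | rfl | rfl | rfl | rfl <;>
        simp [Ineq, Gn.vec, Pi.single_apply]
    exact this hn
  · rintro ⟨h1, h2⟩
    have e : n = (n 3) • (⟨0, 3, 2, 1⟩ : Gn).vec + (n 1) • (⟨1, 2, 1, 1⟩ : Gn).vec +
        ((n 0 - 2 * n 3) / 2) • (⟨0, 2, 2, 1⟩ : Gn).vec +
        ((n 0 - 2 * n 3) % 2) • (⟨0, 2, 1, 1⟩ : Gn).vec +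
        (n 2 - n 1 - (n 0 - 2 * n 3) / 2 - (n 0 - 2 * n 3) % 2) • (⟨2, 2, 1, 0⟩ : Gn).vec := by
      funext k
      fin_cases k <;> simp [Gn.vec, Pi.single_apply] <;> omega
    rw [e]
    refine add_mem (add_mem (add_mem (add_mem (mem_Mo_of ?_ _) (mem_Mo_of ?_ _)) (mem_Mo_of ?_ _)) (mem_Mo_of ?_ _)) (mem_Mo_of ?_ _) <;>
      simp [PE1]

theorem mem_PE2 (n : Vec) : n ∈ Mo PE2 ↔ (2 * n 2 ≤ n 0 ∧ n 0 + 2 * n 1 ≤ 2 * n 2 + 2 * n 3) := by
  constructor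
  · intro hn
    have : Mo PE2 ≤ Ineq (fun n => 2 * n 2 ≤ n 0 ∧ n 0 + 2 * n 1 ≤ 2 * n 2 + 2 * n 3) (by simp)
        (by intro x y hx hy; simp only [Pi.add_apply]; omega) := by
      refine (AddSubmonoid.closure_le).2 ?_
      rintro _ ⟨x, hx, rfl⟩
      simp only [PE2, List.mem_cons, List.not_mem_nil, or_false] at hx
      rcases hx with rfl | rfl | rfl | rfl | rfl <;>
        simp [Ineq, Gn.vec, Pi.single_apply]
    exact this hn
  · rintro ⟨h1, h2⟩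
    have e : n = (n 2) • (⟨0, 2, 2, 1⟩ : Gn).vec + (n 1) • (⟨1, 3, 1, 1⟩ : Gn).vec +
        ((n 0 - 2 * n 2) / 2) • (⟨0, 3, 2, 1⟩ : Gn).vec +
        ((n 0 - 2 * n 2) % 2) • (⟨0, 3, 1, 1⟩ : Gn).vec +
        (n 3 - n 1 - (n 0 - 2 * n 2) / 2 - (n 0 - 2 * n 2) % 2) • (⟨3, 3, 1, 0⟩ : Gn).vec := by
      funext k
      fin_cases k <;> simp [Gn.vec, Pi.single_apply] <;> omega
    rw [e]
    refine add_mem (add_mem (add_mem (add_mem (mem_Mo_of ?_ _) (mem_Mo_of ?_ _)) (mem_Mo_of ?_ _)) (mem_Mo_of ?_ _)) (mem_Mo_of ?_ _) <;>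
      simp [PE2]

/-- The count set of the counterexample. -/
def InS (a b c d : ℕ) : Prop :=
  ¬ (2 * c < a ∧ 2 * d < a ∧ 2 * c + 2 * d < a + 2 * b) ∧ ¬ (a < c ∧ a < d)

theorem inS_iff1 (n : Vec) : InS (n 0) (n 1) (n 2) (n 3) ↔
    (n ∈ Mo PQ1 ∨ n ∈ Mo PQ2 ∨ n ∈ Mo PA ∨ n ∈ Mo PA' ∨ n ∈ Mo PE1) := by
  rw [mem_PQ1, mem_PQ2, mem_PA, mem_PA', mem_PE1]
  unfold InS
  omega

theorem inS_iff2 (n : Vec) : InS (n 0) (n 1) (n 2) (n 3) ↔
    (n ∈ Mo PQ1 ∨ n ∈ Mo PQ2 ∨ n ∈ Mo PA ∨ n ∈ Mo PA' ∨ n ∈ Mo PE2) := by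
  rw [mem_PQ1, mem_PQ2, mem_PA, mem_PA', mem_PE2]
  unfold InS
  omega

end Pool.Agent.Helper22.CF
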