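import Mathlib
import Pool.Agent.Helper22.AutoRel

set_option autoImplicit false
set_option linter.dupNamespace false

namespace Pool.Agent.Helper22.CardThm

open Pool.Agent.Helper22.Auto

/-! ### Littlestone trees -/

section Tree

variable {X : Type}

/-- `h` agrees with the partial assignment `s`. -/
def Agr (h : X → Bool) (s : List (X × Bool)) : Prop := ∀ p ∈ s, h p.1 = p.2

/-- `H` shatters a Littlestone tree of depth `r` above `s`, with labels satisfying `P`. -/
def Tr (H : Set (X → Bool)) (P : X → Prop) : ℕ → List (X × Bool) → Prop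
  | 0, s => ∃ h ∈ H, Agr h s
  | r + 1, s => ∃ u, P u ∧ Tr H P r ((u, true) :: s) ∧ Tr H P r ((u, false) :: s)

theorem Agr.mono {h : X → Bool} {s s' : List (X × Bool)} (hs : s ⊆ s') (h' : Agr h s') :
    Agr h s := fun p hp => h' p (hs hp)

theorem Tr.mono {H : Set (X → Bool)} {P : X → Prop} {r : ℕ} :
    ∀ {s s' : List (X × Bool)}, s ⊆ s' → Tr H P r s' → Tr H P r s := by
  induction r with
  | zero =>
    rintro s s' hs ⟨h, hH, ha⟩
    exact ⟨h, hH, ha.mono hs⟩
  | succ r ih =>
    rintro s s' hs ⟨u, hu, h1, h2⟩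
    exact ⟨u, hu, ih (List.cons_subset_cons _ hs) h1, ih (List.cons_subset_cons _ hs) h2⟩

theorem Tr.leaf {H : Set (X → Bool)} {P : X → Prop} {r : ℕ} :
    ∀ {s : List (X × Bool)}, Tr H P r s → ∃ h ∈ H, Agr h s := by
  induction r with
  | zero =>
    intro s h
    exact h
  | succ r ih =>
    rintro s ⟨u, hu, h1, h2⟩
    obtain ⟨h, hH, ha⟩ := ih h1
    exact ⟨h, hH, ha.mono (List.subset_cons_self _ _)⟩

theorem Tr.imp {H : Set (X → Bool)} {P P' : X → Prop} (hP : ∀ x, P x → P' x) {r : ℕ} :
    ∀ {s : List (X × Bool)}, Tr H P r s → Tr H P' r s := by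
  induction r with
  | zero =>
    intro s h
    exact h
  | succ r ih =>
    rintro s ⟨u, hu, h1, h2⟩
    exact ⟨u, hP u hu, ih h1, ih h2⟩

/-- Ramsey for trees. -/
theorem Tr.ramsey {H : Set (X → Bool)} {P : X → Prop} (C : X → Prop) :
    ∀ (m a b : ℕ) (s : List (X × Bool)), m = a + b → Tr H P m s →
      Tr H (fun x => P x ∧ C x) a s ∨ Tr H (fun x => P x ∧ ¬ C x) b s := by
  intro m
  induction m with
  | zero =>
    intro a b s hm h
    obtain rfl : a = 0 := by omega
    exact Or.inl h
  | succ m ih =>
    intro a b s hm h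
    rcases a with _ | a
    · exact Or.inl h.leaf
    rcases b with _ | b
    · exact Or.inr h.leaf
    obtain ⟨u, hu, h1, h2⟩ := h
    by_cases hc : C u
    · rcases ih a (b + 1) _ (by omega) h1 with k1 | k1
      · rcases ih a (b + 1) _ (by omega) h2 with k2 | k2
        · exact Or.inl ⟨u, ⟨hu, hc⟩, k1, k2⟩
        · exact Or.inr (k2.mono (List.subset_cons_self _ _))
      · exact Or.inr (k1.mono (List.subset_cons_self _ _))
    · rcases ih (a + 1) b _ (by omega) h1 with k1 | k1
      · exact Or.inl (k1.mono (List.subset_cons_self _ _))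
      · rcases ih (a + 1) b _ (by omega) h2 with k2 | k2
        · exact Or.inl (k2.mono (List.subset_cons_self _ _))
        · exact Or.inr ⟨u, ⟨hu, hc⟩, k1, k2⟩

/-- depth needed -/
def dd : ℕ → ℕ
  | 0 => 0
  | m + 1 => (dd m + 1) + (dd m + 1)

theorem Tr.thresh {H : Set (X → Bool)} : ∀ (m : ℕ) (P : X → Prop) (s : List (X × Bool)),
    Tr H P (dd m) s → ∃ xs : Fin m → X, Function.Injective xs ∧ (∀ j, P (xs j)) ∧
      ∀ c ≤ m, ∃ h ∈ H, Agr h s ∧ (Finset.univ.filter (fun j => h (xs j) = true)).card = c := by
  intro m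
  induction m with
  | zero =>
    intro P s h
    obtain ⟨h, hH, ha⟩ := h.leaf
    refine ⟨Fin.elim0, fun i => i.elim0, fun i => i.elim0, fun c hc => ⟨h, hH, ha, ?_⟩⟩
    obtain rfl : c = 0 := by omega
    simp
  | succ m ih =>
    intro P s h
    obtain ⟨h₀, hH₀, ha₀⟩ := h.leaf
    rcases h.ramsey (fun x => h₀ x = true) _ (dd m + 1) (dd m + 1) s rfl with h | h
    · obtain ⟨x₀, ⟨hx₀, hc₀⟩, h1, h2⟩ := h
      obtain ⟨xs, hinj, hP, hxs⟩ := ih _ _ h2
      have hne : ∀ j, xs j ≠ x₀ := by
        intro j hj
        obtain ⟨h', hH', ha', hcard⟩ := hxs m le_rfl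
        have hall : Finset.univ.filter (fun j => h' (xs j) = true) = Finset.univ := by
          rw [← Finset.card_eq_iff_eq_univ, hcard, Fintype.card_fin]
        have h3 : h' (xs j) = true := by
          have : j ∈ Finset.univ.filter (fun j => h' (xs j) = true) := by
            rw [hall]; exact Finset.mem_univ j
          simpa using this
        have h4 : h' x₀ = false := ha' (x₀, false) (List.mem_cons_self)
        rw [hj, h4] at h3
        exact absurd h3 (by decide)
      refine ⟨Fin.cons x₀ xs, ?_, ?_, ?_⟩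
      · rw [Fin.cons_injective_iff]
        refine ⟨?_, hinj⟩
        rintro ⟨j, hj⟩
        exact hne j hj
      · intro j
        refine Fin.cases ?_ (fun j => ?_) j
        · exact hx₀
        · exact (hP j).1
      · intro c hc
        rcases Nat.lt_or_ge m c with h5 | h5
        · obtain rfl : c = m + 1 := by omega
          refine ⟨h₀, hH₀, ha₀, ?_⟩
          have : Finset.univ.filter (fun j : Fin (m+1) => h₀ ((Fin.cons x₀ xs : Fin (m+1) → X) j) = true) = Finset.univ := by
            rw [Finset.filter_eq_self]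
            intro j _
            refine Fin.cases ?_ (fun j => ?_) j
            · exact hc₀
            · exact (hP j).2
          rw [this, Finset.card_univ, Fintype.card_fin]
        · obtain ⟨h', hH', ha', hcard⟩ := hxs c h5
          refine ⟨h', hH', ha'.mono (List.subset_cons_self _ _), ?_⟩
          have h4 : h' x₀ = false := ha' (x₀, false) (List.mem_cons_self)
          rw [Fin.card_filter_univ_succ]
          simp [h4, hcard]
    · obtain ⟨x₀, ⟨hx₀, hc₀⟩, h1, h2⟩ := h
      obtain ⟨xs, hinj, hP, hxs⟩ := ih _ _ h1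
      have hne : ∀ j, xs j ≠ x₀ := by
        intro j hj
        obtain ⟨h', hH', ha', hcard⟩ := hxs 0 (Nat.zero_le _)
        have h3 : ¬ h' (xs j) = true := by
          rw [Finset.card_eq_zero, Finset.filter_eq_empty_iff] at hcard
          exact hcard (Finset.mem_univ j)
        have h4 : h' x₀ = true := ha' (x₀, true) (List.mem_cons_self)
        rw [hj] at h3
        exact h3 h4
      refine ⟨Fin.cons x₀ xs, ?_, ?_, ?_⟩
      · rw [Fin.cons_injective_iff]
        refine ⟨?_, hinj⟩
        rintro ⟨j, hj⟩
        exact hne j hj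
      · intro j
        refine Fin.cases ?_ (fun j => ?_) j
        · exact hx₀
        · exact (hP j).1
      · intro c hc
        rcases c with _ | c
        · refine ⟨h₀, hH₀, ha₀, ?_⟩
          rw [Finset.card_eq_zero, Finset.filter_eq_empty_iff]
          intro j _
          refine Fin.cases ?_ (fun j => ?_) j
          · exact hc₀
          · exact (hP j).2
        · obtain ⟨h', hH', ha', hcard⟩ := hxs c (by omega)
          refine ⟨h', hH', ha'.mono (List.subset_cons_self _ _), ?_⟩
          have h4 : h' x₀ = true := ha' (x₀, true) (List.mem_cons_self)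
          rw [Fin.card_filter_univ_succ]
          simp [h4, hcard]

end Tree

/-! ### Assignments -/

section Main

variable {α : Type} {n : ℕ}

/-- The finite assignment `s` is consistent and violates no exclusion. -/
def OKs (e : (Fin n → List α) → ℕ) (s : List (List α × Bool)) : Prop :=
  (∀ p ∈ s, ∀ q ∈ s, p.1 = q.1 → p.2 = q.2) ∧
  ∀ t : Fin n → List α × Bool, (∀ j, t j ∈ s) → Function.Injective (fun j => (t j).1) →
    e (fun j => (t j).1) ≠ (Finset.univ.filter (fun j => (t j).2 = true)).card

def Pk (e : (Fin n → List α) → ℕ) : ℕ → List (List α × Bool) → Prop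
  | 0, s => OKs e s
  | k + 1, s => ∀ u, Pk e k ((u, true) :: s) ∨ Pk e k ((u, false) :: s)

def Rk (e : (Fin n → List α) → ℕ) (k : ℕ) : ℕ → List (List α × Bool) → Prop
  | 0, s => Pk e k s
  | r + 1, s => ∃ u, Rk e k r ((u, true) :: s) ∧ Rk e k r ((u, false) :: s)

variable {e : (Fin n → List α) → ℕ}

theorem OKs.mono {s s' : List (List α × Bool)} (hs : s ⊆ s') (h : OKs e s') : OKs e s :=
  ⟨fun p hp q hq => h.1 p (hs hp) q (hs hq), fun t ht => h.2 t (fun j => hs (ht j))⟩

theorem Pk.mono {k : ℕ} : ∀ {s s' : List (List α × Bool)}, s ⊆ s' → Pk e k s' → Pk e k s := by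
  induction k with
  | zero =>
    intro s s' hs h
    exact OKs.mono hs h
  | succ k ih =>
    intro s s' hs h u
    exact (h u).imp (ih (List.cons_subset_cons _ hs)) (ih (List.cons_subset_cons _ hs))

theorem Pk.ok {k : ℕ} : ∀ {s : List (List α × Bool)}, Pk e k s → OKs e s := by
  induction k with
  | zero =>
    intro s h
    exact h
  | succ k ih =>
    intro s h
    rcases h [] with h | h
    · exact (ih h).mono (List.subset_cons_self _ _)
    · exact (ih h).mono (List.subset_cons_self _ _)

theorem Pk.decide_list {k : ℕ} : ∀ {s : List (List α × Bool)} (l : List (List α)), l.length ≤ k →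
    Pk e k s → ∃ s', s ⊆ s' ∧ OKs e s' ∧ ∀ x ∈ l, ∃ b, (x, b) ∈ s' := by
  induction k with
  | zero =>
    intro s l hl h
    obtain rfl : l = [] := List.length_eq_zero_iff.1 (by omega)
    exact ⟨s, List.Subset.refl _, h, by simp⟩
  | succ k ih =>
    intro s l hl h
    rcases l with _ | ⟨x, l⟩
    · exact ⟨s, List.Subset.refl _, h.ok, by simp⟩
    · obtain ⟨b, hb⟩ : ∃ b, Pk e k ((x, b) :: s) := by
        rcases h x with h | h
        · exact ⟨_, h⟩
        · exact ⟨_, h⟩
      obtain ⟨s', hs', hok, hdec⟩ := ih l (by simp at hl; omega) hb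
      refine ⟨s', List.Subset.trans (List.subset_cons_self _ _) hs', hok, ?_⟩
      intro y hy
      rcases List.mem_cons.1 hy with rfl | hy
      · exact ⟨b, hs' List.mem_cons_self⟩
      · exact hdec y hy

/-- Total functions which violate no exclusion on `S`. -/
def Good (e : (Fin n → List α) → ℕ) (S : Set (List α)) : Set (List α → Bool) :=
  {h | ∀ xs : Fin n → List α, (∀ j, xs j ∈ S) → Function.Injective xs →
    e xs ≠ (Finset.univ.filter (fun j => h (xs j) = true)).card}

theorem Pk.good {k : ℕ} {s : List (List α × Bool)} (l : List (List α)) (hl : l.length ≤ k)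
    (h : Pk e k s) : ∃ h ∈ Good e {x | x ∈ l}, Agr h s := by
  classical
  obtain ⟨s', hs', hok, hdec⟩ := h.decide_list l hl
  let f : List α → Bool := fun x => decide ((x, true) ∈ s')
  have hf : ∀ p ∈ s', f p.1 = p.2 := by
    rintro ⟨x, b⟩ hp
    cases b with
    | true => simp [f, hp]
    | false =>
      simp only [f, decide_eq_false_iff_not]
      intro hx
      have := hok.1 _ hp _ hx rfl
      simp at this
  refine ⟨f, ?_, fun p hp => hf p (hs' hp)⟩
  intro xs hxs hinj
  have ht : ∀ j, (xs j, f (xs j)) ∈ s' := by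
    intro j
    obtain ⟨b, hb⟩ := hdec (xs j) (hxs j)
    have := hf _ hb
    simp only at this
    rw [this]
    exact hb
  exact hok.2 (fun j => (xs j, f (xs j))) ht hinj

theorem Rk.tr {k : ℕ} : ∀ {r : ℕ} {s : List (List α × Bool)}, Rk e k r s →
    ∃ l : List (List α), l.length + 1 ≤ 2 ^ r ∧ ∀ l' : List (List α), l ⊆ l' → l'.length ≤ k →
      Tr (Good e {x | x ∈ l'}) (fun x => x ∈ l') r s := by
  intro r
  induction r with
  | zero =>
    intro s h
    refine ⟨[], by simp, ?_⟩
    intro l' _ hl'
    exact Pk.good l' hl' h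
  | succ r ih =>
    rintro s ⟨u, h1, h2⟩
    obtain ⟨l1, hl1, k1⟩ := ih h1
    obtain ⟨l2, hl2, k2⟩ := ih h2
    refine ⟨u :: (l1 ++ l2), ?_, ?_⟩
    · simp only [List.length_cons, List.length_append, pow_succ]
      omega
    · intro l' hl' hk
      refine ⟨u, hl' List.mem_cons_self, k1 l' ?_ hk, k2 l' ?_ hk⟩
      · intro x hx
        exact hl' (List.mem_cons_of_mem _ (List.mem_append_left _ hx))
      · intro x hx
        exact hl' (List.mem_cons_of_mem _ (List.mem_append_right _ hx))

theorem not_Rk (he : ∀ w, e w ≤ n) : ¬ Rk e (2 ^ dd n) (dd n) [] := by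
  intro h
  obtain ⟨l, hl, h⟩ := h.tr
  obtain ⟨xs, hinj, hxs, hc⟩ := (h l (List.Subset.refl _) (by omega)).thresh n
  obtain ⟨h', hH, -, hcard⟩ := hc (e xs) (he xs)
  exact hH xs hxs hinj hcard.symm

/-- the assignment `s` is correct for `A` -/
def Cor (A : Set (List α)) (s : List (List α × Bool)) : Prop := ∀ p ∈ s, p.2 = true ↔ p.1 ∈ A

theorem Cor.pk {A : Set (List α)}
    (hA : ∀ w : Fin n → List α, ({x : List α | ∃ j, w j = x ∧ x ∈ A}).ncard ≠ e w) (k : ℕ) :
    ∀ {s : List (List α × Bool)}, Cor A s → Pk e k s := by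
  induction k with
  | zero =>
    intro s hs
    refine ⟨?_, ?_⟩
    · intro p hp q hq hpq
      have h1 := hs p hp
      have h2 := hs q hq
      rw [hpq, ← h2] at h1
      exact Bool.eq_iff_iff.2 h1
    · intro t ht hinj heq
      apply hA (fun j => (t j).1)
      rw [heq]
      have : {x : List α | ∃ j, (t j).1 = x ∧ x ∈ A} =
          (((Finset.univ.filter (fun j => (t j).2 = true)).map ⟨fun j => (t j).1, hinj⟩ :
            Finset (List α)) : Set (List α)) := by
        ext x
        simp only [Set.mem_ofPred_eq, Finset.coe_map, Function.Embedding.coeFn_mk,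
          Finset.coe_filter, Finset.mem_univ, true_and, Set.mem_image]
        constructor
        · rintro ⟨j, rfl, hx⟩
          exact ⟨j, (hs _ (ht j)).2 hx, rfl⟩
        · rintro ⟨j, hj, rfl⟩
          exact ⟨j, rfl, (hs _ (ht j)).1 hj⟩
      rw [this, Set.ncard_coe_finset, Finset.card_map]
  | succ k ih =>
    intro s hs u
    by_cases hu : u ∈ A
    · left
      apply ih
      intro p hp
      rcases List.mem_cons.1 hp with rfl | hp
      · simp [hu]
      · exact hs p hp
    · right
      apply ih
      intro p hp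
      rcases List.mem_cons.1 hp with rfl | hp
      · simp [hu]
      · exact hs p hp

/-- **Definability.** -/
theorem exists_def {A : Set (List α)} (he : ∀ w, e w ≤ n)
    (hA : ∀ w : Fin n → List α, ({x : List α | ∃ j, w j = x ∧ x ∈ A}).ncard ≠ e w) :
    ∃ (k r : ℕ) (c : List (List α × Bool)), ∀ x, x ∈ A ↔ Rk e k r ((x, true) :: c) := by
  classical
  set k := 2 ^ dd n with hk
  have hex : ∃ r, ∃ c, Cor A c ∧ ¬ Rk e k r c := ⟨dd n, [], by intro p hp; simp at hp, not_Rk he⟩
  obtain ⟨c, hc, hr⟩ := Nat.find_spec hex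
  have hmin := fun m => Nat.find_min (m := m) hex
  rcases hr' : Nat.find hex with _ | r
  · rw [hr'] at hr
    exact absurd (Cor.pk hA k hc) hr
  · rw [hr'] at hr
    have hmin' : ∀ c, Cor A c → Rk e k r c := by
      intro c hc
      have := hmin r (by omega)
      push Not at this
      exact this c hc
    refine ⟨k, r, c, fun x => ⟨fun hx => ?_, fun hx => ?_⟩⟩
    · apply hmin'
      intro p hp
      rcases List.mem_cons.1 hp with rfl | hp
      · simp [hx]
      · exact hc p hp
    · by_contra hxA
      apply hr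
      refine ⟨x, hx, hmin' _ ?_⟩
      intro p hp
      rcases List.mem_cons.1 hp with rfl | hp
      · simp [hxA]
      · exact hc p hp

theorem auto_OKs (hauto : ∀ c, Auto (fun w : Fin n → List α => e w = c)) {ι : Type} [Finite ι]
    (l : List ι) (b : ι → Bool) :
    Auto (fun w : ι → List α => OKs e (l.map (fun i => (w i, b i)))) := by
  classical
  have h1 : Auto (fun w : ι → List α => ∀ i i' : ι, i ∈ l → i' ∈ l → w i = w i' → b i = b i') :=
    Auto.forall_fin fun i => Auto.forall_fin fun i' =>
      (Auto.const_prop _).imp ((Auto.const_prop _).imp ((Auto.eq i i').imp (Auto.const_prop _)))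
  have h2 : Auto (fun w : ι → List α => ∀ t : Fin n → ι, (∀ j, t j ∈ l) →
      (∀ j j', w (t j) = w (t j') → j = j') →
      ¬ e (w ∘ t) = (Finset.univ.filter (fun j => b (t j) = true)).card) := by
    refine Auto.forall_fin fun t => (Auto.const_prop _).imp (Auto.imp ?_ ?_)
    · exact Auto.forall_fin fun j => Auto.forall_fin fun j' => (Auto.eq _ _).imp (Auto.const_prop _)
    · exact ((hauto _).comap t).not
  refine (h1.and h2).congr (fun w => ?_)
  unfold OKs
  refine and_congr ?_ ?_
  · constructor
    · intro h p hp q hq hpq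
      obtain ⟨i, hi, rfl⟩ := List.mem_map.1 hp
      obtain ⟨i', hi', rfl⟩ := List.mem_map.1 hq
      exact h i i' hi hi' hpq
    · intro h i i' hi hi' hw
      exact h _ (List.mem_map.2 ⟨i, hi, rfl⟩) _ (List.mem_map.2 ⟨i', hi', rfl⟩) hw
  · constructor
    · intro h t ht hinj
      have ht' : ∀ j, ∃ i ∈ l, (w i, b i) = t j := fun j => List.mem_map.1 (ht j)
      choose t' ht'l ht'e using ht'
      have h3 := h t' ht'l (fun j j' hjj => hinj (by
        simp only [← ht'e]
        exact hjj))
      have e1 : (fun j => (t j).1) = w ∘ t' := by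
        funext j
        simp [← ht'e]
      have e2 : (Finset.univ.filter (fun j => (t j).2 = true)) =
          (Finset.univ.filter (fun j => b (t' j) = true)) := by
        congr 1
        funext j
        simp [← ht'e]
      rw [e1, e2]
      exact h3
    · intro h t ht hinj
      exact h (fun j => (w (t j), b (t j))) (fun j => List.mem_map.2 ⟨t j, ht j, rfl⟩)
        (fun j j' hjj => hinj j j' hjj)

theorem auto_Pk [Finite α] (hauto : ∀ c, Auto (fun w : Fin n → List α => e w = c)) (k : ℕ) :
    ∀ {ι : Type} [Finite ι] (l : List ι) (b : ι → Bool),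
    Auto (fun w : ι → List α => Pk e k (l.map (fun i => (w i, b i)))) := by
  induction k with
  | zero =>
    intro ι _ l b
    exact auto_OKs hauto l b
  | succ k ih =>
    intro ι _ l b
    have h1 := ih (ι := Option ι) (none :: l.map some) (fun o => o.elim true b)
    have h2 := ih (ι := Option ι) (none :: l.map some) (fun o => o.elim false b)
    refine ((h1.or h2).all).congr (fun w => ?_)
    simp only [List.map_cons, List.map_map]
    rfl

theorem auto_Rk [Finite α] (hauto : ∀ c, Auto (fun w : Fin n → List α => e w = c)) (k r : ℕ) :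
    ∀ {ι : Type} [Finite ι] (l : List ι) (b : ι → Bool),
    Auto (fun w : ι → List α => Rk e k r (l.map (fun i => (w i, b i)))) := by
  induction r with
  | zero =>
    intro ι _ l b
    exact auto_Pk hauto k l b
  | succ r ih =>
    intro ι _ l b
    have h1 := ih (ι := Option ι) (none :: l.map some) (fun o => o.elim true b)
    have h2 := ih (ι := Option ι) (none :: l.map some) (fun o => o.elim false b)
    refine ((h1.and h2).ex).congr (fun w => ?_)
    simp only [List.map_cons, List.map_map]
    rfl

theorem auto_Rk_const [Finite α] (hauto : ∀ c, Auto (fun w : Fin n → List α => e w = c))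
    (k r : ℕ) (cc : List (List α × Bool)) :
    ∀ {ι : Type} [Finite ι] (l : List ι) (b : ι → Bool),
    Auto (fun w : ι → List α => Rk e k r (l.map (fun i => (w i, b i)) ++ cc)) := by
  induction cc with
  | nil =>
    intro ι _ l b
    simpa using auto_Rk hauto k r l b
  | cons p cc ih =>
    intro ι _ l b
    have h1 := ih (ι := Option ι) (l.map some ++ [none]) (fun o => o.elim p.2 b)
    refine (h1.subst p.1).congr (fun w => ?_)
    simp only [List.map_append, List.map_map, List.map_cons, List.map_nil, List.append_assoc,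
      List.singleton_append]
    rfl

theorem main_auto [Finite α] {A : Set (List α)} (he : ∀ w, e w ≤ n)
    (hA : ∀ w : Fin n → List α, ({x : List α | ∃ j, w j = x ∧ x ∈ A}).ncard ≠ e w)
    (hauto : ∀ c, Auto (fun w : Fin n → List α => e w = c)) :
    Auto (fun w : Unit → List α => w () ∈ A) := by
  obtain ⟨k, r, cc, h⟩ := exists_def he hA
  have h1 := auto_Rk_const hauto k r cc (ι := Unit) [()] (fun _ => true)
  refine h1.congr (fun w => ?_)
  exact (h (w ())).symm

end Main

end Pool.Agent.Helper22.CardThm
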