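import Mathlib

set_option autoImplicit false

namespace Pool.Agent.Helper22.DiagCore

def Agree (p q : ℕ → ℕ) (k : ℕ) : Prop := ∀ t < k, p t = q t

theorem Agree.refl (p : ℕ → ℕ) (k : ℕ) : Agree p p k := fun _ _ => rfl
theorem Agree.symm {p q : ℕ → ℕ} {k : ℕ} (h : Agree p q k) : Agree q p k :=
  fun t ht => (h t ht).symm
theorem Agree.trans {p q r : ℕ → ℕ} {k : ℕ} (h : Agree p q k) (h' : Agree q r k) : Agree p r k :=
  fun t ht => (h t ht).trans (h' t ht)
theorem Agree.mono {p q : ℕ → ℕ} {k l : ℕ} (h : Agree p q k) (hl : l ≤ k) : Agree p q l :=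
  fun t ht => h t (by omega)

/-- consistent event sequences: `p t = 2 n + 1 + i` is the event `(n, i)` -/
def Ev (p : ℕ → ℕ) : Prop := ∀ s t n, ¬ (p s = 2 * n + 1 ∧ p t = 2 * n + 2)

def Valid (R : (ℕ → ℕ) → ℕ → ℕ → Prop) (p g : ℕ → ℕ) : Prop := ∀ x, ¬ R p (g x) x

structure Setup (R : (ℕ → ℕ) → ℕ → ℕ → Prop) (D : (ℕ → ℕ) → (ℕ → ℕ) → ℕ → ℕ) : Prop where
  equiv : ∀ p, Ev p → Equivalence (R p)
  nontot : ∀ p, Ev p → ∃ a b, ¬ R p a b
  cont : ∀ p, Ev p → ∀ a b, R p a b → ∃ k, ∀ q, Ev q → Agree p q k → R q a b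
  bit : ∀ p, Ev p → ∀ g, Valid R p g → ∀ n, D p g n = 0 ∨ D p g n = 1
  avoid : ∀ p, Ev p → ∀ g, Valid R p g → ∀ n i t, p t = 2 * n + 1 + i → i < 2 → D p g n ≠ i
  dcont : ∀ p, Ev p → ∀ g, Valid R p g → ∀ n, ∃ k, ∀ q, Ev q → Agree p q k → ∀ h, Valid R q h →
    Agree g h k → D q h n = D p g n

variable {R : (ℕ → ℕ) → ℕ → ℕ → Prop} {D : (ℕ → ℕ) → (ℕ → ℕ) → ℕ → ℕ}

/-- truncation -/
def trunc (p : ℕ → ℕ) (k : ℕ) : ℕ → ℕ := fun t => if t < k then p t else 0

theorem trunc_agree (p : ℕ → ℕ) (k : ℕ) : Agree p (trunc p k) k := fun t ht => by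
  simp [trunc, ht]

theorem trunc_ev {p : ℕ → ℕ} (hp : Ev p) (k : ℕ) : Ev (trunc p k) := by
  rintro s t n ⟨ha, hb⟩
  simp only [trunc] at ha hb
  by_cases h1 : s < k
  · by_cases h2 : t < k
    · rw [if_pos h1] at ha
      rw [if_pos h2] at hb
      exact hp s t n ⟨ha, hb⟩
    · rw [if_neg h2] at hb
      omega
  · rw [if_neg h1] at ha
    omega

theorem step1 (S : Setup R D) : ∃ (k : ℕ) (p : ℕ → ℕ) (y z : ℕ), Ev p ∧
    ∀ q, Ev q → Agree p q k → ¬ R q y z := by
  by_contra hcon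
  push Not at hcon
  -- strengthened step
  have hstep : ∀ (k : ℕ) (p : ℕ → ℕ) (y z : ℕ), Ev p → ∃ (k' : ℕ) (p' : ℕ → ℕ), k < k' ∧ Ev p' ∧
      Agree p p' k ∧ ∀ q, Ev q → Agree p' q k' → R q y z := by
    intro k p y z hp
    obtain ⟨q, hq, hpq, hR⟩ := hcon k p y z hp
    obtain ⟨l, hl⟩ := S.cont q hq y z hR
    refine ⟨max (k + 1) l, q, by omega, hq, hpq, fun r hr hqr => hl r hr (hqr.mono (le_max_right _ _))⟩
  choose! K P hK hP hA hR using hstep
  -- the sequence of states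
  let st : ℕ → ℕ × (ℕ → ℕ) := fun j => Nat.rec (0, fun _ => 0)
    (fun j s => (K s.1 s.2 j.unpair.1 j.unpair.2, P s.1 s.2 j.unpair.1 j.unpair.2)) j
  have st_succ : ∀ j, st (j + 1) = (K (st j).1 (st j).2 j.unpair.1 j.unpair.2,
      P (st j).1 (st j).2 j.unpair.1 j.unpair.2) := fun _ => rfl
  have hev : ∀ j, Ev (st j).2 := by
    intro j
    induction j with
    | zero =>
      rintro s t n ⟨h, -⟩
      change 0 = 2 * n + 1 at h
      omega
    | succ j ih => rw [st_succ]; exact hP _ _ _ _ ih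
  have hlt : ∀ j, (st j).1 < (st (j + 1)).1 := fun j => by
    rw [st_succ]; exact hK _ _ _ _ (hev j)
  have hagr : ∀ j, Agree (st j).2 (st (j + 1)).2 (st j).1 := fun j => by
    rw [st_succ]; exact hA _ _ _ _ (hev j)
  have hmono : StrictMono fun j => (st j).1 := strictMono_nat_of_lt_succ hlt
  have hagr' : ∀ i j, i ≤ j → Agree (st i).2 (st j).2 (st i).1 := by
    intro i j hij
    induction j, hij using Nat.le_induction with
    | base => exact Agree.refl _ _
    | succ j hij ih =>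
      exact ih.trans ((hagr j).mono (hmono.monotone hij))
  let L : ℕ → ℕ := fun t => (st (t + 1)).2 t
  have hL : ∀ j, Agree (st j).2 L (st j).1 := by
    intro j t ht
    change (st j).2 t = (st (t + 1)).2 t
    have h1 : t < (st (t + 1)).1 := by
      have := hmono.id_le (t + 1)
      simp only [id] at this
      omega
    rcases le_total j (t + 1) with h | h
    · exact hagr' _ _ h t ht
    · exact (hagr' _ _ h t h1).symm
  have hLev : Ev L := by
    intro s t n h
    have h1 : max s t < (st (max s t + 1)).1 := by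
      have := hmono.id_le (max s t + 1)
      simp only [id] at this
      omega
    have h2 := hL (max s t + 1)
    refine hev (max s t + 1) s t n ?_
    rw [h2 s (by omega), h2 t (by omega)]
    exact h
  obtain ⟨a, b, hab⟩ := S.nontot L hLev
  apply hab
  have h1 := hR (st (Nat.pair a b)).1 (st (Nat.pair a b)).2 a b (hev _) L hLev
  apply h1
  have h2 := hL (Nat.pair a b + 1)
  rw [st_succ] at h2
  simpa using h2

theorem exists_bound (P : ℕ → ℕ → Prop) (hmono : ∀ x k l, k ≤ l → P x k → P x l) (N : ℕ)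
    (h : ∀ x < N, ∃ k, P x k) : ∃ k, ∀ x < N, P x k := by
  induction N with
  | zero => exact ⟨0, fun x hx => absurd hx (by omega)⟩
  | succ N ih =>
    obtain ⟨k, hk⟩ := ih fun x hx => h x (by omega)
    obtain ⟨l, hl⟩ := h N (by omega)
    refine ⟨max k l, fun x hx => ?_⟩
    rcases Nat.lt_succ_iff_lt_or_eq.1 hx with h1 | rfl
    · exact hmono _ _ _ (le_max_left _ _) (hk x h1)
    · exact hmono _ _ _ (le_max_right _ _) hl

theorem lemmaA (S : Setup R D) (p : ℕ → ℕ) (hp : Ev p) (Y : Finset ℕ) (N : ℕ) :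
    ∃ k, ∀ g, (∀ x, g x ∈ Y) → Valid R p g → ∀ q, Ev q → Agree p q k → ∀ h, Valid R q h →
      Agree g h k → ∀ n < N, D q h n = D p g n := by
  classical
  -- pointwise
  have hpt : ∀ g, Valid R p g → ∃ k, ∀ q, Ev q → Agree p q k → ∀ h, Valid R q h →
      Agree g h k → ∀ n < N, D q h n = D p g n := by
    intro g hg
    obtain ⟨k, hk⟩ := exists_bound (fun n k => ∀ q, Ev q → Agree p q k → ∀ h, Valid R q h →
      Agree g h k → D q h n = D p g n)
      (fun n k l hkl hP q hq h1 h hh h2 => hP q hq (h1.mono hkl) h hh (h2.mono hkl)) N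
      (fun n _ => S.dcont p hp g hg n)
    exact ⟨k, fun q hq h1 h hh h2 n hn => hk n hn q hq h1 h hh h2⟩
  choose! kk hkk using hpt
  let C : Set (ℕ → ℕ) := {g | (∀ x, g x ∈ Y) ∧ Valid R p g}
  have hC : IsCompact C := by
    have h1 : IsCompact (Set.pi Set.univ fun _ : ℕ => (Y : Set ℕ)) :=
      isCompact_univ_pi fun _ => Y.finite_toSet.isCompact
    refine h1.of_isClosed_subset ?_ ?_
    · have : C = (⋂ x, {g : ℕ → ℕ | g x ∈ Y}) ∩ ⋂ x, {g : ℕ → ℕ | ¬ R p (g x) x} := by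
        ext g; simp [C, Valid]
      rw [this]
      refine IsClosed.inter (isClosed_iInter fun x => ?_) (isClosed_iInter fun x => ?_)
      · change IsClosed ((fun g : ℕ → ℕ => g x) ⁻¹' {a : ℕ | a ∈ Y})
        exact (isClosed_discrete _).preimage (continuous_apply x)
      · change IsClosed ((fun g : ℕ → ℕ => g x) ⁻¹' {a : ℕ | ¬ R p a x})
        exact (isClosed_discrete _).preimage (continuous_apply x)
    · intro g hg x _
      exact hg.1 x
  have hopen : ∀ g : ℕ → ℕ, IsOpen {h : ℕ → ℕ | Agree g h (kk g)} := by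
    intro g
    have : {h : ℕ → ℕ | Agree g h (kk g)} = ⋂ t ∈ Finset.range (kk g), {h : ℕ → ℕ | g t = h t} := by
      ext h; simp [Agree]
    rw [this]
    refine isOpen_biInter_finset fun t _ => ?_
    exact (isOpen_discrete {a : ℕ | g t = a}).preimage (continuous_apply t)
  obtain ⟨T, hTC, hT⟩ := hC.elim_nhds_subcover (fun g => {h : ℕ → ℕ | Agree g h (kk g)})
    (fun g _ => (hopen g).mem_nhds (Agree.refl _ _))
  refine ⟨T.sup kk, fun g hgY hg q hq hpq h hh hgh n hn => ?_⟩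
  obtain ⟨g1, hg1, hgg⟩ := Set.mem_iUnion₂.1 (hT (show g ∈ C from ⟨hgY, hg⟩))
  have hle : kk g1 ≤ T.sup kk := Finset.le_sup hg1
  have hv1 := (hTC g1 hg1).2
  have hgg' : Agree g1 g (kk g1) := hgg
  have e1 := hkk g1 hv1 q hq (hpq.mono hle) h hh (hgg'.trans (hgh.mono hle)) n hn
  have e2 := hkk g1 hv1 p hp (Agree.refl _ _) g hg hgg' n hn
  rw [e1, e2]

theorem lemmaAB (S : Setup R D) (p : ℕ → ℕ) (hp : Ev p) (Y : Finset ℕ) (y z : ℕ) (hy : y ∈ Y)
    (hz : z ∈ Y) (hyz : ¬ R p y z) (N : ℕ) :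
    ∃ u t, ∀ t', t ≤ t' → ∀ q r, Ev q → Ev r → Agree p q t' → Agree p r t' → ∀ g h, Valid R q g →
      Valid R r h → (∀ x < u, g x ∈ Y) → Agree g h u → ∀ n < N, D q g n = D r h n := by
  classical
  obtain ⟨u, hu⟩ := lemmaA S p hp Y N
  have hb : ∃ t, ∀ x < u, ∀ w ∈ Y, R p w x → ∀ q, Ev q → Agree p q t → R q w x := by
    refine exists_bound (fun x t => ∀ w ∈ Y, R p w x → ∀ q, Ev q → Agree p q t → R q w x)
      (fun x k l hkl hP w hw hR q hq hpq => hP w hw hR q hq (hpq.mono hkl)) u fun x _ => ?_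
    have h2 : ∀ w ∈ Y, ∃ t, R p w x → ∀ q, Ev q → Agree p q t → R q w x := by
      intro w _
      by_cases hR : R p w x
      · obtain ⟨k, hk⟩ := S.cont p hp w x hR
        exact ⟨k, fun _ => hk⟩
      · exact ⟨0, fun h => absurd h hR⟩
    choose! T hT using h2
    exact ⟨Y.sup T, fun w hw hR q hq hpq => hT w hw hR q hq (hpq.mono (Finset.le_sup hw))⟩
  obtain ⟨t, ht⟩ := hb
  refine ⟨u, max u t, fun t' ht' q r hq hr hpq hpr g h hg hh hgY hgh n hn => ?_⟩
  have heq := S.equiv p hp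
  -- extend the common initial part to a valid function for p
  let g0 : ℕ → ℕ := fun x => if x < u then g x else if R p y x then z else y
  have hg0Y : ∀ x, g0 x ∈ Y := by
    intro x
    simp only [g0]
    split_ifs with h1 h2
    exacts [hgY x h1, hz, hy]
  have hg0 : Valid R p g0 := by
    intro x
    simp only [g0]
    split_ifs with h1 h2
    · intro hR
      exact hg x (ht x h1 _ (hgY x h1) hR q hq (hpq.mono (by omega)))
    · intro hR
      exact hyz (heq.trans h2 (heq.symm hR))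
    · exact h2
  have a1 : Agree g0 g u := fun x hx => by simp [g0, hx]
  have e1 := hu g0 hg0Y hg0 q hq (hpq.mono (by omega)) g hg a1 n hn
  have e2 := hu g0 hg0Y hg0 r hr (hpr.mono (by omega)) h hh (a1.trans hgh) n hn
  rw [e1, e2]

end Pool.Agent.Helper22.DiagCore
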