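import Pool.Agent.Helper22.DiagCore

set_option autoImplicit false

namespace Pool.Agent.Helper22.DiagK

open Pool.Agent.Helper22.DiagCore (Agree Valid exists_bound trunc trunc_agree)
open Pool.Agent.Helper22

/-- consistent event sequences: `p t = Nat.pair n i + 1` is the event `(n, i)` -/
def Ev (p : ℕ → ℕ) : Prop :=
  ∀ s t n i j, p s = Nat.pair n i + 1 → p t = Nat.pair n j + 1 → i = j

structure Setup (c : ℕ) (R : (ℕ → ℕ) → ℕ → ℕ → Prop) (D : (ℕ → ℕ) → (ℕ → ℕ) → ℕ → ℕ) : Prop where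
  equiv : ∀ p, Ev p → Equivalence (R p)
  nontot : ∀ p, Ev p → ∃ a b, ¬ R p a b
  cont : ∀ p, Ev p → ∀ a b, R p a b → ∃ k, ∀ q, Ev q → Agree p q k → R q a b
  lt : ∀ p, Ev p → ∀ g, Valid R p g → ∀ n, D p g n < c
  avoid : ∀ p, Ev p → ∀ g, Valid R p g → ∀ n i t, p t = Nat.pair n i + 1 → D p g n ≠ i
  dcont : ∀ p, Ev p → ∀ g, Valid R p g → ∀ n, ∃ k, ∀ q, Ev q → Agree p q k → ∀ h, Valid R q h →
    Agree g h k → D q h n = D p g n

variable {c : ℕ} {R : (ℕ → ℕ) → ℕ → ℕ → Prop} {D : (ℕ → ℕ) → (ℕ → ℕ) → ℕ → ℕ}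

theorem trunc_ev {p : ℕ → ℕ} (hp : Ev p) (k : ℕ) : Ev (trunc p k) := by
  intro s t n i j ha hb
  simp only [trunc] at ha hb
  by_cases h1 : s < k
  · by_cases h2 : t < k
    · rw [if_pos h1] at ha
      rw [if_pos h2] at hb
      exact hp s t n i j ha hb
    · rw [if_neg h2] at hb
      omega
  · rw [if_neg h1] at ha
    omega

theorem step1 (S : Setup c R D) : ∃ (k : ℕ) (p : ℕ → ℕ) (y z : ℕ), Ev p ∧
    ∀ q, Ev q → Agree p q k → ¬ R q y z := by
  by_contra hcon
  push Not at hcon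
  -- strengthened step
  have hstep : ∀ (k : ℕ) (p : ℕ → ℕ) (y z : ℕ), Ev p → ∃ (k' : ℕ) (p' : ℕ → ℕ), k < k' ∧ Ev p' ∧
      Agree p p' k ∧ ∀ q, Ev q → Agree p' q k' → R q y z := by
    intro k p y z hp
    obtain ⟨q, hq, hpq, hR⟩ := hcon k p y z hp
    obtain ⟨l, hl⟩ := S.cont q hq y z hR
    refine ⟨max (k + 1) l, q, by omega, hq, hpq, fun r hr hqr => hl r hr (hqr.mono (le_max_right _ _))⟩
  choose! K P hK hP hA hR using hstep
  -- the sequence of states
  let st : ℕ → ℕ × (ℕ → ℕ) := fun j => Nat.rec (0, fun _ => 0)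
    (fun j s => (K s.1 s.2 j.unpair.1 j.unpair.2, P s.1 s.2 j.unpair.1 j.unpair.2)) j
  have st_succ : ∀ j, st (j + 1) = (K (st j).1 (st j).2 j.unpair.1 j.unpair.2,
      P (st j).1 (st j).2 j.unpair.1 j.unpair.2) := fun _ => rfl
  have hev : ∀ j, Ev (st j).2 := by
    intro j
    induction j with
    | zero =>
      intro s t n i j h _
      change 0 = Nat.pair n i + 1 at h
      omega
    | succ j ih => rw [st_succ]; exact hP _ _ _ _ ih
  have hlt : ∀ j, (st j).1 < (st (j + 1)).1 := fun j => by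
    rw [st_succ]; exact hK _ _ _ _ (hev j)
  have hagr : ∀ j, Agree (st j).2 (st (j + 1)).2 (st j).1 := fun j => by
    rw [st_succ]; exact hA _ _ _ _ (hev j)
  have hmono : StrictMono fun j => (st j).1 := strictMono_nat_of_lt_succ hlt
  have hagr' : ∀ i j, i ≤ j → Agree (st i).2 (st j).2 (st i).1 := by
    intro i j hij
    induction j, hij using Nat.le_induction with
    | base => exact Agree.refl _ _
    | succ j hij ih =>
      exact ih.trans ((hagr j).mono (hmono.monotone hij))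
  let L : ℕ → ℕ := fun t => (st (t + 1)).2 t
  have hL : ∀ j, Agree (st j).2 L (st j).1 := by
    intro j t ht
    change (st j).2 t = (st (t + 1)).2 t
    have h1 : t < (st (t + 1)).1 := by
      have := hmono.id_le (t + 1)
      simp only [id] at this
      omega
    rcases le_total j (t + 1) with h | h
    · exact hagr' _ _ h t ht
    · exact (hagr' _ _ h t h1).symm
  have hLev : Ev L := by
    intro s t n i j e1 e2
    have h1 : max s t < (st (max s t + 1)).1 := by
      have := hmono.id_le (max s t + 1)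
      simp only [id] at this
      omega
    have h2 := hL (max s t + 1)
    refine hev (max s t + 1) s t n i j ?_ ?_
    · rw [h2 s (by omega)]; exact e1
    · rw [h2 t (by omega)]; exact e2
  obtain ⟨a, b, hab⟩ := S.nontot L hLev
  apply hab
  have h1 := hR (st (Nat.pair a b)).1 (st (Nat.pair a b)).2 a b (hev _) L hLev
  apply h1
  have h2 := hL (Nat.pair a b + 1)
  rw [st_succ] at h2
  simpa using h2

theorem lemmaA (S : Setup c R D) (p : ℕ → ℕ) (hp : Ev p) (Y : Finset ℕ) (N : ℕ) :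
    ∃ k, ∀ g, (∀ x, g x ∈ Y) → Valid R p g → ∀ q, Ev q → Agree p q k → ∀ h, Valid R q h →
      Agree g h k → ∀ n < N, D q h n = D p g n := by
  classical
  -- pointwise
  have hpt : ∀ g, Valid R p g → ∃ k, ∀ q, Ev q → Agree p q k → ∀ h, Valid R q h →
      Agree g h k → ∀ n < N, D q h n = D p g n := by
    intro g hg
    obtain ⟨k, hk⟩ := exists_bound (fun n k => ∀ q, Ev q → Agree p q k → ∀ h, Valid R q h →
      Agree g h k → D q h n = D p g n)
      (fun n k l hkl hP q hq h1 h hh h2 => hP q hq (h1.mono hkl) h hh (h2.mono hkl)) N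
      (fun n _ => S.dcont p hp g hg n)
    exact ⟨k, fun q hq h1 h hh h2 n hn => hk n hn q hq h1 h hh h2⟩
  choose! kk hkk using hpt
  let C : Set (ℕ → ℕ) := {g | (∀ x, g x ∈ Y) ∧ Valid R p g}
  have hC : IsCompact C := by
    have h1 : IsCompact (Set.pi Set.univ fun _ : ℕ => (Y : Set ℕ)) :=
      isCompact_univ_pi fun _ => Y.finite_toSet.isCompact
    refine h1.of_isClosed_subset ?_ ?_
    · have : C = (⋂ x, {g : ℕ → ℕ | g x ∈ Y}) ∩ ⋂ x, {g : ℕ → ℕ | ¬ R p (g x) x} := by
        ext g; simp [C, Valid]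
      rw [this]
      refine IsClosed.inter (isClosed_iInter fun x => ?_) (isClosed_iInter fun x => ?_)
      · change IsClosed ((fun g : ℕ → ℕ => g x) ⁻¹' {a : ℕ | a ∈ Y})
        exact (isClosed_discrete _).preimage (continuous_apply x)
      · change IsClosed ((fun g : ℕ → ℕ => g x) ⁻¹' {a : ℕ | ¬ R p a x})
        exact (isClosed_discrete _).preimage (continuous_apply x)
    · intro g hg x _
      exact hg.1 x
  have hopen : ∀ g : ℕ → ℕ, IsOpen {h : ℕ → ℕ | Agree g h (kk g)} := by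
    intro g
    have : {h : ℕ → ℕ | Agree g h (kk g)} = ⋂ t ∈ Finset.range (kk g), {h : ℕ → ℕ | g t = h t} := by
      ext h; simp [Agree]
    rw [this]
    refine isOpen_biInter_finset fun t _ => ?_
    exact (isOpen_discrete {a : ℕ | g t = a}).preimage (continuous_apply t)
  obtain ⟨T, hTC, hT⟩ := hC.elim_nhds_subcover (fun g => {h : ℕ → ℕ | Agree g h (kk g)})
    (fun g _ => (hopen g).mem_nhds (Agree.refl _ _))
  refine ⟨T.sup kk, fun g hgY hg q hq hpq h hh hgh n hn => ?_⟩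
  obtain ⟨g1, hg1, hgg⟩ := Set.mem_iUnion₂.1 (hT (show g ∈ C from ⟨hgY, hg⟩))
  have hle : kk g1 ≤ T.sup kk := Finset.le_sup hg1
  have hv1 := (hTC g1 hg1).2
  have hgg' : Agree g1 g (kk g1) := hgg
  have e1 := hkk g1 hv1 q hq (hpq.mono hle) h hh (hgg'.trans (hgh.mono hle)) n hn
  have e2 := hkk g1 hv1 p hp (Agree.refl _ _) g hg hgg' n hn
  rw [e1, e2]

theorem lemmaAB (S : Setup c R D) (p : ℕ → ℕ) (hp : Ev p) (Y : Finset ℕ) (y z : ℕ) (hy : y ∈ Y)
    (hz : z ∈ Y) (hyz : ¬ R p y z) (N : ℕ) :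
    ∃ u t, ∀ t', t ≤ t' → ∀ q r, Ev q → Ev r → Agree p q t' → Agree p r t' → ∀ g h, Valid R q g →
      Valid R r h → (∀ x < u, g x ∈ Y) → Agree g h u → ∀ n < N, D q g n = D r h n := by
  classical
  obtain ⟨u, hu⟩ := lemmaA S p hp Y N
  have hb : ∃ t, ∀ x < u, ∀ w ∈ Y, R p w x → ∀ q, Ev q → Agree p q t → R q w x := by
    refine exists_bound (fun x t => ∀ w ∈ Y, R p w x → ∀ q, Ev q → Agree p q t → R q w x)
      (fun x k l hkl hP w hw hR q hq hpq => hP w hw hR q hq (hpq.mono hkl)) u fun x _ => ?_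
    have h2 : ∀ w ∈ Y, ∃ t, R p w x → ∀ q, Ev q → Agree p q t → R q w x := by
      intro w _
      by_cases hR : R p w x
      · obtain ⟨k, hk⟩ := S.cont p hp w x hR
        exact ⟨k, fun _ => hk⟩
      · exact ⟨0, fun h => absurd h hR⟩
    choose! T hT using h2
    exact ⟨Y.sup T, fun w hw hR q hq hpq => hT w hw hR q hq (hpq.mono (Finset.le_sup hw))⟩
  obtain ⟨t, ht⟩ := hb
  refine ⟨u, max u t, fun t' ht' q r hq hr hpq hpr g h hg hh hgY hgh n hn => ?_⟩
  have heq := S.equiv p hp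
  -- extend the common initial part to a valid function for p
  let g0 : ℕ → ℕ := fun x => if x < u then g x else if R p y x then z else y
  have hg0Y : ∀ x, g0 x ∈ Y := by
    intro x
    simp only [g0]
    split_ifs with h1 h2
    exacts [hgY x h1, hz, hy]
  have hg0 : Valid R p g0 := by
    intro x
    simp only [g0]
    split_ifs with h1 h2
    · intro hR
      exact hg x (ht x h1 _ (hgY x h1) hR q hq (hpq.mono (by omega)))
    · intro hR
      exact hyz (heq.trans h2 (heq.symm hR))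
    · exact h2
  have a1 : Agree g0 g u := fun x hx => by simp [g0, hx]
  have e1 := hu g0 hg0Y hg0 q hq (hpq.mono (by omega)) g hg a1 n hn
  have e2 := hu g0 hg0Y hg0 r hr (hpr.mono (by omega)) h hh (a1.trans hgh) n hn
  rw [e1, e2]


/-! ### Extending by events -/

def Bd (q : ℕ → ℕ) (S : ℕ → Prop) : Prop := ∀ t n i, q t = Nat.pair n i + 1 → S n

def one (q : ℕ → ℕ) (t v : ℕ) : ℕ → ℕ := fun s => if s < t then q s else if s = t then v else 0

theorem one_cases (q : ℕ → ℕ) (t v s : ℕ) :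
    (s < t ∧ one q t v s = q s) ∨ (s = t ∧ one q t v s = v) ∨ one q t v s = 0 := by
  unfold one
  by_cases h : s < t
  · left; exact ⟨h, if_pos h⟩
  · right
    by_cases h2 : s = t
    · left; exact ⟨h2, by rw [if_neg h, if_pos h2]⟩
    · right; rw [if_neg h, if_neg h2]

theorem one_agree (q : ℕ → ℕ) (t v : ℕ) : Agree q (one q t v) t := fun s hs => by
  unfold one
  rw [if_pos hs]

theorem pair_eq {a b x y : ℕ} (h : Nat.pair a b + 1 = Nat.pair x y + 1) : a = x ∧ b = y :=
  Nat.pair_eq_pair.1 (Nat.succ_injective h)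

theorem one_ev {q : ℕ → ℕ} {S : ℕ → Prop} {n : ℕ} (hq : Ev q) (hb : Bd q S) (hn : ¬ S n)
    (t i : ℕ) : Ev (one q t (Nat.pair n i + 1)) := by
  intro s s' n' i' j' h1 h2
  rcases one_cases q t (Nat.pair n i + 1) s with ⟨_, h⟩ | ⟨_, h⟩ | h
  · rw [h] at h1
    rcases one_cases q t (Nat.pair n i + 1) s' with ⟨_, h'⟩ | ⟨_, h'⟩ | h'
    · rw [h'] at h2
      exact hq s s' n' i' j' h1 h2
    · rw [h'] at h2
      obtain ⟨rfl, -⟩ := pair_eq h2
      exact absurd (hb _ _ _ h1) hn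
    · omega
  · rw [h] at h1
    obtain ⟨rfl, rfl⟩ := pair_eq h1
    rcases one_cases q t (Nat.pair n i + 1) s' with ⟨_, h'⟩ | ⟨_, h'⟩ | h'
    · rw [h'] at h2
      exact absurd (hb _ _ _ h2) hn
    · rw [h'] at h2
      exact (pair_eq h2).2
    · omega
  · omega

theorem one_bd {q : ℕ → ℕ} {S : ℕ → Prop} {n : ℕ} (hb : Bd q S) (t i : ℕ) :
    Bd (one q t (Nat.pair n i + 1)) (fun x => S x ∨ x = n) := by
  intro s n' i' h1
  rcases one_cases q t (Nat.pair n i + 1) s with ⟨_, h⟩ | ⟨_, h⟩ | h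
  · rw [h] at h1
    exact Or.inl (hb _ _ _ h1)
  · rw [h] at h1
    exact Or.inr (pair_eq h1).1.symm
  · omega

def app (p : ℕ → ℕ) (t1 M K : ℕ) (σ : Fin K → Fin c) : ℕ → ℕ := fun t =>
  if t < t1 then p t else if h : t - t1 < K then Nat.pair (M + (t - t1)) (σ ⟨t - t1, h⟩) + 1 else 0

theorem app_cases (p : ℕ → ℕ) (t1 M K : ℕ) (σ : Fin K → Fin c) (t : ℕ) :
    (t < t1 ∧ app p t1 M K σ t = p t) ∨
    (∃ i : Fin K, t = t1 + i ∧ app p t1 M K σ t = Nat.pair (M + i) (σ i) + 1) ∨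
    app p t1 M K σ t = 0 := by
  unfold app
  by_cases h : t < t1
  · left; exact ⟨h, by rw [if_pos h]⟩
  · right
    by_cases h2 : t - t1 < K
    · left
      refine ⟨⟨t - t1, h2⟩, by simp; omega, ?_⟩
      rw [if_neg h, dif_pos h2]
    · right
      rw [if_neg h, dif_neg h2]

theorem app_agree (p : ℕ → ℕ) (t1 M K : ℕ) (σ : Fin K → Fin c) : Agree p (app p t1 M K σ) t1 := by
  intro t ht
  unfold app
  rw [if_pos ht]

theorem app_at (p : ℕ → ℕ) (t1 M K : ℕ) (σ : Fin K → Fin c) (i : Fin K) :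
    app p t1 M K σ (t1 + i) = Nat.pair (M + i) (σ i) + 1 := by
  rcases app_cases p t1 M K σ (t1 + i) with ⟨h, -⟩ | ⟨j, hj, h⟩ | h
  · omega
  · have : i = j := Fin.ext (by omega)
    rw [h, this]
  · exfalso
    unfold app at h
    rw [if_neg (by omega), dif_pos (by have := i.2; omega)] at h
    omega

theorem app_ev {p : ℕ → ℕ} (hp : Ev p) {m : ℕ} (hm : Bd p (fun n => n < m)) (t1 M K : ℕ)
    (hM : m ≤ M) (σ : Fin K → Fin c) : Ev (app p t1 M K σ) := by
  intro s t n i j h1 h2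
  rcases app_cases p t1 M K σ s with ⟨_, h⟩ | ⟨a, ha, h⟩ | h
  · rw [h] at h1
    rcases app_cases p t1 M K σ t with ⟨_, h'⟩ | ⟨b, hb, h'⟩ | h'
    · rw [h'] at h2
      exact hp s t n i j h1 h2
    · rw [h'] at h2
      have e1 := (pair_eq h2).1
      have e2 : n < m := hm _ _ _ h1
      omega
    · omega
  · rw [h] at h1
    rcases app_cases p t1 M K σ t with ⟨_, h'⟩ | ⟨b, hb, h'⟩ | h'
    · rw [h'] at h2
      have e1 := (pair_eq h1).1
      have e2 : n < m := hm _ _ _ h2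
      omega
    · rw [h'] at h2
      have e1 := pair_eq h1
      have e2 := pair_eq h2
      have : a = b := Fin.ext (by omega)
      subst this
      omega
    · omega
  · omega

theorem app_bd {p : ℕ → ℕ} {m : ℕ} (hm : Bd p (fun n => n < m)) (t1 M K : ℕ)
    (σ : Fin K → Fin c) : Bd (app p t1 M K σ) (fun n => n < m ∨ M ≤ n) := by
  intro t n i h1
  rcases app_cases p t1 M K σ t with ⟨_, h⟩ | ⟨a, ha, h⟩ | h
  · rw [h] at h1
    exact Or.inl (hm _ _ _ h1)
  · rw [h] at h1
    have := (pair_eq h1).1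
    right; omega
  · omega

/-! ### Finite combinatorics -/

theorem common_valid {A : Fin c → ℕ → ℕ → Prop} (hA : ∀ i, Equivalence (A i))
    (W : Fin (c + 1) → ℕ) (hW : ∀ i a b, a ≠ b → ¬ A i (W a) (W b)) (x : ℕ) :
    ∃ a, ∀ i, ¬ A i (W a) x := by
  by_contra h
  push Not at h
  choose f hf using h
  obtain ⟨a, b, hab, he⟩ := Fintype.exists_ne_map_eq_of_card_lt f (by simp)
  have h2 := hf b
  rw [← he] at h2
  exact hW (f a) a b hab ((hA _).trans (hf a) ((hA _).symm h2))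

theorem exists_good {K u : ℕ} (Bad : (Fin (c + 1) → Fin u) → (Fin K → Fin c) → Prop)
    (h : ∀ W, ∀ i, ∃ col : Fin c, ∀ σ, Bad W σ → σ i ≠ col)
    (hK : u ^ (c + 1) * (c - 1) ^ K < c ^ K) : ∃ σ, ∀ W, ¬ Bad W σ := by
  classical
  by_contra hcon
  push Not at hcon
  choose col hcol using h
  have h1 : (Finset.univ : Finset (Fin K → Fin c)) ⊆ Finset.univ.biUnion fun W =>
      Fintype.piFinset fun i => Finset.univ.erase (col W i) := by
    intro σ _
    obtain ⟨W, hW⟩ := hcon σ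
    rw [Finset.mem_biUnion]
    refine ⟨W, Finset.mem_univ _, ?_⟩
    rw [Fintype.mem_piFinset]
    intro i
    rw [Finset.mem_erase]
    exact ⟨hcol W i σ hW, Finset.mem_univ _⟩
  have h2 := Finset.card_le_card h1
  have h3 : (Finset.univ.biUnion fun W : Fin (c + 1) → Fin u =>
      Fintype.piFinset fun i : Fin K => Finset.univ.erase (col W i)).card ≤
      (Finset.univ : Finset (Fin (c + 1) → Fin u)).card * (c - 1) ^ K := by
    refine Finset.card_biUnion_le_card_mul _ _ _ fun W _ => ?_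
    rw [Fintype.card_piFinset]
    simp
  have h4 : (Finset.univ : Finset (Fin K → Fin c)).card = c ^ K := by simp
  have h5 : (Finset.univ : Finset (Fin (c + 1) → Fin u)).card = u ^ (c + 1) := by simp
  rw [h5] at h3
  rw [h4] at h2
  omega

theorem exists_K (hc : 0 < c) (A : ℕ) : ∃ K, A * (c - 1) ^ K < c ^ K := by
  have hc' : (0 : ℝ) < c := by exact_mod_cast hc
  obtain ⟨K, hK⟩ := exists_pow_lt_of_lt_one (show (0 : ℝ) < 1 / (A + 1) by positivity)
    (show ((c - 1 : ℕ) : ℝ) / c < 1 by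
      rw [div_lt_one hc']
      exact_mod_cast Nat.sub_lt hc one_pos)
  refine ⟨K, ?_⟩
  rw [div_pow, div_lt_div_iff₀ (by positivity) (by positivity)] at hK
  have h2 : (((c - 1 : ℕ) : ℝ) ^ K * (A + 1)) < 1 * (c : ℝ) ^ K := hK
  have h3 : (c - 1) ^ K * (A + 1) < c ^ K := by
    rw [one_mul] at h2
    exact_mod_cast h2
  nlinarith [Nat.zero_le ((c - 1) ^ K)]

/-- at most `l` classes among the numbers below `u` -/
def AtMost (A : ℕ → ℕ → Prop) (u l : ℕ) : Prop :=
  ∀ W : Fin (l + 1) → Fin u, ∃ a b, a ≠ b ∧ A (W a) (W b)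

theorem eq_of_atMost {A B : ℕ → ℕ → Prop} (hA : Equivalence A) (hB : Equivalence B) {u l : ℕ}
    (hAB : ∀ x < u, ∀ y < u, A x y → B x y) (h1 : AtMost A u (l + 1)) (h2 : ¬ AtMost B u l)
    {x y : ℕ} (hx : x < u) (hy : y < u) (hxy : B x y) : A x y := by
  unfold AtMost at h2
  push Not at h2
  obtain ⟨W, hW⟩ := h2
  have key : ∀ x (hx : x < u), ∃ a, A x (W a) := by
    intro x hx
    obtain ⟨a, b, hab, h⟩ := h1 (Fin.cons ⟨x, hx⟩ W)
    induction a using Fin.cases with
    | zero =>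
      induction b using Fin.cases with
      | zero => exact absurd rfl hab
      | succ b => exact ⟨b, by simpa using h⟩
    | succ a =>
      induction b using Fin.cases with
      | zero => exact ⟨a, hA.symm (by simpa using h)⟩
      | succ b =>
        exfalso
        have h' : A (W a) (W b) := by simpa using h
        exact hW a b (fun he => hab (by rw [he])) (hAB _ (W a).2 _ (W b).2 h')
  obtain ⟨a, ha⟩ := key x hx
  obtain ⟨b, hb⟩ := key y hy
  have hab : a = b := by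
    by_contra hne
    exact hW a b hne (hB.trans (hB.symm (hAB _ hx _ (W a).2 ha)) (hB.trans hxy (hAB _ hy _ (W b).2 hb)))
  subst hab
  exact hA.trans ha (hA.symm hb)

end Pool.Agent.Helper22.DiagK
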