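import Pool.Agent.Helper22.DiagKMain

set_option autoImplicit false

namespace Pool.Agent.Helper22.DiagK

open Pool.Agent.Helper22.DiagCore (Agree Valid exists_bound trunc trunc_agree)
open Pool.Agent.Helper22

theorem generic (Φ : ℕ → ℕ → (ℕ → ℕ) → Prop)
    (hΦ : ∀ j k p q, Agree p q k → Φ j k p → Φ j k q) (p1 : ℕ → ℕ) (k1 : ℕ) (hp1 : Ev p1)
    (hstep : ∀ j k p, Ev p → Agree p1 p k1 → k1 ≤ k →
      ∃ k' p', k < k' ∧ Ev p' ∧ Agree p p' k ∧ Φ j k' p') :
    ∃ L, Ev L ∧ Agree p1 L k1 ∧ ∀ j, ∃ k, Φ j k L := by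
  choose! K P hK hP hA hF using hstep
  let st : ℕ → ℕ × (ℕ → ℕ) := fun j => Nat.rec (k1, p1)
    (fun j s => (K j s.1 s.2, P j s.1 s.2)) j
  have st_succ : ∀ j, st (j + 1) = (K j (st j).1 (st j).2, P j (st j).1 (st j).2) := fun _ => rfl
  have hinv : ∀ j, Ev (st j).2 ∧ Agree p1 (st j).2 k1 ∧ k1 ≤ (st j).1 := by
    intro j
    induction j with
    | zero => exact ⟨hp1, Agree.refl _ _, le_rfl⟩
    | succ j ih =>
      obtain ⟨h1, h2, h3⟩ := ih
      rw [st_succ]
      exact ⟨hP _ _ _ h1 h2 h3, h2.trans ((hA _ _ _ h1 h2 h3).mono h3),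
        h3.trans (hK _ _ _ h1 h2 h3).le⟩
  have hlt : ∀ j, (st j).1 < (st (j + 1)).1 := fun j => by
    rw [st_succ]; exact hK _ _ _ (hinv j).1 (hinv j).2.1 (hinv j).2.2
  have hagr : ∀ j, Agree (st j).2 (st (j + 1)).2 (st j).1 := fun j => by
    rw [st_succ]; exact hA _ _ _ (hinv j).1 (hinv j).2.1 (hinv j).2.2
  have hmono : StrictMono fun j => (st j).1 := strictMono_nat_of_lt_succ hlt
  have hagr' : ∀ i j, i ≤ j → Agree (st i).2 (st j).2 (st i).1 := by
    intro i j hij
    induction j, hij using Nat.le_induction with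
    | base => exact Agree.refl _ _
    | succ j hij ih =>
      exact ih.trans ((hagr j).mono (hmono.monotone hij))
  let L : ℕ → ℕ := fun t => (st (t + 1)).2 t
  have hlt' : ∀ t, t < (st (t + 1)).1 := by
    intro t
    have := hmono.id_le (t + 1)
    simp only [id] at this
    omega
  have hL : ∀ j, Agree (st j).2 L (st j).1 := by
    intro j t ht
    change (st j).2 t = (st (t + 1)).2 t
    have h1 := hlt' t
    rcases le_total j (t + 1) with h | h
    · exact hagr' _ _ h t ht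
    · exact (hagr' _ _ h t h1).symm
  refine ⟨L, ?_, hL 0, fun j => ⟨(st (j + 1)).1, ?_⟩⟩
  · intro s t n i j e1 e2
    have h1 := hlt' (max s t)
    have h2 := hL (max s t + 1)
    refine (hinv (max s t + 1)).1 s t n i j ?_ ?_
    · rw [h2 s (by omega)]; exact e1
    · rw [h2 t (by omega)]; exact e2
  · refine hΦ _ _ _ _ (hL (j + 1)) ?_
    have := hF j (st j).1 (st j).2 (hinv j).1 (hinv j).2.1 (hinv j).2.2
    rw [st_succ]
    exact this

/-- as `Setup`, but the bound is part of the output: `D p g 0` is the bound, and `D p g (n + 1)` is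
the `n`-th value -/
structure Setup' (R : (ℕ → ℕ) → ℕ → ℕ → Prop) (D : (ℕ → ℕ) → (ℕ → ℕ) → ℕ → ℕ) : Prop where
  equiv : ∀ p, Ev p → Equivalence (R p)
  nontot : ∀ p, Ev p → ∃ a b, ¬ R p a b
  cont : ∀ p, Ev p → ∀ a b, R p a b → ∃ k, ∀ q, Ev q → Agree p q k → R q a b
  lt : ∀ p, Ev p → ∀ g, Valid R p g → ∀ n, D p g (n + 1) < D p g 0
  avoid : ∀ p, Ev p → ∀ g, Valid R p g → ∀ n i t, p t = Nat.pair n i + 1 → D p g (n + 1) ≠ i
  dcont : ∀ p, Ev p → ∀ g, Valid R p g → ∀ n, ∃ k, ∀ q, Ev q → Agree p q k → ∀ h, Valid R q h →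
    Agree g h k → D q h n = D p g n

/-- put the sequence `p`, with its events shifted by `m`, after the first `k` values of `L` -/
def after (L : ℕ → ℕ) (k m : ℕ) (p : ℕ → ℕ) : ℕ → ℕ := fun t =>
  if t < k then L t else if p (t - k) = 0 then 0 else
    Nat.pair ((Nat.unpair (p (t - k) - 1)).1 + m) (Nat.unpair (p (t - k) - 1)).2 + 1

theorem after_agree (L : ℕ → ℕ) (k m : ℕ) (p : ℕ → ℕ) : Agree L (after L k m p) k := by
  intro t ht
  unfold after
  rw [if_pos ht]

theorem after_at (L : ℕ → ℕ) (k m : ℕ) (p : ℕ → ℕ) {t n i : ℕ} (h : p t = Nat.pair n i + 1) :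
    after L k m p (k + t) = Nat.pair (n + m) i + 1 := by
  unfold after
  rw [if_neg (by omega)]
  have h1 : k + t - k = t := by omega
  rw [h1, h, if_neg (by omega), Nat.add_sub_cancel, Nat.unpair_pair]

theorem after_inv (L : ℕ → ℕ) (k m : ℕ) (p : ℕ → ℕ) {t n i : ℕ}
    (h : after L k m p t = Nat.pair n i + 1) :
    (t < k ∧ L t = Nat.pair n i + 1) ∨ (∃ n', n = n' + m ∧ p (t - k) = Nat.pair n' i + 1) := by
  unfold after at h
  split_ifs at h with h1 h2
  · exact Or.inl ⟨h1, h⟩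
  · right
    obtain ⟨h3, h4⟩ := pair_eq h
    refine ⟨(Nat.unpair (p (t - k) - 1)).1, h3.symm, ?_⟩
    rw [← h4, Nat.pair_unpair]
    omega

theorem after_ev {L : ℕ → ℕ} {k m : ℕ} (hL : Ev L) (hm : ∀ t < k, L t ≤ m) {p : ℕ → ℕ}
    (hp : Ev p) : Ev (after L k m p) := by
  intro s t n i j h1 h2
  rcases after_inv L k m p h1 with ⟨h3, h4⟩ | ⟨n', h3, h4⟩
  · rcases after_inv L k m p h2 with ⟨h5, h6⟩ | ⟨n'', h5, h6⟩
    · exact hL s t n i j h4 h6
    · have := hm s h3
      have := Nat.left_le_pair n i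
      omega
  · rcases after_inv L k m p h2 with ⟨h5, h6⟩ | ⟨n'', h5, h6⟩
    · have := hm t h5
      have := Nat.left_le_pair n j
      omega
    · have : n' = n'' := by omega
      subst this
      exact hp _ _ _ _ _ h4 h6

theorem after_mono (L : ℕ → ℕ) (k m : ℕ) {p q : ℕ → ℕ} {l : ℕ} (h : Agree p q l) :
    Agree (after L k m p) (after L k m q) l := by
  intro t ht
  unfold after
  rw [h (t - k) (by omega)]

variable {R : (ℕ → ℕ) → ℕ → ℕ → Prop} {D : (ℕ → ℕ) → (ℕ → ℕ) → ℕ → ℕ}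

theorem core' (S : Setup' R D) : False := by
  classical
  -- a permanently inequivalent pair
  obtain ⟨k1, p1, y, z, hp1, hyz⟩ : ∃ (k : ℕ) (p : ℕ → ℕ) (y z : ℕ), Ev p ∧
      ∀ q, Ev q → Agree p q k → ¬ R q y z := by
    by_contra hcon
    push Not at hcon
    obtain ⟨L, hL, -, h⟩ := generic
      (fun j k p => ∀ q, Ev q → Agree p q k → R q (Nat.unpair j).1 (Nat.unpair j).2)
      (fun j k p q hpq h r hr hqr => h r hr (hpq.trans hqr)) (fun _ => 0) 0
      (fun s t n i j h _ => absurd h (by simp)) (fun j k p hp _ _ => by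
        obtain ⟨q, hq, hpq, hR⟩ := hcon k p (Nat.unpair j).1 (Nat.unpair j).2 hp
        obtain ⟨l, hl⟩ := S.cont q hq _ _ hR
        exact ⟨max (k + 1) l, q, by omega, hq, hpq, fun r hr hqr =>
          hl r hr (hqr.mono (le_max_right _ _))⟩)
    obtain ⟨a, b, hab⟩ := S.nontot L hL
    obtain ⟨k, hk⟩ := h (Nat.pair a b)
    rw [Nat.unpair_pair] at hk
    exact hab (hk L hL (Agree.refl _ _))
  -- a generic sequence and a permanently valid function
  obtain ⟨L, hL, hpL, hgen⟩ := generic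
    (fun j k p => ∃ v, ∀ q, Ev q → Agree p q k → ¬ R q v j)
    (fun j k p q hpq ⟨v, h⟩ => ⟨v, fun r hr hqr => h r hr (hpq.trans hqr)⟩) p1 k1 hp1
    (fun j k p hp hp1p hk => by
      by_cases hex : ∃ q, Ev q ∧ Agree p q k ∧ R q y j
      · obtain ⟨q, hq, hpq, hR⟩ := hex
        obtain ⟨l, hl⟩ := S.cont q hq _ _ hR
        refine ⟨max (k + 1) l, q, by omega, hq, hpq, z, fun r hr hqr hz => ?_⟩
        have eq := S.equiv r hr
        refine hyz r hr (hp1p.trans ((hpq.mono hk).trans (hqr.mono (by omega)))) ?_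
        exact eq.trans (hl r hr (hqr.mono (le_max_right _ _))) (eq.symm hz)
      · push Not at hex
        exact ⟨k + 1, p, by omega, hp, Agree.refl _ _, y, fun q hq hpq =>
          hex q hq (hpq.mono (by omega))⟩)
  choose kk gg hgg using hgen
  have hgv : Valid R L gg := fun x => hgg x L hL (Agree.refl _ _)
  obtain ⟨v, hv⟩ := S.dcont L hL gg hgv 0
  obtain ⟨k2, hk2⟩ := exists_bound (fun x k => kk x ≤ k) (fun _ _ _ h h' => h'.trans h) v
    (fun x _ => ⟨_, le_rfl⟩)
  set k := max v k2 with hkdef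
  obtain ⟨m, hm⟩ := exists_bound (fun t m => L t ≤ m) (fun _ _ _ h h' => h'.trans h) k
    (fun t _ => ⟨_, le_refl _⟩)
  -- the restricted setting
  let ext : (ℕ → ℕ) → ℕ → ℕ := fun g x => if x < v then gg x else g x
  have hext : ∀ p, Ev p → ∀ g, Valid (fun p => R (after L k m p)) p g →
      Valid R (after L k m p) (ext g) := by
    intro p hp g hg x
    simp only [ext]
    split_ifs with hx
    · exact hgg x _ (after_ev hL hm hp) ((after_agree L k m p).mono
        ((hk2 x hx).trans (le_max_right _ _)))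
    · exact hg x
  have hextag : ∀ g, Agree gg (ext g) v := fun g x hx => by simp only [ext, if_pos hx]
  have hextm : ∀ g h l, Agree g h l → Agree (ext g) (ext h) l := by
    intro g h l hgh x hx
    simp only [ext]
    rw [hgh x hx]
  refine core (c := D L gg 0) (R := fun p => R (after L k m p))
    (D := fun p g n => D (after L k m p) (ext g) (n + m + 1))
    ⟨fun p hp => S.equiv _ (after_ev hL hm hp), fun p hp => S.nontot _ (after_ev hL hm hp),
      fun p hp a b hab => ?_, fun p hp g hg n => ?_, fun p hp g hg n i t ht => ?_,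
      fun p hp g hg n => ?_⟩
  · obtain ⟨l, hl⟩ := S.cont _ (after_ev hL hm hp) a b hab
    exact ⟨l, fun q hq hpq => hl _ (after_ev hL hm hq) (after_mono L k m hpq)⟩
  · have h1 := S.lt _ (after_ev hL hm hp) (ext g) (hext p hp g hg) (n + m)
    have h2 := hv _ (after_ev hL hm hp) ((after_agree L k m p).mono (le_max_left _ _)) (ext g)
      (hext p hp g hg) (hextag g)
    omega
  · exact S.avoid _ (after_ev hL hm hp) (ext g) (hext p hp g hg) (n + m) i (k + t)
      (after_at L k m p ht)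
  · obtain ⟨l, hl⟩ := S.dcont _ (after_ev hL hm hp) (ext g) (hext p hp g hg) (n + m + 1)
    exact ⟨l, fun q hq hpq h hh hgh => hl _ (after_ev hL hm hq) (after_mono L k m hpq) (ext h)
      (hext q hq h hh) (hextm _ _ _ hgh)⟩

end Pool.Agent.Helper22.DiagK
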