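import Pool.Agent.Helper22.DiagK

set_option autoImplicit false

namespace Pool.Agent.Helper22.DiagK

open Pool.Agent.Helper22.DiagCore (Agree Valid exists_bound trunc trunc_agree)
open Pool.Agent.Helper22

variable {c : ℕ} {R : (ℕ → ℕ) → ℕ → ℕ → Prop} {D : (ℕ → ℕ) → (ℕ → ℕ) → ℕ → ℕ}

/-- the relations below `u` are forced at a finite stage -/
theorem forced (S : Setup c R D) (q : ℕ → ℕ) (hq : Ev q) (u : ℕ) :
    ∃ t, ∀ x < u, ∀ y < u, R q x y → ∀ r, Ev r → Agree q r t → R r x y := by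
  obtain ⟨t, ht⟩ := exists_bound (fun x t => ∀ y < u, R q x y → ∀ r, Ev r → Agree q r t → R r x y)
    (fun x k l hkl hP y hy h r hr hqr => hP y hy h r hr (hqr.mono hkl)) u (fun x _ => by
      obtain ⟨t, ht⟩ := exists_bound (fun y t => R q x y → ∀ r, Ev r → Agree q r t → R r x y)
        (fun y k l hkl hP h r hr hqr => hP h r hr (hqr.mono hkl)) u (fun y _ => by
          by_cases hR : R q x y
          · obtain ⟨k, hk⟩ := S.cont q hq x y hR
            exact ⟨k, fun _ => hk⟩
          · exact ⟨0, fun h => absurd h hR⟩)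
      exact ⟨t, ht⟩)
  exact ⟨t, ht⟩

/-- one step of the final descent -/
theorem descend (S : Setup c R D) {p0 : ℕ → ℕ} {y z u t0 N : ℕ}
    (hyz : ∀ q, Ev q → Agree p0 q t0 → ¬ R q y z) (hy : y < u)
    (hAB : ∀ q r, Ev q → Ev r → Agree p0 q t0 → Agree p0 r t0 → ∀ g h, Valid R q g →
      Valid R r h → (∀ x < u, g x = y ∨ g x = z) → Agree g h u → ∀ n < N, D q g n = D r h n)
    {q : ℕ → ℕ} (hq : Ev q) (hpq : Agree p0 q t0) {T : ℕ → Prop} (hT : Bd q T) {n : ℕ} (hn : ¬ T n)
    (hnN : n < N) {l : ℕ} (hl : AtMost (R q) u (l + 1)) :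
    ∃ q', Ev q' ∧ Agree p0 q' t0 ∧ Bd q' (fun x => T x ∨ x = n) ∧ AtMost (R q') u l := by
  classical
  obtain ⟨t1, ht1⟩ := forced S q hq u
  set t := max t1 t0 with htdef
  let Q : ℕ → ℕ → ℕ := fun i => one q t (Nat.pair n i + 1)
  have Qev : ∀ i, Ev (Q i) := fun i => one_ev hq hT hn t i
  have Qbd : ∀ i, Bd (Q i) (fun x => T x ∨ x = n) := fun i => one_bd hT t i
  have Qag : ∀ i, Agree q (Q i) t := fun i => one_agree _ _ _
  have Qag0 : ∀ i, Agree p0 (Q i) t0 := fun i => hpq.trans ((Qag i).mono (le_max_right _ _))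
  have Qf : ∀ i, ∀ x < u, ∀ y < u, R q x y → R (Q i) x y := fun i x hx y hy h =>
    ht1 x hx y hy h _ (Qev i) ((Qag i).mono (le_max_left _ _))
  have Qyz : ∀ i, ¬ R (Q i) y z := fun i => hyz _ (Qev i) (Qag0 i)
  by_contra hcon
  push Not at hcon
  have hno : ∀ i, ¬ AtMost (R (Q i)) u l := fun i => hcon (Q i) (Qev i) (Qag0 i) (Qbd i)
  have hback : ∀ i, ∀ x < u, ∀ y < u, R (Q i) x y → R q x y := fun i x hx y hy h =>
    eq_of_atMost (S.equiv q hq) (S.equiv _ (Qev i)) (Qf i) hl (hno i) hx hy h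
  -- the common answers
  let G : ℕ → ℕ → ℕ := fun i x => if x < u then (if R q x y then z else y) else
    if R (Q i) x y then z else y
  have Gv : ∀ i, Valid R (Q i) (G i) := by
    intro i x
    have eq := S.equiv _ (Qev i)
    simp only [G]
    split_ifs with h1 h2 h3
    · intro h
      exact Qyz i (eq.symm (eq.trans h (Qf i x h1 y hy h2)))
    · intro h
      exact h2 (hback i x h1 y hy (eq.symm h))
    · intro h
      exact Qyz i (eq.symm (eq.trans h h3))
    · intro h
      exact h3 (eq.symm h)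
  have Gag : ∀ i j, Agree (G i) (G j) u := by
    intro i j x hx
    simp only [G, if_pos hx]
  have GY : ∀ i, ∀ x < u, G i x = y ∨ G i x = z := by
    intro i x hx
    simp only [G, if_pos hx]
    split_ifs
    · right; rfl
    · left; rfl
  have hD : ∀ i, D (Q i) (G i) n = D (Q 0) (G 0) n := fun i =>
    hAB _ _ (Qev i) (Qev 0) (Qag0 i) (Qag0 0) _ _ (Gv i) (Gv 0) (GY i) (Gag i 0) n hnN
  have hfin := S.avoid _ (Qev (D (Q 0) (G 0) n)) _ (Gv _) n (D (Q 0) (G 0) n) t (by
    simp only [Q, one]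
    rw [if_neg (lt_irrefl _), if_pos trivial])
  exact hfin (hD _)

theorem core (S : Setup c R D) : False := by
  classical
  obtain ⟨k0, p1, y, z, hp1, hyz⟩ := step1 S
  have hc : 0 < c := by
    have hp0 : Ev p1 := hp1
    have hR : ¬ R p1 y z := hyz p1 hp1 (Agree.refl _ _)
    have eq := S.equiv p1 hp1
    have := S.lt p1 hp1 (fun x => if R p1 x y then z else y) (fun x => by
      dsimp only
      split_ifs with h
      · intro h'
        exact hR (eq.symm (eq.trans h' h))
      · intro h'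
        exact h (eq.symm h')) 0
    omega
  obtain ⟨p0, hp0, hyz0, m, hm⟩ : ∃ p0, Ev p0 ∧ (∀ q, Ev q → Agree p0 q k0 → ¬ R q y z) ∧
      ∃ m, Bd p0 (fun n => n < m) := by
    refine ⟨trunc p1 k0, trunc_ev hp1 k0, fun q hq h => hyz q hq ((trunc_agree p1 k0).trans h), ?_⟩
    obtain ⟨m, hm⟩ := exists_bound (fun t m => trunc p1 k0 t ≤ m) (fun _ _ _ h h' => h'.trans h) k0
      (fun t _ => ⟨_, le_refl _⟩)
    refine ⟨m, fun t n i h => ?_⟩
    have h1 : trunc p1 k0 t ≤ m := by
      by_cases ht : t < k0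
      · exact hm t ht
      · simp [trunc, ht]
    have h2 := Nat.left_le_pair n i
    omega
  have hyzp : ¬ R p0 y z := hyz0 p0 hp0 (Agree.refl _ _)
  obtain ⟨u', t0', hAB'⟩ := lemmaAB S p0 hp0 {y, z} y z (by simp) (by simp) hyzp (m + c)
  set u := max u' (max (y + 1) (z + 1)) with hu
  have hy : y < u := by omega
  have hz : z < u := by omega
  have hu' : u' ≤ u := by omega
  set t0 := max t0' k0 with ht0
  have hAB : ∀ q r, Ev q → Ev r → Agree p0 q t0 → Agree p0 r t0 → ∀ g h, Valid R q g →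
      Valid R r h → (∀ x < u, g x = y ∨ g x = z) → Agree g h u → ∀ n < m + c, D q g n = D r h n := by
    intro q r hq hr h1 h2 g h hg hh hY hgh n hn
    exact hAB' t0 (le_max_left _ _) q r hq hr h1 h2 g h hg hh
      (fun x hx => by simpa using hY x (by omega)) (hgh.mono hu') n hn
  obtain ⟨K, hK⟩ := exists_K hc (u ^ (c + 1))
  have h3 : ∀ W : Fin (c + 1) → Fin u, ∃ t, ∀ q r, Ev q → Ev r → Agree p0 q t → Agree p0 r t → ∀ g,
      Valid R q g → Valid R r g → (∀ x, ∃ a, g x = W a) →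
      ∀ n < m + c + K, D q g n = D r g n := by
    intro W
    obtain ⟨u2, t2, h⟩ := lemmaAB S p0 hp0
      ({y, z} ∪ (Finset.univ.image fun a => (W a : ℕ))) y z (by simp) (by simp) hyzp (m + c + K)
    refine ⟨t2, fun q r hq hr h1 h2 g hg hg' hY n hn =>
      h t2 le_rfl q r hq hr h1 h2 g g hg hg' (fun x _ => ?_) (Agree.refl _ _) n hn⟩
    obtain ⟨a, ha⟩ := hY x
    rw [Finset.mem_union]
    right
    rw [Finset.mem_image]
    exact ⟨a, Finset.mem_univ _, ha.symm⟩
  choose TW hTW using h3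
  set t1 := max t0 (Finset.univ.sup TW) with ht1
  have htW : ∀ W, TW W ≤ t1 := fun W =>
    (Finset.le_sup (Finset.mem_univ W)).trans (le_max_right _ _)
  have hev : ∀ σ : Fin K → Fin c, Ev (app p0 t1 (m + c) K σ) := fun σ =>
    app_ev hp0 hm t1 (m + c) K (by omega) σ
  have hag : ∀ σ : Fin K → Fin c, Agree p0 (app p0 t1 (m + c) K σ) t1 := fun σ =>
    app_agree _ _ _ _ _
  obtain ⟨σ, hσ⟩ := exists_good (c := c) (K := K) (u := u)
    (fun W σ => ∀ a b, a ≠ b → ¬ R (app p0 t1 (m + c) K σ) (W a) (W b)) (by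
      intro W i
      by_contra hcon
      push Not at hcon
      choose τ hτ1 hτ2 using hcon
      have hex := common_valid (A := fun d => R (app p0 t1 (m + c) K (τ d)))
        (fun d => S.equiv _ (hev (τ d))) (fun a => (W a : ℕ)) (fun d => hτ1 d)
      choose g hg using hex
      have hval : ∀ d, Valid R (app p0 t1 (m + c) K (τ d)) (fun x => (W (g x) : ℕ)) := fun d x =>
        hg x d
      have d0 : Fin c := ⟨0, hc⟩
      have hDD : ∀ d, D (app p0 t1 (m + c) K (τ d)) (fun x => (W (g x) : ℕ)) (m + c + i) =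
          D (app p0 t1 (m + c) K (τ d0)) (fun x => (W (g x) : ℕ)) (m + c + i) := fun d =>
        hTW W _ _ (hev _) (hev _) ((hag _).mono (htW W)) ((hag _).mono (htW W)) _ (hval d)
          (hval d0) (fun x => ⟨_, rfl⟩) _ (by have := i.2; omega)
      have hlt := S.lt _ (hev (τ d0)) _ (hval d0) (m + c + i)
      set d1 : Fin c := ⟨_, hlt⟩ with hd1
      have hav := S.avoid _ (hev (τ d1)) _ (hval d1) (m + c + i) (τ d1 i) (t1 + i)
        (app_at _ _ _ _ _ i)
      rw [hτ2 d1, hDD d1] at hav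
      exact hav rfl) hK
  have hstart : AtMost (R (app p0 t1 (m + c) K σ)) u c := by
    intro W
    have := hσ W
    push Not at this
    exact this
  have hdesc : ∀ l ≤ c, ∃ q, Ev q ∧ Agree p0 q t0 ∧
      Bd q (fun n => n < m + l ∨ m + c ≤ n) ∧ AtMost (R q) u (c - l) := by
    intro l
    induction l with
    | zero =>
      intro _
      refine ⟨_, hev σ, (hag σ).mono (le_max_left _ _), ?_, hstart⟩
      intro t n i h
      have := app_bd hm t1 (m + c) K σ t n i h
      simpa using this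
    | succ l ih =>
      intro hl
      obtain ⟨q, hq, hpq, hbd, hat⟩ := ih (by omega)
      have hl1 : c - l = (c - (l + 1)) + 1 := by omega
      rw [hl1] at hat
      obtain ⟨q', hq', hpq', hbd', hat'⟩ := descend S
        (fun q hq h => hyz0 q hq (h.mono (le_max_right _ _))) hy hAB hq hpq hbd
        (n := m + l) (by omega) (by omega) hat
      refine ⟨q', hq', hpq', fun t n i h => ?_, hat'⟩
      have := hbd' t n i h
      simp only at this ⊢
      omega
  obtain ⟨q, hq, -, -, hat⟩ := hdesc c le_rfl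
  rw [Nat.sub_self] at hat
  obtain ⟨a, b, hab, -⟩ := hat (fun _ => ⟨y, hy⟩)
  exact hab (Fin.ext (by omega))

end Pool.Agent.Helper22.DiagK
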