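import Pool.Agent.Helper22.DiagCore

set_option autoImplicit false

namespace Pool.Agent.Helper22.DiagCore

variable {R : (ℕ → ℕ) → ℕ → ℕ → Prop} {D : (ℕ → ℕ) → (ℕ → ℕ) → ℕ → ℕ}

/-- append the events `(M + 1 + i, σ i)` at time `t1 + i` -/
def app (p : ℕ → ℕ) (t1 M K : ℕ) (σ : Fin K → Bool) : ℕ → ℕ := fun t =>
  if t < t1 then p t else if h : t - t1 < K then 2 * (M + 1 + (t - t1)) + 1 + (σ ⟨t - t1, h⟩).toNat
  else 0

theorem app_cases (p : ℕ → ℕ) (t1 M K : ℕ) (σ : Fin K → Bool) (t : ℕ) :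
    (t < t1 ∧ app p t1 M K σ t = p t) ∨
    (∃ i : Fin K, t = t1 + i ∧ app p t1 M K σ t = 2 * (M + 1 + i) + 1 + (σ i).toNat) ∨
    app p t1 M K σ t = 0 := by
  unfold app
  by_cases h : t < t1
  · left; exact ⟨h, by rw [if_pos h]⟩
  · right
    by_cases h2 : t - t1 < K
    · left
      refine ⟨⟨t - t1, h2⟩, by simp; omega, ?_⟩
      rw [if_neg h, dif_pos h2]
    · right
      rw [if_neg h, dif_neg h2]

theorem app_agree (p : ℕ → ℕ) (t1 M K : ℕ) (σ : Fin K → Bool) : Agree p (app p t1 M K σ) t1 := by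
  intro t ht
  unfold app
  rw [if_pos ht]

theorem app_at (p : ℕ → ℕ) (t1 M K : ℕ) (σ : Fin K → Bool) (i : Fin K) :
    app p t1 M K σ (t1 + i) = 2 * (M + 1 + i) + 1 + (σ i).toNat := by
  rcases app_cases p t1 M K σ (t1 + i) with ⟨h, -⟩ | ⟨j, hj, h⟩ | h
  · omega
  · have : i = j := Fin.ext (by omega)
    rw [h, this]
  · exfalso
    unfold app at h
    rw [if_neg (by omega), dif_pos (by have := i.2; omega)] at h
    omega

theorem app_ev {p : ℕ → ℕ} (hp : Ev p) {m : ℕ} (hm : ∀ t, p t ≤ m) (t1 M K : ℕ) (hM : m ≤ M)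
    (σ : Fin K → Bool) : Ev (app p t1 M K σ) := by
  rintro s t n ⟨ha, hb⟩
  have hmax : ∀ b : Bool, b.toNat ≤ 1 := by decide
  rcases app_cases p t1 M K σ s with ⟨_, h⟩ | ⟨i, hi, h⟩ | h
  · rcases app_cases p t1 M K σ t with ⟨_, h'⟩ | ⟨j, hj, h'⟩ | h'
    · rw [h] at ha; rw [h'] at hb
      exact hp s t n ⟨ha, hb⟩
    · rw [h] at ha; rw [h'] at hb
      have := hm s
      have := hmax (σ j)
      omega
    · omega
  · rcases app_cases p t1 M K σ t with ⟨_, h'⟩ | ⟨j, hj, h'⟩ | h'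
    · rw [h] at ha; rw [h'] at hb
      have := hm t
      have := hmax (σ i)
      omega
    · rw [h] at ha; rw [h'] at hb
      have h1 := hmax (σ i)
      have h2 := hmax (σ j)
      have h3 : i = j := Fin.ext (by omega)
      subst h3
      omega
    · omega
  · omega

theorem app_bound {p : ℕ → ℕ} {m : ℕ} (hm : ∀ t, p t ≤ m) (t1 M K : ℕ)
    (σ : Fin K → Bool) (t : ℕ) : app p t1 M K σ t ≤ m ∨ 2 * (M + 1) + 1 ≤ app p t1 M K σ t := by
  rcases app_cases p t1 M K σ t with ⟨_, h⟩ | ⟨i, hi, h⟩ | h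
  · left; rw [h]; exact hm t
  · right; omega
  · left; omega

/-- add one event -/
def one (p : ℕ → ℕ) (t2 v : ℕ) : ℕ → ℕ := fun t => if t < t2 then p t else if t = t2 then v else 0

theorem three_classes {A B : ℕ → ℕ → Prop} (eA : Equivalence A) (eB : Equivalence B) {y z w : ℕ}
    (yA : ¬ A y z) (yB : ¬ B y z) (s1 : ¬ A w y) (s2 : ¬ A w z) (s3 : ¬ B w y) (s4 : ¬ B w z)
    (x : ℕ) : ∃ v, (v = y ∨ v = z ∨ v = w) ∧ ¬ A v x ∧ ¬ B v x := by
  have b1 : A y x → ¬ A z x := fun h1 h2 => yA (eA.trans h1 (eA.symm h2))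
  have b2 : A w x → ¬ A y x := fun h1 h2 => s1 (eA.trans h1 (eA.symm h2))
  have b3 : A w x → ¬ A z x := fun h1 h2 => s2 (eA.trans h1 (eA.symm h2))
  have c1 : B y x → ¬ B z x := fun h1 h2 => yB (eB.trans h1 (eB.symm h2))
  have c2 : B w x → ¬ B y x := fun h1 h2 => s3 (eB.trans h1 (eB.symm h2))
  have c3 : B w x → ¬ B z x := fun h1 h2 => s4 (eB.trans h1 (eB.symm h2))
  by_cases ay : A y x
  · by_cases bz : B z x
    · exact ⟨w, Or.inr (Or.inr rfl), fun h => b2 h ay, fun h => c3 h bz⟩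
    · exact ⟨z, Or.inr (Or.inl rfl), b1 ay, bz⟩
  · by_cases by_ : B y x
    · by_cases az : A z x
      · exact ⟨w, Or.inr (Or.inr rfl), fun h => b3 h az, fun h => c2 h by_⟩
      · exact ⟨z, Or.inr (Or.inl rfl), az, c1 by_⟩
    · exact ⟨y, Or.inl rfl, ay, by_⟩

set_option maxHeartbeats 4000000 in
theorem core (S : Setup R D) : False := by
  classical
  obtain ⟨k0, p1, y, z, hp1, hyz⟩ := step1 S
  obtain ⟨p0, hp0, hyz0, m, hm⟩ : ∃ p0, Ev p0 ∧ (∀ q, Ev q → Agree p0 q k0 → ¬ R q y z) ∧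
      ∃ m, ∀ t, p0 t ≤ m := by
    refine ⟨trunc p1 k0, trunc_ev hp1 k0, fun q hq h => hyz q hq ((trunc_agree p1 k0).trans h), ?_⟩
    obtain ⟨m, hm⟩ := exists_bound (fun t m => trunc p1 k0 t ≤ m) (fun _ _ _ h h' => h'.trans h) k0
      (fun t _ => ⟨_, le_refl _⟩)
    refine ⟨m, fun t => ?_⟩
    by_cases ht : t < k0
    · exact hm t ht
    · simp [trunc, ht]
  have hyzp : ¬ R p0 y z := hyz0 p0 hp0 (Agree.refl _ _)
  obtain ⟨u, t0, hAB⟩ := lemmaAB S p0 hp0 {y, z} y z (by simp) (by simp) hyzp (m + 1)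
  have h3 : ∀ w < u, ∃ t, ∀ q r, Ev q → Ev r → Agree p0 q t → Agree p0 r t → ∀ g,
      Valid R q g → Valid R r g → (∀ x, g x = y ∨ g x = z ∨ g x = w) →
      ∀ n < m + 1 + u + 1, D q g n = D r g n := by
    intro w _
    obtain ⟨u', t', h⟩ := lemmaAB S p0 hp0 {y, z, w} y z (by simp) (by simp) hyzp (m + 1 + u + 1)
    refine ⟨t', fun q r hq hr h1 h2 g hg hg' hY n hn =>
      h t' le_rfl q r hq hr h1 h2 g g hg hg' (fun x _ => ?_) (Agree.refl _ _) n hn⟩
    simpa using hY x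
  obtain ⟨t1', ht1'⟩ := exists_bound _ (fun w k l hkl hP q r hq hr h1 h2 =>
    hP q r hq hr (h1.mono hkl) (h2.mono hkl)) u h3
  set t1 := max (max k0 t0) t1' with ht1
  have hk0 : k0 ≤ t1 := by omega
  have ht0 : t0 ≤ t1 := by omega
  have ht1t : t1' ≤ t1 := by omega
  have hev : ∀ σ : Fin u → Bool, Ev (app p0 t1 m u σ) := fun σ => app_ev hp0 hm t1 m u le_rfl σ
  have hag : ∀ σ : Fin u → Bool, Agree p0 (app p0 t1 m u σ) t1 := fun σ => app_agree _ _ _ _ _
  -- at most one σ leaves w unmerged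
  have hclaim : ∀ w < u, ∀ σ τ : Fin u → Bool, σ ≠ τ →
      (¬ R (app p0 t1 m u σ) w y ∧ ¬ R (app p0 t1 m u σ) w z) →
      (¬ R (app p0 t1 m u τ) w y ∧ ¬ R (app p0 t1 m u τ) w z) → False := by
    intro w hw σ τ hne ⟨s1, s2⟩ ⟨s3, s4⟩
    have eσ := S.equiv _ (hev σ)
    have eτ := S.equiv _ (hev τ)
    have yσ : ¬ R (app p0 t1 m u σ) y z := hyz0 _ (hev σ) ((hag σ).mono hk0)
    have yτ : ¬ R (app p0 t1 m u τ) y z := hyz0 _ (hev τ) ((hag τ).mono hk0)
    have hex : ∀ x, ∃ v, (v = y ∨ v = z ∨ v = w) ∧ ¬ R (app p0 t1 m u σ) v x ∧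
        ¬ R (app p0 t1 m u τ) v x := by
      exact three_classes eσ eτ yσ yτ s1 s2 s3 s4
    choose g hgY hgσ hgτ using hex
    obtain ⟨i, hi⟩ := Function.ne_iff.1 hne
    have hn : m + 1 + (i : ℕ) < m + 1 + u + 1 := by have := i.2; omega
    have hD := ht1' w hw _ _ (hev σ) (hev τ) ((hag σ).mono ht1t) ((hag τ).mono ht1t) g hgσ hgτ hgY
      _ hn
    have hmax : ∀ b : Bool, b.toNat < 2 := by decide
    have d1 := S.avoid _ (hev σ) g hgσ (m + 1 + i) (σ i).toNat (t1 + i) (app_at _ _ _ _ _ i) (hmax _)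
    have d2 := S.avoid _ (hev τ) g hgτ (m + 1 + i) (τ i).toNat (t1 + i) (app_at _ _ _ _ _ i) (hmax _)
    have d3 := S.bit _ (hev σ) g hgσ (m + 1 + i)
    rw [← hD] at d2
    revert d1 d2 hi
    cases σ i <;> cases τ i <;> simp <;> omega
  -- hence some σ merges everything below u
  obtain ⟨σ, hσ⟩ : ∃ σ : Fin u → Bool, ∀ w < u, R (app p0 t1 m u σ) w y ∨
      R (app p0 t1 m u σ) w z := by
    by_contra hcon
    push Not at hcon
    choose W hW1 hW2 hW3 using hcon
    have hinj : Function.Injective fun σ : Fin u → Bool => (⟨W σ, hW1 σ⟩ : Fin u) := by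
      intro σ τ h
      by_contra hne
      have h' : W σ = W τ := by simpa using h
      exact hclaim (W σ) (hW1 σ) σ τ hne ⟨hW2 σ, hW3 σ⟩ (by rw [h']; exact ⟨hW2 τ, hW3 τ⟩)
    have := Fintype.card_le_of_injective _ hinj
    simp only [Fintype.card_fun, Fintype.card_bool, Fintype.card_fin] at this
    have h4 : u < 2 ^ u := Nat.lt_two_pow_self
    omega
  set pσ := app p0 t1 m u σ with hpσ
  have hpσe : Ev pσ := hev σ
  obtain ⟨t2', ht2'⟩ := exists_bound (fun w t => ∀ q, Ev q → Agree pσ q t →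
      (R pσ w y → R q w y) ∧ (R pσ w z → R q w z))
    (fun w k l hkl hP q hq h => hP q hq (h.mono hkl)) u (fun w _ => by
      have h5 : ∀ v, ∃ t, ∀ q, Ev q → Agree pσ q t → R pσ w v → R q w v := by
        intro v
        by_cases hR : R pσ w v
        · obtain ⟨k, hk⟩ := S.cont pσ hpσe w v hR
          exact ⟨k, fun q hq h _ => hk q hq h⟩
        · exact ⟨0, fun q _ _ h => absurd h hR⟩
      obtain ⟨ta, hta⟩ := h5 y
      obtain ⟨tb, htb⟩ := h5 z
      exact ⟨max ta tb, fun q hq h => ⟨hta q hq (h.mono (le_max_left _ _)),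
        htb q hq (h.mono (le_max_right _ _))⟩⟩)
  set t2 := max t2' t1 with ht2
  -- the two final continuations
  let q : ℕ → ℕ → ℕ := fun i => one pσ t2 (2 * m + 1 + i)
  have qag : ∀ i, Agree pσ (q i) t2 := fun i t ht => by simp [q, one, ht]
  have qev : ∀ i < 2, Ev (q i) := by
    rintro i hi s t n ⟨ha, hb⟩
    have hs : pσ s ≤ m ∨ 2 * (m + 1) + 1 ≤ pσ s := app_bound hm t1 m u σ s
    have ht : pσ t ≤ m ∨ 2 * (m + 1) + 1 ≤ pσ t := app_bound hm t1 m u σ t
    simp only [q, one] at ha hb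
    by_cases h1 : s < t2
    · rw [if_pos h1] at ha
      by_cases h2 : t < t2
      · rw [if_pos h2] at hb
        exact hpσe s t n ⟨ha, hb⟩
      · rw [if_neg h2] at hb
        split_ifs at hb <;> omega
    · rw [if_neg h1] at ha
      by_cases h2 : t < t2
      · rw [if_pos h2] at hb
        split_ifs at ha <;> omega
      · rw [if_neg h2] at hb
        split_ifs at ha hb <;> omega
  have qag0 : ∀ i, Agree p0 (q i) t1 := fun i =>
    (hag σ).trans ((qag i).mono (le_max_right _ _))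
  have qyz : ∀ i < 2, ¬ R (q i) y z := fun i hi => hyz0 _ (qev i hi) ((qag0 i).mono hk0)
  let g : ℕ → ℕ → ℕ := fun i x => if R (q i) x y then z else y
  have gval : ∀ i < 2, Valid R (q i) (g i) := by
    intro i hi x
    have eq := S.equiv _ (qev i hi)
    simp only [g]
    split_ifs with h
    · intro h'
      exact qyz i hi (eq.symm (eq.trans h' h))
    · intro h'
      exact h (eq.symm h')
  have gag : Agree (g 0) (g 1) u := by
    have key : ∀ i < 2, ∀ x < u, (R (q i) x y ↔ R pσ x y) := by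
      intro i hi x hx
      have eq := S.equiv _ (qev i hi)
      have h6 := ht2' x hx (q i) (qev i hi) ((qag i).mono (le_max_left _ _))
      constructor
      · intro h
        rcases hσ x hx with h7 | h7
        · exact h7
        · exact absurd (eq.trans (eq.symm h) (h6.2 h7)) (qyz i hi)
      · exact h6.1
    intro x hx
    simp only [g, key 0 (by norm_num) x hx, key 1 (by norm_num) x hx]
  have hfin := hAB t1 ht0 (q 0) (q 1) (qev 0 (by norm_num)) (qev 1 (by norm_num)) (qag0 0) (qag0 1)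
    (g 0) (g 1) (gval 0 (by norm_num)) (gval 1 (by norm_num)) (fun x _ => by
      simp only [g]; split_ifs <;> simp) gag m (by omega)
  have e0 := S.avoid _ (qev 0 (by norm_num)) (g 0) (gval 0 (by norm_num)) m 0 t2
    (by simp [q, one]) (by norm_num)
  have e1 := S.avoid _ (qev 1 (by norm_num)) (g 1) (gval 1 (by norm_num)) m 1 t2
    (by simp [q, one]) (by norm_num)
  have b0 := S.bit _ (qev 0 (by norm_num)) (g 0) (gval 0 (by norm_num)) m
  rw [← hfin] at e1
  omega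

end Pool.Agent.Helper22.DiagCore
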