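import Mathlib

set_option autoImplicit false

namespace Pool.Agent.Helper22.FreeProd

open Monoid

variable {G H : Type} [Group G] [Group H]

/-- the permutation given by an element of the first factor, at position `0` -/
def permG (g : G) : Equiv.Perm (G × ℤ) where
  toFun z := if z.2 = 0 then (g * z.1, z.2) else z
  invFun z := if z.2 = 0 then (g⁻¹ * z.1, z.2) else z
  left_inv := by
    rintro ⟨x, i⟩
    by_cases hi : i = 0 <;> simp [hi]
  right_inv := by
    rintro ⟨x, i⟩
    by_cases hi : i = 0 <;> simp [hi]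

theorem permG_apply (g : G) (x : G) (i : ℤ) :
    permG g (x, i) = if i = 0 then (g * x, i) else (x, i) := rfl

/-- the action of the first factor, at position `0` -/
def actG (G : Type) [Group G] : G →* Equiv.Perm (G × ℤ) where
  toFun := permG
  map_one' := by
    ext1 z
    obtain ⟨x, i⟩ := z
    rw [permG_apply]
    split_ifs <;> simp
  map_mul' := by
    intro g h
    ext1 z
    obtain ⟨x, i⟩ := z
    rw [Equiv.Perm.mul_apply, permG_apply (g * h), permG_apply h]
    by_cases hi : i = 0
    · rw [if_pos hi, if_pos hi, permG_apply, if_pos hi, mul_assoc]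
    · rw [if_neg hi, if_neg hi, permG_apply, if_neg hi]

theorem actG_apply (g : G) (x : G) (i : ℤ) :
    actG G g (x, i) = if i = 0 then (g * x, i) else (x, i) := rfl

/-- the action of the second factor, by translations -/
def actH (G : Type) (θ : H →* Equiv.Perm ℤ) : H →* Equiv.Perm (G × ℤ) where
  toFun h := Equiv.prodCongr (Equiv.refl G) (θ h)
  map_one' := by ext1 z; simp
  map_mul' := by intro g h; ext1 z; simp [Prod.map]

theorem actH_apply (G : Type) (θ : H →* Equiv.Perm ℤ) (h : H) (x : G) (i : ℤ) :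
    actH G θ h (x, i) = (x, θ h i) := rfl

/-- the wreath product representation of the free product -/
def actC (θ : H →* Equiv.Perm ℤ) : Coprod G H →* Equiv.Perm (G × ℤ) :=
  Coprod.lift (actG G) (actH G θ)

theorem actC_form (θ : H →* Equiv.Perm ℤ) (hθ : ∀ h i, θ h i = i + θ h 0) (γ : Coprod G H) :
    ∃ (k : ℤ) (f : ℤ → G), {i | f i ≠ 1}.Finite ∧ ∀ x i, actC θ γ (x, i) = (f i * x, i + k) := by
  classical
  induction γ using Coprod.induction_on with
  | inl g =>
    refine ⟨0, fun i => if i = 0 then g else 1, ?_, ?_⟩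
    · apply Set.Finite.subset (Set.finite_singleton (0 : ℤ))
      intro i hi
      by_contra h
      apply hi
      change (if i = 0 then g else 1) = 1
      exact if_neg h
    · intro x i
      have : actC θ (Coprod.inl g : Coprod G H) = actG G g := by simp [actC]
      rw [this, actG_apply]
      by_cases hi : i = 0 <;> simp [hi]
  | inr h =>
    refine ⟨θ h 0, fun _ => 1, ?_, ?_⟩
    · simp
    · intro x i
      have : actC θ (Coprod.inr h : Coprod G H) = actH G θ h := by simp [actC]
      rw [this, actH_apply, hθ h i, one_mul]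
  | mul γ δ ih1 ih2 =>
    obtain ⟨k1, f1, hf1, h1⟩ := ih1
    obtain ⟨k2, f2, hf2, h2⟩ := ih2
    refine ⟨k2 + k1, fun i => f1 (i + k2) * f2 i, ?_, ?_⟩
    · apply Set.Finite.subset ((hf1.preimage (Set.injOn_of_injective (f := fun i : ℤ => i + k2)
        (add_left_injective k2))).union hf2)
      intro i hi
      by_contra h
      rw [Set.mem_union, not_or] at h
      obtain ⟨h3, h4⟩ := h
      have h3' : f1 (i + k2) = 1 := not_not.1 h3
      have h4' : f2 i = 1 := not_not.1 h4
      apply hi
      change f1 (i + k2) * f2 i = 1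
      rw [h3', h4', one_mul]
    · intro x i
      rw [map_mul, Equiv.Perm.mul_apply, h2, h1, mul_assoc, add_assoc]

/-- the contradiction -/
theorem no_sequence (θ : H →* Equiv.Perm ℤ) (hθ : ∀ h i, θ h i = i + θ h 0) (t : H)
    (ht : θ t 0 = 1) (hG : ∀ g : G, g * g = 1 → g = 1) (u : ℕ → G)
    (hu : ∀ n, ¬ ∃ g, g * g = u n) (y : ℕ → Coprod G H)
    (hy : ∀ n, y n = ((Coprod.inr t) ^ n * Coprod.inl (u n) * (Coprod.inr t)⁻¹ ^ n) *
      (y (n + 1) * y (n + 1))) : False := by
  classical
  choose k f hf hkf using fun n => actC_form θ hθ (y n)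
  have hT : ∀ (n : ℕ) (x : G) (i : ℤ), actC θ ((Coprod.inr t : Coprod G H) ^ n) (x, i) = (x, i + n) := by
    intro n
    have h0 : actC θ (Coprod.inr t : Coprod G H) = actH G θ t := by simp [actC]
    induction n with
    | zero => intro x i; simp
    | succ n ih =>
      intro x i
      rw [pow_succ, map_mul, Equiv.Perm.mul_apply, h0, actH_apply, ih, hθ t i, ht]
      push_cast
      ring_nf
  have hTi : ∀ (n : ℕ) (x : G) (i : ℤ), actC θ ((Coprod.inr t : Coprod G H)⁻¹ ^ n) (x, i) = (x, i - n) := by
    intro n x i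
    rw [inv_pow, map_inv, Equiv.Perm.inv_eq_iff_eq, hT]
    simp
  have hX : ∀ (n : ℕ) (x : G) (i : ℤ), actC θ ((Coprod.inr t) ^ n * Coprod.inl (u n) *
      (Coprod.inr t)⁻¹ ^ n : Coprod G H) (x, i) = if i = n then (u n * x, i) else (x, i) := by
    intro n x i
    have h0 : actC θ (Coprod.inl (u n) : Coprod G H) = actG G (u n) := by simp [actC]
    rw [map_mul, map_mul, Equiv.Perm.mul_apply, Equiv.Perm.mul_apply, hTi, h0, actG_apply]
    by_cases hi : i = n
    · subst hi
      simp only [sub_self, if_true]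
      rw [hT]
      simp
    · rw [if_neg hi, if_neg (by omega), hT]
      simp
  have hrel : ∀ n i, (f n i, i + k n) = if i + (k (n + 1) + k (n + 1)) = n then
      (u n * (f (n + 1) (i + k (n + 1)) * f (n + 1) i), i + (k (n + 1) + k (n + 1))) else
      (f (n + 1) (i + k (n + 1)) * f (n + 1) i, i + (k (n + 1) + k (n + 1))) := by
    intro n i
    have h1 := hkf n 1 i
    rw [hy n, map_mul, Equiv.Perm.mul_apply, map_mul (actC θ) (y (n + 1)), Equiv.Perm.mul_apply,
      hkf, hkf, hX, mul_one, mul_one, add_assoc] at h1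
    exact h1.symm
  have hk2 : ∀ n, k n = 2 * k (n + 1) := by
    intro n
    have h1 := hrel n 0
    split_ifs at h1
    · have := (Prod.mk.inj h1).2
      omega
    · have := (Prod.mk.inj h1).2
      omega
  have hk3 : ∀ j n, (2 : ℤ) ^ j ∣ k n := by
    intro j
    induction j with
    | zero => intro n; simp
    | succ j ih =>
      intro n
      rw [hk2 n, pow_succ, mul_comm]
      exact mul_dvd_mul_left 2 (ih (n + 1))
  have hk : ∀ n, k n = 0 := by
    intro n
    by_contra h
    have h1 := Int.natAbs_dvd_natAbs.2 (hk3 (k n).natAbs n)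
    have h2 := Nat.le_of_dvd (Int.natAbs_pos.2 h) h1
    rw [Int.natAbs_pow] at h2
    have h3 : (k n).natAbs < 2 ^ (k n).natAbs := Nat.lt_two_pow_self
    have h4 : Int.natAbs 2 = 2 := rfl
    rw [h4] at h2
    omega
  have hfr : ∀ n (i : ℤ), f n i = if i = n then u n * (f (n + 1) i * f (n + 1) i) else
      f (n + 1) i * f (n + 1) i := by
    intro n i
    have h1 := hrel n i
    rw [hk, hk, add_zero, add_zero, add_zero] at h1
    split_ifs at h1 with h2
    · rw [if_pos h2]; exact (Prod.mk.inj h1).1
    · rw [if_neg h2]; exact (Prod.mk.inj h1).1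
  obtain ⟨i, hi⟩ : ∃ i : ℕ, f 0 i = 1 := by
    have h1 : {n : ℕ | f 0 (n : ℤ) ≠ 1}.Finite :=
      (hf 0).preimage (Set.injOn_of_injective (f := fun n : ℕ => (n : ℤ)) Nat.cast_injective)
    obtain ⟨i, hi⟩ := h1.infinite_compl.nonempty
    exact ⟨i, not_not.1 hi⟩
  have hall : ∀ n ≤ i, f n i = 1 := by
    intro n
    induction n with
    | zero => intro _; exact hi
    | succ n ih =>
      intro hn
      have h1 := ih (by omega)
      rw [hfr n i, if_neg (by exact_mod_cast (show i ≠ n by omega))] at h1
      exact hG _ h1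
  have hfin := hall i le_rfl
  rw [hfr i i, if_pos rfl] at hfin
  apply hu i
  refine ⟨(f (i + 1) i)⁻¹, ?_⟩
  rw [← mul_inv_rev]
  exact (eq_inv_of_mul_eq_one_left hfin).symm

end Pool.Agent.Helper22.FreeProd
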