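import Pool.Agent.Helper22.IntPrimrec

set_option autoImplicit false

namespace Pool.Agent.Helper22.FreeProd

open Encodable Denumerable

/-- the inverse of a computable permutation of `ℕ` is computable -/
theorem computable_symm_nat (σ : Equiv.Perm ℕ) (h : Computable (σ : ℕ → ℕ)) :
    Computable (σ.symm : ℕ → ℕ) := by
  have h1 : Partrec fun n : ℕ => Nat.rfind (fun k => Part.some (decide (σ k = n))) := by
    refine Partrec.rfind (p := fun (n : ℕ) (k : ℕ) => Part.some (decide (σ k = n))) ?_
    exact (PrimrecPred.decide (Primrec.eq.comp (α := ℕ × ℕ) Primrec.fst Primrec.snd)).to_comp.comp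
      (Computable.pair (h.comp Computable.snd) Computable.fst)
  refine Partrec.of_eq_tot h1 fun n => ?_
  refine Nat.mem_rfind.2 ⟨?_, fun {m} hm => ?_⟩
  · simp
  · have : σ m ≠ n := by
      rintro rfl
      simp at hm
    simp [this]

variable {P Q : Type} [Primcodable P] [Primcodable Q] (e : P ≃ ℕ)

theorem computable_symm (he : Computable e) (hes : Computable e.symm) (σ : Equiv.Perm P)
    (h : Computable (σ : P → P)) : Computable (σ.symm : P → P) := by
  have h1 : Computable (e.permCongr σ : ℕ → ℕ) := he.comp (h.comp hes)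
  have h2 := computable_symm_nat _ h1
  refine (hes.comp (h2.comp he)).of_eq fun z => ?_
  rw [Equiv.symm_apply_eq, Equiv.symm_apply_eq, Equiv.permCongr_apply]
  simp

/-- the group of computable permutations preserving `D` -/
def autc (he : Computable e) (hes : Computable e.symm) (D : P → P → Q) :
    Subgroup (Equiv.Perm P) where
  carrier := {σ | Computable (σ : P → P) ∧ ∀ z z', D (σ z) (σ z') = D z z'}
  mul_mem' := by
    rintro σ τ ⟨h1, h2⟩ ⟨h3, h4⟩
    refine ⟨h1.comp h3, fun z z' => ?_⟩
    rw [Equiv.Perm.mul_apply, Equiv.Perm.mul_apply, h2, h4]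
  one_mem' := ⟨Computable.id, fun _ _ => rfl⟩
  inv_mem' := by
    rintro σ ⟨h1, h2⟩
    refine ⟨computable_symm e he hes σ h1, fun z z' => ?_⟩
    rw [← h2]
    simp

theorem autc_spec (he : Computable e) (hes : Computable e.symm) (D : P → P → Q)
    (hD : Computable₂ D) :
    ∃ (d : ℕ → Bool) (r : ℕ → List ℕ → Bool), Computable d ∧ Computable₂ r ∧
        ∃ φ : autc e he hes D →* Equiv.Perm ℕ, Function.Injective φ ∧
          ∀ σ : Equiv.Perm ℕ, σ ∈ φ.range ↔
            (Computable (σ : ℕ → ℕ) ∧ (∀ n, d n = false → σ n = n) ∧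
              (∀ n, d n = true → d (σ n) = true) ∧
              ∀ (i : ℕ) (l : List ℕ), (∀ x ∈ l, d x = true) → r i (l.map σ) = r i l) := by
  refine ⟨fun _ => true, fun c l => decide (l.length = 2) &&
    decide (encode (D (e.symm (l.getD 0 0)) (e.symm (l.getD 1 0))) = c), Computable.const true,
    ?_, e.permCongrHom.toMonoidHom.comp (autc e he hes D).subtype, ?_, ?_⟩
  · have hg : ∀ k : ℕ, Computable fun a : ℕ × List ℕ => e.symm (a.2.getD k 0) := fun k =>
      hes.comp ((Primrec.list_getD 0).comp Primrec.snd (Primrec.const k)).to_comp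
    have h1 : Computable fun a : ℕ × List ℕ => encode (D (e.symm (a.2.getD 0 0)) (e.symm (a.2.getD 1 0))) :=
      Computable.encode.comp (hD.comp (hg 0) (hg 1))
    refine (Primrec.and.to_comp).comp ?_ ?_
    · exact (PrimrecPred.decide (Primrec.eq.comp (Primrec.list_length.comp Primrec.snd)
        (Primrec.const 2))).to_comp
    · exact (PrimrecPred.decide (Primrec.eq.comp (α := ℕ × ℕ) Primrec.fst Primrec.snd)).to_comp.comp
        (Computable.pair h1 Computable.fst)
  · intro σ τ h
    exact Subtype.ext (e.permCongrHom.injective h)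
  · intro σ
    constructor
    · rintro ⟨⟨τ, h1, h2⟩, rfl⟩
      change Computable (e.permCongr τ : ℕ → ℕ) ∧ (∀ n, true = false → _) ∧ (∀ n, true = true → _) ∧
        ∀ (i : ℕ) (l : List ℕ), (∀ x ∈ l, true = true) → _
      refine ⟨he.comp (h1.comp hes), fun n h => absurd h (by simp), fun _ _ => rfl, ?_⟩
      intro i l _
      change (decide ((l.map (e.permCongr τ)).length = 2) && decide (encode
        (D (e.symm ((l.map (e.permCongr τ)).getD 0 0)) (e.symm ((l.map (e.permCongr τ)).getD 1 0))) = i)) =
        (decide (l.length = 2) && decide (encode (D (e.symm (l.getD 0 0)) (e.symm (l.getD 1 0))) = i))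
      rw [List.length_map]
      by_cases hl : l.length = 2
      · obtain ⟨a, b, rfl⟩ := List.length_eq_two.1 hl
        simp [Equiv.permCongr, h2]
      · simp [hl]
    · rintro ⟨h1, -, -, h2⟩
      refine ⟨⟨e.symm.permCongr σ, ?_, ?_⟩, ?_⟩
      · exact hes.comp (h1.comp he)
      · intro z z'
        have h3 := h2 (encode (D z z')) [e z, e z'] (fun _ _ => rfl)
        simp only [List.map_cons, List.map_nil, List.length_cons, List.length_nil,
          List.getD_cons_zero, List.getD_cons_succ, Equiv.symm_apply_apply] at h3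
        simpa [Equiv.permCongr] using h3
      · change e.permCongr (e.symm.permCongr σ) = σ
        ext n
        simp [Equiv.permCongr]

end Pool.Agent.Helper22.FreeProd
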