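import Pool.Agent.Helper22.FreeProdLimit

set_option autoImplicit false

namespace Pool.Agent.Helper22.FreeProd

open Encodable

theorem computable_find {α : Type*} [Primcodable α] (p : α → ℕ → Bool) (hp : Computable₂ p)
    (h : ∀ a, ∃ k, p a k = true) : ∃ f : α → ℕ, Computable f ∧ ∀ a, p a (f a) = true := by
  have h1 : Partrec fun a => Nat.rfind (fun k => Part.some (p a k)) :=
    Partrec.rfind (p := fun a k => Part.some (p a k)) hp
  have h2 : ∀ a, (Nat.rfind (fun k => Part.some (p a k))).Dom := by
    intro a
    obtain ⟨k, hk⟩ := h a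
    refine Nat.rfind_dom.2 ⟨k, ?_, fun _ => trivial⟩
    rw [hk]
    exact Part.mem_some true
  refine ⟨fun a => (Nat.rfind (fun k => Part.some (p a k))).get (h2 a), ?_, ?_⟩
  · exact Partrec.of_eq_tot h1 fun a => Part.get_mem (h2 a)
  · intro a
    have h3 := Nat.rfind_spec (Part.get_mem (h2 a))
    exact (Part.mem_some_iff.1 h3).symm

/-- bounded universal quantifier -/
def allB (p : ℕ → Bool) (N : ℕ) : Bool := Nat.rec true (fun q acc => acc && p q) N

theorem allB_iff (p : ℕ → Bool) (N : ℕ) : allB p N = true ↔ ∀ q < N, p q = true := by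
  induction N with
  | zero => simp [allB]
  | succ N ih =>
    have h1 : allB p (N + 1) = (allB p N && p N) := rfl
    rw [h1, Bool.and_eq_true, ih]
    constructor
    · rintro ⟨h2, h3⟩ q hq
      rcases Nat.lt_succ_iff_lt_or_eq.1 hq with h | h
      · exact h2 q h
      · exact h ▸ h3
    · intro h
      exact ⟨fun q hq => h q (by omega), h N (by omega)⟩

theorem computable_allB {α : Type*} [Primcodable α] (p : α → ℕ → Bool) (hp : Computable₂ p)
    (N : α → ℕ) (hN : Computable N) : Computable fun a => allB (p a) (N a) := by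
  unfold allB
  refine Computable.nat_rec (f := N) (g := fun _ => true)
    (h := fun (a : α) (b : ℕ × Bool) => b.2 && p a b.1) hN (Computable.const true) ?_
  have h1 : Computable fun a : α × ℕ × Bool => p a.1 a.2.1 :=
    hp.comp Computable.fst (Computable.fst.comp Computable.snd)
  exact (Primrec.and.to_comp).comp (Computable.snd.comp Computable.snd) h1

variable {Γ : Type*} [Group Γ] (φ : Γ →* Equiv.Perm ℕ) (A B T : Γ)

/-- one equality test -/
def T1 (a : List ℕ × ℕ) (q : ℕ) : Bool :=
  decide (ev φ A B T (V ((a.1 ++ [Nat.pair a.1.length a.2.unpair.1]).drop q.unpair.1)) q.unpair.2 =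
      ev φ A B T (V (a.1.drop q.unpair.1)) q.unpair.2) &&
    decide (ev φ A B T (iw (V ((a.1 ++ [Nat.pair a.1.length a.2.unpair.1]).drop q.unpair.1))) q.unpair.2 =
      ev φ A B T (iw (V (a.1.drop q.unpair.1))) q.unpair.2)

/-- the condition of the search -/
def Cond (a : List ℕ) (k : ℕ) : Bool :=
  !decide (ev φ A B T (wd k.unpair.1) k.unpair.2 = k.unpair.2) &&
    allB (T1 φ A B T (a, k)) ((a.length + 1) * (a.length + 1))

variable {φ}

theorem computable_T1 (h : ∀ g : Γ, Computable (φ g : ℕ → ℕ)) : Computable₂ (T1 φ A B T) := by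
  have hl : Primrec fun b : (List ℕ × ℕ) × ℕ =>
      (b.1.1 ++ [Nat.pair b.1.1.length b.1.2.unpair.1]).drop b.2.unpair.1 := by
    refine Primrec.list_drop.comp (Primrec.fst.comp (Primrec.unpair.comp Primrec.snd)) ?_
    refine Primrec.list_concat.comp (Primrec.fst.comp Primrec.fst) ?_
    exact Primrec₂.natPair.comp (Primrec.list_length.comp (Primrec.fst.comp Primrec.fst))
      (Primrec.fst.comp (Primrec.unpair.comp (Primrec.snd.comp Primrec.fst)))
  have hl' : Primrec fun b : (List ℕ × ℕ) × ℕ => b.1.1.drop b.2.unpair.1 :=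
    Primrec.list_drop.comp (Primrec.fst.comp (Primrec.unpair.comp Primrec.snd))
      (Primrec.fst.comp Primrec.fst)
  have hz : Computable fun b : (List ℕ × ℕ) × ℕ => b.2.unpair.2 :=
    (Primrec.snd.comp (Primrec.unpair.comp Primrec.snd)).to_comp
  have hev := computable_ev A B T h
  have heq : ∀ {f g : (List ℕ × ℕ) × ℕ → ℕ}, Computable f → Computable g →
      Computable fun b => decide (f b = g b) := by
    intro f g hf hg
    exact (PrimrecPred.decide (Primrec.eq.comp (α := ℕ × ℕ) Primrec.fst Primrec.snd)).to_comp.comp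
      (Computable.pair hf hg)
  unfold T1
  refine (Primrec.and.to_comp).comp (heq ?_ ?_) (heq ?_ ?_)
  · exact hev.comp (primrec_V.comp hl).to_comp hz
  · exact hev.comp (primrec_V.comp hl').to_comp hz
  · exact hev.comp (primrec_iw.comp (primrec_V.comp hl)).to_comp hz
  · exact hev.comp (primrec_iw.comp (primrec_V.comp hl')).to_comp hz

theorem computable_Cond (h : ∀ g : Γ, Computable (φ g : ℕ → ℕ)) : Computable₂ (Cond φ A B T) := by
  have hev := computable_ev A B T h
  have heq : ∀ {f g : List ℕ × ℕ → ℕ}, Computable f → Computable g →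
      Computable fun b => decide (f b = g b) := by
    intro f g hf hg
    exact (PrimrecPred.decide (Primrec.eq.comp (α := ℕ × ℕ) Primrec.fst Primrec.snd)).to_comp.comp
      (Computable.pair hf hg)
  have hx : Computable fun b : List ℕ × ℕ => b.2.unpair.2 :=
    (Primrec.snd.comp (Primrec.unpair.comp Primrec.snd)).to_comp
  have hm : Computable fun b : List ℕ × ℕ => wd b.2.unpair.1 :=
    (primrec_wd.comp (Primrec.fst.comp (Primrec.unpair.comp Primrec.snd))).to_comp
  refine (Primrec.and.to_comp).comp ((Primrec.not.to_comp).comp (heq (hev.comp hm hx) hx)) ?_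
  refine computable_allB (T1 φ A B T) (computable_T1 A B T h) _ ?_
  have h1 : Primrec fun b : List ℕ × ℕ => b.1.length + 1 :=
    Primrec.succ.comp (Primrec.list_length.comp Primrec.fst)
  exact (Primrec.nat_mul.comp h1 h1).to_comp

/-- small nontrivial elements exist, by undecidability -/
theorem exists_small (h : ∀ g : Γ, Computable (φ g : ℕ → ℕ))
    (hund : ¬ ComputablePred fun m => wG A B m = 1) (S : Finset ℕ) :
    ∃ m, wG A B m ≠ 1 ∧ ∀ s ∈ S, φ (wG A B m) s = s := by
  classical
  by_contra hcon
  push Not at hcon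
  apply hund
  have h1 : ∀ m, wG A B m = 1 ↔ ∀ s ∈ S, ev φ A B 1 (wd m) s = s := by
    intro m
    constructor
    · intro h1 s _
      unfold ev
      rw [gw_wd, h1]
      simp
    · intro h1
      by_contra h2
      obtain ⟨s, hs, hs'⟩ := hcon m h2
      apply hs'
      have := h1 s hs
      unfold ev at this
      rwa [gw_wd] at this
  have h2 : ∀ S : Finset ℕ, ComputablePred fun m => ∀ s ∈ S, ev φ A B 1 (wd m) s = s := by
    intro S
    induction S using Finset.induction_on with
    | empty => exact ⟨fun _ => isTrue (by simp), (Computable.const true).of_eq (by simp)⟩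
    | insert s S hs ih =>
      have h3 : ComputablePred fun m => ev φ A B 1 (wd m) s = s := by
        refine ⟨inferInstance, ?_⟩
        exact (PrimrecPred.decide (Primrec.eq.comp (α := ℕ × ℕ) Primrec.fst Primrec.snd)).to_comp.comp
          (Computable.pair ((computable_ev A B 1 h).comp primrec_wd.to_comp (Computable.const s))
            (Computable.const s))
      obtain ⟨D1, hD1⟩ := h3
      obtain ⟨D2, hD2⟩ := ih
      refine ⟨fun _ => Classical.propDecidable _, ?_⟩
      refine ((Primrec.and.to_comp).comp hD1 hD2).of_eq fun m => ?_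
      rw [← Bool.decide_and]
      simp only [Finset.forall_mem_insert]
  obtain ⟨D, hD⟩ := h2 S
  refine ⟨fun _ => Classical.propDecidable _, hD.of_eq fun m => ?_⟩
  simp only [decide_eq_decide]
  exact (h1 m).symm

theorem exists_Cond (h : ∀ g : Γ, Computable (φ g : ℕ → ℕ)) (hinj : Function.Injective φ)
    (hund : ¬ ComputablePred fun m => wG A B m = 1) (l : List ℕ) :
    ∃ k, Cond φ A B T l k = true := by
  classical
  set N := (l.length + 1) * (l.length + 1) with hN
  -- the finite set to be fixed
  have hf := Cts.finite (φ := φ)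
    (fun (q : ℕ × Bool) x => if q.2 then FF A B T (l.drop q.1.unpair.1) x else
      (FF A B T (l.drop q.1.unpair.1) x)⁻¹) (fun q => q.1.unpair.2)
    (Finset.range N ×ˢ Finset.univ) (by
      rintro ⟨q, b⟩ _
      have := cts_FF (φ := φ) A B T (l.drop q.unpair.1)
      cases b
      · exact this.2
      · exact this.1)
  obtain ⟨S, hS⟩ := hf
  obtain ⟨m, hm1, hm2⟩ := exists_small (φ := φ) A B h hund
    (S.image fun s => φ (T⁻¹ ^ l.length) s)
  have hx : ∃ x, φ (wG A B m) x ≠ x := by
    by_contra hcon
    push Not at hcon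
    apply hm1
    apply hinj
    rw [map_one]
    ext x
    rw [hcon x]
    rfl
  obtain ⟨x, hx⟩ := hx
  have hfix : ∀ s ∈ S, φ (gw A B T (X (Nat.pair l.length m))) s = s := by
    intro s hs
    rw [gw_X, map_mul, map_mul, Equiv.Perm.mul_apply, Equiv.Perm.mul_apply,
      hm2 _ (Finset.mem_image_of_mem _ hs), ← Equiv.Perm.mul_apply, ← map_mul]
    simp
  have hS' := hS _ hfix
  refine ⟨Nat.pair m x, ?_⟩
  unfold Cond
  rw [Bool.and_eq_true, allB_iff, Nat.unpair_pair]
  refine ⟨?_, ?_⟩
  · have h1 : ev φ A B T (wd m) x ≠ x := by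
      unfold ev
      rwa [gw_wd]
    simp [h1]
  · intro q hq
    unfold T1
    simp only [Nat.unpair_pair]
    rw [Bool.and_eq_true, decide_eq_true_iff, decide_eq_true_iff]
    by_cases hn : q.unpair.1 ≤ l.length
    · have hd : (l ++ [Nat.pair l.length m]).drop q.unpair.1 =
          l.drop q.unpair.1 ++ [Nat.pair l.length m] := by
        rw [List.drop_append_of_le_length hn]
      have h1 := hS' (q, true) (Finset.mem_product.2 ⟨Finset.mem_range.2 hq, Finset.mem_univ _⟩)
      have h2 := hS' (q, false) (Finset.mem_product.2 ⟨Finset.mem_range.2 hq, Finset.mem_univ _⟩)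
      simp only [if_true, Bool.false_eq_true, if_false] at h1 h2
      refine ⟨?_, ?_⟩
      · unfold ev
        rw [hd, gw_V_snoc, gw_V, h1]
      · unfold ev
        rw [hd, gw_iw, gw_iw, gw_V_snoc, gw_V, h2]
    · have hd1 : (l ++ [Nat.pair l.length m]).drop q.unpair.1 = [] := by
        rw [List.drop_eq_nil_iff, List.length_append, List.length_singleton]
        omega
      have hd2 : l.drop q.unpair.1 = [] := by
        rw [List.drop_eq_nil_iff]
        omega
      rw [hd1, hd2]
      exact ⟨rfl, rfl⟩

/-! ### the limit -/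

/-- the sequence of states -/
def st (nx : List ℕ → ℕ) (j : ℕ) : List ℕ :=
  Nat.rec [] (fun _ l => l ++ [Nat.pair l.length (nx l).unpair.1]) j

theorem length_st (nx : List ℕ → ℕ) (j : ℕ) : (st nx j).length = j := by
  induction j with
  | zero => rfl
  | succ j ih =>
    have : st nx (j + 1) = st nx j ++ [Nat.pair (st nx j).length (nx (st nx j)).unpair.1] := rfl
    rw [this, List.length_append, ih]
    rfl

theorem st_succ (nx : List ℕ → ℕ) (j : ℕ) :
    st nx (j + 1) = st nx j ++ [Nat.pair j (nx (st nx j)).unpair.1] := by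
  have : st nx (j + 1) = st nx j ++ [Nat.pair (st nx j).length (nx (st nx j)).unpair.1] := rfl
  rw [this, length_st]

theorem computable_st {nx : List ℕ → ℕ} (h : Computable nx) : Computable (st nx) := by
  unfold st
  refine Computable.nat_rec (f := fun j : ℕ => j) (g := fun _ : ℕ => ([] : List ℕ))
    (h := fun (_ : ℕ) (b : ℕ × List ℕ) => b.2 ++ [Nat.pair b.2.length (nx b.2).unpair.1])
    Computable.id (Computable.const []) ?_
  have h1 : Computable fun a : ℕ × ℕ × List ℕ => (nx a.2.2).unpair.1 :=
    (Computable.fst.comp (Computable.unpair.comp (h.comp (Computable.snd.comp Computable.snd))))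
  refine Computable.list_concat.comp (Computable.snd.comp Computable.snd) ?_
  exact (Primrec₂.natPair.to_comp).comp (Computable.list_length.comp (Computable.snd.comp Computable.snd)) h1

theorem drop_st (nx : List ℕ → ℕ) (n j : ℕ) (h : n < j) :
    (st nx j).drop n = Nat.pair n (nx (st nx n)).unpair.1 :: (st nx j).drop (n + 1) := by
  induction j with
  | zero => omega
  | succ j ih =>
    rw [st_succ]
    rcases Nat.lt_succ_iff_lt_or_eq.1 h with h1 | h1
    · rw [List.drop_append_of_le_length (by rw [length_st]; omega),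
        List.drop_append_of_le_length (by rw [length_st]; omega), ih h1]
      rfl
    · subst h1
      rw [List.drop_append_of_le_length (by rw [length_st]),
        List.drop_eq_nil_of_le (as := st nx n) (by rw [length_st]),
        List.drop_eq_nil_of_le (by rw [List.length_append, length_st]; rfl)]
      rfl

/-- finite approximations -/
def PP (nx : List ℕ → ℕ) (n j : ℕ) : Γ := gw A B T (V ((st nx j).drop n))

theorem PP_succ (nx : List ℕ → ℕ) (n j : ℕ) (h : n < j) :
    PP A B T nx n j = (T ^ n * wG A B (nx (st nx n)).unpair.1 * T⁻¹ ^ n) *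
      (PP A B T nx (n + 1) j * PP A B T nx (n + 1) j) := by
  unfold PP
  rw [drop_st nx n j h]
  change gw A B T (X _ ++ (V _ ++ V _)) = _
  rw [gw_append, gw_append, gw_X]

/-- the main theorem on limits -/
theorem exists_limit (d : ℕ → Bool) (r : ℕ → List ℕ → Bool)
    (hinj : Function.Injective φ)
    (hran : ∀ σ : Equiv.Perm ℕ, σ ∈ φ.range ↔
            (Computable (σ : ℕ → ℕ) ∧ (∀ n, d n = false → σ n = n) ∧
              (∀ n, d n = true → d (σ n) = true) ∧
              ∀ (i : ℕ) (l : List ℕ), (∀ x ∈ l, d x = true) → r i (l.map σ) = r i l))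
    (hund : ¬ ComputablePred fun m => wG A B m = 1) :
    ∃ (m : ℕ → ℕ) (y : ℕ → Γ), (∀ n, wG A B (m n) ≠ 1) ∧
      ∀ n, y n = (T ^ n * wG A B (m n) * T⁻¹ ^ n) * (y (n + 1) * y (n + 1)) := by
  have h : ∀ g : Γ, Computable (φ g : ℕ → ℕ) := fun g => ((hran (φ g)).1 ⟨g, rfl⟩).1
  obtain ⟨nx, hnx, hcond⟩ := computable_find (Cond φ A B T) (computable_Cond A B T h)
    (exists_Cond A B T h hinj hund)
  have hst := computable_st hnx
  -- stability
  have hstab : ∀ n j z, n ≤ j → z ≤ j → φ (PP A B T nx n (j + 1)) z = φ (PP A B T nx n j) z ∧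
      φ (PP A B T nx n (j + 1))⁻¹ z = φ (PP A B T nx n j)⁻¹ z := by
    intro n j z hn hz
    have h1 := hcond (st nx j)
    unfold Cond at h1
    rw [Bool.and_eq_true, allB_iff] at h1
    have hq : Nat.pair n z < ((st nx j).length + 1) * ((st nx j).length + 1) := by
      rw [length_st]
      refine lt_of_lt_of_le (Nat.pair_lt_max_add_one_sq n z) ?_
      rw [sq]
      exact Nat.mul_le_mul (by omega) (by omega)
    have h2 := h1.2 _ hq
    unfold T1 at h2
    rw [Bool.and_eq_true, decide_eq_true_iff, decide_eq_true_iff] at h2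
    simp only [Nat.unpair_pair, length_st, ← st_succ] at h2
    unfold ev at h2
    rw [gw_iw, gw_iw] at h2
    exact h2
  have hstab' : ∀ n z j k, n + z ≤ j → j ≤ k → φ (PP A B T nx n k) z = φ (PP A B T nx n j) z ∧
      φ (PP A B T nx n k)⁻¹ z = φ (PP A B T nx n j)⁻¹ z := by
    intro n z j k hj hk
    induction k, hk using Nat.le_induction with
    | base => exact ⟨rfl, rfl⟩
    | succ k hk ih =>
      have := hstab n k z (by omega) (by omega)
      rw [this.1, this.2]
      exact ih
  -- the limit permutations
  let Y : ℕ → Equiv.Perm ℕ := fun n =>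
    { toFun := fun z => φ (PP A B T nx n (n + z)) z
      invFun := fun z => φ (PP A B T nx n (n + z))⁻¹ z
      left_inv := by
        intro z
        set z' := φ (PP A B T nx n (n + z)) z with hz'
        have h1 := (hstab' n z' (n + z') (n + z + z') le_rfl (by omega)).2
        have h2 := (hstab' n z (n + z) (n + z + z') le_rfl (by omega)).1
        change φ (PP A B T nx n (n + z'))⁻¹ z' = z
        rw [← h1]
        generalize n + z + z' = K at h2
        rw [hz', ← h2, ← Equiv.Perm.mul_apply, ← map_mul]
        simp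
      right_inv := by
        intro z
        set z' := φ (PP A B T nx n (n + z))⁻¹ z with hz'
        have h1 := (hstab' n z' (n + z') (n + z + z') le_rfl (by omega)).1
        have h2 := (hstab' n z (n + z) (n + z + z') le_rfl (by omega)).2
        change φ (PP A B T nx n (n + z')) z' = z
        rw [← h1]
        generalize n + z + z' = K at h2
        rw [hz', ← h2, ← Equiv.Perm.mul_apply, ← map_mul]
        simp }
  have hY : ∀ n z j, n + z ≤ j → Y n z = φ (PP A B T nx n j) z := by
    intro n z j hj
    exact ((hstab' n z (n + z) j le_rfl hj).1).symm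
  have hrange : ∀ n, Y n ∈ φ.range := by
    intro n
    rw [hran]
    have hmem : ∀ j, _ := fun j => (hran (φ (PP A B T nx n j))).1 ⟨_, rfl⟩
    refine ⟨?_, ?_, ?_, ?_⟩
    · have h1 : Computable fun z : ℕ => ev φ A B T (V ((st nx (n + z)).drop n)) z := by
        refine (computable_ev A B T h).comp ?_ Computable.id
        refine primrec_V.to_comp.comp ?_
        refine (Primrec.list_drop.to_comp).comp (Computable.const n) ?_
        exact hst.comp (Primrec.nat_add.comp (Primrec.const n) Primrec.id).to_comp
      exact h1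
    · intro z hz
      rw [hY n z (n + z) le_rfl]
      exact (hmem (n + z)).2.1 z hz
    · intro z hz
      rw [hY n z (n + z) le_rfl]
      exact (hmem (n + z)).2.2.1 z hz
    · intro i l hl
      obtain ⟨j, hj⟩ : ∃ j, ∀ z ∈ l, n + z ≤ j := by
        refine ⟨n + l.sum, fun z hz => ?_⟩
        have := List.single_le_sum (by simp) z hz
        omega
      have h1 : l.map (Y n) = l.map (φ (PP A B T nx n j)) := by
        apply List.map_congr_left
        intro z hz
        exact hY n z j (hj z hz)
      rw [h1]
      exact (hmem j).2.2.2 i l hl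
  choose y hy using hrange
  refine ⟨fun n => (nx (st nx n)).unpair.1, y, ?_, ?_⟩
  · intro n
    have h1 := hcond (st nx n)
    unfold Cond at h1
    rw [Bool.and_eq_true] at h1
    intro h2
    have h3 := h1.1
    unfold ev at h3
    rw [gw_wd, h2] at h3
    simp at h3
  · intro n
    apply hinj
    ext z
    set z1 := φ (y (n + 1)) z with hz1
    set z2 := φ (y (n + 1)) z1 with hz2
    set j := n + 1 + z + z1 with hj
    have e1 : φ (PP A B T nx (n + 1) j) z = z1 := by
      rw [hz1, hy, hY (n + 1) z j (by omega)]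
    have e2 : φ (PP A B T nx (n + 1) j) z1 = z2 := by
      rw [hz2, hy, hY (n + 1) z1 j (by omega)]
    have e3 : φ (y n) z = φ (PP A B T nx n j) z := by
      rw [hy, hY n z j (by omega)]
    rw [e3, PP_succ A B T nx n j (by omega), map_mul, map_mul φ (PP A B T nx (n + 1) j),
      Equiv.Perm.mul_apply, Equiv.Perm.mul_apply, e1, e2]
    rw [map_mul φ _ (y (n + 1) * y (n + 1)), map_mul φ (y (n + 1)), Equiv.Perm.mul_apply,
      Equiv.Perm.mul_apply]

end Pool.Agent.Helper22.FreeProd
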