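import Pool.Agent.Helper22.FreeProdAut
import Pool.Agent.Helper22.FreeProdSearch
import Pool.Agent.Helper22.FreeProdAlg

set_option autoImplicit false

namespace Pool.Agent.Helper22.FreeProd

open Encodable Denumerable Nat.Partrec Pool.Agent.Helper22.IntPrimrec

/-- the domain of the first structure -/
abbrev P := ℕ × ℤ × ℤ × ℤ

/-- coding -/
def eP : P ≃ ℕ where
  toFun z := Nat.pair z.1 (Nat.pair (encode z.2.1) (Nat.pair (encode z.2.2.1) (encode z.2.2.2)))
  invFun n := (n.unpair.1, ofNat ℤ n.unpair.2.unpair.1, ofNat ℤ n.unpair.2.unpair.2.unpair.1,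
    ofNat ℤ n.unpair.2.unpair.2.unpair.2)
  left_inv := by
    rintro ⟨s, i, x, y⟩
    simp only [Nat.unpair_pair, Denumerable.ofNat_encode]
  right_inv := by
    intro n
    simp only [Denumerable.encode_ofNat, Nat.pair_unpair]

theorem primrec_eP : Primrec eP :=
  Primrec₂.natPair.comp Primrec.fst (Primrec₂.natPair.comp
    (Primrec.encode.comp (Primrec.fst.comp Primrec.snd)) (Primrec₂.natPair.comp
      (Primrec.encode.comp (Primrec.fst.comp (Primrec.snd.comp Primrec.snd)))
      (Primrec.encode.comp (Primrec.snd.comp (Primrec.snd.comp Primrec.snd)))))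

theorem primrec_eP_symm : Primrec eP.symm := by
  have h1 : Primrec fun n : ℕ => n.unpair.1 := Primrec.fst.comp Primrec.unpair
  have h2 : Primrec fun n : ℕ => n.unpair.2 := Primrec.snd.comp Primrec.unpair
  exact Primrec.pair h1 (Primrec.pair ((Primrec.ofNat ℤ).comp (h1.comp h2))
    (Primrec.pair ((Primrec.ofNat ℤ).comp (h1.comp (h2.comp h2)))
      ((Primrec.ofNat ℤ).comp (h2.comp (h2.comp h2)))))

/-- the relation of the first structure -/
def DP (z z' : P) : ℕ × ℕ × ℤ × ℤ × ℤ :=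
  (z.1, z'.1, if z.1 = z'.1 then z'.2.1 - z.2.1 else 0,
    if z.1 = z'.1 ∧ z.2.1 = z'.2.1 then z'.2.2.1 - z.2.2.1 else 0,
    if z.1 = z'.1 ∧ z.2.1 = z'.2.1 ∧ z.2.2.1 = z'.2.2.1 then z'.2.2.2 - z.2.2.2 else 0)

theorem primrec_DP : Primrec₂ DP := by
  have s1 : Primrec fun a : P × P => a.1.1 := Primrec.fst.comp Primrec.fst
  have s2 : Primrec fun a : P × P => a.2.1 := Primrec.fst.comp Primrec.snd
  have i1 : Primrec fun a : P × P => a.1.2.1 := Primrec.fst.comp (Primrec.snd.comp Primrec.fst)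
  have i2 : Primrec fun a : P × P => a.2.2.1 := Primrec.fst.comp (Primrec.snd.comp Primrec.snd)
  have x1 : Primrec fun a : P × P => a.1.2.2.1 :=
    Primrec.fst.comp (Primrec.snd.comp (Primrec.snd.comp Primrec.fst))
  have x2 : Primrec fun a : P × P => a.2.2.2.1 :=
    Primrec.fst.comp (Primrec.snd.comp (Primrec.snd.comp Primrec.snd))
  have y1 : Primrec fun a : P × P => a.1.2.2.2 :=
    Primrec.snd.comp (Primrec.snd.comp (Primrec.snd.comp Primrec.fst))
  have y2 : Primrec fun a : P × P => a.2.2.2.2 :=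
    Primrec.snd.comp (Primrec.snd.comp (Primrec.snd.comp Primrec.snd))
  have cs : PrimrecPred fun a : P × P => a.1.1 = a.2.1 := Primrec.eq.comp s1 s2
  have ci : PrimrecPred fun a : P × P => a.1.2.1 = a.2.2.1 := Primrec.eq.comp i1 i2
  have cx : PrimrecPred fun a : P × P => a.1.2.2.1 = a.2.2.2.1 := Primrec.eq.comp x1 x2
  exact Primrec.pair s1 (Primrec.pair s2 (Primrec.pair
    (Primrec.ite cs (primrec_sub.comp i2 i1) (Primrec.const 0)) (Primrec.pair
    (Primrec.ite (cs.and ci) (primrec_sub.comp x2 x1) (Primrec.const 0))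
    (Primrec.ite (cs.and (ci.and cx)) (primrec_sub.comp y2 y1) (Primrec.const 0)))))

/-- squares in the automorphism group -/
theorem square (g : Equiv.Perm P) (hg : ∀ z z', DP (g z) (g z') = DP z z') (s : ℕ) (i x y c : ℤ)
    (h : g (g (s, i, x, y)) = (s, i, x, y + c)) :
    ∃ y1, g (s, i, x, y) = (s, i, x, y1) ∧ 2 * (y1 - y) = c := by
  obtain ⟨⟨s1, i1, x1, y1⟩, hz⟩ : ∃ z, g (s, i, x, y) = z := ⟨_, rfl⟩
  have h1 := hg (s, i, x, y) (g (s, i, x, y))
  rw [h, hz] at h1
  simp only [DP, Prod.mk.injEq] at h1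
  obtain ⟨e1, e2, e3, e4, e5⟩ := h1
  subst e1
  rw [if_pos rfl, if_pos rfl] at e3
  have hi : i1 = i := by omega
  subst hi
  rw [if_pos ⟨rfl, rfl⟩, if_pos ⟨rfl, rfl⟩] at e4
  have hx : x1 = x := by omega
  subst hx
  rw [if_pos ⟨rfl, rfl, rfl⟩, if_pos ⟨rfl, rfl, rfl⟩] at e5
  exact ⟨y1, hz, by omega⟩

/-! ### the two generators -/

/-- fibre permutation -/
def pp : Equiv.Perm (ℤ × ℤ) where
  toFun v := (v.1 + 1, v.2)
  invFun v := (v.1 - 1, v.2)
  left_inv := by intro v; simp
  right_inv := by intro v; simp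

/-- fibre permutation -/
def qq : Equiv.Perm (ℤ × ℤ) where
  toFun v := (v.1, v.2 + v.1)
  invFun v := (v.1, v.2 - v.1)
  left_inv := by intro v; simp
  right_inv := by intro v; simp

variable (h : ℕ → ℕ)

/-- fibre permutations of the first generator -/
def al (s : ℕ) (j : ℤ) : Equiv.Perm (ℤ × ℤ) :=
  if h s ≠ 0 ∧ j = 0 then pp else if h s ≠ 0 ∧ j = h s then qq else 1

/-- the first generator -/
def aP : Equiv.Perm P where
  toFun z := (z.1, z.2.1, al h z.1 z.2.1 z.2.2)
  invFun z := (z.1, z.2.1, (al h z.1 z.2.1)⁻¹ z.2.2)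
  left_inv := by intro z; simp
  right_inv := by intro z; simp

/-- the second generator -/
def bP : Equiv.Perm P where
  toFun z := (z.1, z.2.1 + 1, z.2.2)
  invFun z := (z.1, z.2.1 - 1, z.2.2)
  left_inv := by intro z; simp
  right_inv := by intro z; simp

theorem aP_mem (z z' : P) : DP (aP h z) (aP h z') = DP z z' := by
  obtain ⟨s, i, x, y⟩ := z
  obtain ⟨s', i', x', y'⟩ := z'
  by_cases hs : s = s'
  · subst hs
    by_cases hi : i = i'
    · subst hi
      change DP (s, i, al h s i (x, y)) (s, i, al h s i (x', y')) = _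
      unfold al
      split_ifs
      · simp [DP, pp]
      · by_cases hx : x = x'
        · subst hx; simp [DP, qq]
        · simp [DP, qq, hx]
      · rfl
    · change DP (s, i, al h s i (x, y)) (s, i', al h s i' (x', y')) = _
      simp [DP, hi]
  · change DP (s, i, al h s i (x, y)) (s', i', al h s' i' (x', y')) = _
    simp [DP, hs]

theorem bP_mem (z z' : P) : DP (bP z) (bP z') = DP z z' := by
  obtain ⟨s, i, x, y⟩ := z
  obtain ⟨s', i', x', y'⟩ := z'
  simp [DP, bP]

theorem computable_aP (hh : Computable h) : Computable (aP h) := by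
  have hs : Computable fun z : P => h z.1 := hh.comp Computable.fst
  have hx : Primrec fun z : P => z.2.2.1 := Primrec.fst.comp (Primrec.snd.comp Primrec.snd)
  have hy : Primrec fun z : P => z.2.2.2 := Primrec.snd.comp (Primrec.snd.comp Primrec.snd)
  have c1 : Computable fun z : P => decide (h z.1 ≠ 0 ∧ z.2.1 = 0) := by
    have : Primrec fun b : ℕ × ℤ => decide (b.1 ≠ 0 ∧ b.2 = 0) :=
      PrimrecPred.decide ((PrimrecPred.not (Primrec.eq.comp Primrec.fst (Primrec.const 0))).and
        (Primrec.eq.comp Primrec.snd (Primrec.const 0)))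
    exact this.to_comp.comp (Computable.pair hs (Computable.fst.comp Computable.snd))
  have c2 : Computable fun z : P => decide (h z.1 ≠ 0 ∧ z.2.1 = h z.1) := by
    have : Primrec fun b : ℕ × ℤ => decide (b.1 ≠ 0 ∧ b.2 = (b.1 : ℤ)) :=
      PrimrecPred.decide ((PrimrecPred.not (Primrec.eq.comp Primrec.fst (Primrec.const 0))).and
        (Primrec.eq.comp Primrec.snd (primrec_cast.comp Primrec.fst)))
    exact this.to_comp.comp (Computable.pair hs (Computable.fst.comp Computable.snd))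
  have hp : Primrec fun z : P => ((z.1, z.2.1, z.2.2.1 + 1, z.2.2.2) : P) :=
    Primrec.pair Primrec.fst (Primrec.pair (Primrec.fst.comp Primrec.snd)
      (Primrec.pair (primrec_add.comp hx (Primrec.const 1)) hy))
  have hq : Primrec fun z : P => ((z.1, z.2.1, z.2.2.1, z.2.2.2 + z.2.2.1) : P) :=
    Primrec.pair Primrec.fst (Primrec.pair (Primrec.fst.comp Primrec.snd)
      (Primrec.pair hx (primrec_add.comp hy hx)))
  have h1 : Computable fun z : P => cond (decide (h z.1 ≠ 0 ∧ z.2.1 = 0))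
      ((z.1, z.2.1, z.2.2.1 + 1, z.2.2.2) : P) (cond (decide (h z.1 ≠ 0 ∧ z.2.1 = h z.1))
      ((z.1, z.2.1, z.2.2.1, z.2.2.2 + z.2.2.1) : P) z) :=
    Computable.cond c1 hp.to_comp (Computable.cond c2 hq.to_comp Computable.id)
  refine h1.of_eq fun z => ?_
  obtain ⟨s, i, x, y⟩ := z
  change _ = (s, i, al h s i (x, y))
  simp only [Bool.cond_decide]
  unfold al
  split_ifs <;> rfl

theorem computable_bP : Computable bP := by
  have : Primrec fun z : P => ((z.1, z.2.1 + 1, z.2.2) : P) :=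
    Primrec.pair Primrec.fst (Primrec.pair
      (primrec_add.comp (Primrec.fst.comp Primrec.snd) (Primrec.const 1))
      (Primrec.snd.comp Primrec.snd))
  exact this.to_comp

theorem aP_apply (s : ℕ) (i : ℤ) (v : ℤ × ℤ) : aP h (s, i, v) = (s, i, al h s i v) := rfl

theorem aP_inv_apply (s : ℕ) (i : ℤ) (v : ℤ × ℤ) :
    (aP h)⁻¹ (s, i, v) = (s, i, (al h s i)⁻¹ v) := rfl

theorem bP_pow (m : ℕ) (s : ℕ) (i : ℤ) (v : ℤ × ℤ) : (bP ^ m) (s, i, v) = (s, i + m, v) := by
  induction m with
  | zero => simp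
  | succ m ih =>
    rw [pow_succ', Equiv.Perm.mul_apply, ih]
    change (s, i + m + 1, v) = _
    push_cast
    rw [add_assoc]

theorem bP_inv_pow (m : ℕ) (s : ℕ) (i : ℤ) (v : ℤ × ℤ) : (bP⁻¹ ^ m) (s, i, v) = (s, i - m, v) := by
  rw [inv_pow, Equiv.Perm.inv_eq_iff_eq, bP_pow]
  simp

theorem wG_apply (m : ℕ) (s : ℕ) (i : ℤ) (v : ℤ × ℤ) : wG (aP h) bP m (s, i, v) =
    (s, i, al h s i (al h s (i - m) ((al h s i)⁻¹ ((al h s (i - m))⁻¹ v)))) := by
  unfold wG
  simp only [Equiv.Perm.mul_apply, bP_inv_pow, aP_inv_apply, bP_pow, aP_apply]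
  simp

theorem wG_succ (m : ℕ) (s : ℕ) (i x y : ℤ) : wG (aP h) bP (m + 1) (s, i, x, y) =
    if h s = m + 1 ∧ i = m + 1 then (s, i, x, y + 1) else (s, i, x, y) := by
  rw [wG_apply]
  by_cases h0 : h s = 0
  · have h1 : ∀ j, al h s j = 1 := by intro j; simp [al, h0]
    rw [h1, h1, if_neg (by omega)]
    rfl
  · have hp : al h s 0 = pp := by simp [al, h0]
    have hq : al h s (h s) = qq := by simp [al, h0]
    have h1 : ∀ j : ℤ, j ≠ 0 → j ≠ h s → al h s j = 1 := by
      intro j hj1 hj2; simp [al, hj1, hj2]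
    by_cases hc : h s = m + 1 ∧ i = m + 1
    · rw [if_pos hc]
      obtain ⟨hc1, hc2⟩ := hc
      have e1 : i = (h s : ℤ) := by rw [hc1, hc2]; push_cast; ring
      have e2 : i - ((m + 1 : ℕ) : ℤ) = 0 := by rw [hc2]; push_cast; ring
      rw [e2, hp, e1, hq]
      change (s, (h s : ℤ), (x - 1 + 1, y - (x - 1) + (x - 1 + 1))) = (s, (h s : ℤ), x, y + 1)
      congr 3
      · ring
      · ring
    · rw [if_neg hc]
      by_cases hi : al h s i = 1
      · rw [hi]; simp
      · by_cases hj : al h s (i - ((m + 1 : ℕ) : ℤ)) = 1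
        · rw [hj]; simp
        · exfalso
          have h2 : i = 0 ∨ i = h s := by
            by_contra hcon
            rw [not_or] at hcon
            exact hi (h1 _ hcon.1 hcon.2)
          have h3 : i - ((m + 1 : ℕ) : ℤ) = 0 ∨ i - ((m + 1 : ℕ) : ℤ) = h s := by
            by_contra hcon
            rw [not_or] at hcon
            exact hj (h1 _ hcon.1 hcon.2)
          apply hc
          push_cast at h3
          omega

end Pool.Agent.Helper22.FreeProd
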