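import Pool.Agent.Helper22.FreeProdEx

set_option autoImplicit false

namespace Pool.Agent.Helper22.FreeProd

open Encodable Denumerable Nat.Partrec Pool.Agent.Helper22.IntPrimrec

theorem map_wG {Γ Δ : Type*} [Group Γ] [Group Δ] (f : Γ →* Δ) (A B : Γ) (m : ℕ) :
    wG (f A) (f B) m = f (wG A B m) := by
  simp [wG]

/-! ### the second group -/

theorem computable_eqvInt : Computable (Denumerable.eqv ℤ : ℤ → ℕ) := by
  have : Primrec fun z : ℤ => encode z := Primrec.encode
  exact this.to_comp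

theorem computable_eqvInt_symm : Computable ((Denumerable.eqv ℤ).symm : ℕ → ℤ) := by
  have : Primrec fun n : ℕ => ofNat ℤ n := Primrec.ofNat ℤ
  exact this.to_comp

/-- the difference relation -/
def DZ (z z' : ℤ) : ℤ := z' - z

theorem primrec_DZ : Primrec₂ DZ := by
  have : Primrec fun a : ℤ × ℤ => a.2 - a.1 := primrec_sub.comp Primrec.snd Primrec.fst
  exact this

/-- the second group -/
abbrev HZ := autc (Denumerable.eqv ℤ) computable_eqvInt computable_eqvInt_symm DZ

theorem HZ_spec (h : HZ) (i : ℤ) : (h : Equiv.Perm ℤ) i = i + (h : Equiv.Perm ℤ) 0 := by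
  have h1 := h.2.2 0 i
  unfold DZ at h1
  change (h : Equiv.Perm ℤ) i - (h : Equiv.Perm ℤ) 0 = i - 0 at h1
  omega

/-- the translation by one -/
def tZ : HZ := ⟨Equiv.addRight 1, by
  refine ⟨?_, ?_⟩
  · have : Primrec fun z : ℤ => z + 1 := primrec_add.comp Primrec.id (Primrec.const 1)
    exact this.to_comp
  · intro z z'
    simp [DZ]⟩

/-! ### the first group -/

/-- halting information -/
def hh (s : ℕ) : ℕ :=
  if (Code.evaln s.unpair.1 (ofNat Code s.unpair.2) 0).isSome then s.unpair.2 + 1 else 0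

theorem primrec_hh : Primrec hh := by
  unfold hh
  have h1 : Primrec fun s : ℕ => ((s.unpair.1, ofNat Code s.unpair.2), 0) :=
    Primrec.pair (Primrec.pair (Primrec.fst.comp Primrec.unpair)
      ((Primrec.ofNat Code).comp (Primrec.snd.comp Primrec.unpair))) (Primrec.const 0)
  refine Primrec.ite ?_ (Primrec.succ.comp (Primrec.snd.comp Primrec.unpair)) (Primrec.const 0)
  exact Primrec.eq.comp (Primrec.option_isSome.comp (Code.primrec_evaln.comp h1)) (Primrec.const true)

theorem hh_iff (j : ℕ) : (∃ s, hh s = j + 1) ↔ (Code.eval (ofNat Code j) 0).Dom := by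
  constructor
  · rintro ⟨s, hs⟩
    unfold hh at hs
    split_ifs at hs with h1
    · have h2 : s.unpair.2 = j := by omega
      rw [h2] at h1
      obtain ⟨x, hx⟩ := Option.isSome_iff_exists.1 h1
      exact Part.dom_iff_mem.2 ⟨x, Code.evaln_sound hx⟩
  · intro h
    obtain ⟨x, hx⟩ := Part.dom_iff_mem.1 h
    obtain ⟨k, hk⟩ := Code.evaln_complete.1 hx
    refine ⟨Nat.pair k j, ?_⟩
    unfold hh
    rw [Nat.unpair_pair, if_pos]
    rw [Option.mem_def] at hk
    simp [hk]

/-- the first group -/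
abbrev GP := autc eP primrec_eP.to_comp primrec_eP_symm.to_comp DP

/-- first generator -/
def aG : GP := ⟨aP hh, computable_aP hh primrec_hh.to_comp, aP_mem hh⟩

/-- second generator -/
def bG : GP := ⟨bP, computable_bP, bP_mem⟩

theorem wG_coe (m : ℕ) : ((wG aG bG m : GP) : Equiv.Perm P) = wG (aP hh) bP m :=
  (map_wG (GP.subtype) aG bG m).symm

theorem wG_zero {Γ : Type*} [Group Γ] (A B : Γ) : wG A B 0 = 1 := by
  simp [wG]

theorem wG_succ_eq_one (j : ℕ) : (wG aG bG (j + 1) : GP) = 1 ↔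
    ¬ (Code.eval (ofNat Code j) 0).Dom := by
  rw [← hh_iff]
  constructor
  · rintro h ⟨s, hs⟩
    have h1 : wG (aP hh) bP (j + 1) = 1 := by rw [← wG_coe, h]; rfl
    have h2 := wG_succ hh j s ((j : ℤ) + 1) 0 0
    rw [if_pos ⟨hs, rfl⟩, h1] at h2
    have h3 := congrArg (fun z : P => z.2.2.2) h2
    simp at h3
  · intro h
    apply Subtype.ext
    rw [wG_coe]
    ext1 z
    obtain ⟨s, i, x, y⟩ := z
    rw [wG_succ, if_neg]
    · rfl
    · rintro ⟨h1, -⟩
      exact h ⟨s, h1⟩

theorem undecidable : ¬ ComputablePred fun m => (wG aG bG m : GP) = 1 := by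
  rintro ⟨D, hD⟩
  apply ComputablePred.halting_problem 0
  refine ⟨fun _ => Classical.propDecidable _, ?_⟩
  have h1 : Computable fun c : Code => !decide ((wG aG bG (encode c + 1) : GP) = 1) :=
    (Primrec.not.to_comp).comp (hD.comp (Computable.succ.comp Computable.encode))
  refine h1.of_eq fun c => ?_
  have h2 := wG_succ_eq_one (encode c)
  rw [ofNat_encode] at h2
  by_cases h3 : (Code.eval c 0).Dom
  · simp [h2, h3]
  · simp [h2, h3]

theorem no_torsion (g : GP) (hg : g * g = 1) : g = 1 := by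
  apply Subtype.ext
  ext1 z
  obtain ⟨s, i, x, y⟩ := z
  have h1 : (g : Equiv.Perm P) ((g : Equiv.Perm P) (s, i, x, y)) = (s, i, x, y + 0) := by
    have h2 : ((g * g : GP) : Equiv.Perm P) (s, i, x, y) = (s, i, x, y) := by rw [hg]; rfl
    rw [add_zero]
    exact h2
  obtain ⟨y1, h3, h4⟩ := square _ g.2.2 s i x y 0 h1
  rw [h3]
  have : y1 = y := by omega
  rw [this]
  rfl

theorem not_square (m : ℕ) (hm : (wG aG bG m : GP) ≠ 1) : ¬ ∃ g : GP, g * g = wG aG bG m := by
  rintro ⟨g, hg⟩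
  cases m with
  | zero => exact hm (wG_zero _ _)
  | succ j =>
    rw [Ne, wG_succ_eq_one, not_not, ← hh_iff] at hm
    obtain ⟨s, hs⟩ := hm
    have h1 : (g : Equiv.Perm P) ((g : Equiv.Perm P) (s, ((j : ℤ) + 1), 0, 0)) =
        (s, ((j : ℤ) + 1), 0, 0 + 1) := by
      have h2 : ((g * g : GP) : Equiv.Perm P) (s, ((j : ℤ) + 1), 0, 0) =
          wG (aP hh) bP (j + 1) (s, ((j : ℤ) + 1), 0, 0) := by rw [hg, wG_coe]
      rw [wG_succ, if_pos ⟨hs, rfl⟩] at h2
      exact h2
    obtain ⟨y1, -, h4⟩ := square _ g.2.2 s ((j : ℤ) + 1) 0 0 1 h1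
    omega

end Pool.Agent.Helper22.FreeProd
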