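import Mathlib

set_option autoImplicit false

namespace Pool.Agent.Helper22.FreeProd

open Encodable

variable {Γ : Type*} [Group Γ]

/-- letters -/
def letter (A B T : Γ) (c : ℕ) : Γ :=
  if c = 0 then A else if c = 1 then A⁻¹ else if c = 2 then B else if c = 3 then B⁻¹ else
    if c = 4 then T else if c = 5 then T⁻¹ else 1

/-- value of a word -/
def gw (A B T : Γ) (w : List ℕ) : Γ := (w.map (letter A B T)).prod

theorem gw_append (A B T : Γ) (v w : List ℕ) : gw A B T (v ++ w) = gw A B T v * gw A B T w := by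
  simp [gw]

theorem gw_nil (A B T : Γ) : gw A B T [] = 1 := rfl

/-- inverse letter -/
def flipc (c : ℕ) : ℕ :=
  if c = 0 then 1 else if c = 1 then 0 else if c = 2 then 3 else if c = 3 then 2 else
    if c = 4 then 5 else if c = 5 then 4 else 6

/-- inverse word -/
def iw (w : List ℕ) : List ℕ := (w.map flipc).reverse

theorem letter_flipc (A B T : Γ) (c : ℕ) : letter A B T (flipc c) = (letter A B T c)⁻¹ := by
  unfold flipc
  split_ifs with h0 h1 h2 h3 h4 h5
  · subst h0; simp [letter]
  · subst h1; simp [letter]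
  · subst h2; simp [letter]
  · subst h3; simp [letter]
  · subst h4; simp [letter]
  · subst h5; simp [letter]
  · simp [letter, h0, h1, h2, h3, h4, h5]

theorem gw_iw (A B T : Γ) (w : List ℕ) : gw A B T (iw w) = (gw A B T w)⁻¹ := by
  unfold gw iw
  rw [List.map_reverse, List.map_map, List.prod_inv_reverse, List.map_map]
  congr 2
  apply List.map_congr_left
  intro c _
  exact letter_flipc A B T c

/-- power word -/
def pw (c n : ℕ) : List ℕ := (List.range n).map fun _ => c

theorem gw_pw (A B T : Γ) (c n : ℕ) : gw A B T (pw c n) = letter A B T c ^ n := by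
  simp [gw, pw, List.map_const', List.prod_replicate]

/-- the test words -/
def wd (m : ℕ) : List ℕ := [0] ++ pw 2 m ++ [0] ++ pw 3 m ++ [1] ++ pw 2 m ++ [1] ++ pw 3 m

/-- the test elements -/
def wG (A B : Γ) (m : ℕ) : Γ := A * B ^ m * A * B⁻¹ ^ m * A⁻¹ * B ^ m * A⁻¹ * B⁻¹ ^ m

theorem gw_wd (A B T : Γ) (m : ℕ) : gw A B T (wd m) = wG A B m := by
  unfold wd wG
  simp only [gw_append, gw_pw]
  simp [gw, letter]

/-- conjugated test words -/
def X (e : ℕ) : List ℕ := pw 4 e.unpair.1 ++ wd e.unpair.2 ++ pw 5 e.unpair.1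

theorem gw_X (A B T : Γ) (n m : ℕ) :
    gw A B T (X (Nat.pair n m)) = T ^ n * wG A B m * T⁻¹ ^ n := by
  unfold X
  rw [Nat.unpair_pair]
  simp only [gw_append, gw_pw, gw_wd]
  simp [letter]

/-- nested squares -/
def V (l : List ℕ) : List ℕ := l.foldr (fun e acc => X e ++ (acc ++ acc)) []

/-- nested squares with a given innermost element -/
def FF (A B T : Γ) (l : List ℕ) (x : Γ) : Γ := l.foldr (fun e acc => gw A B T (X e) * (acc * acc)) x

theorem gw_V (A B T : Γ) (l : List ℕ) : gw A B T (V l) = FF A B T l 1 := by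
  induction l with
  | nil => rfl
  | cons e l ih =>
    change gw A B T (X e ++ (V l ++ V l)) = gw A B T (X e) * (FF A B T l 1 * FF A B T l 1)
    rw [gw_append, gw_append, ih]

theorem gw_V_snoc (A B T : Γ) (l : List ℕ) (e : ℕ) :
    gw A B T (V (l ++ [e])) = FF A B T l (gw A B T (X e)) := by
  rw [gw_V]
  unfold FF
  rw [List.foldr_append]
  simp

/-! ### continuity -/

section cts

variable (φ : Γ →* Equiv.Perm ℕ)

/-- continuity at the identity -/
def Cts (F : Γ → Γ) : Prop :=
  ∀ z : ℕ, ∃ S : Finset ℕ, ∀ x : Γ, (∀ s ∈ S, φ x s = s) → φ (F x) z = φ (F 1) z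

variable {φ}

theorem Cts.const (g : Γ) : Cts φ (fun _ => g) := fun _ => ⟨∅, fun _ _ => rfl⟩

theorem Cts.id : Cts φ (fun x => x) := fun z => ⟨{z}, fun x hx => by
  rw [hx z (Finset.mem_singleton_self z)]; simp⟩

theorem Cts.inv : Cts φ (fun x => x⁻¹) := fun z => ⟨{z}, fun x hx => by
  have h1 := hx z (Finset.mem_singleton_self z)
  have h2 : φ x⁻¹ z = z := by
    rw [map_inv, Equiv.Perm.inv_eq_iff_eq]
    exact h1.symm
  rw [h2]; simp⟩

theorem Cts.mul {F G : Γ → Γ} (hF : Cts φ F) (hG : Cts φ G) : Cts φ (fun x => F x * G x) := by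
  classical
  intro z
  obtain ⟨S, hS⟩ := hG z
  obtain ⟨S', hS'⟩ := hF (φ (G 1) z)
  refine ⟨S ∪ S', fun x hx => ?_⟩
  rw [map_mul, map_mul, Equiv.Perm.mul_apply, Equiv.Perm.mul_apply,
    hS x (fun s hs => hx s (Finset.mem_union_left _ hs)),
    hS' x (fun s hs => hx s (Finset.mem_union_right _ hs))]

theorem cts_FF (A B T : Γ) (l : List ℕ) :
    Cts φ (FF A B T l) ∧ Cts φ (fun x => (FF A B T l x)⁻¹) := by
  induction l with
  | nil => exact ⟨Cts.id, Cts.inv⟩
  | cons e l ih =>
    refine ⟨?_, ?_⟩
    · exact (Cts.const _).mul (ih.1.mul ih.1)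
    · have h1 : (fun x => (FF A B T (e :: l) x)⁻¹) =
          fun x => ((FF A B T l x)⁻¹ * (FF A B T l x)⁻¹) * (gw A B T (X e))⁻¹ := by
        funext x
        change (gw A B T (X e) * (FF A B T l x * FF A B T l x))⁻¹ = _
        group
      rw [h1]
      exact (ih.2.mul ih.2).mul (Cts.const _)

/-- finitely many conditions at once -/
theorem Cts.finite {ι : Type*} (F : ι → Γ → Γ) (z : ι → ℕ) (I : Finset ι)
    (h : ∀ i ∈ I, Cts φ (F i)) :
    ∃ S : Finset ℕ, ∀ x : Γ, (∀ s ∈ S, φ x s = s) → ∀ i ∈ I, φ (F i x) (z i) = φ (F i 1) (z i) := by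
  classical
  have h1 : ∀ i, ∃ S : Finset ℕ, i ∈ I → ∀ x : Γ, (∀ s ∈ S, φ x s = s) →
      φ (F i x) (z i) = φ (F i 1) (z i) := by
    intro i
    by_cases hi : i ∈ I
    · obtain ⟨S, hS⟩ := h i hi (z i)
      exact ⟨S, fun _ => hS⟩
    · exact ⟨∅, fun h => absurd h hi⟩
  choose S hS using h1
  refine ⟨I.biUnion S, fun x hx i hi => hS i hi x fun s hs => hx s ?_⟩
  exact Finset.mem_biUnion.2 ⟨i, hi, hs⟩

end cts

/-! ### primitive recursive words -/

theorem primrec_pw : Primrec₂ pw :=
  Primrec.list_map (f := fun a : ℕ × ℕ => List.range a.2) (g := fun (a : ℕ × ℕ) (_ : ℕ) => a.1)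
    (Primrec.list_range.comp Primrec.snd) (Primrec.fst.comp Primrec.fst)

theorem primrec_wd : Primrec wd := by
  unfold wd
  have h : ∀ c : ℕ, Primrec fun m => pw c m := fun c => primrec_pw.comp (Primrec.const c) Primrec.id
  exact Primrec.list_append.comp (Primrec.list_append.comp (Primrec.list_append.comp
    (Primrec.list_append.comp (Primrec.list_append.comp (Primrec.list_append.comp
      (Primrec.list_append.comp (Primrec.const [0]) (h 2)) (Primrec.const [0])) (h 3))
        (Primrec.const [1])) (h 2)) (Primrec.const [1])) (h 3)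

theorem primrec_X : Primrec X := by
  unfold X
  have h : ∀ c : ℕ, Primrec fun e : ℕ => pw c e.unpair.1 := fun c =>
    primrec_pw.comp (Primrec.const c) (Primrec.fst.comp Primrec.unpair)
  exact Primrec.list_append.comp (Primrec.list_append.comp (h 4)
    (primrec_wd.comp (Primrec.snd.comp Primrec.unpair))) (h 5)

theorem primrec_V : Primrec V := by
  unfold V
  refine Primrec.list_foldr (f := fun l : List ℕ => l) (g := fun _ : List ℕ => ([] : List ℕ))
    (h := fun (_ : List ℕ) (b : ℕ × List ℕ) => X b.1 ++ (b.2 ++ b.2)) Primrec.id (Primrec.const []) ?_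
  exact Primrec.list_append.comp (primrec_X.comp (Primrec.fst.comp Primrec.snd))
    (Primrec.list_append.comp (Primrec.snd.comp Primrec.snd) (Primrec.snd.comp Primrec.snd))

theorem primrec_flipc : Primrec flipc := by
  unfold flipc
  have h : ∀ k : ℕ, PrimrecPred fun c : ℕ => c = k := fun k =>
    Primrec.eq.comp Primrec.id (Primrec.const k)
  exact Primrec.ite (h 0) (Primrec.const 1) (Primrec.ite (h 1) (Primrec.const 0)
    (Primrec.ite (h 2) (Primrec.const 3) (Primrec.ite (h 3) (Primrec.const 2)
      (Primrec.ite (h 4) (Primrec.const 5) (Primrec.ite (h 5) (Primrec.const 4)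
        (Primrec.const 6))))))

theorem primrec_iw : Primrec iw := by
  unfold iw
  exact Primrec.list_reverse.comp (Primrec.list_map Primrec.id (primrec_flipc.comp Primrec.snd))

/-! ### computability of evaluation -/

section ev

variable (φ : Γ →* Equiv.Perm ℕ) (A B T : Γ)

/-- evaluation of words -/
def ev (w : List ℕ) (z : ℕ) : ℕ := φ (gw A B T w) z

theorem foldl_rec {α : Type*} (act : ℕ → α → α) (w : List ℕ) (z : α) :
    w.foldl (fun acc c => act c acc) z =
      Nat.rec z (fun k acc => act (w.getD k 0) acc) w.length := by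
  induction w using List.reverseRecOn with
  | nil => rfl
  | append_singleton w c ih =>
    rw [List.foldl_append, ih, List.length_append]
    have h1 : ∀ n ≤ w.length, (Nat.rec z (fun k acc => act ((w ++ [c]).getD k 0) acc) n : α) =
        Nat.rec z (fun k acc => act (w.getD k 0) acc) n := by
      intro n
      induction n with
      | zero => intro _; rfl
      | succ n ihn =>
        intro hn
        change act ((w ++ [c]).getD n 0) _ = act (w.getD n 0) _
        rw [ihn (by omega), List.getD_append _ _ _ _ (by omega)]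
    change act c _ = act ((w ++ [c]).getD w.length 0) _
    rw [h1 _ le_rfl]
    congr 1
    simp

theorem ev_eq (w : List ℕ) (z : ℕ) : ev φ A B T w z =
    Nat.rec z (fun k acc => φ (letter A B T (w.reverse.getD k 0)) acc) w.reverse.length := by
  rw [← foldl_rec (fun c acc => φ (letter A B T c) acc) w.reverse z]
  unfold ev
  induction w with
  | nil => simp [gw]
  | cons c w ih =>
    rw [List.reverse_cons, List.foldl_append]
    have : gw A B T (c :: w) = letter A B T c * gw A B T w := by simp [gw]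
    rw [this, map_mul, Equiv.Perm.mul_apply, ih]
    rfl

variable {φ}

theorem computable_letter (h : ∀ g : Γ, Computable (φ g : ℕ → ℕ)) :
    Computable₂ fun (c : ℕ) (z : ℕ) => φ (letter A B T c) z := by
  have hc : ∀ k : ℕ, Computable fun a : ℕ × ℕ => decide (a.1 = k) := fun k =>
    (PrimrecPred.decide (Primrec.eq.comp Primrec.fst (Primrec.const k))).to_comp
  have hg : ∀ g : Γ, Computable fun a : ℕ × ℕ => φ g a.2 := fun g => (h g).comp Computable.snd
  have h1 : Computable fun a : ℕ × ℕ => cond (decide (a.1 = 0)) (φ A a.2) <|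
      cond (decide (a.1 = 1)) (φ A⁻¹ a.2) <| cond (decide (a.1 = 2)) (φ B a.2) <|
      cond (decide (a.1 = 3)) (φ B⁻¹ a.2) <| cond (decide (a.1 = 4)) (φ T a.2) <|
      cond (decide (a.1 = 5)) (φ T⁻¹ a.2) (φ 1 a.2) :=
    Computable.cond (hc 0) (hg _) <| Computable.cond (hc 1) (hg _) <|
    Computable.cond (hc 2) (hg _) <| Computable.cond (hc 3) (hg _) <|
    Computable.cond (hc 4) (hg _) <| Computable.cond (hc 5) (hg _) (hg _)
  refine h1.of_eq fun a => ?_
  simp only [Bool.cond_decide]
  unfold letter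
  split_ifs <;> rfl

theorem computable_ev (h : ∀ g : Γ, Computable (φ g : ℕ → ℕ)) : Computable₂ (ev φ A B T) := by
  have h1 : Computable fun a : List ℕ × ℕ => (Nat.rec a.2 (fun k acc =>
      φ (letter A B T (a.1.reverse.getD k 0)) acc) a.1.reverse.length : ℕ) := by
    refine Computable.nat_rec (f := fun a : List ℕ × ℕ => a.1.reverse.length)
      (g := fun a : List ℕ × ℕ => a.2)
      (h := fun (a : List ℕ × ℕ) (b : ℕ × ℕ) => φ (letter A B T (a.1.reverse.getD b.1 0)) b.2) ?_ ?_ ?_
    · exact (Primrec.list_length.comp (Primrec.list_reverse.comp Primrec.fst)).to_comp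
    · exact Computable.snd
    · refine (computable_letter A B T h).comp ?_ (Computable.snd.comp Computable.snd)
      exact ((Primrec.list_getD 0).comp (Primrec.list_reverse.comp (Primrec.fst.comp Primrec.fst))
        (Primrec.fst.comp Primrec.snd)).to_comp
  exact h1.of_eq fun a => (ev_eq φ A B T a.1 a.2).symm

end ev

end Pool.Agent.Helper22.FreeProd
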