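import Mathlib

set_option autoImplicit false

namespace Pool.Agent.Helper22.Functional

open Encodable

/-- the finite list of the first `k` values of `p` -/
def ini (p : ℕ → ℕ) (k : ℕ) : List ℕ := (List.range k).map p

theorem length_ini (p : ℕ → ℕ) (k : ℕ) : (ini p k).length = k := by simp [ini]

theorem getD_ini (p : ℕ → ℕ) (k i : ℕ) (h : i < k) : (ini p k).getD i 0 = p i := by
  simp [ini, h]

theorem getElem?_ini (p : ℕ → ℕ) (k i : ℕ) : (ini p k)[i]? = if i < k then some (p i) else none := by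
  by_cases h : i < k <;> simp [ini, h]

/-- monotone families of partial functions indexed by lists; the relation `Le` says that every
recorded value of the first list is recorded in the second -/
def Le (σ τ : List ℕ) : Prop := ∀ (i v : ℕ), σ[i]? = some v → τ[i]? = some v

theorem ini_le {p : ℕ → ℕ} {k l : ℕ} (h : k ≤ l) : Le (ini p k) (ini p l) := by
  intro i v hv
  rw [getElem?_ini] at hv ⊢
  split at hv
  · rw [if_pos (by omega)]; exact hv
  · simp at hv

/-- `Φ` is a uniformly partial recursive, monotone family computing `f` along `p` -/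
structure Comp (p : ℕ → ℕ) (f : ℕ →. ℕ) (Φ : List ℕ → ℕ →. ℕ) : Prop where
  partrec : Partrec₂ Φ
  mono : ∀ σ τ, Le σ τ → ∀ x m, m ∈ Φ σ x → m ∈ Φ τ x
  spec : ∀ x m, m ∈ f x ↔ ∃ k, m ∈ Φ (ini p k) x

theorem Comp.of_total {p : ℕ → ℕ} (f : ℕ →. ℕ) (hf : Partrec f) : Comp p f (fun _ => f) where
  partrec := hf.comp Computable.snd
  mono _ _ _ _ _ h := h
  spec _ _ := ⟨fun h => ⟨0, h⟩, fun ⟨_, h⟩ => h⟩

theorem mem_rfind' (q : ℕ → Part ℕ) (m : ℕ) :
    m ∈ Nat.rfind (fun n => (fun m => decide (m = 0)) <$> q n) ↔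
      (∃ u ∈ q m, u = 0) ∧ ∀ j < m, ∃ u ∈ q j, u ≠ 0 := by
  refine Iff.trans Nat.mem_rfind ?_
  constructor
  · rintro ⟨h1, h2⟩
    obtain ⟨u, hu, hu'⟩ := (Part.mem_map_iff _).1 h1
    refine ⟨⟨u, hu, by simpa using hu'⟩, fun j hj => ?_⟩
    obtain ⟨v, hv, hv'⟩ := (Part.mem_map_iff _).1 (h2 hj)
    exact ⟨v, hv, by simpa using hv'⟩
  · rintro ⟨⟨u, hu, hu'⟩, h2⟩
    refine ⟨(Part.mem_map_iff _).2 ⟨u, hu, by simpa using hu'⟩, fun {j} hj => ?_⟩
    obtain ⟨v, hv, hv'⟩ := h2 j hj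
    exact (Part.mem_map_iff _).2 ⟨v, hv, by simpa using hv'⟩

theorem exists_comp (p : ℕ → ℕ) (f : ℕ →. ℕ)
    (hf : Nat.RecursiveIn {fun n => Part.some (p n)} f) : ∃ Φ, Comp p f Φ := by
  induction hf with
  | zero => exact ⟨_, Comp.of_total _ (Partrec.nat_iff.2 Nat.Partrec.zero)⟩
  | succ => exact ⟨_, Comp.of_total _ (Partrec.nat_iff.2 Nat.Partrec.succ)⟩
  | left => exact ⟨_, Comp.of_total _ (Partrec.nat_iff.2 Nat.Partrec.left)⟩
  | right => exact ⟨_, Comp.of_total _ (Partrec.nat_iff.2 Nat.Partrec.right)⟩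
  | oracle g hg =>
    obtain rfl : g = fun n => Part.some (p n) := hg
    refine ⟨fun σ x => (σ[x]? : Part ℕ), ?_, ?_, ?_⟩
    · exact Computable.ofOption (Primrec.list_getElem?.to_comp)
    · intro σ τ h x m hm
      simp only [Part.mem_ofOption, Option.mem_def] at hm ⊢
      exact h x m hm
    · intro x m
      simp only [Part.mem_ofOption, Option.mem_def, getElem?_ini, Part.mem_some_iff]
      constructor
      · rintro rfl
        exact ⟨x + 1, by simp⟩
      · rintro ⟨k, hk⟩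
        split at hk
        · simpa using hk.symm
        · simp at hk
  | pair hf hh ihf ihh =>
    obtain ⟨F, hF⟩ := ihf
    obtain ⟨G, hG⟩ := ihh
    refine ⟨fun σ x => (Nat.pair <$> F σ x <*> G σ x), ?_, ?_, ?_⟩
    · have h1 : Partrec (fun a : List ℕ × ℕ => (F a.1 a.2).bind fun u => (G a.1 a.2).map fun v => Nat.pair u v) := by
        refine Partrec.bind hF.partrec ?_
        refine Partrec.map (hG.partrec.comp (Computable.fst.comp Computable.fst)
          (Computable.snd.comp Computable.fst)) ?_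
        exact (Primrec₂.natPair.comp (Primrec.snd.comp Primrec.fst) Primrec.snd).to_comp
      refine h1.of_eq fun a => ?_
      simp [Seq.seq, Part.map_eq_map]
    · intro σ τ h x m hm
      simp only [Seq.seq, Part.map_eq_map, Part.mem_bind_iff, Part.mem_map_iff] at hm ⊢
      obtain ⟨_, ⟨u, hu, rfl⟩, v, hv, rfl⟩ := hm
      exact ⟨_, ⟨u, hF.mono _ _ h _ _ hu, rfl⟩, v, hG.mono _ _ h _ _ hv, rfl⟩
    · intro x m
      simp only [Seq.seq, Part.map_eq_map, Part.mem_bind_iff, Part.mem_map_iff]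
      constructor
      · rintro ⟨_, ⟨u, hu, rfl⟩, v, hv, rfl⟩
        obtain ⟨k, hk⟩ := (hF.spec _ _).1 hu
        obtain ⟨l, hl⟩ := (hG.spec _ _).1 hv
        exact ⟨max k l, _, ⟨u, hF.mono _ _ (ini_le (le_max_left _ _)) _ _ hk, rfl⟩, v,
          hG.mono _ _ (ini_le (le_max_right _ _)) _ _ hl, rfl⟩
      · rintro ⟨k, _, ⟨u, hu, rfl⟩, v, hv, rfl⟩
        exact ⟨_, ⟨u, (hF.spec _ _).2 ⟨k, hu⟩, rfl⟩, v, (hG.spec _ _).2 ⟨k, hv⟩, rfl⟩
  | comp hf hh ihf ihh =>
    obtain ⟨F, hF⟩ := ihf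
    obtain ⟨G, hG⟩ := ihh
    refine ⟨fun σ x => (G σ x).bind (F σ), ?_, ?_, ?_⟩
    · refine Partrec.bind hG.partrec ?_
      exact hF.partrec.comp (Computable.fst.comp Computable.fst) Computable.snd
    · intro σ τ h x m hm
      obtain ⟨u, hu, hm⟩ := Part.mem_bind_iff.1 hm
      exact Part.mem_bind_iff.2 ⟨u, hG.mono _ _ h _ _ hu, hF.mono _ _ h _ _ hm⟩
    · intro x m
      refine Iff.trans (Part.mem_bind_iff) ?_
      refine Iff.trans ?_ (exists_congr fun k => Part.mem_bind_iff.symm)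
      constructor
      · rintro ⟨u, hu, hm⟩
        obtain ⟨k, hk⟩ := (hG.spec _ _).1 hu
        obtain ⟨l, hl⟩ := (hF.spec _ _).1 hm
        exact ⟨max k l, u, hG.mono _ _ (ini_le (le_max_left _ _)) _ _ hk,
          hF.mono _ _ (ini_le (le_max_right _ _)) _ _ hl⟩
      · rintro ⟨k, u, hu, hm⟩
        exact ⟨u, (hG.spec _ _).2 ⟨k, hu⟩, (hF.spec _ _).2 ⟨k, hm⟩⟩
  | prec hf hh ihf ihh =>
    obtain ⟨F, hF⟩ := ihf
    obtain ⟨G, hG⟩ := ihh
    have hmono : ∀ σ τ, Le σ τ → ∀ (a n m : ℕ),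
        m ∈ (n.rec (F σ a) (fun y IH => IH.bind fun i => G σ (Nat.pair a (Nat.pair y i))) : Part ℕ) →
        m ∈ (n.rec (F τ a) (fun y IH => IH.bind fun i => G τ (Nat.pair a (Nat.pair y i))) : Part ℕ) := by
      intro σ τ h a n
      induction n with
      | zero => intro m hm; exact hF.mono _ _ h _ _ hm
      | succ n ih =>
        intro m hm
        simp only [Part.mem_bind_iff] at hm ⊢
        obtain ⟨i, hi, hm⟩ := hm
        exact ⟨i, ih i hi, hG.mono _ _ h _ _ hm⟩
    refine ⟨fun σ x => ((Nat.unpair x).2.rec (F σ (Nat.unpair x).1) (fun y IH => IH.bind fun i =>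
      G σ (Nat.pair (Nat.unpair x).1 (Nat.pair y i))) : Part ℕ), ?_, ?_, ?_⟩
    · refine Partrec.nat_rec (f := fun a : List ℕ × ℕ => (Nat.unpair a.2).2)
        (g := fun a : List ℕ × ℕ => F a.1 (Nat.unpair a.2).1)
        (h := fun (a : List ℕ × ℕ) (b : ℕ × ℕ) => G a.1 (Nat.pair (Nat.unpair a.2).1 (Nat.pair b.1 b.2)))
        ?_ ?_ ?_
      · exact (Primrec.snd.comp (Primrec.unpair.comp Primrec.snd)).to_comp
      · exact hF.partrec.comp Computable.fst (Primrec.fst.comp (Primrec.unpair.comp Primrec.snd)).to_comp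
      · refine hG.partrec.comp (Computable.fst.comp Computable.fst) ?_
        exact (Primrec₂.natPair.comp (Primrec.fst.comp (Primrec.unpair.comp (Primrec.snd.comp Primrec.fst)))
          (Primrec₂.natPair.comp (Primrec.fst.comp Primrec.snd) (Primrec.snd.comp Primrec.snd))).to_comp
    · intro σ τ h x m hm
      exact hmono σ τ h _ _ m hm
    · intro x m
      generalize hx : Nat.unpair x = an
      obtain ⟨a, n⟩ := an
      clear hx
      simp only
      induction n generalizing m with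
      | zero => exact hF.spec a m
      | succ n ih =>
        simp only [Part.bind_eq_bind, Part.mem_bind_iff] at ih ⊢
        constructor
        · rintro ⟨i, hi, hm⟩
          obtain ⟨k, hk⟩ := (ih i).1 hi
          obtain ⟨l, hl⟩ := (hG.spec _ _).1 hm
          exact ⟨max k l, i, hmono _ _ (ini_le (le_max_left _ _)) _ _ _ hk,
            hG.mono _ _ (ini_le (le_max_right _ _)) _ _ hl⟩
        · rintro ⟨k, i, hi, hm⟩
          exact ⟨i, (ih i).2 ⟨k, hi⟩, (hG.spec _ _).2 ⟨k, hm⟩⟩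
  | rfind hf ihf =>
    obtain ⟨F, hF⟩ := ihf
    refine ⟨fun σ a => Nat.rfind fun n => (fun m => decide (m = 0)) <$> F σ (Nat.pair a n), ?_, ?_, ?_⟩
    · refine Partrec.rfind (p := fun (a : List ℕ × ℕ) (n : ℕ) => (fun m => decide (m = 0)) <$> F a.1 (Nat.pair a.2 n)) ?_
      have h1 : Partrec (fun b : (List ℕ × ℕ) × ℕ => (F b.1.1 (Nat.pair b.1.2 b.2)).map fun m => decide (m = 0)) := by
        refine Partrec.map ?_ ?_
        · refine hF.partrec.comp (Computable.fst.comp Computable.fst) ?_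
          exact (Primrec₂.natPair.comp (Primrec.snd.comp Primrec.fst) Primrec.snd).to_comp
        · exact ((Primrec.eq.comp Primrec.snd (Primrec.const 0)).decide).to_comp
      exact h1
    · intro σ τ h x m hm
      rw [mem_rfind'] at hm ⊢
      obtain ⟨⟨u, hu, hu'⟩, hm⟩ := hm
      refine ⟨⟨u, hF.mono _ _ h _ _ hu, hu'⟩, fun j hj => ?_⟩
      obtain ⟨v, hv, hv'⟩ := hm j hj
      exact ⟨v, hF.mono _ _ h _ _ hv, hv'⟩
    · intro x m
      refine Iff.trans (mem_rfind' _ _) ?_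
      refine Iff.trans ?_ (exists_congr fun k => (mem_rfind' _ _).symm)
      constructor
      · rintro ⟨⟨u, hu, hu'⟩, hm⟩
        obtain ⟨k, hk⟩ := (hF.spec _ _).1 hu
        have h2 : ∀ j, ∃ l, j < m → ∃ v, v ∈ F (ini p l) (Nat.pair x j) ∧ v ≠ 0 := by
          intro j
          by_cases hj : j < m
          · obtain ⟨v, hv, hv'⟩ := hm j hj
            obtain ⟨l, hl⟩ := (hF.spec _ _).1 hv
            exact ⟨l, fun _ => ⟨v, hl, hv'⟩⟩
          · exact ⟨0, fun h => absurd h hj⟩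
        choose l hl using h2
        refine ⟨max k ((Finset.range m).sup l), ⟨u, hF.mono _ _ (ini_le (le_max_left _ _)) _ _ hk, hu'⟩, ?_⟩
        intro j hj
        obtain ⟨v, hv, hv'⟩ := hl j hj
        refine ⟨v, hF.mono _ _ (ini_le ?_) _ _ hv, hv'⟩
        exact le_trans (Finset.le_sup (f := l) (Finset.mem_range.2 hj)) (le_max_right _ _)
      · rintro ⟨k, ⟨u, hu, hu'⟩, hm⟩
        refine ⟨⟨u, (hF.spec _ _).2 ⟨k, hu⟩, hu'⟩, fun j hj => ?_⟩
        obtain ⟨v, hv, hv'⟩ := hm j hj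
        exact ⟨v, (hF.spec _ _).2 ⟨k, hv⟩, hv'⟩

end Pool.Agent.Helper22.Functional
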