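import Mathlib

set_option autoImplicit false

namespace Pool.Agent.Helper22.IntPrimrec

open Encodable

theorem encode_ofNat (n : ℕ) : encode ((n : ℕ) : ℤ) = 2 * n := by
  rfl

theorem encode_negSucc (n : ℕ) : encode (Int.negSucc n) = 2 * n + 1 := by
  rfl

theorem primrec_toNat : Primrec (Int.toNat : ℤ → ℕ) := by
  have h : Primrec fun z : ℤ => if encode z % 2 = 0 then encode z / 2 else 0 :=
    Primrec.ite (Primrec.eq.comp (Primrec.nat_mod.comp Primrec.encode (Primrec.const 2))
      (Primrec.const 0)) (Primrec.nat_div.comp Primrec.encode (Primrec.const 2)) (Primrec.const 0)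
  refine h.of_eq fun z => ?_
  cases z with
  | ofNat n =>
    change (if encode ((n : ℕ) : ℤ) % 2 = 0 then encode ((n : ℕ) : ℤ) / 2 else 0) = n
    rw [encode_ofNat, if_pos (by omega)]
    omega
  | negSucc n =>
    rw [encode_negSucc, if_neg (by omega)]
    rfl

theorem primrec_toNat_neg : Primrec (fun z : ℤ => (-z).toNat) := by
  have h : Primrec fun z : ℤ => if encode z % 2 = 0 then 0 else (encode z + 1) / 2 :=
    Primrec.ite (Primrec.eq.comp (Primrec.nat_mod.comp Primrec.encode (Primrec.const 2))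
      (Primrec.const 0)) (Primrec.const 0)
      (Primrec.nat_div.comp (Primrec.succ.comp Primrec.encode) (Primrec.const 2))
  refine h.of_eq fun z => ?_
  cases z with
  | ofNat n =>
    change (if encode ((n : ℕ) : ℤ) % 2 = 0 then 0 else (encode ((n : ℕ) : ℤ) + 1) / 2) = _
    rw [encode_ofNat, if_pos (by omega)]
    simp
  | negSucc n =>
    rw [encode_negSucc, if_neg (by omega)]
    simp only [Int.neg_negSucc]
    omega

theorem primrec_subNat : Primrec₂ (fun m n : ℕ => (m : ℤ) - (n : ℤ)) := by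
  have h : Primrec fun p : ℕ × ℕ => if p.2 ≤ p.1 then 2 * (p.1 - p.2) else 2 * (p.2 - p.1) - 1 :=
    Primrec.ite (Primrec.nat_le.comp Primrec.snd Primrec.fst)
      (Primrec.nat_mul.comp (Primrec.const 2) (Primrec.nat_sub.comp Primrec.fst Primrec.snd))
      (Primrec.nat_sub.comp (Primrec.nat_mul.comp (Primrec.const 2)
        (Primrec.nat_sub.comp Primrec.snd Primrec.fst)) (Primrec.const 1))
  have h2 : Primrec fun p : ℕ × ℕ => Denumerable.ofNat ℤ
      (if p.2 ≤ p.1 then 2 * (p.1 - p.2) else 2 * (p.2 - p.1) - 1) := (Primrec.ofNat ℤ).comp h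
  refine h2.of_eq fun p => ?_
  obtain ⟨m, n⟩ := p
  simp only
  split_ifs with hmn
  · rw [← encode_ofNat, Denumerable.ofNat_encode]
    omega
  · have h3 : 2 * (n - m) - 1 = 2 * (n - m - 1) + 1 := by omega
    rw [h3, ← encode_negSucc, Denumerable.ofNat_encode]
    omega

theorem primrec_cast : Primrec (fun n : ℕ => (n : ℤ)) :=
  (primrec_subNat.comp Primrec.id (Primrec.const 0)).of_eq fun n => by simp

theorem primrec_add : Primrec₂ (fun a b : ℤ => a + b) := by
  have h : Primrec fun p : ℤ × ℤ => (((p.1.toNat + p.2.toNat : ℕ) : ℤ) -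
      (((-p.1).toNat + (-p.2).toNat : ℕ) : ℤ)) :=
    primrec_subNat.comp
      (Primrec.nat_add.comp (primrec_toNat.comp Primrec.fst) (primrec_toNat.comp Primrec.snd))
      (Primrec.nat_add.comp (primrec_toNat_neg.comp Primrec.fst) (primrec_toNat_neg.comp Primrec.snd))
  refine h.of_eq fun p => ?_
  push_cast
  omega

theorem primrec_sub : Primrec₂ (fun a b : ℤ => a - b) := by
  have h : Primrec fun p : ℤ × ℤ => (((p.1.toNat + (-p.2).toNat : ℕ) : ℤ) -
      (((-p.1).toNat + p.2.toNat : ℕ) : ℤ)) :=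
    primrec_subNat.comp
      (Primrec.nat_add.comp (primrec_toNat.comp Primrec.fst) (primrec_toNat_neg.comp Primrec.snd))
      (Primrec.nat_add.comp (primrec_toNat_neg.comp Primrec.fst) (primrec_toNat.comp Primrec.snd))
  refine h.of_eq fun p => ?_
  push_cast
  omega

end Pool.Agent.Helper22.IntPrimrec
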