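import Mathlib

set_option autoImplicit false

namespace Pool.Agent.Helper22.NAdic

/-- `HasValue N b f g`: the `N`-adic integer `∑ b_i N^i` is the rational `f/g`, that is
`g * ∑ b_i N^i = f` holds in `ℤ_N = lim ℤ/N^k`, i.e. modulo every power `N^k`. -/
def HasValue (N : ℕ) (b : ℕ → Fin N) (f g : ℤ) : Prop :=
  ∀ k : ℕ, ((N : ℤ) ^ k) ∣ g * (∑ i ∈ Finset.range k, ((b i : ℕ) : ℤ) * (N : ℤ) ^ i) - f

/-- The set of all (finite) values `λ_N(b) = log_N max(|f|,|g|)`, for `b` an infinite `N`-ary
sequence whose `N`-adic value is rational, equal to `f/g` in lowest terms with `g > 0`, and which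
extends the finite sequence `a`. -/
def extensionValues (N n : ℕ) (a : Fin n → Fin N) : Set ℝ :=
  {x | ∃ b : ℕ → Fin N, (∀ i : Fin n, b i = a i) ∧
    ∃ f g : ℤ, 0 < g ∧ IsCoprime f g ∧ HasValue N b f g ∧
      x = Real.logb N ((max |f| |g| : ℤ) : ℝ)}

/-- The `N`-adic complexity of the finite sequence `a`: the least value in `extensionValues`. -/
noncomputable def finComplexity (N n : ℕ) (a : Fin n → Fin N) : ℝ := sInf (extensionValues N n a)

/-- The average `E_n^fin` of the `N`-adic complexity over all `N^n` sequences of length `n`. -/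
noncomputable def avgFin (N n : ℕ) : ℝ :=
  (∑ a : Fin n → Fin N, finComplexity N n a) / (N : ℝ) ^ n

end Pool.Agent.Helper22.NAdic
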