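import Mathlib
import Pool.Agent.Helper22.NAdicDefs

set_option autoImplicit false

namespace Pool.Agent.Helper22.NAdic

/-- integer value of a finite sequence -/
def val (N n : ℕ) (a : Fin n → Fin N) : ℕ := (finFunctionFinEquiv a : Fin (N ^ n)).val

theorem val_eq (N n : ℕ) (a : Fin n → Fin N) :
    (val N n a : ℤ) = ∑ i : Fin n, ((a i : ℕ) : ℤ) * (N : ℤ) ^ (i : ℕ) := by
  unfold val
  rw [finFunctionFinEquiv_apply]
  push_cast
  rfl

theorem val_lt (N n : ℕ) (a : Fin n → Fin N) : val N n a < N ^ n := (finFunctionFinEquiv a).isLt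

/-- heights of representations of `α` modulo `N^n` -/
def Rep (N n : ℕ) (α : ℤ) (f g : ℤ) : Prop :=
  0 < g ∧ IsCoprime g (N : ℤ) ∧ ((N : ℤ) ^ n) ∣ g * α - f

theorem partial_sum_congr (N n k : ℕ) (hk : k ≤ n) (c : ℕ → ℤ) :
    ((N : ℤ) ^ k) ∣ (∑ i ∈ Finset.range n, c i * (N : ℤ) ^ i) -
      (∑ i ∈ Finset.range k, c i * (N : ℤ) ^ i) := by
  obtain ⟨m, rfl⟩ := Nat.exists_eq_add_of_le hk
  rw [Finset.sum_range_add, add_sub_cancel_left]
  apply Finset.dvd_sum
  intro i _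
  exact ⟨c (k + i) * (N : ℤ) ^ i, by rw [pow_add]; ring⟩

theorem HasValue.rep {N n : ℕ} {a : Fin n → Fin N} {b : ℕ → Fin N}
    (hb : ∀ i : Fin n, b i = a i) {f g : ℤ} (hg : 0 < g) (hfg : IsCoprime f g)
    (h : HasValue N b f g) : Rep N n (val N n a) f g := by
  refine ⟨hg, ?_, ?_⟩
  · have h1 := h 1
    simp only [pow_one, Finset.range_one, Finset.sum_singleton, pow_zero, mul_one] at h1
    obtain ⟨c, hc⟩ := h1
    -- f = g b0 - N c
    obtain ⟨u, v, huv⟩ := hfg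
    -- u f + v g = 1
    refine ⟨u * ((b 0 : ℕ) : ℤ) + v, -u * c, ?_⟩
    have hf : f = g * ((b 0 : ℕ) : ℤ) - N * c := by linarith
    rw [hf] at huv
    linarith
  · have h1 := h n
    have h2 : (∑ i ∈ Finset.range n, ((b i : ℕ) : ℤ) * (N : ℤ) ^ i) = (val N n a : ℤ) := by
      rw [val_eq, Finset.sum_range]
      refine Finset.sum_congr rfl (fun i _ => ?_)
      rw [hb i]
    rw [h2] at h1
    exact h1

/-- digits of `x/g` -/
theorem exists_digit {N : ℕ} (hN : 0 < N) {g : ℤ} (hg : IsCoprime g (N : ℤ)) (x : ℤ) :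
    ∃ d : Fin N, (N : ℤ) ∣ g * ((d : ℕ) : ℤ) - x := by
  obtain ⟨u, v, huv⟩ := hg
  have hN' : (0 : ℤ) < N := by exact_mod_cast hN
  have h0 := Int.emod_nonneg (u * x) hN'.ne'
  have h1 := Int.emod_lt_of_pos (u * x) hN'
  refine ⟨⟨((u * x) % N).toNat, by omega⟩, ?_⟩
  simp only
  rw [Int.toNat_of_nonneg h0]
  have h2 : (u * x) % N = u * x - N * ((u * x) / N) := by
    have := Int.emod_add_mul_ediv (u * x) N
    linarith
  rw [h2]
  refine ⟨-(v * x) - g * (u * x / N), ?_⟩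
  have : u * g = 1 - v * N := by linarith
  calc g * (u * x - N * (u * x / N)) - x = (u * g) * x - x - g * N * (u * x / N) := by ring
    _ = N * (-(v * x) - g * (u * x / N)) := by rw [this]; ring

theorem Rep.exists_ext {N n : ℕ} (hN : 0 < N) {a : Fin n → Fin N} {f g : ℤ}
    (h : Rep N n (val N n a) f g) :
    ∃ b : ℕ → Fin N, (∀ i : Fin n, b i = a i) ∧ HasValue N b f g := by
  obtain ⟨hg, hcop, hdvd⟩ := h
  choose d hd using exists_digit hN hcop
  obtain ⟨c, hc⟩ := hdvd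
  let x : ℕ → ℤ := fun j => Nat.rec (-c) (fun _ y => (y - g * ((d y : ℕ) : ℤ)) / N) j
  have hx0 : x 0 = -c := rfl
  have hxs : ∀ j, x (j + 1) = (x j - g * ((d (x j) : ℕ) : ℤ)) / N := fun j => rfl
  have hN' : (0 : ℤ) < N := by exact_mod_cast hN
  have hxs' : ∀ j, (N : ℤ) * x (j + 1) = x j - g * ((d (x j) : ℕ) : ℤ) := by
    intro j
    rw [hxs]
    apply Int.mul_ediv_cancel'
    have h3 := hd (x j)
    have e : x j - g * ((d (x j) : ℕ) : ℤ) = -(g * ((d (x j) : ℕ) : ℤ) - x j) := by ring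
    rw [e]
    exact h3.neg_right
  let b : ℕ → Fin N := fun i => if hi : i < n then a ⟨i, hi⟩ else d (x (i - n))
  have hb : ∀ i : Fin n, b i = a i := by
    intro i
    simp [b]
  have hsum : (∑ i ∈ Finset.range n, ((b i : ℕ) : ℤ) * (N : ℤ) ^ i) = (val N n a : ℤ) := by
    rw [val_eq, Finset.sum_range]
    refine Finset.sum_congr rfl (fun i _ => ?_)
    rw [hb i]
  have key : ∀ j, g * (∑ i ∈ Finset.range (n + j), ((b i : ℕ) : ℤ) * (N : ℤ) ^ i) - f =
      -((N : ℤ) ^ (n + j) * x j) := by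
    intro j
    induction j with
    | zero =>
      rw [Nat.add_zero, hsum, hc, hx0]
      ring
    | succ j ih =>
      rw [← Nat.add_assoc, Finset.sum_range_succ, mul_add, add_sub_right_comm, ih]
      have hbj : b (n + j) = d (x j) := by
        simp [b]
      rw [hbj, pow_succ]
      have := hxs' j
      calc -((N : ℤ) ^ (n + j) * x j) + g * (((d (x j) : ℕ) : ℤ) * (N : ℤ) ^ (n + j)) =
          -((N : ℤ) ^ (n + j) * (x j - g * ((d (x j) : ℕ) : ℤ))) := by ring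
        _ = _ := by rw [← this]; ring
  refine ⟨b, hb, ?_⟩
  intro k
  rcases le_total n k with hk | hk
  · obtain ⟨j, rfl⟩ := Nat.exists_eq_add_of_le hk
    rw [key]
    exact (Dvd.intro _ rfl).neg_right
  · have h1 := key 0
    rw [Nat.add_zero] at h1
    have h2 := partial_sum_congr N n k hk (fun i => ((b i : ℕ) : ℤ))
    have h3 : ((N : ℤ) ^ k) ∣ (N : ℤ) ^ n * x 0 := (pow_dvd_pow _ hk).mul_right _
    have h4 : g * (∑ i ∈ Finset.range k, ((b i : ℕ) : ℤ) * (N : ℤ) ^ i) - f =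
        -((N : ℤ) ^ n * x 0) - g * ((∑ i ∈ Finset.range n, ((b i : ℕ) : ℤ) * (N : ℤ) ^ i) -
      (∑ i ∈ Finset.range k, ((b i : ℕ) : ℤ) * (N : ℤ) ^ i)) := by
      rw [← h1]; ring
    rw [h4]
    exact (h3.neg_right).sub (h2.mul_left g)

/-- reduce a representation to lowest terms -/
theorem Rep.reduce {N n : ℕ} {α f g : ℤ} (h : Rep N n α f g) :
    ∃ f' g' : ℤ, Rep N n α f' g' ∧ IsCoprime f' g' ∧ max |f'| |g'| ≤ max |f| |g| := by
  obtain ⟨hg, hcop, hdvd⟩ := h
  have hd0 : 0 < Int.gcd f g := Int.gcd_pos_of_ne_zero_right _ hg.ne'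
  set d : ℤ := (Int.gcd f g : ℤ) with hd
  have hd0' : 0 < d := Int.natCast_pos.2 hd0
  obtain ⟨f', hf'⟩ : d ∣ f := Int.gcd_dvd_left _ _
  obtain ⟨g', hg'⟩ : d ∣ g := Int.gcd_dvd_right _ _
  have hcop' : IsCoprime f' g' := by
    rw [Int.isCoprime_iff_gcd_eq_one]
    have h1 : Int.gcd f g = Int.gcd (d * f') (d * g') := by rw [← hf', ← hg']
    rw [Int.gcd_mul_left] at h1
    have h2 : d.natAbs = Int.gcd f g := by rw [hd]; simp
    rw [h2] at h1
    exact Nat.eq_of_mul_eq_mul_left hd0 (by rw [← h1, mul_one])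
  have hg'pos : 0 < g' := by
    by_contra hcon
    push Not at hcon
    rw [hg'] at hg
    nlinarith
  have habs : ∀ z : ℤ, |z| ≤ |d * z| := by
    intro z
    rw [abs_mul, abs_of_pos hd0']
    nlinarith [abs_nonneg z]
  refine ⟨f', g', ⟨hg'pos, ?_, ?_⟩, hcop', ?_⟩
  · rw [hg'] at hcop
    exact hcop.of_mul_left_right
  · have hdN : IsCoprime ((N : ℤ) ^ n) d := by
      rw [hg'] at hcop
      exact (hcop.of_mul_left_left).symm.pow_left
    have h1 : g * α - f = d * (g' * α - f') := by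
      rw [mul_sub, ← mul_assoc, ← hf', ← hg']
    rw [h1] at hdvd
    exact hdN.dvd_of_dvd_mul_left hdvd
  · rw [hf', hg']
    exact max_le_max (habs _) (habs _)

end Pool.Agent.Helper22.NAdic
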