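import Mathlib
import Pool.Agent.Helper22.NAdicRep

set_option autoImplicit false

namespace Pool.Agent.Helper22.NAdic

theorem inv_le_layer (h : ℕ) (hh : 1 ≤ h) (B : ℕ) (hB : 1 ≤ B) :
    (1 : ℝ) / h ≤ 1 / B + ∑ m ∈ Finset.Ico 1 B, if h ≤ m then (1 : ℝ) / (m * (m + 1)) else 0 := by
  have hh' : (0 : ℝ) < h := by exact_mod_cast hh
  induction B, hB using Nat.le_induction with
  | base =>
    simp only [Nat.cast_one, Finset.Ico_self, Finset.sum_empty, add_zero, div_one]
    rw [div_le_one hh']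
    exact_mod_cast hh
  | succ B hB ih =>
    have hB' : (0 : ℝ) < B := by exact_mod_cast hB
    rw [Finset.sum_Ico_succ_top hB]
    by_cases hc : h ≤ B
    · rw [if_pos hc]
      refine ih.trans (le_of_eq ?_)
      have : (1 : ℝ) / B = 1 / ((B + 1 : ℕ) : ℝ) + 1 / (B * (B + 1)) := by
        push_cast
        field_simp
      rw [this]
      ring
    · rw [if_neg hc, add_zero]
      have h1 : (1 : ℝ) / h ≤ 1 / ((B + 1 : ℕ) : ℝ) := by
        apply one_div_le_one_div_of_le
        · positivity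
        · exact_mod_cast (not_le.1 hc)
      have h2 : (0 : ℝ) ≤ ∑ m ∈ Finset.Ico 1 B, if h ≤ m then (1 : ℝ) / (m * (m + 1)) else 0 := by
        apply Finset.sum_nonneg
        intro m _
        split_ifs
        · positivity
        · exact le_rfl
      linarith

theorem sum_inv_le {ι : Type} (S : Finset ι) (h : ι → ℕ) (hpos : ∀ i ∈ S, 1 ≤ h i)
    (C : ℝ) (hcount : ∀ m : ℕ, 1 ≤ m → ((S.filter (fun i => h i ≤ m)).card : ℝ) ≤ C * m ^ 2)
    (hC : 0 < C) (B : ℕ) (hB : 1 ≤ B) :
    ∑ i ∈ S, (1 : ℝ) / h i ≤ S.card / B + C * (B - 1) := by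
  calc ∑ i ∈ S, (1 : ℝ) / h i
      ≤ ∑ i ∈ S, (1 / B + ∑ m ∈ Finset.Ico 1 B, if h i ≤ m then (1 : ℝ) / (m * (m + 1)) else 0) :=
        Finset.sum_le_sum (fun i hi => inv_le_layer (h i) (hpos i hi) B hB)
    _ = S.card / B + ∑ m ∈ Finset.Ico 1 B, ∑ i ∈ S, if h i ≤ m then (1 : ℝ) / (m * (m + 1)) else 0 := by
        rw [Finset.sum_add_distrib, Finset.sum_const, Finset.sum_comm, nsmul_eq_mul, mul_one_div]
    _ ≤ S.card / B + ∑ m ∈ Finset.Ico 1 B, C := by
        gcongr with m hm
        rw [Finset.mem_Ico] at hm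
        rw [← Finset.sum_filter, Finset.sum_const, nsmul_eq_mul]
        have hm' : (0 : ℝ) < m := by exact_mod_cast hm.1
        have h1 := hcount m hm.1
        calc ((S.filter (fun i => h i ≤ m)).card : ℝ) * (1 / (m * (m + 1)))
            ≤ (C * m ^ 2) * (1 / (m * (m + 1))) := by gcongr
          _ = C * (m / (m + 1)) := by field_simp
          _ ≤ C * 1 := by
              gcongr
              rw [div_le_one (by positivity)]
              linarith
          _ = C := mul_one C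
    _ = S.card / B + C * (B - 1) := by
        rw [Finset.sum_const, Nat.card_Ico, nsmul_eq_mul, Nat.cast_sub hB]
        push_cast
        ring

theorem sum_log_lower {ι : Type} (S : Finset ι) (hS : S.Nonempty) (h : ι → ℕ)
    (hpos : ∀ i ∈ S, 1 ≤ h i) (C : ℝ) (hC : 0 < C)
    (hcount : ∀ m : ℕ, 1 ≤ m → ((S.filter (fun i => h i ≤ m)).card : ℝ) ≤ C * m ^ 2) :
    (S.card : ℝ) * (1 / 2 * Real.log (S.card / (4 * C))) ≤ ∑ i ∈ S, Real.log (h i) := by
  obtain ⟨K, hK⟩ : ∃ K : ℝ, K = (S.card : ℝ) := ⟨_, rfl⟩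
  have hKpos : 0 < K := by
    rw [hK]
    exact_mod_cast hS.card_pos
  rw [← hK]
  obtain ⟨B, hBdef⟩ : ∃ B : ℕ, B = ⌈Real.sqrt (K / C)⌉₊ := ⟨_, rfl⟩
  have hsq : 0 < Real.sqrt (K / C) := Real.sqrt_pos.2 (by positivity)
  have hB : 1 ≤ B := by
    rw [hBdef]
    exact Nat.one_le_iff_ne_zero.2 (Nat.ceil_pos.2 hsq).ne'
  have hB1 : Real.sqrt (K / C) ≤ B := by
    rw [hBdef]
    exact Nat.le_ceil _
  have hB2 : (B : ℝ) - 1 ≤ Real.sqrt (K / C) := by
    have := Nat.ceil_lt_add_one hsq.le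
    rw [← hBdef] at this
    linarith
  have hsum := sum_inv_le S h hpos C hcount hC B hB
  rw [← hK] at hsum
  obtain ⟨R, hR⟩ : ∃ R : ℝ, R = Real.sqrt (K / C) := ⟨_, rfl⟩
  rw [← hR] at hB1 hB2 hsq
  have hR2 : R * R = K / C := by
    rw [hR]
    exact Real.mul_self_sqrt (by positivity)
  have hKR : K = C * (R * R) := by rw [hR2]; field_simp
  have h1 : ∑ i ∈ S, (1 : ℝ) / h i ≤ 2 * C * R := by
    refine hsum.trans ?_
    have h2 : K / B ≤ C * R := by
      rw [div_le_iff₀ (lt_of_lt_of_le hsq hB1)]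
      rw [hKR]
      nlinarith [mul_pos hC hsq]
    have h3 : C * (B - 1) ≤ C * R := mul_le_mul_of_nonneg_left hB2 hC.le
    linarith
  -- T = R/2
  have hT : 0 < R / 2 := by positivity
  have hpt : ∀ i ∈ S, Real.log (R / 2) + 1 - (R / 2) * (1 / h i) ≤ Real.log (h i) := by
    intro i hi
    have hi' : (0 : ℝ) < h i := by exact_mod_cast hpos i hi
    have h4 := Real.log_le_sub_one_of_pos (x := (R / 2) / h i) (by positivity)
    rw [Real.log_div hT.ne' hi'.ne'] at h4
    have h5 : (R / 2) * (1 / h i) = (R / 2) / h i := by ring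
    rw [h5]
    linarith
  have h6 := Finset.sum_le_sum hpt
  rw [Finset.sum_sub_distrib, Finset.sum_const, ← Finset.mul_sum, nsmul_eq_mul, ← hK] at h6
  have h7 : (R / 2) * ∑ i ∈ S, (1 : ℝ) / h i ≤ K := by
    calc (R / 2) * ∑ i ∈ S, (1 : ℝ) / h i ≤ (R / 2) * (2 * C * R) := by gcongr
      _ = C * (R * R) := by ring
      _ = K := hKR.symm
  have h8 : Real.log (R / 2) = 1 / 2 * Real.log (K / (4 * C)) := by
    have h9 : K / (4 * C) = (R / 2) ^ 2 := by
      rw [hKR]
      field_simp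
      ring
    rw [h9, Real.log_pow]
    push_cast
    ring
  rw [← h8]
  nlinarith

/-- heights of representations -/
def hts (N n : ℕ) (α : ℤ) : Set ℕ := {h | ∃ f g : ℤ, Rep N n α f g ∧ (h : ℤ) = max |f| |g|}

theorem hts_nonempty (N n : ℕ) (α : ℤ) : (hts N n α).Nonempty := by
  refine ⟨(max |α| |1|).toNat, α, 1, ⟨one_pos, isCoprime_one_left, ?_⟩, ?_⟩
  · simp
  · rw [Int.toNat_of_nonneg (le_trans (abs_nonneg α) (le_max_left _ _))]

/-- the least height -/
noncomputable def hmin (N n : ℕ) (α : ℤ) : ℕ := sInf (hts N n α)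

theorem hmin_mem (N n : ℕ) (α : ℤ) : hmin N n α ∈ hts N n α := Nat.sInf_mem (hts_nonempty N n α)

theorem hts_pos {N n : ℕ} {α : ℤ} {h : ℕ} (hh : h ∈ hts N n α) : 1 ≤ h := by
  obtain ⟨f, g, ⟨hg, -, -⟩, hmax⟩ := hh
  have h1 : |g| ≤ max |f| |g| := le_max_right _ _
  have h2 : g ≤ |g| := le_abs_self g
  omega

theorem isLeast_ext {N n : ℕ} (hN : 2 ≤ N) (a : Fin n → Fin N) :
    IsLeast (extensionValues N n a) (Real.logb N (hmin N n (val N n a))) := by
  have hN1 : (1 : ℝ) < N := by exact_mod_cast hN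
  constructor
  · obtain ⟨f, g, hrep, hmax⟩ := hmin_mem N n (val N n a)
    obtain ⟨f', g', hrep', hcop, hle⟩ := hrep.reduce
    obtain ⟨b, hb, hval⟩ := hrep'.exists_ext (by omega)
    refine ⟨b, hb, f', g', hrep'.1, hcop, hval, ?_⟩
    congr 1
    have h1 : (max |f'| |g'|).toNat ∈ hts N n (val N n a) := by
      refine ⟨f', g', hrep', ?_⟩
      rw [Int.toNat_of_nonneg (le_trans (abs_nonneg f') (le_max_left _ _))]
    have h2 : hmin N n (val N n a) ≤ (max |f'| |g'|).toNat := Nat.sInf_le h1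
    have h3 : (hmin N n (val N n a) : ℤ) = max |f'| |g'| := by
      have h0 : 0 ≤ max |f'| |g'| := le_trans (abs_nonneg f') (le_max_left _ _)
      omega
    exact_mod_cast h3
  · rintro x ⟨b, hb, f, g, hg, hcop, hval, rfl⟩
    have hrep := HasValue.rep hb hg hcop hval
    have h1 : (max |f| |g|).toNat ∈ hts N n (val N n a) := by
      refine ⟨f, g, hrep, ?_⟩
      rw [Int.toNat_of_nonneg (le_trans (abs_nonneg f) (le_max_left _ _))]
    have h2 : hmin N n (val N n a) ≤ (max |f| |g|).toNat := Nat.sInf_le h1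
    have h0 : 0 ≤ max |f| |g| := le_trans (abs_nonneg f) (le_max_left _ _)
    have h3 : (hmin N n (val N n a) : ℤ) ≤ max |f| |g| := by omega
    apply Real.logb_le_logb_of_le hN1
    · exact_mod_cast hts_pos (hmin_mem N n (val N n a))
    · exact_mod_cast h3

theorem finComplexity_eq {N n : ℕ} (hN : 2 ≤ N) (a : Fin n → Fin N) :
    finComplexity N n a = Real.logb N (hmin N n (val N n a)) :=
  (isLeast_ext hN a).csInf_eq

theorem val_injective (N n : ℕ) : Function.Injective (val N n) := by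
  intro a b h
  unfold val at h
  exact finFunctionFinEquiv.injective (Fin.ext h)

theorem eq_of_dvd_sub {K x y : ℕ} (hx : x < K) (hy : y < K) (h : (K : ℤ) ∣ (x : ℤ) - y) :
    x = y := by
  have h1 : |(x : ℤ) - y| < K := by
    rw [abs_lt]
    constructor <;> omega
  have := Int.eq_zero_of_abs_lt_dvd h h1
  omega

/-- counting small heights -/
theorem count_hmin (N n : ℕ) (m : ℕ) (hm : 1 ≤ m) :
    ((Finset.univ.filter (fun a : Fin n → Fin N => hmin N n (val N n a) ≤ m)).card : ℝ) ≤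
      3 * (m : ℝ) ^ 2 := by
  have hch : ∀ a : Fin n → Fin N, ∃ p : ℤ × ℤ, Rep N n (val N n a) p.1 p.2 ∧
      (hmin N n (val N n a) : ℤ) = max |p.1| |p.2| := by
    intro a
    obtain ⟨f, g, h1, h2⟩ := hmin_mem N n (val N n a)
    exact ⟨(f, g), h1, h2⟩
  choose p hp hpm using hch
  have hcard : (Finset.univ.filter (fun a : Fin n → Fin N => hmin N n (val N n a) ≤ m)).card ≤
      (Finset.Icc (-(m : ℤ)) m ×ˢ Finset.Icc (1 : ℤ) m).card := by
    apply Finset.card_le_card_of_injOn p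
    · intro a ha
      simp only [Finset.coe_filter, Finset.mem_univ, true_and, Set.mem_ofPred_eq] at ha
      have h1 := hpm a
      have h2 : |(p a).1| ≤ max |(p a).1| |(p a).2| := le_max_left _ _
      have h3 : |(p a).2| ≤ max |(p a).1| |(p a).2| := le_max_right _ _
      have h4 := (hp a).1
      simp only [Finset.coe_product, Finset.coe_Icc, Set.mem_prod, Set.mem_Icc]
      have h5 : |(p a).1| ≤ m := by omega
      have h6 : |(p a).2| ≤ m := by omega
      rw [abs_le] at h5 h6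
      exact ⟨⟨h5.1, h5.2⟩, by omega, h6.2⟩
    · intro a _ b _ hab
      apply val_injective N n
      apply eq_of_dvd_sub (val_lt N n a) (val_lt N n b)
      have h1 := (hp a).2.2
      have h2 := (hp b).2.2
      rw [← hab] at h2
      have h3 := h1.sub h2
      have h4 : ((p a).2 * (val N n a : ℤ) - (p a).1) - ((p a).2 * (val N n b : ℤ) - (p a).1) =
          (p a).2 * ((val N n a : ℤ) - val N n b) := by ring
      rw [h4] at h3
      push_cast
      exact ((hp a).2.1.symm.pow_left).dvd_of_dvd_mul_left h3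
  have h1 : (Finset.Icc (-(m : ℤ)) m ×ˢ Finset.Icc (1 : ℤ) m).card = (2 * m + 1) * m := by
    rw [Finset.card_product, Int.card_Icc, Int.card_Icc]
    congr 1
    · omega
    · omega
  rw [h1] at hcard
  calc _ ≤ (((2 * m + 1) * m : ℕ) : ℝ) := by exact_mod_cast hcard
    _ ≤ 3 * (m : ℝ) ^ 2 := by
        push_cast
        have : (1 : ℝ) ≤ m := by exact_mod_cast hm
        nlinarith

theorem card_univ_pow (N n : ℕ) : (Finset.univ : Finset (Fin n → Fin N)).card = N ^ n := by
  simp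

/-- the lower bound -/
theorem lower_bound {N n : ℕ} (hN : 2 ≤ N) :
    (n : ℝ) / 2 - 1 / 2 * Real.logb N 12 ≤ avgFin N n := by
  have hN0 : (0 : ℝ) < N := by positivity
  have hN1 : (1 : ℝ) < N := by exact_mod_cast hN
  have hlog : 0 < Real.log N := Real.log_pos hN1
  have : NeZero N := ⟨by omega⟩
  have h := sum_log_lower (Finset.univ : Finset (Fin n → Fin N)) Finset.univ_nonempty
    (fun a => hmin N n (val N n a)) (fun a _ => hts_pos (hmin_mem N n _)) 3 (by norm_num)
    (fun m hm => count_hmin N n m hm)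
  rw [card_univ_pow] at h
  push_cast at h
  have hKpos : (0 : ℝ) < (N : ℝ) ^ n := by positivity
  unfold avgFin
  rw [le_div_iff₀ hKpos]
  have h1 : ∑ a : Fin n → Fin N, finComplexity N n a =
      (∑ a : Fin n → Fin N, Real.log (hmin N n (val N n a))) / Real.log N := by
    rw [Finset.sum_div]
    exact Finset.sum_congr rfl (fun a _ => finComplexity_eq hN a)
  rw [h1, le_div_iff₀ hlog]
  refine le_trans (le_of_eq ?_) h
  rw [Real.log_div hKpos.ne' (by norm_num), Real.log_pow]
  unfold Real.logb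
  have h12 : (4 : ℝ) * 3 = 12 := by norm_num
  rw [h12]
  field_simp

end Pool.Agent.Helper22.NAdic
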