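import Mathlib
import Pool.Agent.Helper22.NAdicCount

set_option autoImplicit false

namespace Pool.Agent.Helper22.NAdic

/-- norms of nonzero vectors of the sublattice `{(f, g) : f ≡ α g mod N^n, N ∣ g}` -/
def Ms (N n : ℕ) (α : ℤ) : Set ℕ :=
  {m | ∃ k l : ℤ, (k ≠ 0 ∨ l ≠ 0) ∧
    (m : ℤ) = max |α * (N * k) + (N : ℤ) ^ n * l| |(N : ℤ) * k|}

theorem Ms_nonempty (N n : ℕ) (α : ℤ) : (Ms N n α).Nonempty := by
  refine ⟨(max |α * (N * 1) + (N : ℤ) ^ n * 0| |(N : ℤ) * 1|).toNat, 1, 0, Or.inl one_ne_zero, ?_⟩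
  rw [Int.toNat_of_nonneg (le_trans (abs_nonneg _) (le_max_left _ _))]

noncomputable def Mmin (N n : ℕ) (α : ℤ) : ℕ := sInf (Ms N n α)

theorem Mmin_mem (N n : ℕ) (α : ℤ) : Mmin N n α ∈ Ms N n α := Nat.sInf_mem (Ms_nonempty N n α)

theorem Ms_pos {N n : ℕ} (hN : 0 < N) {α : ℤ} {m : ℕ} (hm : m ∈ Ms N n α) : 1 ≤ m := by
  obtain ⟨k, l, hkl, hmax⟩ := hm
  by_contra hcon
  have hm0 : m = 0 := by omega
  rw [hm0] at hmax
  have h1 : |α * (N * k) + (N : ℤ) ^ n * l| ≤ 0 := by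
    have := le_max_left |α * (N * k) + (N : ℤ) ^ n * l| |(N : ℤ) * k|
    rw [← hmax] at this
    exact_mod_cast this
  have h2 : |(N : ℤ) * k| ≤ 0 := by
    have := le_max_right |α * (N * k) + (N : ℤ) ^ n * l| |(N : ℤ) * k|
    rw [← hmax] at this
    exact_mod_cast this
  have h3 : (N : ℤ) * k = 0 := abs_nonpos_iff.1 h2
  have hN' : (N : ℤ) ≠ 0 := by exact_mod_cast hN.ne'
  have hk : k = 0 := by
    rcases mul_eq_zero.1 h3 with h | h
    · exact absurd h hN'
    · exact h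
  have h4 := abs_nonpos_iff.1 h1
  rw [hk, mul_zero, mul_zero, zero_add] at h4
  have hl : l = 0 := by
    rcases mul_eq_zero.1 h4 with h | h
    · exact absurd h (pow_ne_zero _ hN')
    · exact h
  rcases hkl with h | h
  · exact h hk
  · exact h hl

/-- Dirichlet -/
theorem Mmin_sq_le {N n : ℕ} (hN : 2 ≤ N) (hn : 1 ≤ n) (α : ℤ) :
    (Mmin N n α : ℝ) ^ 2 ≤ (N : ℝ) ^ (n + 1) := by
  have hN0 : (0 : ℝ) < N := by positivity
  have hN1 : (1 : ℝ) ≤ N := by exact_mod_cast (by omega : 1 ≤ N)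
  obtain ⟨R, hR⟩ : ∃ R : ℝ, R = Real.sqrt ((N : ℝ) ^ (n - 1)) := ⟨_, rfl⟩
  have hK1 : (1 : ℝ) ≤ (N : ℝ) ^ (n - 1) := one_le_pow₀ hN1
  have hR1 : 1 ≤ R := by
    rw [hR]
    exact Real.one_le_sqrt.2 hK1
  have hR2 : R * R = (N : ℝ) ^ (n - 1) := by
    rw [hR]
    exact Real.mul_self_sqrt (by positivity)
  have hK : (N : ℝ) ^ n = N * (R * R) := by
    rw [hR2, ← pow_succ']
    congr 1
    omega
  obtain ⟨Q, hQ⟩ : ∃ Q : ℕ, Q = ⌊R⌋₊ := ⟨_, rfl⟩
  have hQ1 : 0 < Q := by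
    rw [hQ]
    exact Nat.floor_pos.2 hR1
  have hQ2 : (Q : ℝ) ≤ R := by
    rw [hQ]
    exact Nat.floor_le (by linarith)
  have hQ3 : R ≤ Q + 1 := by
    rw [hQ]
    exact (Nat.lt_floor_add_one R).le
  obtain ⟨j, k, hk0, hkQ, hjk⟩ :=
    Real.exists_int_int_abs_mul_sub_le ((α : ℝ) * N / (N : ℝ) ^ n) hQ1
  have hKpos : (0 : ℝ) < (N : ℝ) ^ n := by positivity
  have h1 : |(α : ℝ) * (N * k) + (N : ℝ) ^ n * (-j)| ≤ N * R := by
    have h2 : (α : ℝ) * (N * k) + (N : ℝ) ^ n * (-j) =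
        (N : ℝ) ^ n * (k * ((α : ℝ) * N / (N : ℝ) ^ n) - j) := by
      field_simp
      ring
    rw [h2, abs_mul, abs_of_pos hKpos]
    calc (N : ℝ) ^ n * |k * ((α : ℝ) * N / (N : ℝ) ^ n) - j| ≤ (N : ℝ) ^ n * (1 / (Q + 1)) := by
          gcongr
      _ ≤ (N : ℝ) ^ n * (1 / R) := by
          gcongr
      _ = N * R := by
          rw [hK]
          have : R ≠ 0 := by linarith
          field_simp
  have h3 : |(N : ℝ) * k| ≤ N * R := by
    have hk0' : (0 : ℝ) < k := by exact_mod_cast hk0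
    rw [abs_of_pos (by positivity)]
    have hkQ' : (k : ℝ) ≤ Q := by exact_mod_cast hkQ
    have : (k : ℝ) ≤ R := hkQ'.trans hQ2
    gcongr
  have h4 : (max |α * (N * k) + (N : ℤ) ^ n * (-j)| |(N : ℤ) * k|).toNat ∈ Ms N n α := by
    refine ⟨k, -j, Or.inl hk0.ne', ?_⟩
    rw [Int.toNat_of_nonneg (le_trans (abs_nonneg _) (le_max_left _ _))]
  have h5 : Mmin N n α ≤ (max |α * (N * k) + (N : ℤ) ^ n * (-j)| |(N : ℤ) * k|).toNat :=
    Nat.sInf_le h4
  have h6 : (Mmin N n α : ℤ) ≤ max |α * (N * k) + (N : ℤ) ^ n * (-j)| |(N : ℤ) * k| := by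
    have h0 : 0 ≤ max |α * (N * k) + (N : ℤ) ^ n * (-j)| |(N : ℤ) * k| :=
      le_trans (abs_nonneg _) (le_max_left _ _)
    omega
  have h7 : (Mmin N n α : ℝ) ≤ N * R := by
    have h8 : (Mmin N n α : ℝ) ≤ ((max |α * (N * k) + (N : ℤ) ^ n * (-j)| |(N : ℤ) * k| : ℤ) : ℝ) := by
      exact_mod_cast h6
    refine h8.trans ?_
    push_cast
    exact max_le h1 h3
  calc (Mmin N n α : ℝ) ^ 2 ≤ (N * R) ^ 2 := by gcongr
    _ = N * (N * (R * R)) := by ring
    _ = (N : ℝ) ^ (n + 1) := by rw [← hK, pow_succ']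

theorem exists_round (a b : ℤ) (hb : 0 < b) : ∃ t : ℤ, 2 * |a - t * b| ≤ b := by
  have h1 := Int.emod_nonneg a hb.ne'
  have h2 := Int.emod_lt_of_pos a hb
  have h3 := Int.emod_add_mul_ediv a b
  rcases le_or_gt (2 * (a % b)) b with h | h
  · refine ⟨a / b, ?_⟩
    have e : a - a / b * b = a % b := by linarith [mul_comm b (a / b)]
    rw [e, abs_of_nonneg h1]
    exact h
  · refine ⟨a / b + 1, ?_⟩
    have e : a - (a / b + 1) * b = a % b - b := by linarith [mul_comm b (a / b)]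
    rw [e, abs_of_neg (by linarith)]
    linarith

theorem sym_lemma (x₁ y₁ x y D M : ℤ) (hM : 0 < M) (hx : |x₁| = M) (hy : |y₁| ≤ M)
    (hφ : 2 * |x₁ * y - y₁ * x| ≤ D) (hMD : M * M ≤ D) :
    ∃ s : ℤ, M * max |x + s * x₁| |y + s * y₁| ≤ D := by
  obtain ⟨s, hs⟩ : ∃ s : ℤ, 2 * |x + s * x₁| ≤ M := by
    obtain ⟨t, ht⟩ := exists_round x M hM
    rcases abs_choice x₁ with h | h
    · refine ⟨-t, ?_⟩
      have : x + -t * x₁ = x - t * M := by rw [← hx, h]; ring
      rw [this]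
      exact ht
    · refine ⟨t, ?_⟩
      have : x + t * x₁ = x - t * M := by rw [← hx, h]; ring
      rw [this]
      exact ht
  refine ⟨s, ?_⟩
  rw [mul_max_of_nonneg _ _ hM.le]
  apply max_le
  · nlinarith [abs_nonneg (x + s * x₁)]
  · have h1 : M * |y + s * y₁| = |x₁ * (y + s * y₁)| := by rw [abs_mul, hx]
    have h2 : x₁ * (y + s * y₁) = (x₁ * y - y₁ * x) + y₁ * (x + s * x₁) := by ring
    have h3 : |x₁ * (y + s * y₁)| ≤ |x₁ * y - y₁ * x| + |y₁| * |x + s * x₁| := by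
      rw [h2, ← abs_mul]
      exact abs_add_le _ _
    have h4 : |y₁| * |x + s * x₁| ≤ M * |x + s * x₁| := by
      gcongr
    rw [h1]
    nlinarith [abs_nonneg (x + s * x₁)]

/-- a representation of height at most `N^(n+1)/M` -/
theorem Mmin_mul_hmin_le {N n : ℕ} (hN : 2 ≤ N) (hn : 1 ≤ n) (α : ℤ) :
    Mmin N n α * hmin N n α ≤ N ^ (n + 1) := by
  obtain ⟨k₁, l₁, hkl, hM⟩ := Mmin_mem N n α
  have hMpos : 1 ≤ Mmin N n α := Ms_pos (by omega) (Mmin_mem N n α)
  have hMsq := Mmin_sq_le hN hn α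
  obtain ⟨M, hMdef⟩ : ∃ M : ℕ, M = Mmin N n α := ⟨_, rfl⟩
  rw [← hMdef] at hM hMpos hMsq ⊢
  have hMsq' : (M : ℤ) * M ≤ (N : ℤ) ^ (n + 1) := by
    have : ((M : ℤ) : ℝ) * (M : ℤ) ≤ (N : ℤ) ^ (n + 1) := by
      push_cast
      rw [← sq]
      exact hMsq
    exact_mod_cast this
  -- coprimality
  have hcop : IsCoprime k₁ l₁ := by
    rw [Int.isCoprime_iff_gcd_eq_one]
    have hd0 : 0 < Int.gcd k₁ l₁ := by
      rcases hkl with h | h
      · exact Int.gcd_pos_of_ne_zero_left _ h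
      · exact Int.gcd_pos_of_ne_zero_right _ h
    obtain ⟨k', hk'⟩ : (Int.gcd k₁ l₁ : ℤ) ∣ k₁ := Int.gcd_dvd_left _ _
    obtain ⟨l', hl'⟩ : (Int.gcd k₁ l₁ : ℤ) ∣ l₁ := Int.gcd_dvd_right _ _
    obtain ⟨d, hd⟩ : ∃ d : ℕ, d = Int.gcd k₁ l₁ := ⟨_, rfl⟩
    rw [← hd] at hk' hl' hd0 ⊢
    have hd0' : (0 : ℤ) < d := by exact_mod_cast hd0
    have hkl' : k' ≠ 0 ∨ l' ≠ 0 := by
      rcases hkl with h | h
      · left
        rintro rfl
        exact h (by rw [hk', mul_zero])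
      · right
        rintro rfl
        exact h (by rw [hl', mul_zero])
    have hmem : (max |α * (N * k') + (N : ℤ) ^ n * l'| |(N : ℤ) * k'|).toNat ∈ Ms N n α := by
      refine ⟨k', l', hkl', ?_⟩
      rw [Int.toNat_of_nonneg (le_trans (abs_nonneg _) (le_max_left _ _))]
    have hpos' := Ms_pos (by omega) hmem
    have hle : M ≤ (max |α * (N * k') + (N : ℤ) ^ n * l'| |(N : ℤ) * k'|).toNat := by
      rw [hMdef]
      exact Nat.sInf_le hmem
    have h0 : 0 ≤ max |α * (N * k') + (N : ℤ) ^ n * l'| |(N : ℤ) * k'| :=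
      le_trans (abs_nonneg _) (le_max_left _ _)
    obtain ⟨m', hm'⟩ : ∃ m' : ℤ, m' = max |α * (N * k') + (N : ℤ) ^ n * l'| |(N : ℤ) * k'| :=
      ⟨_, rfl⟩
    rw [← hm'] at hle h0 hpos'
    have hMd : (M : ℤ) = d * m' := by
      rw [hM, hm', mul_max_of_nonneg _ _ hd0'.le]
      congr 1
      · rw [← abs_of_pos hd0', ← abs_mul]
        congr 1
        calc α * (N * k₁) + (N : ℤ) ^ n * l₁ = α * (N * (d * k')) + (N : ℤ) ^ n * (d * l') := by
              rw [← hk', ← hl']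
          _ = d * (α * (N * k') + (N : ℤ) ^ n * l') := by ring
      · rw [← abs_of_pos hd0', ← abs_mul]
        congr 1
        calc (N : ℤ) * k₁ = N * (d * k') := by rw [← hk']
          _ = d * (N * k') := by ring
    have hle' : (M : ℤ) ≤ m' := by omega
    have hm1 : 1 ≤ m' := by omega
    have : (d : ℤ) ≤ 1 := by
      by_contra hcon
      push Not at hcon
      nlinarith
    omega
  obtain ⟨u, v, huv⟩ := hcop
  -- l₂ = u, k₂ = -v
  obtain ⟨K, hK⟩ : ∃ K : ℤ, K = (N : ℤ) ^ n := ⟨_, rfl⟩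
  have hN0 : (0 : ℤ) < N := by positivity
  have hKpos : 0 < K := by rw [hK]; positivity
  have hKN : (N : ℤ) ^ (n + 1) = K * N := by rw [hK, pow_succ]
  rw [hKN] at hMsq'
  obtain ⟨t, ht⟩ := exists_round (K * l₁) (K * N) (by positivity)
  rw [← hK] at hM
  have hM0 : (0 : ℤ) < M := by exact_mod_cast hMpos
  obtain ⟨f₁, hf₁⟩ : ∃ f₁ : ℤ, f₁ = α * (N * k₁) + K * l₁ := ⟨_, rfl⟩
  obtain ⟨g₁, hg₁⟩ : ∃ g₁ : ℤ, g₁ = N * k₁ := ⟨_, rfl⟩
  rw [← hf₁, ← hg₁] at hM
  obtain ⟨f₀, hf₀⟩ : ∃ f₀ : ℤ, f₀ = α * (1 + N * (t * (-v))) + K * (t * u) := ⟨_, rfl⟩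
  obtain ⟨g₀, hg₀⟩ : ∃ g₀ : ℤ, g₀ = 1 + N * (t * (-v)) := ⟨_, rfl⟩
  have hφ : f₁ * g₀ - g₁ * f₀ = K * l₁ - t * (K * N) := by
    rw [hf₁, hg₁, hf₀, hg₀]
    have : (K * N * t) * (u * k₁ + v * l₁) = K * N * t := by rw [huv, mul_one]
    linear_combination -this
  have hφ' : 2 * |f₁ * g₀ - g₁ * f₀| ≤ K * N := by
    rw [hφ]
    exact ht
  have hs : ∃ s : ℤ, (M : ℤ) * max |f₀ + s * f₁| |g₀ + s * g₁| ≤ K * N := by
    rcases le_total |f₁| |g₁| with h | h
    · rw [max_eq_right h] at hM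
      obtain ⟨s, hs⟩ := sym_lemma g₁ f₁ g₀ f₀ (K * N) M hM0 hM.symm (by omega)
        (by
          have e : g₁ * f₀ - f₁ * g₀ = -(f₁ * g₀ - g₁ * f₀) := by ring
          rw [e, abs_neg]
          exact hφ') hMsq'
      refine ⟨s, ?_⟩
      rw [max_comm]
      exact hs
    · rw [max_eq_left h] at hM
      exact sym_lemma f₁ g₁ f₀ g₀ (K * N) M hM0 hM.symm (by omega) hφ' hMsq'
  obtain ⟨s, hs⟩ := hs
  obtain ⟨k, hk⟩ : ∃ k : ℤ, k = t * (-v) + s * k₁ := ⟨_, rfl⟩
  obtain ⟨l, hl⟩ : ∃ l : ℤ, l = t * u + s * l₁ := ⟨_, rfl⟩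
  have hg : g₀ + s * g₁ = 1 + N * k := by rw [hg₀, hg₁, hk]; ring
  have hf : f₀ + s * f₁ = α * (1 + N * k) + K * l := by rw [hf₀, hf₁, hk, hl]; ring
  rw [hg, hf] at hs
  have hmem : (max |α * (1 + N * k) + K * l| |1 + N * k|).toNat ∈ hts N n α := by
    have hne : 1 + (N : ℤ) * k ≠ 0 := by
      intro h
      have h1 : (N : ℤ) ∣ 1 := ⟨-k, by linarith⟩
      have h2 := Int.le_of_dvd one_pos h1
      have : (2 : ℤ) ≤ N := by exact_mod_cast hN
      omega
    rcases lt_or_gt_of_ne hne with h | h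
    · refine ⟨-(α * (1 + N * k) + K * l), -(1 + N * k), ⟨by linarith, ?_, ?_⟩, ?_⟩
      · exact ⟨-1, -k, by ring⟩
      · rw [← hK]
        exact ⟨l, by ring⟩
      · rw [Int.toNat_of_nonneg (le_trans (abs_nonneg _) (le_max_left _ _)), abs_neg, abs_neg]
    · refine ⟨α * (1 + N * k) + K * l, 1 + N * k, ⟨h, ?_, ?_⟩, ?_⟩
      · exact ⟨1, -k, by ring⟩
      · rw [← hK]
        exact ⟨-l, by ring⟩
      · rw [Int.toNat_of_nonneg (le_trans (abs_nonneg _) (le_max_left _ _))]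
  have hle : hmin N n α ≤ (max |α * (1 + N * k) + K * l| |1 + N * k|).toNat := Nat.sInf_le hmem
  have h0 : 0 ≤ max |α * (1 + N * k) + K * l| |1 + N * k| :=
    le_trans (abs_nonneg _) (le_max_left _ _)
  have hle' : (hmin N n α : ℤ) ≤ max |α * (1 + N * k) + K * l| |1 + N * k| := by omega
  have hfin : (M : ℤ) * hmin N n α ≤ (N : ℤ) ^ (n + 1) := by
    rw [hKN]
    refine le_trans ?_ hs
    gcongr
  exact_mod_cast hfin

open Classical in
/-- counting, one multiplier -/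
theorem count_one (N n : ℕ) (hN : 2 ≤ N) (k m : ℕ) (hk : 1 ≤ k) (hkm : N * k ≤ m) :
    (Finset.univ.filter (fun a : Fin n → Fin N =>
      ∃ l : ℤ, |(val N n a : ℤ) * ((N * k : ℕ) : ℤ) + ((N ^ n : ℕ) : ℤ) * l| ≤ m)).card ≤ 3 * m := by
  classical
  obtain ⟨c, hc⟩ : ∃ c : ℕ, c = N * k := ⟨_, rfl⟩
  rw [← hc] at hkm ⊢
  have hc0 : 0 < c := by rw [hc]; positivity
  obtain ⟨K, hK⟩ : ∃ K : ℕ, K = N ^ n := ⟨_, rfl⟩
  rw [← hK]
  have hK0 : 0 < K := by rw [hK]; positivity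
  obtain ⟨d, hd⟩ : ∃ d : ℕ, d = Nat.gcd c K := ⟨_, rfl⟩
  have hd0 : 0 < d := by rw [hd]; exact Nat.gcd_pos_of_pos_left _ hc0
  obtain ⟨c', K', hcop, hc', hK'⟩ : ∃ c' K' : ℕ, Nat.Coprime c' K' ∧ c = d * c' ∧ K = d * K' := by
    obtain ⟨c', K', h1, h2, h3⟩ := Nat.exists_coprime c K
    rw [← hd] at h2 h3
    exact ⟨c', K', h1, by rw [h2]; ring, by rw [h3]; ring⟩
  have hdc : d ≤ c := by rw [hd]; exact Nat.gcd_le_left _ hc0
  have hK'0 : 0 < K' := Nat.pos_of_ne_zero (by rintro rfl; omega)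
  have hch : ∀ a : Fin n → Fin N, ∃ l : ℤ,
      (∃ l : ℤ, |(val N n a : ℤ) * (c : ℤ) + (K : ℤ) * l| ≤ m) →
      |(val N n a : ℤ) * (c : ℤ) + (K : ℤ) * l| ≤ m := by
    intro a
    by_cases h : ∃ l : ℤ, |(val N n a : ℤ) * (c : ℤ) + (K : ℤ) * l| ≤ m
    · obtain ⟨l, hl⟩ := h
      exact ⟨l, fun _ => hl⟩
    · exact ⟨0, fun h' => absurd h' h⟩
  choose l hl using hch
  have hcard : (Finset.univ.filter (fun a : Fin n → Fin N =>
      ∃ l : ℤ, |(val N n a : ℤ) * (c : ℤ) + (K : ℤ) * l| ≤ m)).card ≤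
      (Finset.Icc (-((m / d : ℕ) : ℤ)) ((m / d : ℕ) : ℤ) ×ˢ Finset.range d).card := by
    apply Finset.card_le_card_of_injOn
      (fun a => ((val N n a : ℤ) * (c' : ℤ) + (K' : ℤ) * l a, val N n a / K'))
    · intro a ha
      simp only [Finset.coe_filter, Finset.mem_univ, true_and, Set.mem_ofPred_eq] at ha
      have h1 := hl a ha
      have h2 : (val N n a : ℤ) * (c : ℤ) + (K : ℤ) * l a =
          d * ((val N n a : ℤ) * (c' : ℤ) + (K' : ℤ) * l a) := by
        rw [hc', hK']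
        push_cast
        ring
      rw [h2, abs_mul, abs_of_nonneg (by positivity : (0 : ℤ) ≤ d)] at h1
      have h3 : |(val N n a : ℤ) * (c' : ℤ) + (K' : ℤ) * l a| ≤ ((m / d : ℕ) : ℤ) := by
        rw [Int.natCast_div]
        exact (Int.le_ediv_iff_mul_le (by exact_mod_cast hd0)).2 (by linarith [mul_comm (d : ℤ) |(val N n a : ℤ) * (c' : ℤ) + (K' : ℤ) * l a|])
      simp only [Finset.coe_product, Finset.coe_Icc, Finset.coe_range, Set.mem_prod, Set.mem_Icc,
        Set.mem_Iio]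
      refine ⟨abs_le.1 h3, ?_⟩
      rw [Nat.div_lt_iff_lt_mul hK'0, ← hK', hK]
      exact val_lt N n a
    · intro a _ b _ hab
      simp only [Prod.mk.injEq] at hab
      obtain ⟨h1, h2⟩ := hab
      apply val_injective N n
      have h3 : (K' : ℤ) ∣ ((val N n a : ℤ) - val N n b) * c' :=
        ⟨l b - l a, by linear_combination h1⟩
      have h4 : IsCoprime (K' : ℤ) (c' : ℤ) := (Nat.isCoprime_iff_coprime.2 hcop).symm
      have h5 : (K' : ℤ) ∣ (val N n a : ℤ) - val N n b := h4.dvd_of_dvd_mul_right h3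
      have h6 := Nat.div_add_mod (val N n a) K'
      have h7 := Nat.div_add_mod (val N n b) K'
      rw [← h2] at h7
      have h8 : val N n a % K' = val N n b % K' := by
        apply eq_of_dvd_sub (Nat.mod_lt _ hK'0) (Nat.mod_lt _ hK'0)
        have h9 : ((val N n a % K' : ℕ) : ℤ) - ((val N n b % K' : ℕ) : ℤ) =
            (val N n a : ℤ) - val N n b := by
          have h6' : (K' : ℤ) * ((val N n a / K' : ℕ) : ℤ) + ((val N n a % K' : ℕ) : ℤ) = val N n a := by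
            exact_mod_cast h6
          have h7' : (K' : ℤ) * ((val N n a / K' : ℕ) : ℤ) + ((val N n b % K' : ℕ) : ℤ) = val N n b := by
            exact_mod_cast h7
          linarith
        rw [h9]
        exact h5
      omega
  refine hcard.trans ?_
  rw [Finset.card_product, Int.card_Icc, Finset.card_range]
  have h1 : (((m / d : ℕ) : ℤ) + 1 - -((m / d : ℕ) : ℤ)).toNat = 2 * (m / d) + 1 := by omega
  rw [h1]
  have h2 : m / d * d ≤ m := Nat.div_mul_le_self m d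
  calc (2 * (m / d) + 1) * d = 2 * (m / d * d) + d := by ring
    _ ≤ 2 * m + m := by omega
    _ = 3 * m := by ring

theorem count_Mmin (N n : ℕ) (hN : 2 ≤ N) (hn : 1 ≤ n) (m : ℕ) (hm : 1 ≤ m) :
    ((Finset.univ.filter (fun a : Fin n → Fin N => Mmin N n (val N n a) ≤ m)).card : ℝ) ≤
      3 / N * (m : ℝ) ^ 2 := by
  classical
  have hN0 : (0 : ℝ) < N := by positivity
  rcases le_or_gt (N ^ n) m with hKm | hKm
  · have h1 : (Finset.univ.filter (fun a : Fin n → Fin N => Mmin N n (val N n a) ≤ m)).card ≤ m := by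
      refine (Finset.card_le_univ _).trans ?_
      rw [← Finset.card_univ, card_univ_pow]
      exact hKm
    have h2 : N ≤ m := le_trans (by
      calc N = N ^ 1 := (pow_one N).symm
        _ ≤ N ^ n := Nat.pow_le_pow_right (by omega) hn) hKm
    have h2' : (N : ℝ) ≤ m := by exact_mod_cast h2
    calc _ ≤ (m : ℝ) := by exact_mod_cast h1
      _ ≤ 3 / N * (m : ℝ) ^ 2 := by
        rw [div_mul_eq_mul_div, le_div_iff₀ hN0]
        nlinarith
  · have hsub : Finset.univ.filter (fun a : Fin n → Fin N => Mmin N n (val N n a) ≤ m) ⊆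
        (Finset.Icc 1 (m / N)).biUnion (fun k => Finset.univ.filter (fun a : Fin n → Fin N =>
          ∃ l : ℤ, |(val N n a : ℤ) * ((N * k : ℕ) : ℤ) + ((N ^ n : ℕ) : ℤ) * l| ≤ m)) := by
      intro a ha
      simp only [Finset.mem_filter, Finset.mem_univ, true_and] at ha
      simp only [Finset.mem_biUnion, Finset.mem_Icc, Finset.mem_filter, Finset.mem_univ, true_and]
      obtain ⟨k, l, hkl, hmax⟩ := Mmin_mem N n (val N n a)
      have h1 : |(val N n a : ℤ) * (N * k) + (N : ℤ) ^ n * l| ≤ m := by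
        have := le_max_left |(val N n a : ℤ) * (N * k) + (N : ℤ) ^ n * l| |(N : ℤ) * k|
        omega
      have h2 : |(N : ℤ) * k| ≤ m := by
        have := le_max_right |(val N n a : ℤ) * (N * k) + (N : ℤ) ^ n * l| |(N : ℤ) * k|
        omega
      have hk : k ≠ 0 := by
        rintro rfl
        have hl : l ≠ 0 := by
          rcases hkl with h | h
          · exact absurd rfl h
          · exact h
        rw [mul_zero, mul_zero, zero_add, abs_mul, abs_of_nonneg (by positivity)] at h1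
        have h3 : 1 ≤ |l| := Int.one_le_abs hl
        have h4 : ((N ^ n : ℕ) : ℤ) ≤ m := by
          push_cast
          calc (N : ℤ) ^ n = (N : ℤ) ^ n * 1 := (mul_one _).symm
            _ ≤ (N : ℤ) ^ n * |l| := by gcongr
            _ ≤ m := h1
        omega
      have hNk : ∀ k' : ℤ, |(N : ℤ) * k'| = N * |k'| := by
        intro k'
        rw [abs_mul, abs_of_nonneg (by positivity)]
      rw [hNk] at h2
      refine ⟨k.natAbs, ⟨Int.natAbs_pos.2 hk, ?_⟩, ?_⟩
      · rw [Nat.le_div_iff_mul_le (by omega)]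
        have : ((k.natAbs * N : ℕ) : ℤ) ≤ m := by
          push_cast
          rw [mul_comm]
          exact h2
        exact_mod_cast this
      · rcases lt_or_gt_of_ne hk with h | h
        · refine ⟨-l, ?_⟩
          have e : (val N n a : ℤ) * ((N * k.natAbs : ℕ) : ℤ) + ((N ^ n : ℕ) : ℤ) * (-l) =
              -((val N n a : ℤ) * (N * k) + (N : ℤ) ^ n * l) := by
            push_cast
            rw [abs_of_neg h]
            ring
          rw [e, abs_neg]
          exact h1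
        · refine ⟨l, ?_⟩
          have e : (val N n a : ℤ) * ((N * k.natAbs : ℕ) : ℤ) + ((N ^ n : ℕ) : ℤ) * l =
              (val N n a : ℤ) * (N * k) + (N : ℤ) ^ n * l := by
            push_cast
            rw [abs_of_pos h]
          rw [e]
          exact h1
    have hcard : (Finset.univ.filter (fun a : Fin n → Fin N => Mmin N n (val N n a) ≤ m)).card ≤
        (m / N) * (3 * m) := by
      refine (Finset.card_le_card hsub).trans ?_
      refine Finset.card_biUnion_le.trans ?_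
      calc _ ≤ ∑ k ∈ Finset.Icc 1 (m / N), 3 * m := by
            apply Finset.sum_le_sum
            intro k hk
            rw [Finset.mem_Icc] at hk
            apply count_one N n hN k m hk.1
            rw [mul_comm]
            exact (Nat.le_div_iff_mul_le (by omega)).1 hk.2
        _ = (m / N) * (3 * m) := by
            rw [Finset.sum_const, Nat.card_Icc, smul_eq_mul]
            simp
    calc _ ≤ (((m / N) * (3 * m) : ℕ) : ℝ) := by exact_mod_cast hcard
      _ ≤ ((m : ℝ) / N) * (3 * m) := by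
          push_cast
          gcongr
          exact Nat.cast_div_le
      _ = 3 / N * (m : ℝ) ^ 2 := by ring

/-- the upper bound -/
theorem upper_bound {N n : ℕ} (hN : 2 ≤ N) (hn : 1 ≤ n) :
    avgFin N n ≤ (n : ℝ) / 2 + 1 / 2 + 1 / 2 * Real.logb N 12 := by
  have hN0 : (0 : ℝ) < N := by positivity
  have hN1 : (1 : ℝ) < N := by exact_mod_cast hN
  have hlog : 0 < Real.log N := Real.log_pos hN1
  have : NeZero N := ⟨by omega⟩
  have h := sum_log_lower (Finset.univ : Finset (Fin n → Fin N)) Finset.univ_nonempty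
    (fun a => Mmin N n (val N n a)) (fun a _ => Ms_pos (by omega) (Mmin_mem N n _)) (3 / N)
    (by positivity) (fun m hm => count_Mmin N n hN hn m hm)
  rw [card_univ_pow] at h
  push_cast at h
  have hKpos : (0 : ℝ) < (N : ℝ) ^ n := by positivity
  unfold avgFin
  rw [div_le_iff₀ hKpos]
  have h1 : ∑ a : Fin n → Fin N, finComplexity N n a =
      (∑ a : Fin n → Fin N, Real.log (hmin N n (val N n a))) / Real.log N := by
    rw [Finset.sum_div]
    exact Finset.sum_congr rfl (fun a _ => finComplexity_eq hN a)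
  rw [h1, div_le_iff₀ hlog]
  have h2 : ∑ a : Fin n → Fin N, Real.log (hmin N n (val N n a)) ≤
      ∑ a : Fin n → Fin N, ((n + 1 : ℝ) * Real.log N - Real.log (Mmin N n (val N n a))) := by
    apply Finset.sum_le_sum
    intro a _
    have h3 : (1 : ℝ) ≤ hmin N n (val N n a) := by
      exact_mod_cast hts_pos (hmin_mem N n (val N n a))
    have h4 : (1 : ℝ) ≤ Mmin N n (val N n a) := by
      exact_mod_cast Ms_pos (by omega) (Mmin_mem N n (val N n a))
    have h5 : (Mmin N n (val N n a) : ℝ) * hmin N n (val N n a) ≤ (N : ℝ) ^ (n + 1) := by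
      exact_mod_cast Mmin_mul_hmin_le hN hn (val N n a)
    have h6 := Real.log_le_log (by positivity) h5
    rw [Real.log_mul (by positivity) (by positivity), Real.log_pow] at h6
    push_cast at h6
    linarith
  refine h2.trans ?_
  rw [Finset.sum_sub_distrib, Finset.sum_const, card_univ_pow, nsmul_eq_mul]
  push_cast
  have h7 : 1 / 2 * Real.log ((N : ℝ) ^ n / (4 * (3 / N))) =
      1 / 2 * ((n + 1 : ℝ) * Real.log N) - 1 / 2 * Real.log 12 := by
    have e : (N : ℝ) ^ n / (4 * (3 / N)) = (N : ℝ) ^ (n + 1) / 12 := by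
      rw [pow_succ]
      field_simp
      ring
    rw [e, Real.log_div (by positivity) (by norm_num), Real.log_pow]
    push_cast
    ring
  rw [h7] at h
  unfold Real.logb
  have h8 : ((n : ℝ) / 2 + 1 / 2 + 1 / 2 * (Real.log 12 / Real.log N)) * (N : ℝ) ^ n * Real.log N =
      (N : ℝ) ^ n * ((n + 1 : ℝ) * Real.log N) -
      (N : ℝ) ^ n * (1 / 2 * ((n + 1 : ℝ) * Real.log N) - 1 / 2 * Real.log 12) := by
    field_simp
    ring
  rw [h8]
  linarith

end Pool.Agent.Helper22.NAdic
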