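import Pool.Agent.Helper22.Functional

set_option autoImplicit false

namespace Pool.Agent.Helper22.NonLlpo

open Encodable Denumerable Nat.Partrec Pool.Agent.Helper22.Functional

/-- the list of the first `k` entries of even index of a list -/
def pre (σ : List ℕ) (k : ℕ) : List ℕ := (List.range k).map fun i => σ.getD (2 * i) 0

/-- at stage `y` the `e`-th functional has put `x` into its set -/
def Inn (σ : List ℕ) (e x y : ℕ) : Prop :=
  ∃ k ∈ List.range y, Code.evaln y (ofNat Code e) (encode (pre σ k, x)) = some 1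

instance (σ : List ℕ) (e x y : ℕ) : Decidable (Inn σ e x y) := by
  unfold Inn; infer_instance

/-- number of elements below `x` in the `e`-th set at stage `y` -/
def cnt (σ : List ℕ) (e x y : ℕ) : ℕ :=
  Nat.rec 0 (fun z acc => acc + if Inn σ e z y then 1 else 0) x

/-- the power of two -/
def tp (j : ℕ) : ℕ := Nat.rec 1 (fun _ acc => acc + acc) j

/-- the `j`-th requirement claims `x` at stage `y` -/
def Claim (σ : List ℕ) (j x y : ℕ) : Prop := Inn σ (j / 2) x y ∧ cnt σ (j / 2) x y < tp j

instance (σ : List ℕ) (j x y : ℕ) : Decidable (Claim σ j x y) := by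
  unfold Claim; infer_instance

/-- the parity of the least requirement below `n` claiming `x` at stage `y`, and `2` if there is
none -/
def J (σ : List ℕ) (x y n : ℕ) : ℕ :=
  Nat.rec 2 (fun j acc => if acc < 2 then acc else if Claim σ j x y then j % 2 else 2) n

/-- the answer to the second question given by the entries of index at least `a` and less than
`n` (`2` if there is none) -/
def par (σ : List ℕ) (a n : ℕ) : ℕ :=
  Nat.rec 2 (fun s acc => if a ≤ s ∧ σ.getD (2 * s + 1) 0 = 1 then 1 - s % 2 else acc) n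

/-- the colour -/
def kap (σ : List ℕ) (a x y : ℕ) : ℕ :=
  if par σ a (y + 1) < 2 then par σ a (y + 1) else if J σ x y y = 1 then 1 else 0

/-! ### primitive recursiveness -/

theorem primrec_pre : Primrec₂ pre := by
  unfold pre
  refine Primrec.list_map (f := fun a : List ℕ × ℕ => List.range a.2)
    (g := fun (a : List ℕ × ℕ) (i : ℕ) => a.1.getD (2 * i) 0) (Primrec.list_range.comp Primrec.snd) ?_
  exact (Primrec.list_getD 0).comp (Primrec.fst.comp Primrec.fst)
    (Primrec.nat_mul.comp (Primrec.const 2) Primrec.snd)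

/-- four arguments -/
abbrev T := List ℕ × ℕ × ℕ × ℕ

theorem primrec_Inn : PrimrecPred fun t : T => Inn t.1 t.2.1 t.2.2.1 t.2.2.2 := by
  have h : PrimrecRel fun (k : ℕ) (t : T) =>
      Code.evaln t.2.2.2 (ofNat Code t.2.1) (encode (pre t.1 k, t.2.2.1)) = some 1 := by
    have ha : Primrec fun b : ℕ × T => b.2.1 := Primrec.fst.comp Primrec.snd
    have hb : Primrec fun b : ℕ × T => b.2.2.1 := Primrec.fst.comp (Primrec.snd.comp Primrec.snd)
    have hc : Primrec fun b : ℕ × T => b.2.2.2.1 :=
      Primrec.fst.comp (Primrec.snd.comp (Primrec.snd.comp Primrec.snd))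
    have hd : Primrec fun b : ℕ × T => b.2.2.2.2 :=
      Primrec.snd.comp (Primrec.snd.comp (Primrec.snd.comp Primrec.snd))
    have h1 : Primrec fun b : ℕ × T => ((b.2.2.2.2, ofNat Code b.2.2.1), encode (pre b.2.1 b.1, b.2.2.2.1)) := by
      refine Primrec.pair (Primrec.pair hd ((Primrec.ofNat Code).comp hb)) (Primrec.encode.comp ?_)
      exact Primrec.pair (primrec_pre.comp ha Primrec.fst) hc
    have h2 := Code.primrec_evaln.comp h1
    exact Primrec.eq.comp h2 (Primrec.const (some 1))
  exact (h.exists_mem_list.comp (Primrec.list_range.comp (Primrec.snd.comp (Primrec.snd.comp Primrec.snd))) Primrec.id)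

theorem primrec_cnt : Primrec fun t : T => cnt t.1 t.2.1 t.2.2.1 t.2.2.2 := by
  unfold cnt
  refine Primrec.nat_rec' (f := fun t : T => t.2.2.1) (g := fun _ : T => 0)
    (h := fun (t : T) (b : ℕ × ℕ) => b.2 + if Inn t.1 t.2.1 b.1 t.2.2.2 then 1 else 0) ?_ ?_ ?_
  · exact Primrec.fst.comp (Primrec.snd.comp Primrec.snd)
  · exact Primrec.const 0
  · refine Primrec.nat_add.comp (Primrec.snd.comp Primrec.snd) ?_
    refine Primrec.ite ?_ (Primrec.const 1) (Primrec.const 0)
    refine primrec_Inn.comp (f := fun a : T × ℕ × ℕ => (a.1.1, a.1.2.1, a.2.1, a.1.2.2.2)) ?_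
    exact Primrec.pair (Primrec.fst.comp Primrec.fst) (Primrec.pair
      (Primrec.fst.comp (Primrec.snd.comp Primrec.fst)) (Primrec.pair
      (Primrec.fst.comp Primrec.snd)
      (Primrec.snd.comp (Primrec.snd.comp (Primrec.snd.comp Primrec.fst)))))

theorem primrec_tp : Primrec tp := by
  unfold tp
  exact Primrec.nat_rec₁ 1 (Primrec.nat_add.comp Primrec.snd Primrec.snd)

theorem primrec_Claim : PrimrecPred fun t : T => Claim t.1 t.2.1 t.2.2.1 t.2.2.2 := by
  unfold Claim
  have h0 : Primrec fun t : T => (t.1, t.2.1 / 2, t.2.2.1, t.2.2.2) :=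
    Primrec.pair Primrec.fst (Primrec.pair
      (Primrec.nat_div.comp (Primrec.fst.comp Primrec.snd) (Primrec.const 2))
      (Primrec.snd.comp Primrec.snd))
  have h1 := primrec_Inn.comp h0
  have h2 := primrec_cnt.comp h0
  exact h1.and (Primrec.nat_lt.comp h2 (primrec_tp.comp (Primrec.fst.comp Primrec.snd)))

theorem primrec_J : Primrec fun t : T => J t.1 t.2.1 t.2.2.1 t.2.2.2 := by
  unfold J
  refine Primrec.nat_rec' (f := fun t : T => t.2.2.2) (g := fun _ : T => 2)
    (h := fun (t : T) (b : ℕ × ℕ) =>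
      if b.2 < 2 then b.2 else if Claim t.1 b.1 t.2.1 t.2.2.1 then b.1 % 2 else 2) ?_ ?_ ?_
  · exact Primrec.snd.comp (Primrec.snd.comp Primrec.snd)
  · exact Primrec.const 2
  · refine Primrec.ite (Primrec.nat_lt.comp (Primrec.snd.comp Primrec.snd) (Primrec.const 2))
      (Primrec.snd.comp Primrec.snd) ?_
    refine Primrec.ite ?_ (Primrec.nat_mod.comp (Primrec.fst.comp Primrec.snd) (Primrec.const 2))
      (Primrec.const 2)
    refine primrec_Claim.comp (f := fun a : T × ℕ × ℕ => (a.1.1, a.2.1, a.1.2.1, a.1.2.2.1)) ?_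
    exact Primrec.pair (Primrec.fst.comp Primrec.fst) (Primrec.pair
      (Primrec.fst.comp Primrec.snd) (Primrec.pair
      (Primrec.fst.comp (Primrec.snd.comp Primrec.fst))
      (Primrec.fst.comp (Primrec.snd.comp (Primrec.snd.comp Primrec.fst)))))

theorem primrec_par : Primrec fun t : List ℕ × ℕ × ℕ => par t.1 t.2.1 t.2.2 := by
  unfold par
  refine Primrec.nat_rec' (f := fun t : List ℕ × ℕ × ℕ => t.2.2) (g := fun _ : List ℕ × ℕ × ℕ => 2)
    (h := fun (t : List ℕ × ℕ × ℕ) (b : ℕ × ℕ) =>
      if t.2.1 ≤ b.1 ∧ t.1.getD (2 * b.1 + 1) 0 = 1 then 1 - b.1 % 2 else b.2) ?_ ?_ ?_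
  · exact Primrec.snd.comp Primrec.snd
  · exact Primrec.const 2
  · refine Primrec.ite ?_ ?_ (Primrec.snd.comp Primrec.snd)
    · refine (Primrec.nat_le.comp (Primrec.fst.comp (Primrec.snd.comp Primrec.fst))
        (Primrec.fst.comp Primrec.snd)).and ?_
      refine Primrec.eq.comp ?_ (Primrec.const 1)
      refine (Primrec.list_getD 0).comp (Primrec.fst.comp Primrec.fst) ?_
      exact Primrec.succ.comp (Primrec.nat_mul.comp (Primrec.const 2) (Primrec.fst.comp Primrec.snd))
    · exact Primrec.nat_sub.comp (Primrec.const 1)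
        (Primrec.nat_mod.comp (Primrec.fst.comp Primrec.snd) (Primrec.const 2))

theorem primrec_kap : Primrec fun t : T => kap t.1 t.2.1 t.2.2.1 t.2.2.2 := by
  unfold kap
  have h1 : Primrec fun t : T => par t.1 t.2.1 (t.2.2.2 + 1) :=
    primrec_par.comp (g := fun t : T => (t.1, t.2.1, t.2.2.2 + 1)) (Primrec.pair Primrec.fst
      (Primrec.pair (Primrec.fst.comp Primrec.snd)
        (Primrec.succ.comp (Primrec.snd.comp (Primrec.snd.comp Primrec.snd)))))
  refine Primrec.ite (Primrec.nat_lt.comp h1 (Primrec.const 2)) h1 ?_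
  refine Primrec.ite ?_ (Primrec.const 1) (Primrec.const 0)
  refine Primrec.eq.comp ?_ (Primrec.const 1)
  refine primrec_J.comp (g := fun t : T => (t.1, t.2.2.1, t.2.2.2, t.2.2.2)) ?_
  exact Primrec.pair Primrec.fst (Primrec.pair (Primrec.fst.comp (Primrec.snd.comp Primrec.snd))
    (Primrec.pair (Primrec.snd.comp (Primrec.snd.comp Primrec.snd))
      (Primrec.snd.comp (Primrec.snd.comp Primrec.snd))))

/-! ### combinatorics -/

theorem kap_lt (σ : List ℕ) (a x y : ℕ) : kap σ a x y < 2 := by
  unfold kap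
  split_ifs <;> omega

theorem tp_eq (j : ℕ) : tp j = 2 ^ j := by
  induction j with
  | zero => rfl
  | succ j ih =>
    have : tp (j + 1) = tp j + tp j := rfl
    rw [this, ih, pow_succ]; omega

theorem cnt_eq (σ : List ℕ) (e x y : ℕ) :
    cnt σ e x y = ((Finset.range x).filter fun z => Inn σ e z y).card := by
  induction x with
  | zero => rfl
  | succ x ih =>
    have : cnt σ e (x + 1) y = cnt σ e x y + if Inn σ e x y then 1 else 0 := rfl
    rw [this, ih, Finset.range_add_one, Finset.filter_insert]
    split_ifs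
    · rw [Finset.card_insert_of_notMem (by simp)]
    · simp

/-- the claimed set of a requirement is small -/
theorem card_claim (σ : List ℕ) (j y : ℕ) (N : ℕ) :
    ((Finset.range N).filter fun x => Claim σ j x y).card ≤ 2 ^ j := by
  rw [← tp_eq]
  have : ∀ M ≤ N, ((Finset.range M).filter fun x => Claim σ j x y).card ≤ min (tp j) (cnt σ (j / 2) M y) := by
    intro M
    induction M with
    | zero => intro _; simp
    | succ M ih =>
      intro hM
      have ih := ih (by omega)
      have h1 : cnt σ (j / 2) (M + 1) y = cnt σ (j / 2) M y + if Inn σ (j / 2) M y then 1 else 0 := rfl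
      rw [h1, Finset.range_add_one, Finset.filter_insert]
      by_cases h : Claim σ j M y
      · rw [if_pos h, Finset.card_insert_of_notMem (by simp), if_pos h.1]
        have := h.2
        omega
      · rw [if_neg h]
        split_ifs <;> omega
  exact (this N le_rfl).trans (min_le_left _ _)

theorem J_eq (σ : List ℕ) (x y : ℕ) (j : ℕ) (hj : Claim σ j x y) (hmin : ∀ i < j, ¬ Claim σ i x y)
    (n : ℕ) : J σ x y n = if n ≤ j then 2 else j % 2 := by
  induction n with
  | zero => simp [J]
  | succ n ih =>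
    have h1 : J σ x y (n + 1) = if J σ x y n < 2 then J σ x y n else
      if Claim σ n x y then n % 2 else 2 := rfl
    rw [h1, ih]
    rcases lt_trichotomy n j with h | h | h
    · rw [if_pos h.le, if_neg (by omega), if_neg (hmin n h), if_pos (by omega)]
    · subst h
      rw [if_pos le_rfl, if_neg (by omega), if_pos hj, if_neg (by omega)]
    · have h2 : ¬ n ≤ j := by omega
      have h3 : ¬ n + 1 ≤ j := by omega
      rw [if_neg h2, if_neg h3, if_pos (Nat.mod_lt _ (by omega))]

end Pool.Agent.Helper22.NonLlpo
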