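import Pool.Agent.Helper22.NonLlpoColor

set_option autoImplicit false

namespace Pool.Agent.Helper22.NonLlpo

open Encodable Denumerable Nat.Partrec Pool.Agent.Helper22.Functional

/-- even part -/
def lft (r : ℕ → ℕ) : ℕ → ℕ := fun n => r (2 * n)

/-- odd part -/
def rgt (r : ℕ → ℕ) : ℕ → ℕ := fun n => r (2 * n + 1)

theorem pre_ini (r : ℕ → ℕ) (K k : ℕ) (h : 2 * k ≤ K + 1) : pre (ini r K) k = ini (lft r) k := by
  unfold pre
  conv_rhs => unfold ini
  apply List.map_congr_left
  intro i hi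
  rw [List.mem_range] at hi
  rw [getD_ini _ _ _ (by omega)]
  rfl

/-- the colour of `x < y` (for `a = x + 1`) -/
def C (r : ℕ → ℕ) (a x y : ℕ) : ℕ := kap (ini r (2 * (y + 2))) a x y

theorem par_none (σ : List ℕ) (q : ℕ → ℕ) (a n : ℕ) (h : ∀ s < n, σ.getD (2 * s + 1) 0 = q s)
    (hq : ∀ s < n, a ≤ s → q s ≠ 1) : par σ a n = 2 := by
  induction n with
  | zero => rfl
  | succ n ih =>
    have h1 : par σ a (n + 1) = if a ≤ n ∧ σ.getD (2 * n + 1) 0 = 1 then 1 - n % 2 else par σ a n := rfl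
    rw [h1, ih (fun s hs => h s (by omega)) (fun s hs => hq s (by omega)), h n (by omega), if_neg]
    rintro ⟨h2, h3⟩
    exact hq n (by omega) h2 h3

theorem par_some (σ : List ℕ) (q : ℕ → ℕ) (a n s0 : ℕ) (h : ∀ s < n, σ.getD (2 * s + 1) 0 = q s)
    (hq : ∀ s, q s = 1 → s = s0) (hs0 : q s0 = 1) (ha : a ≤ s0) (hn : s0 < n) :
    par σ a n = 1 - s0 % 2 := by
  induction n with
  | zero => omega
  | succ n ih =>
    have h1 : par σ a (n + 1) = if a ≤ n ∧ σ.getD (2 * n + 1) 0 = 1 then 1 - n % 2 else par σ a n := rfl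
    rw [h1, h n (by omega)]
    by_cases h2 : s0 = n
    · subst h2
      rw [if_pos ⟨ha, hs0⟩]
    · rw [if_neg, ih (fun s hs => h s (by omega)) (by omega)]
      rintro ⟨_, h3⟩
      exact h2 (hq n h3).symm

theorem getD_ini_right (r : ℕ → ℕ) (y : ℕ) :
    ∀ s < y + 1, (ini r (2 * (y + 2))).getD (2 * s + 1) 0 = rgt r s := by
  intro s hs
  rw [getD_ini _ _ _ (by omega)]
  rfl

theorem C_none (r : ℕ → ℕ) (a x y : ℕ) (hq : ∀ s ≤ y, a ≤ s → rgt r s ≠ 1) :
    C r a x y = if J (ini r (2 * (y + 2))) x y y = 1 then 1 else 0 := by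
  unfold C kap
  rw [par_none _ (rgt r) a (y + 1) (getD_ini_right r y) (fun s hs => hq s (by omega))]
  simp

theorem C_some (r : ℕ → ℕ) (a x y s0 : ℕ) (hq : ∀ s, rgt r s = 1 → s = s0) (hs0 : rgt r s0 = 1)
    (ha : a ≤ s0) (hy : s0 ≤ y) : C r a x y = 1 - s0 % 2 := by
  unfold C kap
  rw [par_some _ (rgt r) a (y + 1) s0 (getD_ini_right r y) hq hs0 ha (by omega)]
  rw [if_pos (by omega)]

/-- every infinite set computed by a functional contains a pair with prescribed value -/
theorem exists_pair (r h : ℕ → ℕ) (Φ : List ℕ → ℕ →. ℕ)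
    (hΦ : Comp (lft r) (fun n => Part.some (h n)) Φ) (hinf : {x | h x = 1}.Infinite) (b : ℕ) (hb : b < 2) :
    ∃ x y, x < y ∧ h x = 1 ∧ h y = 1 ∧ J (ini r (2 * (y + 2))) x y y = b := by
  classical
  obtain ⟨c, hc⟩ := Code.exists_code.1 hΦ.partrec
  have hc' : ∀ σ x, Code.eval c (encode (σ, x)) = Φ σ x := by
    intro σ x
    rw [hc]
    simp only [encodek, Part.coe_some, Part.bind_some]
    simp [Part.map_id']
  -- the enumeration
  have hno : ∀ y z, ∀ k ≤ y, Code.evaln y c (encode (ini (lft r) k, z)) = some 1 → h z = 1 := by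
    intro y z k _ hk
    have h1 := Code.evaln_sound (k := y) (c := c) (n := encode (ini (lft r) k, z)) (x := 1) hk
    rw [hc'] at h1
    have h2 := (hΦ.spec z 1).2 ⟨k, h1⟩
    exact (Part.mem_some_iff.1 h2).symm
  have hyes : ∀ z, ∃ B, h z = 1 → ∀ y, B < y →
      ∃ k < y, Code.evaln y c (encode (ini (lft r) k, z)) = some 1 := by
    intro z
    by_cases hz : h z = 1
    · obtain ⟨k, hk⟩ := (hΦ.spec z 1).1 (by rw [hz]; exact Part.mem_some 1)
      rw [← hc'] at hk
      obtain ⟨l, hl⟩ := Code.evaln_complete.1 hk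
      refine ⟨max k l, fun _ y hy => ⟨k, by omega, ?_⟩⟩
      exact Code.evaln_mono (by omega) hl
    · exact ⟨0, fun h => absurd h hz⟩
  choose B hB using hyes
  set e := encode c with he
  have hofe : ofNat Code e = c := ofNat_encode c
  have hInn : ∀ y z, B z < y → (Inn (ini r (2 * (y + 2))) e z y ↔ h z = 1) := by
    intro y z hy
    unfold Inn
    rw [hofe]
    constructor
    · rintro ⟨k, hk, hk'⟩
      rw [List.mem_range] at hk
      rw [pre_ini _ _ _ (by omega)] at hk'
      exact hno y z k (by omega) hk'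
    · intro hz
      obtain ⟨k, hk, hk'⟩ := hB z hz y hy
      refine ⟨k, List.mem_range.2 hk, ?_⟩
      rw [pre_ini _ _ _ (by omega)]
      exact hk'
  set j := 2 * e + b with hj
  have hj2 : j / 2 = e := by omega
  have hjb : j % 2 = b := by omega
  set M := Nat.nth (fun x => h x = 1) (2 ^ j) with hM
  have hcount : Nat.count (fun x => h x = 1) M = 2 ^ j := Nat.count_nth_of_infinite hinf _
  set F := (Finset.range M).filter fun x => h x = 1 with hF
  have hFcard : F.card = 2 ^ j := by rw [← hcount, Nat.count_eq_card_filter_range]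
  obtain ⟨y, hy1, hy2⟩ := hinf.exists_gt (M + j + (Finset.range M).sup B)
  have hyB : ∀ z < M, B z < y := by
    intro z hz
    have := Finset.le_sup (f := B) (Finset.mem_range.2 hz)
    omega
  have hclaim : ∀ x ∈ F, Claim (ini r (2 * (y + 2))) j x y := by
    intro x hx
    rw [hF, Finset.mem_filter, Finset.mem_range] at hx
    refine ⟨?_, ?_⟩
    · rw [hj2]
      exact (hInn y x (hyB x hx.1)).2 hx.2
    · rw [hj2, tp_eq, cnt_eq, ← hFcard]
      apply Finset.card_lt_card
      rw [Finset.ssubset_iff_of_subset]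
      · refine ⟨x, ?_, ?_⟩
        · rw [hF, Finset.mem_filter, Finset.mem_range]; exact hx
        · simp
      · intro z hz
        rw [Finset.mem_filter, Finset.mem_range] at hz
        rw [hF, Finset.mem_filter, Finset.mem_range]
        exact ⟨by omega, (hInn y z (hyB z (by omega))).1 hz.2⟩
  have hfree : ∃ x ∈ F, ∀ i < j, ¬ Claim (ini r (2 * (y + 2))) i x y := by
    by_contra hcon
    push Not at hcon
    have h1 : F ⊆ (Finset.range j).biUnion fun i =>
        (Finset.range M).filter fun x => Claim (ini r (2 * (y + 2))) i x y := by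
      intro x hx
      obtain ⟨i, hi, hi'⟩ := hcon x hx
      rw [Finset.mem_biUnion]
      refine ⟨i, Finset.mem_range.2 hi, ?_⟩
      rw [Finset.mem_filter]
      refine ⟨?_, hi'⟩
      rw [hF, Finset.mem_filter] at hx
      exact hx.1
    have h2 := Finset.card_le_card h1
    have h3 := h2.trans Finset.card_biUnion_le
    have h4 : ∑ i ∈ Finset.range j, ((Finset.range M).filter fun x =>
        Claim (ini r (2 * (y + 2))) i x y).card ≤ ∑ i ∈ Finset.range j, 2 ^ i :=
      Finset.sum_le_sum fun i _ => card_claim _ _ _ _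
    have h5 : ∑ i ∈ Finset.range j, 2 ^ i < 2 ^ j := by
      have := Nat.geomSum_eq (m := 2) (le_refl 2) j
      have hpos : 0 < 2 ^ j := by positivity
      rw [this]
      omega
    rw [hFcard] at h3
    omega
  obtain ⟨x, hxF, hx⟩ := hfree
  refine ⟨x, y, ?_, ?_, hy1, ?_⟩
  · rw [hF, Finset.mem_filter, Finset.mem_range] at hxF
    omega
  · rw [hF, Finset.mem_filter] at hxF
    exact hxF.2
  · rw [J_eq _ x y j (hclaim x hxF) hx y, if_neg (by omega), hjb]

/-- the situation: `h` is an infinite homogeneous set of colour `i` -/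
structure Hom (r h : ℕ → ℕ) (i : ℕ) : Prop where
  inf : {x | h x = 1}.Infinite
  hom : ∀ x y, x < y → h x = 1 → h y = 1 → C r (x + 1) x y = i

theorem hom_lt {r h : ℕ → ℕ} {i : ℕ} (H : Hom r h i) : i < 2 := by
  obtain ⟨x, hx, _⟩ := H.inf.exists_gt 0
  obtain ⟨y, hy, hxy⟩ := H.inf.exists_gt x
  rw [← H.hom x y hxy hx hy]
  exact kap_lt _ _ _ _

theorem not_recursiveIn {r h : ℕ → ℕ} {i : ℕ} (H : Hom r h i)
    (hq : ∀ s t, rgt r s = 1 → rgt r t = 1 → s = t) :
    ¬ Nat.RecursiveIn {fun n => Part.some (lft r n)} (fun n => Part.some (h n)) := by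
  intro hrec
  obtain ⟨Φ, hΦ⟩ := exists_comp _ _ hrec
  have hi := hom_lt H
  obtain ⟨N, hN⟩ : ∃ N, ∀ s, rgt r s = 1 → s ≤ N := by
    by_cases hex : ∃ s, rgt r s = 1
    · obtain ⟨s, hs⟩ := hex
      exact ⟨s, fun t ht => (hq t s ht hs).le⟩
    · exact ⟨0, fun s hs => absurd ⟨s, hs⟩ hex⟩
  let Ψ : List ℕ → ℕ →. ℕ := fun σ x => (Φ σ x).map fun v => if x < N then 0 else v
  have hΨ : Comp (lft r) (fun n => Part.some (if n < N then 0 else h n)) Ψ := by
    refine ⟨?_, ?_, ?_⟩
    · refine Partrec.map hΦ.partrec ?_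
      refine Primrec.to_comp (α := (List ℕ × ℕ) × ℕ)
        (f := fun a : (List ℕ × ℕ) × ℕ => if a.1.2 < N then 0 else a.2) ?_
      exact Primrec.ite (Primrec.nat_lt.comp (Primrec.snd.comp Primrec.fst) (Primrec.const N))
        (Primrec.const 0) Primrec.snd
    · intro σ τ hle x m hm
      obtain ⟨v, hv, hv'⟩ := (Part.mem_map_iff _).1 hm
      exact (Part.mem_map_iff _).2 ⟨v, hΦ.mono _ _ hle _ _ hv, hv'⟩
    · intro x m
      constructor
      · intro hm
        rw [Part.mem_some_iff] at hm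
        obtain ⟨k, hk⟩ := (hΦ.spec x (h x)).1 (Part.mem_some _)
        exact ⟨k, (Part.mem_map_iff _).2 ⟨_, hk, hm.symm⟩⟩
      · rintro ⟨k, hk⟩
        obtain ⟨v, hv, hv'⟩ := (Part.mem_map_iff _).1 hk
        have h1 := (hΦ.spec x v).2 ⟨k, hv⟩
        rw [Part.mem_some_iff] at h1 ⊢
        rw [← hv', h1]
  have hinf : {x | (if x < N then 0 else h x) = 1}.Infinite := by
    have h1 := H.inf.sdiff (Set.finite_Iio N)
    apply h1.mono
    rintro x ⟨hx1, hx2⟩
    simp only [Set.mem_Iio] at hx2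
    change (if x < N then 0 else h x) = 1
    rw [if_neg hx2]
    exact hx1
  obtain ⟨x, y, hxy, hx, hy, hJ⟩ := exists_pair r _ Ψ hΨ hinf (1 - i) (by omega)
  have hxN : ¬ x < N := by
    intro hlt
    rw [if_pos hlt] at hx
    exact absurd hx (by omega)
  rw [if_neg hxN] at hx
  rw [if_neg (show ¬ y < N by omega)] at hy
  have h1 := H.hom x y hxy hx hy
  rw [C_none] at h1
  · rw [hJ] at h1
    split_ifs at h1 <;> omega
  · intro s _ hs2 hs3
    have := hN s hs3
    omega

/-- the answer to the second question -/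
theorem answer {r h : ℕ → ℕ} {i : ℕ} (H : Hom r h i)
    (hq01 : ∀ s, rgt r s = 0 ∨ rgt r s = 1)
    (hq : ∀ s t, rgt r s = 1 → rgt r t = 1 → s = t) :
    ∃ a < 2, (∀ n, rgt r (2 * n + a) = 0) ∧
      ∀ x y, x < y → h x = 1 → h y = 1 → C r 0 x y = a := by
  by_cases hex : ∃ s, rgt r s = 1
  · obtain ⟨s0, hs0⟩ := hex
    have hu : ∀ s, rgt r s = 1 → s = s0 := fun s hs => hq s s0 hs hs0
    refine ⟨1 - s0 % 2, by omega, ?_, ?_⟩
    · intro n
      rcases hq01 (2 * n + (1 - s0 % 2)) with h0 | h0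
      · exact h0
      · have := hu _ h0
        omega
    · intro x y hxy hx hy
      by_cases hs : s0 ≤ y
      · exact C_some r 0 x y s0 hu hs0 (by omega) hs
      · have h1 := H.hom x y hxy hx hy
        obtain ⟨y', hy', hyy'⟩ := H.inf.exists_gt s0
        have h2 := H.hom x y' (by omega) hx hy'
        rw [C_some r (x + 1) x y' s0 hu hs0 (by omega) (by omega)] at h2
        rw [h2, ← h1, C_none, C_none]
        · intro s hs1 _ hs3
          have := hu s hs3
          omega
        · intro s hs1 _ hs3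
          have := hu s hs3
          omega
  · refine ⟨i, hom_lt H, ?_, ?_⟩
    · intro n
      exact (hq01 _).resolve_right fun h0 => hex ⟨_, h0⟩
    · intro x y hxy hx hy
      rw [← H.hom x y hxy hx hy, C_none, C_none]
      · intro s _ _ hs3
        exact hex ⟨s, hs3⟩
      · intro s _ _ hs3
        exact hex ⟨s, hs3⟩

end Pool.Agent.Helper22.NonLlpo
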