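import Mathlib

set_option autoImplicit false

namespace Pool.Agent.Helper22.OF

open Encodable

theorem computable_find {α : Type*} [Primcodable α] (p : α → ℕ → Bool) (hp : Computable₂ p)
    (h : ∀ a, ∃ k, p a k = true) : ∃ f : α → ℕ, Computable f ∧ ∀ a, p a (f a) = true := by
  have h1 : Partrec fun a => Nat.rfind (fun k => Part.some (p a k)) :=
    Partrec.rfind (p := fun a k => Part.some (p a k)) hp
  have h2 : ∀ a, (Nat.rfind (fun k => Part.some (p a k))).Dom := by
    intro a
    obtain ⟨k, hk⟩ := h a
    refine Nat.rfind_dom.2 ⟨k, ?_, fun _ => trivial⟩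
    rw [hk]
    exact Part.mem_some true
  refine ⟨fun a => (Nat.rfind (fun k => Part.some (p a k))).get (h2 a), ?_, ?_⟩
  · exact Partrec.of_eq_tot h1 fun a => Part.get_mem (h2 a)
  · intro a
    have h3 := Nat.rfind_spec (Part.get_mem (h2 a))
    exact (Part.mem_some_iff.1 h3).symm

/-- bounded universal quantifier -/
def allB (p : ℕ → Bool) (N : ℕ) : Bool := Nat.rec true (fun q acc => acc && p q) N

theorem allB_iff (p : ℕ → Bool) (N : ℕ) : allB p N = true ↔ ∀ q < N, p q = true := by
  induction N with
  | zero => simp [allB]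
  | succ N ih =>
    have h1 : allB p (N + 1) = (allB p N && p N) := rfl
    rw [h1, Bool.and_eq_true, ih]
    constructor
    · rintro ⟨h2, h3⟩ q hq
      rcases Nat.lt_succ_iff_lt_or_eq.1 hq with h | h
      · exact h2 q h
      · exact h ▸ h3
    · intro h
      exact ⟨fun q hq => h q (by omega), h N (by omega)⟩

theorem computable_allB {α : Type*} [Primcodable α] (p : α → ℕ → Bool) (hp : Computable₂ p)
    (N : α → ℕ) (hN : Computable N) : Computable fun a => allB (p a) (N a) := by
  unfold allB
  refine Computable.nat_rec (f := N) (g := fun _ => true)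
    (h := fun (a : α) (b : ℕ × Bool) => b.2 && p a b.1) hN (Computable.const true) ?_
  have h1 : Computable fun a : α × ℕ × Bool => p a.1 a.2.1 :=
    hp.comp Computable.fst (Computable.fst.comp Computable.snd)
  exact (Primrec.and.to_comp).comp (Computable.snd.comp Computable.snd) h1

theorem pres {F : Type} [Field F] [Infinite F] (ν : ℕ → F) (hν : Function.Surjective ν)
    (add mul : ℕ → ℕ → ℕ) (neg : ℕ → ℕ) (cadd : Computable₂ add) (cmul : Computable₂ mul)
    (cneg : Computable neg) (sadd : ∀ a b, ν (add a b) = ν a + ν b)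
    (smul : ∀ a b, ν (mul a b) = ν a * ν b) (sneg : ∀ a, ν (neg a) = - ν a)
    (eqB : ℕ → ℕ → Bool) (ceq : Computable₂ eqB) (seq : ∀ a b, eqB a b = true ↔ ν a = ν b) :
    ∃ e : ℕ ≃ F,
        Computable₂ (fun a b : ℕ => e.symm (e a + e b)) ∧
        Computable₂ (fun a b : ℕ => e.symm (e a * e b)) ∧
        Computable (fun a : ℕ => e.symm (-(e a))) ∧
        Computable (fun a : ℕ => e.symm ((e a)⁻¹)) := by
  classical
  set Mb : ℕ → Bool := fun a => allB (fun b => !eqB b a) a with hMb
  have cM : Computable Mb := by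
    refine computable_allB (fun a b => !eqB b a) ?_ (fun a => a) Computable.id
    exact (Primrec.not.to_comp).comp (ceq.comp Computable.snd Computable.fst)
  set p : ℕ → Prop := fun a => Mb a = true with hp
  have hpi : ∀ a, p a ↔ ∀ b < a, ν b ≠ ν a := by
    intro a
    change allB (fun b => !eqB b a) a = true ↔ _
    rw [allB_iff]
    refine forall₂_congr fun b _ => ?_
    rw [Bool.not_eq_true', ← Bool.not_eq_true, seq]
  -- least codes
  let lc : F → ℕ := fun y => Nat.find (hν y)
  have lc1 : ∀ y, ν (lc y) = y := fun y => Nat.find_spec (hν y)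
  have lc2 : ∀ y, p (lc y) := fun y => (hpi _).2 fun b hb h => Nat.find_min (hν y) hb (h.trans (lc1 y))
  have lc3 : ∀ a y, p a → ν a = y → a = lc y := by
    rintro a y h1 rfl
    apply le_antisymm
    · by_contra h
      exact (hpi a).1 h1 _ (not_le.1 h) (lc1 _)
    · exact Nat.find_min' (hν (ν a)) rfl
  have hinf : {a | p a}.Infinite := by
    intro hfin
    have : Set.Finite (Set.univ : Set F) := by
      refine (hfin.image ν).subset fun y _ => ⟨lc y, lc2 y, lc1 y⟩
    exact Set.infinite_univ this
  have cc : Computable (Nat.count p) := by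
    have h1 : Computable fun n : ℕ => (Nat.rec 0 (fun k acc => acc + cond (Mb k) 1 0) n : ℕ) := by
      refine Computable.nat_rec (f := fun n : ℕ => n) (g := fun _ => 0)
        (h := fun (_ : ℕ) (b : ℕ × ℕ) => b.2 + cond (Mb b.1) 1 0) Computable.id
        (Computable.const 0) ?_
      exact Primrec.nat_add.to_comp.comp (Computable.snd.comp Computable.snd)
        (Computable.cond (cM.comp (Computable.fst.comp Computable.snd)) (Computable.const 1)
          (Computable.const 0))
    refine h1.of_eq fun n => ?_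
    induction n with
    | zero => simp
    | succ n ih =>
      rw [Nat.count_succ, ← ih]
      change _ + cond (Mb n) 1 0 = _ + if Mb n = true then 1 else 0
      cases Mb n <;> rfl
  obtain ⟨f, cf, hf⟩ := computable_find (fun n k => Mb k && decide (Nat.count p k = n)) (by
    exact (Primrec.and.to_comp).comp (cM.comp Computable.snd)
      ((PrimrecPred.decide (Primrec.eq (α := ℕ))).to_comp.comp (Computable.pair (cc.comp Computable.snd)
        Computable.fst))) (fun n => by
    refine ⟨Nat.nth p n, ?_⟩
    rw [Bool.and_eq_true]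
    exact ⟨Nat.nth_mem_of_infinite hinf n, decide_eq_true (Nat.count_nth_of_infinite hinf n)⟩)
  have hf0 : ∀ n, Mb (f n) = true ∧ decide (Nat.count p (f n) = n) = true := fun n => by
    simpa only [Bool.and_eq_true] using hf n
  have hf1 : ∀ n, p (f n) := fun n => (hf0 n).1
  have hf2 : ∀ n, Nat.count p (f n) = n := fun n => of_decide_eq_true (hf0 n).2
  have hf3 : ∀ a, p a → f (Nat.count p a) = a := by
    intro a ha
    rw [← Nat.nth_count (hf1 _), hf2, Nat.nth_count ha]
  let e : ℕ ≃ F :=
    { toFun := fun n => ν (f n)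
      invFun := fun y => Nat.count p (lc y)
      left_inv := fun n => by
        change Nat.count p (lc (ν (f n))) = n
        rw [← lc3 (f n) _ (hf1 n) rfl, hf2]
      right_inv := fun y => by
        change ν (f (Nat.count p (lc y))) = y
        rw [hf3 _ (lc2 y), lc1] }
  have he : ∀ n, e n = ν (f n) := fun _ => rfl
  obtain ⟨cn, ccn, hcn⟩ := computable_find (fun a k => eqB k a && Mb k) (by
    exact (Primrec.and.to_comp).comp (ceq.comp Computable.snd Computable.fst)
      (cM.comp Computable.snd)) (fun a => by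
    refine ⟨lc (ν a), ?_⟩
    rw [Bool.and_eq_true]
    exact ⟨(seq _ _).2 (lc1 _), lc2 _⟩)
  have hsymm : ∀ a, e.symm (ν a) = Nat.count p (cn a) := by
    intro a
    have hcn' := hcn a
    rw [Bool.and_eq_true] at hcn'
    obtain ⟨h1, h2⟩ := hcn'
    change Nat.count p (lc (ν a)) = _
    rw [lc3 (cn a) (ν a) h2 ((seq _ _).1 h1)]
  have csy : Computable fun a => Nat.count p (cn a) := cc.comp ccn
  obtain ⟨z0, hz0⟩ := hν 0
  obtain ⟨z1, hz1⟩ := hν 1
  obtain ⟨iv, civ, hiv⟩ := computable_find
    (fun a k => eqB (mul (f a) k) z1 || (eqB (f a) z0 && eqB k z0)) (by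
    refine (Primrec.or.to_comp).comp (ceq.comp (cmul.comp (cf.comp Computable.fst) Computable.snd)
      (Computable.const z1)) ?_
    exact (Primrec.and.to_comp).comp (ceq.comp (cf.comp Computable.fst) (Computable.const z0))
      (ceq.comp Computable.snd (Computable.const z0))) (fun a => by
    by_cases h0 : ν (f a) = 0
    · refine ⟨z0, ?_⟩
      rw [Bool.or_eq_true, Bool.and_eq_true]
      exact Or.inr ⟨(seq _ _).2 (by rw [h0, hz0]), (seq _ _).2 rfl⟩
    · obtain ⟨k, hk⟩ := hν (ν (f a))⁻¹
      refine ⟨k, ?_⟩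
      rw [Bool.or_eq_true]
      exact Or.inl ((seq _ _).2 (by rw [smul, hk, hz1, mul_inv_cancel₀ h0])))
  have hiv' : ∀ a, ν (iv a) = (ν (f a))⁻¹ := by
    intro a
    have h := hiv a
    rw [Bool.or_eq_true, Bool.and_eq_true, seq, seq, seq, smul, hz1, hz0] at h
    rcases h with h | ⟨h1, h2⟩
    · exact eq_inv_of_mul_eq_one_right h
    · rw [h1, h2, inv_zero]
  refine ⟨e, ?_, ?_, ?_, ?_⟩
  · refine Computable.of_eq (f := fun q : ℕ × ℕ => Nat.count p (cn (add (f q.1) (f q.2))))
      (csy.comp (cadd.comp (cf.comp Computable.fst) (cf.comp Computable.snd))) fun q => ?_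
    change _ = e.symm (ν (f q.1) + ν (f q.2))
    rw [← sadd, hsymm]
  · refine Computable.of_eq (f := fun q : ℕ × ℕ => Nat.count p (cn (mul (f q.1) (f q.2))))
      (csy.comp (cmul.comp (cf.comp Computable.fst) (cf.comp Computable.snd))) fun q => ?_
    change _ = e.symm (ν (f q.1) * ν (f q.2))
    rw [← smul, hsymm]
  · refine Computable.of_eq (f := fun q : ℕ => Nat.count p (cn (neg (f q))))
      (csy.comp (cneg.comp cf)) fun q => ?_
    rw [he, ← sneg, hsymm]
  · refine Computable.of_eq (f := fun q : ℕ => Nat.count p (cn (iv q)))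
      (csy.comp civ) fun q => ?_
    rw [he, ← hiv', hsymm]

end Pool.Agent.Helper22.OF
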