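import Pool.Agent.Helper22.OFIndep
import Pool.Agent.Helper22.OFPresent

set_option autoImplicit false

namespace Pool.Agent.Helper22.OF

open Encodable

/-- a term `(p - q) e_S` -/
abbrev Tm := (ℕ × ℕ) × ℕ
/-- a sum of terms -/
abbrev Cd := List Tm
/-- a sum of terms with a denominator -/
abbrev FC := Cd × ℕ

/-! ### bits -/

theorem tb_add {S j : ℕ} (h : S.testBit j = false) (i : ℕ) :
    (S + 2 ^ j).testBit i = if i = j then true else S.testBit i := by
  obtain ⟨q, r, hr, rfl⟩ : ∃ q r, r < 2 ^ (j + 1) ∧ S = 2 ^ (j + 1) * q + r :=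
    ⟨S / 2 ^ (j + 1), S % 2 ^ (j + 1), Nat.mod_lt _ (by positivity), (Nat.div_add_mod _ _).symm⟩
  have hr' : r < 2 ^ j := by
    rw [Nat.testBit_two_pow_mul_add _ hr, if_pos (Nat.lt_succ_self j)] at h
    by_contra hc
    push Not at hc
    obtain ⟨r', rfl⟩ := Nat.exists_eq_add_of_le hc
    rw [Nat.testBit_two_pow_add_eq] at h
    have h3 : r' < 2 ^ j := by rw [pow_succ] at hr; omega
    rw [Nat.testBit_lt_two_pow h3] at h
    simp at h
  have h1 : 2 ^ (j + 1) * q + r + 2 ^ j = 2 ^ (j + 1) * q + (2 ^ j + r) := by ring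
  have h2 : 2 ^ j + r < 2 ^ (j + 1) := by rw [pow_succ]; omega
  rw [h1, Nat.testBit_two_pow_mul_add _ h2, Nat.testBit_two_pow_mul_add _ hr]
  rcases lt_trichotomy i j with hi | rfl | hi
  · rw [if_pos (by omega), if_neg (by omega), if_pos (by omega), Nat.testBit_two_pow_add_gt hi]
  · rw [if_pos (by omega), if_pos rfl, Nat.testBit_two_pow_add_eq, Nat.testBit_lt_two_pow hr']
    rfl
  · rw [if_neg (by omega), if_neg (by omega), if_neg (by omega)]

theorem tb_sub {S j : ℕ} (h : S.testBit j = true) :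
    2 ^ j ≤ S ∧ (S - 2 ^ j).testBit j = false := by
  refine ⟨Nat.ge_two_pow_of_testBit h, ?_⟩
  have h1 := Nat.ge_two_pow_of_testBit h
  have h2 := Nat.testBit_two_pow_add_eq (S - 2 ^ j) j
  rw [Nat.add_sub_cancel' h1, h] at h2
  simpa using h2.symm

theorem lt_of_tb {S j : ℕ} (h : S.testBit j = true) : j < S :=
  lt_of_lt_of_le (Nat.lt_two_pow_self) (Nat.ge_two_pow_of_testBit h)

variable (ev : ℕ → Option (ℕ × Bool))

structure EvOK : Prop where
  le : ∀ s n b, ev s = some (n, b) → n ≤ s
  inj : ∀ s s' n b b', ev s = some (n, b) → ev s' = some (n, b') → s = s'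

open Classical in
/-- the sign of `x_n` -/
noncomputable def sgn (n : ℕ) : ℝ := if ∃ s, ev s = some (n, true) then -1 else 1

theorem sgn_or (n : ℕ) : sgn ev n = 1 ∨ sgn ev n = -1 := by
  unfold sgn
  split_ifs
  · exact Or.inr rfl
  · exact Or.inl rfl

/-- generators -/
noncomputable def g (j : ℕ) : ℝ :=
  if j % 3 = 0 then x (sgn ev) (j / 3) else if j % 3 = 1 then mk (sgn ev) (false, j / 3)
  else (ev (j / 3)).elim 0 (fun nb => mk (sgn ev) (true, nb.1))

/-- basis monomials -/
noncomputable def E (S : ℕ) : ℝ :=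
  ∏ j ∈ Finset.range S, if S.testBit j then g ev j else 1

theorem E_eq {S N : ℕ} (h : S ≤ N) :
    E ev S = ∏ j ∈ Finset.range N, if S.testBit j then g ev j else 1 := by
  refine Finset.prod_subset (Finset.range_mono h) fun j _ hj => ?_
  rw [if_neg]
  intro hb
  exact hj (Finset.mem_range.2 (lt_of_tb hb))

theorem E_zero : E ev 0 = 1 := by simp [E]

theorem E_add {S j : ℕ} (h : S.testBit j = false) : E ev (S + 2 ^ j) = g ev j * E ev S := by
  have hj : j < S + 2 ^ j := lt_of_lt_of_le Nat.lt_two_pow_self (Nat.le_add_left _ _)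
  rw [E_eq ev (le_refl (S + 2 ^ j)), E_eq ev (Nat.le_add_right S (2 ^ j)),
    ← Finset.mul_prod_erase _ _ (Finset.mem_range.2 hj),
    ← Finset.mul_prod_erase (Finset.range (S + 2 ^ j)) (fun i => if S.testBit i then g ev i else 1)
      (Finset.mem_range.2 hj)]
  simp only [tb_add h, h, if_true, Bool.false_eq_true, if_false, one_mul]
  congr 1
  refine Finset.prod_congr rfl fun i hi => ?_
  rw [if_neg (Finset.ne_of_mem_erase hi)]

theorem E_sub {S j : ℕ} (h : S.testBit j = true) : E ev S = g ev j * E ev (S - 2 ^ j) := by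
  obtain ⟨h1, h2⟩ := tb_sub h
  rw [← E_add ev h2, Nat.sub_add_cancel h1]

/-! ### operations on codes -/

/-- multiplication by `x_n` -/
def mulx (n : ℕ) (t : Tm) : Tm :=
  if t.2.testBit (3 * n) then ((t.1.1 * a n, t.1.2 * a n), t.2 - 2 ^ (3 * n))
  else (t.1, t.2 + 2 ^ (3 * n))

/-- multiplication by `g_j` -/
def mg (j : ℕ) (t : Tm) : Cd :=
  if t.2.testBit j then
    if j % 3 = 0 then [((t.1.1 * a (j / 3), t.1.2 * a (j / 3)), t.2 - 2 ^ j)]
    else if j % 3 = 1 then [((t.1.1 * a (j / 3), t.1.2 * a (j / 3)), t.2 - 2 ^ j),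
      mulx (j / 3) (t.1, t.2 - 2 ^ j)]
    else (ev (j / 3)).elim [] (fun nb => [mulx nb.1 (cond nb.2 (t.1.2, t.1.1) t.1, t.2 - 2 ^ j)])
  else [(t.1, t.2 + 2 ^ j)]

noncomputable def tv (t : Tm) : ℝ := ((t.1.1 : ℝ) - t.1.2) * E ev t.2
noncomputable def vl (L : Cd) : ℝ := (L.map (tv ev)).sum

theorem vl_nil : vl ev [] = 0 := rfl
theorem vl_cons (t : Tm) (L : Cd) : vl ev (t :: L) = tv ev t + vl ev L := by simp [vl]
theorem vl_append (L M : Cd) : vl ev (L ++ M) = vl ev L + vl ev M := by simp [vl]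

theorem vl_flatMap (f : Tm → Cd) (c : ℝ) (hf : ∀ t, vl ev (f t) = c * tv ev t) (L : Cd) :
    vl ev (L.flatMap f) = c * vl ev L := by
  induction L with
  | nil => simp [vl_nil]
  | cons t L ih => rw [List.flatMap_cons, vl_append, vl_cons, hf, ih]; ring

theorem vl_map (f : Tm → Tm) (c : ℝ) (hf : ∀ t, tv ev (f t) = c * tv ev t) (L : Cd) :
    vl ev (L.map f) = c * vl ev L := by
  induction L with
  | nil => simp [vl_nil]
  | cons t L ih => rw [List.map_cons, vl_cons, vl_cons, hf, ih]; ring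

theorem g_x (n : ℕ) : g ev (3 * n) = x (sgn ev) n := by
  unfold g
  rw [if_pos (by omega), show 3 * n / 3 = n by omega]

theorem tv_mulx (n : ℕ) (t : Tm) : tv ev (mulx n t) = x (sgn ev) n * tv ev t := by
  unfold mulx
  split_ifs with h
  · unfold tv
    simp only
    rw [E_sub ev h, g_x]
    push_cast
    have := x_sq (sgn_or ev) n
    linear_combination (-((t.1.1 : ℝ) - t.1.2) * E ev (t.2 - 2 ^ (3 * n))) * this
  · unfold tv
    simp only
    rw [E_add ev (by simpa using h), g_x]
    ring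

theorem vl_mg (hev : EvOK ev) (j : ℕ) (t : Tm) : vl ev (mg ev j t) = g ev j * tv ev t := by
  unfold mg
  split_ifs with h h0 h1
  · rw [vl_cons, vl_nil, add_zero]
    unfold tv
    simp only
    rw [E_sub ev h]
    have hg : g ev j = x (sgn ev) (j / 3) := by unfold g; rw [if_pos h0]
    have := x_sq (sgn_or ev) (j / 3)
    rw [hg]
    push_cast
    linear_combination (-((t.1.1 : ℝ) - t.1.2) * E ev (t.2 - 2 ^ j)) * this
  · rw [vl_cons, vl_cons, vl_nil, add_zero, tv_mulx]
    unfold tv
    simp only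
    rw [E_sub ev h]
    have hg : g ev j = mk (sgn ev) (false, j / 3) := by unfold g; rw [if_neg h0, if_pos h1]
    have := mk_false (sgn_or ev) (j / 3)
    rw [hg]
    push_cast
    linear_combination (-((t.1.1 : ℝ) - t.1.2) * E ev (t.2 - 2 ^ j)) * this
  · have hg : g ev j = (ev (j / 3)).elim 0 (fun nb => mk (sgn ev) (true, nb.1)) := by
      unfold g; rw [if_neg h0, if_neg h1]
    rcases he : ev (j / 3) with _ | ⟨n, b⟩
    · rw [he] at hg
      simp only [Option.elim_none] at hg ⊢
      rw [hg, vl_nil, zero_mul]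
    · rw [he] at hg
      simp only [Option.elim_some] at hg ⊢
      rw [vl_cons, vl_nil, add_zero, tv_mulx]
      have hb : sgn ev n = if b then -1 else 1 := by
        unfold sgn
        cases b
        · rw [if_neg]
          · rfl
          · rintro ⟨s, hs⟩
            have := hev.inj _ _ _ _ _ he hs
            subst this
            rw [he] at hs
            simp at hs
        · rw [if_pos ⟨_, he⟩]
          rfl
      have h2 := mk_true (sgn_or ev) n
      unfold tv
      simp only
      rw [E_sub ev h, hg]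
      cases b
      · simp only [Bool.false_eq_true, if_false, cond_false] at hb ⊢
        rw [hb] at h2
        linear_combination (-((t.1.1 : ℝ) - t.1.2) * E ev (t.2 - 2 ^ j)) * h2
      · simp only [if_true, cond_true] at hb ⊢
        rw [hb] at h2
        linear_combination (-((t.1.1 : ℝ) - t.1.2) * E ev (t.2 - 2 ^ j)) * h2
  · rw [vl_cons, vl_nil, add_zero]
    unfold tv
    simp only
    rw [E_add ev (by simpa using h)]
    ring

/-- multiplication by `e_S` -/
def mulE (S : ℕ) (L : Cd) : Cd :=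
  (List.range S).foldr (fun j acc => if S.testBit j then acc.flatMap (mg ev j) else acc) L

theorem vl_mulE (hev : EvOK ev) (S : ℕ) (L : Cd) : vl ev (mulE ev S L) = E ev S * vl ev L := by
  have key : ∀ l : List ℕ, vl ev (l.foldr (fun j acc => if S.testBit j then
      acc.flatMap (mg ev j) else acc) L) =
      (l.map fun j => if S.testBit j then g ev j else 1).prod * vl ev L := by
    intro l
    induction l with
    | nil => simp
    | cons j l ih =>
      rw [List.foldr_cons, List.map_cons, List.prod_cons]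
      split_ifs with h
      · rw [vl_flatMap ev _ _ (vl_mg ev hev j), ih, mul_assoc]
      · rw [ih, one_mul]
  unfold mulE
  rw [key]
  congr 1

/-- coefficient product -/
def cmulT (t t' : Tm) : Tm :=
  ((t.1.1 * t'.1.1 + t.1.2 * t'.1.2, t.1.1 * t'.1.2 + t.1.2 * t'.1.1), t'.2)

def mulC (L M : Cd) : Cd := L.flatMap fun t => (mulE ev t.2 M).map (cmulT t)

theorem vl_mulC (hev : EvOK ev) (L M : Cd) : vl ev (mulC ev L M) = vl ev L * vl ev M := by
  unfold mulC
  rw [vl_flatMap ev _ (vl ev M), mul_comm]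
  intro t
  rw [vl_map ev (cmulT t) ((t.1.1 : ℝ) - t.1.2), vl_mulE ev hev]
  · unfold tv; ring
  · intro t'
    unfold tv cmulT
    push_cast
    ring

def scal (k : ℕ) (L : Cd) : Cd := L.map fun t => ((k * t.1.1, k * t.1.2), t.2)

theorem vl_scal (k : ℕ) (L : Cd) : vl ev (scal k L) = k * vl ev L := by
  unfold scal
  apply vl_map
  intro t
  unfold tv
  push_cast
  ring

def negC (L : Cd) : Cd := L.map fun t => ((t.1.2, t.1.1), t.2)

theorem vl_negC (L : Cd) : vl ev (negC L) = - vl ev L := by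
  unfold negC
  rw [vl_map ev _ (-1)]
  · ring
  · intro t
    unfold tv
    ring

noncomputable def val (c : FC) : ℝ := vl ev c.1 / (c.2 + 1)

def addF (c d : FC) : FC := (scal (d.2 + 1) c.1 ++ scal (c.2 + 1) d.1, c.2 * d.2 + c.2 + d.2)
def mulF (c d : FC) : FC := (mulC ev c.1 d.1, c.2 * d.2 + c.2 + d.2)
def negF (c : FC) : FC := (negC c.1, c.2)

theorem val_addF (c d : FC) : val ev (addF c d) = val ev c + val ev d := by
  unfold val addF
  simp only [vl_append, vl_scal]
  push_cast
  have h1 : (c.2 : ℝ) + 1 ≠ 0 := by positivity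
  have h2 : (d.2 : ℝ) + 1 ≠ 0 := by positivity
  have h3 : (c.2 : ℝ) * d.2 + c.2 + d.2 + 1 ≠ 0 := by positivity
  field_simp
  ring

theorem val_mulF (hev : EvOK ev) (c d : FC) : val ev (mulF ev c d) = val ev c * val ev d := by
  unfold val mulF
  simp only [vl_mulC ev hev]
  push_cast
  have h1 : (c.2 : ℝ) + 1 ≠ 0 := by positivity
  have h2 : (d.2 : ℝ) + 1 ≠ 0 := by positivity
  have h3 : (c.2 : ℝ) * d.2 + c.2 + d.2 + 1 ≠ 0 := by positivity
  field_simp
  ring

theorem val_negF (c : FC) : val ev (negF c) = - val ev c := by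
  unfold val negF
  simp only [vl_negC]
  ring

end Pool.Agent.Helper22.OF
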