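import Pool.Agent.Helper22.OFPrim

set_option autoImplicit false

namespace Pool.Agent.Helper22.OF

open Encodable

variable (ev : ℕ → Option (ℕ × Bool))

/-- the field -/
noncomputable def FF : Subfield ℝ := Subfield.closure (Set.range (g ev))

theorem g_mem (j : ℕ) : g ev j ∈ FF ev := Subfield.subset_closure ⟨j, rfl⟩

theorem E_memFF (S : ℕ) : E ev S ∈ FF ev := by
  refine Subfield.prod_mem _ fun j _ => ?_
  split_ifs
  · exact g_mem ev j
  · exact Subfield.one_mem _

theorem vl_mem (L : Cd) : vl ev L ∈ FF ev := by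
  induction L with
  | nil => exact Subfield.zero_mem _
  | cons t L ih =>
    rw [vl_cons]
    refine Subfield.add_mem _ (Subfield.mul_mem _ (Subfield.sub_mem _ (natCast_mem _ _)
      (natCast_mem _ _)) (E_memFF ev _)) ih

theorem val_mem (c : FC) : val ev c ∈ FF ev := by
  refine Subfield.div_mem _ (vl_mem ev _) (Subfield.add_mem _ (natCast_mem _ _)
    (Subfield.one_mem _))

/-- the algebra of values of codes -/
noncomputable def V (hev : EvOK ev) : Subalgebra ℚ ℝ where
  carrier := {w | ∃ c, val ev c = w}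
  mul_mem' := by rintro _ _ ⟨c, rfl⟩ ⟨d, rfl⟩; exact ⟨mulF ev c d, val_mulF ev hev c d⟩
  add_mem' := by rintro _ _ ⟨c, rfl⟩ ⟨d, rfl⟩; exact ⟨addF c d, val_addF ev c d⟩
  algebraMap_mem' := by
    intro r
    refine ⟨([((r.num.toNat, (-r.num).toNat), 0)], r.den - 1), ?_⟩
    unfold val
    simp only [vl_cons, vl_nil, add_zero, tv, E_zero, mul_one]
    have h1 : ((r.den - 1 : ℕ) : ℝ) + 1 = r.den := by
      have : r.den - 1 + 1 = r.den := Nat.sub_add_cancel r.pos
      exact_mod_cast this
    have h2 : ((r.num.toNat : ℝ)) - ((-r.num).toNat : ℝ) = r.num := by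
      have : ((r.num.toNat : ℤ)) - ((-r.num).toNat : ℤ) = r.num := by omega
      exact_mod_cast this
    rw [h1, h2]
    change (r.num : ℝ) / r.den = ((r : ℚ) : ℝ)
    exact (Rat.cast_def r).symm

theorem int_nat (n : ℕ) : IsIntegral ℚ (n : ℝ) := by
  have : (n : ℝ) = algebraMap ℚ ℝ n := by simp
  rw [this]
  exact isIntegral_algebraMap

theorem int_sgn (n : ℕ) : IsIntegral ℚ (sgn ev n) := by
  rcases sgn_or ev n with h | h <;> rw [h]
  · exact isIntegral_one
  · exact isIntegral_one.neg

theorem int_x (n : ℕ) : IsIntegral ℚ (x (sgn ev) n) := by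
  refine IsIntegral.of_pow (n := 2) (by norm_num) ?_
  rw [x_sq (sgn_or ev)]
  exact int_nat _

theorem int_mk (u : Bool × ℕ) : IsIntegral ℚ (mk (sgn ev) u) := by
  refine IsIntegral.of_pow (n := 2) (by norm_num) ?_
  obtain ⟨b, n⟩ := u
  cases b
  · rw [mk_false (sgn_or ev)]
    exact (int_nat _).add (int_x ev n)
  · rw [mk_true (sgn_or ev)]
    exact (int_sgn ev n).mul (int_x ev n)

theorem int_g (hev : EvOK ev) (j : ℕ) : IsIntegral ℚ (g ev j) := by
  rcases g_cases ev hev j with ⟨n, rfl, hg⟩ | ⟨n, rfl, hg⟩ | ⟨s, n, b, rfl, he, hn, hg⟩ |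
    ⟨s, rfl, he, hg⟩
  · rw [hg]; exact int_x ev n
  · rw [hg]; exact int_mk ev _
  · rw [hg]; exact int_mk ev _
  · rw [hg]; exact isIntegral_zero

theorem int_E (hev : EvOK ev) (S : ℕ) : IsIntegral ℚ (E ev S) := by
  refine IsIntegral.prod _ fun j _ => ?_
  split_ifs
  · exact int_g ev hev j
  · exact isIntegral_one

theorem int_vl (hev : EvOK ev) (L : Cd) : IsIntegral ℚ (vl ev L) := by
  induction L with
  | nil => exact isIntegral_zero
  | cons t L ih =>
    rw [vl_cons]
    exact (((int_nat _).sub (int_nat _)).mul (int_E ev hev _)).add ih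

theorem int_val (hev : EvOK ev) (c : FC) : IsIntegral ℚ (val ev c) := by
  unfold val
  have h : vl ev c.1 / (c.2 + 1) = vl ev c.1 * algebraMap ℚ ℝ (1 / ((c.2 : ℚ) + 1)) := by
    simp [div_eq_mul_inv]
  rw [h]
  exact (int_vl ev hev _).mul isIntegral_algebraMap

theorem V_inv (hev : EvOK ev) {w : ℝ} (hw : w ∈ V ev hev) : w⁻¹ ∈ V ev hev := by
  obtain ⟨c, rfl⟩ := hw
  exact Subalgebra.inv_mem_of_algebraic (V ev hev) (x := ⟨val ev c, ⟨c, rfl⟩⟩)
    (int_val ev hev c).isAlgebraic

theorem exists_code (hev : EvOK ev) {w : ℝ} (hw : w ∈ FF ev) : ∃ c, val ev c = w := by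
  change w ∈ V ev hev
  induction hw using Subfield.closure_induction with
  | mem y hy =>
    obtain ⟨j, rfl⟩ := hy
    refine ⟨([((1, 0), 2 ^ j)], 0), ?_⟩
    unfold val
    simp only [vl_cons, vl_nil, add_zero, tv]
    have := E_add ev (Nat.zero_testBit j)
    rw [zero_add, E_zero] at this
    rw [this]
    simp
  | one => exact one_mem _
  | add x y _ _ hx hy => exact add_mem hx hy
  | neg x _ hx => exact neg_mem hx
  | inv x _ hx => exact V_inv ev hev hx
  | mul x y _ _ hx hy => exact mul_mem hx hy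

/-- decoding -/
def dec (n : ℕ) : FC := (decode (α := FC) n).getD ([], 0)

theorem dec_encode (c : FC) : dec (encode c) = c := by
  unfold dec
  rw [encodek]
  rfl

theorem prim_dec : Primrec dec := by
  unfold dec
  exact Primrec.option_getD.comp Primrec.decode (Primrec.const ([], 0))

theorem FF_pres (hev : EvOK ev) (hp : Primrec ev) :
    ∃ e : ℕ ≃ FF ev,
        Computable₂ (fun a b : ℕ => e.symm (e a + e b)) ∧
        Computable₂ (fun a b : ℕ => e.symm (e a * e b)) ∧
        Computable (fun a : ℕ => e.symm (-(e a))) ∧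
        Computable (fun a : ℕ => e.symm ((e a)⁻¹)) := by
  classical
  have : Infinite (FF ev) := Infinite.of_injective (Nat.cast : ℕ → FF ev) Nat.cast_injective
  have hz : PrimrecPred fun q : ℕ × ℕ => zeroC ev (addF (dec q.1) (negF (dec q.2))).1 :=
    (prim_zeroC hp).comp (Primrec.fst.comp (prim_addF.comp (prim_dec.comp Primrec.fst)
      (prim_negF.comp (prim_dec.comp Primrec.snd))))
  refine pres (fun n => (⟨val ev (dec n), val_mem ev _⟩ : FF ev)) ?_
    (fun a b => encode (addF (dec a) (dec b))) (fun a b => encode (mulF ev (dec a) (dec b)))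
    (fun a => encode (negF (dec a))) ?_ ?_ ?_ ?_ ?_ ?_
    (fun a b => decide (zeroC ev (addF (dec a) (negF (dec b))).1)) hz.decide.to_comp ?_
  · rintro ⟨w, hw⟩
    obtain ⟨c, rfl⟩ := exists_code ev hev hw
    exact ⟨encode c, by simp only [dec_encode]⟩
  · exact (Primrec.encode.comp (prim_addF.comp (prim_dec.comp Primrec.fst)
      (prim_dec.comp Primrec.snd))).to_comp
  · exact (Primrec.encode.comp ((prim_mulF hp).comp (prim_dec.comp Primrec.fst)
      (prim_dec.comp Primrec.snd))).to_comp
  · exact (Primrec.encode.comp (prim_negF.comp prim_dec)).to_comp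
  · intro a b
    apply Subtype.ext
    simp only [dec_encode, val_addF]
    rfl
  · intro a b
    apply Subtype.ext
    simp only [dec_encode, val_mulF ev hev]
    rfl
  · intro a
    apply Subtype.ext
    simp only [dec_encode, val_negF]
    rfl
  · intro a b
    rw [decide_eq_true_iff, ← zero_iff ev hev, Subtype.mk.injEq]
    have h1 := val_addF ev (dec a) (negF (dec b))
    rw [val_negF] at h1
    have h2 : val ev (addF (dec a) (negF (dec b))) = 0 ↔
        vl ev (addF (dec a) (negF (dec b))).1 = 0 := by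
      unfold val
      rw [div_eq_zero_iff]
      have : ((addF (dec a) (negF (dec b))).2 : ℝ) + 1 ≠ 0 := by positivity
      simp [this]
    rw [← h2, h1, ← sub_eq_add_neg, sub_eq_zero]

theorem FF_le (hev : EvOK ev) :
    FF ev ≤ Subfield.closure (x (sgn ev) '' Set.univ ∪ mk (sgn ev) '' Set.univ) := by
  unfold FF
  rw [Subfield.closure_le]
  rintro _ ⟨j, rfl⟩
  rcases g_cases ev hev j with ⟨i, rfl, hg⟩ | ⟨i, rfl, hg⟩ | ⟨s, i, b, rfl, he, hi, hg⟩ |
    ⟨s, rfl, he, hg⟩
  · rw [hg]; exact Subfield.subset_closure (Or.inl ⟨i, trivial, rfl⟩)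
  · rw [hg]; exact Subfield.subset_closure (Or.inr ⟨_, trivial, rfl⟩)
  · rw [hg]; exact Subfield.subset_closure (Or.inr ⟨_, trivial, rfl⟩)
  · rw [hg]; exact Subfield.zero_mem _

theorem x_memFF (n : ℕ) : x (sgn ev) n ∈ FF ev := by
  rw [← g_x]; exact g_mem ev _

theorem y_memFF (n : ℕ) : mk (sgn ev) (false, n) ∈ FF ev := by
  have : g ev (3 * n + 1) = mk (sgn ev) (false, n) := by
    unfold g; rw [if_neg (by omega), if_pos (by omega), show (3 * n + 1) / 3 = n by omega]
  rw [← this]; exact g_mem ev _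

theorem z_memFF {s n : ℕ} {b : Bool} (h : ev s = some (n, b)) : mk (sgn ev) (true, n) ∈ FF ev := by
  have : g ev (3 * s + 2) = mk (sgn ev) (true, n) := by
    unfold g
    rw [if_neg (by omega), if_neg (by omega), show (3 * s + 2) / 3 = s by omega, h]
    rfl
  rw [← this]; exact g_mem ev _

theorem sgn_eq (hev : EvOK ev) {s n : ℕ} {b : Bool} (he : ev s = some (n, b)) :
    sgn ev n = if b then -1 else 1 := by
  unfold sgn
  cases b
  · rw [if_neg]
    · rfl
    · rintro ⟨s', hs⟩
      have := hev.inj _ _ _ _ _ he hs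
      subst this
      rw [he] at hs
      simp at hs
  · rw [if_pos ⟨_, he⟩]
    rfl

/-- a computable ordering of a computable copy decides a separator -/
theorem sep (hev : EvOK ev) (e : ℕ ≃ FF ev)
    (hadd : Computable₂ (fun a b : ℕ => e.symm (e a + e b)))
    (hmul : Computable₂ (fun a b : ℕ => e.symm (e a * e b)))
    (P : Set (FF ev)) (hP : ComputablePred (fun a : ℕ => e a ∈ P)) :
    ComputablePred fun n : ℕ => (⟨x (sgn ev) n, x_memFF ev n⟩ : FF ev) ∈ P := by
  classical
  have cnat : Computable fun m : ℕ => e.symm (m : FF ev) := by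
    have h1 : Computable fun m : ℕ => (Nat.rec (e.symm 0) (fun _ r => e.symm (e r + e (e.symm 1))) m : ℕ) := by
      refine Computable.nat_rec (f := fun m : ℕ => m) (g := fun _ => e.symm 0)
        (h := fun (_ : ℕ) (b : ℕ × ℕ) => e.symm (e b.2 + e (e.symm 1))) Computable.id
        (Computable.const _) ?_
      exact hadd.comp (Computable.snd.comp Computable.snd) (Computable.const _)
    refine h1.of_eq fun m => ?_
    induction m with
    | zero => simp
    | succ m ih =>
      change e.symm (e (Nat.rec (e.symm 0) (fun _ r => e.symm (e r + e (e.symm 1))) m : ℕ) + e (e.symm 1)) = _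
      rw [ih]
      simp
  have cna : Computable fun n : ℕ => e.symm ((a n : ℕ) : FF ev) := cnat.comp prim_a.to_comp
  have ceq : ∀ {f h : ℕ × ℕ → ℕ}, Computable f → Computable h →
      Computable fun q => decide (f q = h q) := fun hf hh =>
    (PrimrecPred.decide (Primrec.eq (α := ℕ))).to_comp.comp (Computable.pair hf hh)
  obtain ⟨f, cf, hf⟩ := computable_find (fun (n k : ℕ) =>
    decide (e.symm (e k.unpair.1 * e k.unpair.1) = e.symm ((a n : ℕ) : FF ev)) &&
    decide (e.symm (e k.unpair.2 * e k.unpair.2) =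
      e.symm (e (e.symm ((a n : ℕ) : FF ev)) + e k.unpair.1))) (by
    have k1 : Computable fun q : ℕ × ℕ => q.2.unpair.1 :=
      (Primrec.fst.comp (Primrec.unpair.comp Primrec.snd)).to_comp
    have k2 : Computable fun q : ℕ × ℕ => q.2.unpair.2 :=
      (Primrec.snd.comp (Primrec.unpair.comp Primrec.snd)).to_comp
    refine (Primrec.and.to_comp).comp (ceq (hmul.comp k1 k1) (cna.comp Computable.fst))
      (ceq (hmul.comp k2 k2) (hadd.comp (cna.comp Computable.fst) k1))) (fun n => by
    refine ⟨Nat.pair (e.symm ⟨x (sgn ev) n, x_memFF ev n⟩)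
      (e.symm ⟨mk (sgn ev) (false, n), y_memFF ev n⟩), ?_⟩
    simp only [Nat.unpair_pair, Equiv.apply_symm_apply, Bool.and_eq_true, decide_eq_true_eq,
      EmbeddingLike.apply_eq_iff_eq]
    constructor
    · apply Subtype.ext
      have := x_sq (sgn_or ev) n
      rw [sq] at this
      simpa using this
    · apply Subtype.ext
      have := mk_false (sgn_or ev) n
      rw [sq] at this
      simpa using this)
  have hf' : ∀ n, e (f n).unpair.1 = (⟨x (sgn ev) n, x_memFF ev n⟩ : FF ev) := by
    intro n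
    have h := hf n
    simp only [Bool.and_eq_true, decide_eq_true_eq, EmbeddingLike.apply_eq_iff_eq,
      Equiv.apply_symm_apply] at h
    obtain ⟨h1, h2⟩ := h
    have h1' := congrArg (fun z : FF ev => (z : ℝ)) h1
    have h2' := congrArg (fun z : FF ev => (z : ℝ)) h2
    simp only [Subfield.coe_mul, Subfield.coe_add] at h1' h2'
    apply Subtype.ext
    change ((e (f n).unpair.1 : FF ev) : ℝ) = x (sgn ev) n
    have h3 : (((a n : ℕ) : FF ev) : ℝ) = (a n : ℝ) := by simp
    rw [h3] at h1' h2'
    have h4 : (((e (f n).unpair.1 : FF ev) : ℝ) - x (sgn ev) n) *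
        (((e (f n).unpair.1 : FF ev) : ℝ) + x (sgn ev) n) = 0 := by
      have := x_sq (sgn_or ev) n
      linear_combination h1' - this
    rcases mul_eq_zero.1 h4 with h5 | h5
    · linarith
    · exfalso
      refine nonsq (sgn_or ev) n (FF_le ev hev (e (f n).unpair.2).2) ?_
      rw [sq, h2']
      linear_combination -h5
  have cf1 : Computable fun n => (f n).unpair.1 :=
    (Primrec.fst.comp Primrec.unpair).to_comp.comp cf
  have h6 : ComputablePred fun n => e (f n).unpair.1 ∈ P := by
    obtain ⟨_, hd⟩ := hP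
    exact ⟨fun n => inferInstance, by
      refine (hd.comp cf1).of_eq fun n => ?_
      exact decide_eq_decide.2 Iff.rfl⟩
  refine h6.of_eq fun n => ?_
  rw [hf']

end Pool.Agent.Helper22.OF
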