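import Pool.Agent.Helper22.OFKummer

set_option autoImplicit false

namespace Pool.Agent.Helper22.OF

variable (sg : ℕ → ℝ)

/-- `± √a_n` -/
noncomputable def x (n : ℕ) : ℝ := sg n * Real.sqrt (a n)
/-- `√(a_n + x_n)` and `a_n^{1/4}` -/
noncomputable def mk (u : Bool × ℕ) : ℝ :=
  if u.1 then Real.sqrt (Real.sqrt (a u.2)) else Real.sqrt (a u.2 + x sg u.2)

variable {sg}

theorem a_pos (n : ℕ) : (0 : ℝ) < a n := by
  have := a_ge n
  exact_mod_cast (by omega : 0 < a n)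

theorem a_gt_one (n : ℕ) : (1 : ℝ) < a n := by
  have := a_ge n
  exact_mod_cast (by omega : 1 < a n)

theorem sg_sq (hsg : ∀ n, sg n = 1 ∨ sg n = -1) (n : ℕ) : sg n ^ 2 = 1 := by
  rcases hsg n with h | h <;> rw [h] <;> norm_num

theorem x_sq (hsg : ∀ n, sg n = 1 ∨ sg n = -1) (n : ℕ) : x sg n ^ 2 = a n := by
  rw [x, mul_pow, sg_sq hsg, Real.sq_sqrt (a_pos n).le, one_mul]

theorem abs_x_lt (hsg : ∀ n, sg n = 1 ∨ sg n = -1) (n : ℕ) : |x sg n| < a n := by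
  apply abs_lt_of_sq_lt_sq _ (a_pos n).le
  rw [x_sq hsg]
  have := a_gt_one n
  nlinarith

theorem y_pos (hsg : ∀ n, sg n = 1 ∨ sg n = -1) (n : ℕ) : 0 < a n + x sg n := by
  have := abs_lt.1 (abs_x_lt hsg n)
  linarith

theorem y'_pos (hsg : ∀ n, sg n = 1 ∨ sg n = -1) (n : ℕ) : 0 < a n - x sg n := by
  have := abs_lt.1 (abs_x_lt hsg n)
  linarith

theorem mk_pos (hsg : ∀ n, sg n = 1 ∨ sg n = -1) (u : Bool × ℕ) : 0 < mk sg u := by
  unfold mk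
  split_ifs
  · exact Real.sqrt_pos.2 (Real.sqrt_pos.2 (a_pos _))
  · exact Real.sqrt_pos.2 (y_pos hsg _)

theorem mk_false (hsg : ∀ n, sg n = 1 ∨ sg n = -1) (n : ℕ) :
    mk sg (false, n) ^ 2 = a n + x sg n := by
  simp only [mk, Bool.false_eq_true, if_false]
  exact Real.sq_sqrt (y_pos hsg n).le

theorem mk_true (hsg : ∀ n, sg n = 1 ∨ sg n = -1) (n : ℕ) :
    mk sg (true, n) ^ 2 = sg n * x sg n := by
  simp only [mk, if_true]
  rw [Real.sq_sqrt (Real.sqrt_nonneg _), x, ← mul_assoc, ← sq, sg_sq hsg, one_mul]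

variable (sg) in
/-- `ℚ(x_i : i ∈ I)` -/
noncomputable def KI (I : Set ℕ) : Subfield ℝ := Subfield.closure (x sg '' I)

theorem nat_mem (K : Subfield ℝ) (n : ℕ) : (n : ℝ) ∈ K := natCast_mem K n

theorem x_mem {I : Set ℕ} {n : ℕ} (h : n ∈ I) : x sg n ∈ KI sg I :=
  Subfield.subset_closure ⟨n, h, rfl⟩

theorem KI_mono {I J : Set ℕ} (h : I ⊆ J) : KI sg I ≤ KI sg J :=
  Subfield.closure_mono (Set.image_mono h)

theorem rat_sq (hsg : ∀ n, sg n = 1 ∨ sg n = -1) (I : Set ℕ) (N : ℕ) {v : ℝ} (hv : v ∈ KI sg I)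
    (h : (N : ℝ) = v ^ 2) : ∃ U : Finset ℕ, (∀ j ∈ U, j ∈ I) ∧ IsSquare (N * ∏ i ∈ U, a i) := by
  have h1 : v ∈ Subfield.closure (((Rat.castHom ℝ).fieldRange : Set ℝ) ∪ x sg '' I) :=
    Subfield.closure_mono Set.subset_union_right hv
  obtain ⟨U, hU, r, hr, h2⟩ := kummer (x sg) I (Rat.castHom ℝ).fieldRange
    (fun j _ => by rw [x_sq hsg]; exact nat_mem _ _) (nat_mem _ N) h1 h
  refine ⟨U, fun j hj => (hU j hj).1, ?_⟩
  obtain ⟨q, rfl⟩ := hr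
  have h3 : ((N * ∏ i ∈ U, a i : ℕ) : ℚ) = q * q := by
    have : (((N * ∏ i ∈ U, a i : ℕ) : ℚ) : ℝ) = ((q * q : ℚ) : ℝ) := by
      push_cast
      rw [← sq]
      simp only [Rat.coe_castHom] at h2
      rw [← h2]
      congr 1
      exact Finset.prod_congr rfl fun i _ => (x_sq hsg i).symm
    exact_mod_cast this
  exact Rat.isSquare_natCast_iff.1 ⟨q, h3⟩

theorem x_notin (hsg : ∀ n, sg n = 1 ∨ sg n = -1) {I : Set ℕ} {n : ℕ} (h : n ∉ I) :
    x sg n ∉ KI sg I := by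
  intro hx
  obtain ⟨U, hU, h1⟩ := rat_sq hsg I (a n) hx (x_sq hsg n).symm
  exact not_sq_a n U (fun h' => h (hU n h')) h1

theorem norm_nonsq (hsg : ∀ n, sg n = 1 ∨ sg n = -1) {I : Set ℕ} (n : ℕ) {v : ℝ}
    (hv : v ∈ KI sg I) : (a n : ℝ) ^ 2 - a n ≠ v ^ 2 := by
  intro h
  have h1 : ((a n * (a n - 1) : ℕ) : ℝ) = v ^ 2 := by
    rw [← h, Nat.cast_mul, Nat.cast_sub (by have := a_ge n; omega)]
    push_cast; ring
  obtain ⟨U, hU, h2⟩ := rat_sq hsg I _ hv h1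
  exact not_sq_two n U h2

variable (sg) in
/-- the norm at `i0` of the square of a marker -/
noncomputable def nn (i0 : ℕ) (u : Bool × ℕ) : ℝ :=
  if u.2 = i0 then (if u.1 then -(a i0 : ℝ) else (a i0 : ℝ) ^ 2 - a i0) else (mk sg u ^ 2) ^ 2

theorem mk_sq_mem (hsg : ∀ n, sg n = 1 ∨ sg n = -1) {I : Set ℕ} {u : Bool × ℕ} (h : u.2 ∈ I) :
    mk sg u ^ 2 ∈ KI sg I := by
  obtain ⟨b, n⟩ := u
  cases b
  · rw [mk_false hsg]
    exact Subfield.add_mem _ (nat_mem _ _) (x_mem h)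
  · rw [mk_true hsg]
    refine Subfield.mul_mem _ ?_ (x_mem h)
    rcases hsg n with h | h <;> rw [h]
    · exact Subfield.one_mem _
    · exact Subfield.neg_mem _ (Subfield.one_mem _)

theorem nrel_mk (hsg : ∀ n, sg n = 1 ∨ sg n = -1) {I : Set ℕ} {i0 : ℕ} {u : Bool × ℕ}
    (h : u.2 ∈ I) : Nrel (KI sg (I \ {i0})) (x sg i0) (mk sg u ^ 2) (nn sg i0 u) := by
  unfold nn
  split_ifs with h1 h2
  · obtain ⟨b, n⟩ := u
    obtain rfl : n = i0 := h1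
    obtain rfl : b = true := h2
    rw [mk_true hsg]
    refine ⟨0, Subfield.zero_mem _, sg n, ?_, by ring, ?_⟩
    · rcases hsg n with h | h <;> rw [h]
      · exact Subfield.one_mem _
      · exact Subfield.neg_mem _ (Subfield.one_mem _)
    · rw [sg_sq hsg, x_sq hsg]; ring
  · obtain ⟨b, n⟩ := u
    obtain rfl : n = i0 := h1
    have h2 : b = false := by simpa using h2
    subst h2
    rw [mk_false hsg]
    exact ⟨a n, nat_mem _ _, 1, Subfield.one_mem _, by ring, by rw [x_sq hsg]; ring⟩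
  · exact Nrel.of_mem (mk_sq_mem hsg ⟨h, h1⟩)

theorem step (hsg : ∀ n, sg n = 1 ∨ sg n = -1) {I : Set ℕ} (U : Finset (Bool × ℕ))
    (hU : ∀ u ∈ U, u.2 ∈ I) {b nb v : ℝ} {i0 : ℕ}
    (hb : Nrel (KI sg (I \ {i0})) (x sg i0) b nb) (hv : v ∈ KI sg I)
    (h : b * ∏ u ∈ U, mk sg u ^ 2 = v ^ 2) :
    ∃ r ∈ KI sg (I \ {i0}), nb * ∏ u ∈ U, nn sg i0 u = r ^ 2 := by
  have hx : x sg i0 ^ 2 ∈ KI sg (I \ {i0}) := by rw [x_sq hsg]; exact nat_mem _ _
  have hn : x sg i0 ∉ KI sg (I \ {i0}) := x_notin hsg (by simp)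
  refine Nrel.sq hn hx (hb.mul hx (Nrel.prod hx U _ _ fun u hu => nrel_mk hsg (hU u hu))) ?_ h
  have : KI sg I ≤ Subfield.closure ((KI sg (I \ {i0}) : Set ℝ) ∪ {x sg i0}) := by
    unfold KI
    rw [Subfield.closure_le]
    rintro _ ⟨i, hi, rfl⟩
    by_cases h : i = i0
    · subst h
      exact Subfield.subset_closure (Or.inr rfl)
    · exact Subfield.subset_closure (Or.inl (Subfield.subset_closure ⟨i, ⟨hi, h⟩, rfl⟩))
  exact this hv

theorem nn_pos (hsg : ∀ n, sg n = 1 ∨ sg n = -1) {i0 : ℕ} {u : Bool × ℕ} (h : u ≠ (true, i0)) :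
    0 < nn sg i0 u := by
  unfold nn
  split_ifs with h1 h2
  · exact absurd (Prod.ext h2 h1) h
  · have := a_gt_one i0
    nlinarith
  · have := mk_pos hsg u
    positivity

theorem no_true (hsg : ∀ n, sg n = 1 ∨ sg n = -1) {I : Set ℕ} (U : Finset (Bool × ℕ))
    (hU : ∀ u ∈ U, u.2 ∈ I) {b nb v : ℝ} {i0 : ℕ}
    (hb : Nrel (KI sg (I \ {i0})) (x sg i0) b nb) (hnb : 0 < nb) (hv : v ∈ KI sg I)
    (h : b * ∏ u ∈ U, mk sg u ^ 2 = v ^ 2) : (true, i0) ∉ U := by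
  classical
  intro hm
  obtain ⟨r, -, hr⟩ := step hsg U hU hb hv h
  rw [← Finset.mul_prod_erase U _ hm] at hr
  have h1 : 0 < ∏ u ∈ U.erase (true, i0), nn sg i0 u :=
    Finset.prod_pos fun u hu => nn_pos hsg (Finset.ne_of_mem_erase hu)
  have h2 : nn sg i0 (true, i0) = -(a i0 : ℝ) := by simp [nn]
  rw [h2] at hr
  have h3 := a_pos i0
  have h4 : 0 < nb * (a i0 * ∏ u ∈ U.erase (true, i0), nn sg i0 u) := by positivity
  nlinarith [sq_nonneg r]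

theorem no_false (hsg : ∀ n, sg n = 1 ∨ sg n = -1) {I : Set ℕ} (U : Finset (Bool × ℕ))
    (hU : ∀ u ∈ U, u.2 ∈ I) {b r0 v : ℝ} {i0 : ℕ} (hr0 : r0 ∈ KI sg (I \ {i0})) (hr0' : r0 ≠ 0)
    (hb : Nrel (KI sg (I \ {i0})) (x sg i0) b (r0 ^ 2)) (hv : v ∈ KI sg I)
    (h : b * ∏ u ∈ U, mk sg u ^ 2 = v ^ 2) (ht : (true, i0) ∉ U) : (false, i0) ∉ U := by
  classical
  intro hm
  obtain ⟨r, hr1, hr⟩ := step hsg U hU hb hv h
  rw [← Finset.mul_prod_erase U _ hm] at hr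
  have h2 : nn sg i0 (false, i0) = (a i0 : ℝ) ^ 2 - a i0 := by simp [nn]
  have h3 : ∏ u ∈ U.erase (false, i0), nn sg i0 u =
      (∏ u ∈ U.erase (false, i0), mk sg u ^ 2) ^ 2 := by
    rw [← Finset.prod_pow]
    refine Finset.prod_congr rfl fun u hu => ?_
    have h4 : u.2 ≠ i0 := by
      rintro rfl
      obtain ⟨b, n⟩ := u
      cases b
      · exact (Finset.ne_of_mem_erase hu) rfl
      · exact ht (Finset.mem_of_mem_erase hu)
    simp [nn, h4]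
  have h5 : ∏ u ∈ U.erase (false, i0), mk sg u ^ 2 ∈ KI sg (I \ {i0}) := by
    refine Subfield.prod_mem _ fun u hu => mk_sq_mem hsg ⟨hU u (Finset.mem_of_mem_erase hu), ?_⟩
    rintro rfl
    obtain ⟨b, n⟩ := u
    cases b
    · exact (Finset.ne_of_mem_erase hu) rfl
    · exact ht (Finset.mem_of_mem_erase hu)
  have h6 : ∏ u ∈ U.erase (false, i0), mk sg u ^ 2 ≠ 0 :=
    (Finset.prod_pos fun u _ => pow_pos (mk_pos hsg u) 2).ne'
  rw [h2, h3] at hr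
  set P := ∏ u ∈ U.erase (false, i0), mk sg u ^ 2
  refine norm_nonsq hsg i0 (Subfield.div_mem _ hr1 (Subfield.mul_mem _ hr0 h5)) (?_ : _ = (r / (r0 * P)) ^ 2)
  have : (r / (r0 * P)) ^ 2 = r ^ 2 / (r0 ^ 2 * P ^ 2) := by ring
  rw [this, ← hr]
  field_simp

theorem main_nonsq (hsg : ∀ n, sg n = 1 ∨ sg n = -1) {I : Set ℕ} (U : Finset (Bool × ℕ))
    (hU : ∀ u ∈ U, u.2 ∈ I) (hne : U.Nonempty) (c : ℕ) (hc : c ≠ 0) {v : ℝ} (hv : v ∈ KI sg I) :
    (c : ℝ) * ∏ u ∈ U, mk sg u ^ 2 ≠ v ^ 2 := by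
  intro h
  have hc' : (c : ℝ) ≠ 0 := by exact_mod_cast hc
  have h1 : ∀ i0, (true, i0) ∉ U := fun i0 =>
    no_true hsg U hU (Nrel.of_mem (nat_mem _ c)) (by positivity) hv h
  obtain ⟨⟨b, i0⟩, hm⟩ := hne
  cases b
  · exact no_false hsg U hU (nat_mem _ c) hc' (Nrel.of_mem (nat_mem _ c)) hv h (h1 i0) hm
  · exact h1 i0 hm

theorem closure_le_aux (I : Set ℕ) (J : Set (Bool × ℕ)) :
    Subfield.closure (x sg '' I ∪ mk sg '' J) ≤
      Subfield.closure ((KI sg I : Set ℝ) ∪ mk sg '' J) :=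
  Subfield.closure_mono (Set.union_subset_union_left _ Subfield.subset_closure)

theorem indep_x (hsg : ∀ n, sg n = 1 ∨ sg n = -1) (n : ℕ) :
    x sg n ∉ Subfield.closure (x sg '' {i | i ≠ n} ∪ mk sg '' {u | u.2 ≠ n}) := by
  intro h
  obtain ⟨U, hU, v, hv, h1⟩ := kummer (mk sg) {u | u.2 ≠ n} (KI sg {i | i ≠ n})
    (fun u hu => mk_sq_mem hsg hu) (nat_mem _ (a n)) (closure_le_aux _ _ h) (x_sq hsg n).symm
  rcases U.eq_empty_or_nonempty with rfl | hne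
  · rw [Finset.prod_empty, mul_one] at h1
    obtain ⟨V, hV, h2⟩ := rat_sq hsg _ _ hv h1
    exact not_sq_a n V (fun h => hV n h rfl) h2
  · exact main_nonsq hsg U (fun u hu => (hU u hu).1) hne (a n) (by have := a_ge n; omega) hv h1

theorem indep_mk (hsg : ∀ n, sg n = 1 ∨ sg n = -1) (u0 : Bool × ℕ) :
    mk sg u0 ∉ Subfield.closure (x sg '' Set.univ ∪ mk sg '' {u | u ≠ u0}) := by
  classical
  intro h
  obtain ⟨U, hU, v, hv, h1⟩ := kummer (mk sg) {u | u ≠ u0} (KI sg Set.univ)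
    (fun u hu => mk_sq_mem hsg trivial) (mk_sq_mem hsg (u := u0) trivial) (closure_le_aux _ _ h) rfl
  have h0 : u0 ∉ U := fun h => (hU _ h).1 rfl
  rw [← Finset.prod_insert (f := fun u => mk sg u ^ 2) h0] at h1
  refine main_nonsq hsg (insert u0 U) (fun _ _ => Set.mem_univ _) (Finset.insert_nonempty _ _) 1
    one_ne_zero hv ?_
  rw [Nat.cast_one, one_mul, h1]

theorem nonsq (hsg : ∀ n, sg n = 1 ∨ sg n = -1) (n : ℕ) {w : ℝ}
    (hw : w ∈ Subfield.closure (x sg '' Set.univ ∪ mk sg '' Set.univ)) :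
    (a n : ℝ) - x sg n ≠ w ^ 2 := by
  classical
  intro h
  have hmem : (a n : ℝ) - x sg n ∈ KI sg Set.univ := Subfield.sub_mem _ (nat_mem _ _)
    (x_mem trivial)
  obtain ⟨U, hU, v, hv, h1⟩ := kummer (mk sg) Set.univ (KI sg Set.univ)
    (fun u hu => mk_sq_mem hsg trivial) hmem (closure_le_aux _ _ hw) h
  have hpos := y'_pos hsg n
  -- the norm of a_n - x_n at n
  have hn : Nrel (KI sg (Set.univ \ {n})) (x sg n) ((a n : ℝ) - x sg n) ((a n : ℝ) ^ 2 - a n) :=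
    ⟨a n, nat_mem _ _, -1, Subfield.neg_mem _ (Subfield.one_mem _), by ring, by
      rw [x_sq hsg]; ring⟩
  have hn' : ∀ i0, i0 ≠ n → (a n : ℝ) - x sg n ∈ KI sg (Set.univ \ {i0}) := fun i0 h0 =>
    Subfield.sub_mem _ (nat_mem _ _) (x_mem ⟨trivial, fun h => h0 h.symm⟩)
  have h2 : ∀ i0, (true, i0) ∉ U := by
    intro i0
    by_cases h0 : i0 = n
    · subst h0
      refine no_true hsg U (fun _ _ => Set.mem_univ _) hn ?_ hv h1
      have := a_gt_one i0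
      nlinarith
    · exact no_true hsg U (fun _ _ => Set.mem_univ _) (Nrel.of_mem (hn' i0 h0)) (by positivity) hv h1
  have h3 : ∀ i0, i0 ≠ n → (false, i0) ∉ U := fun i0 h0 =>
    no_false hsg U (fun _ _ => Set.mem_univ _) (hn' i0 h0) hpos.ne' (Nrel.of_mem (hn' i0 h0)) hv h1 (h2 i0)
  have h4 : U ⊆ {(false, n)} := by
    rintro ⟨b, i⟩ hi
    cases b
    · by_cases h0 : i = n
      · subst h0; simp
      · exact absurd hi (h3 i h0)
    · exact absurd hi (h2 i)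
  rcases Finset.subset_singleton_iff.1 h4 with rfl | rfl
  · obtain ⟨r, hr, h5⟩ := step hsg ∅ (fun _ _ => Set.mem_univ _) hn hv h1
    rw [Finset.prod_empty, mul_one] at h5
    exact norm_nonsq hsg n hr h5
  · rw [Finset.prod_singleton, mk_false hsg] at h1
    refine norm_nonsq hsg n hv ?_
    rw [← h1, ← x_sq hsg n]; ring

end Pool.Agent.Helper22.OF
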