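import Mathlib

set_option autoImplicit false

namespace Pool.Agent.Helper22.OF

/-- `K(α)` for `α² ∈ K` -/
def quad (K : Subfield ℝ) (α : ℝ) (h : α ^ 2 ∈ K) : Subfield ℝ where
  carrier := {w | ∃ u ∈ K, ∃ v ∈ K, w = u + v * α}
  mul_mem' := by
    rintro _ _ ⟨u, hu, v, hv, rfl⟩ ⟨u', hu', v', hv', rfl⟩
    exact ⟨u * u' + v * v' * α ^ 2, K.add_mem (K.mul_mem hu hu')
      (K.mul_mem (K.mul_mem hv hv') h), u * v' + v * u',
      K.add_mem (K.mul_mem hu hv') (K.mul_mem hv hu'), by ring⟩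
  one_mem' := ⟨1, K.one_mem, 0, K.zero_mem, by ring⟩
  add_mem' := by
    rintro _ _ ⟨u, hu, v, hv, rfl⟩ ⟨u', hu', v', hv', rfl⟩
    exact ⟨u + u', K.add_mem hu hu', v + v', K.add_mem hv hv', by ring⟩
  zero_mem' := ⟨0, K.zero_mem, 0, K.zero_mem, by ring⟩
  neg_mem' := by
    rintro _ ⟨u, hu, v, hv, rfl⟩
    exact ⟨-u, K.neg_mem hu, -v, K.neg_mem hv, by ring⟩
  inv_mem' := by
    rintro _ ⟨u, hu, v, hv, rfl⟩
    by_cases hα : α ∈ K
    · exact ⟨(u + v * α)⁻¹, K.inv_mem (K.add_mem hu (K.mul_mem hv hα)), 0, K.zero_mem, by ring⟩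
    · by_cases hn : u ^ 2 - v ^ 2 * α ^ 2 = 0
      · have hv0 : v = 0 := by
          by_contra hv0
          have h1 : (u - v * α) * (u + v * α) = 0 := by linear_combination hn
          rcases mul_eq_zero.1 h1 with h2 | h2
          · apply hα
            have : α = u / v := by field_simp; linear_combination -h2
            rw [this]; exact K.div_mem hu hv
          · apply hα
            have : α = -u / v := by field_simp; linear_combination h2
            rw [this]; exact K.div_mem (K.neg_mem hu) hv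
        subst hv0
        have hu0 : u = 0 := by
          have : u ^ 2 = 0 := by linear_combination hn
          exact pow_eq_zero_iff (two_ne_zero) |>.1 this
        subst hu0
        exact ⟨0, K.zero_mem, 0, K.zero_mem, by simp⟩
      · have hd : u ^ 2 - v ^ 2 * α ^ 2 ∈ K := K.sub_mem (K.pow_mem hu 2)
          (K.mul_mem (K.pow_mem hv 2) h)
        refine ⟨u / (u ^ 2 - v ^ 2 * α ^ 2), K.div_mem hu hd, -v / (u ^ 2 - v ^ 2 * α ^ 2),
          K.div_mem (K.neg_mem hv) hd, ?_⟩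
        have hne : u + v * α ≠ 0 := by
          intro h0
          apply hn
          have : u ^ 2 - v ^ 2 * α ^ 2 = (u - v * α) * (u + v * α) := by ring
          rw [this, h0, mul_zero]
        field_simp
        ring

theorem mem_quad_of_closure {K : Subfield ℝ} {α : ℝ} (h : α ^ 2 ∈ K) {w : ℝ}
    (hw : w ∈ Subfield.closure ((K : Set ℝ) ∪ {α})) : ∃ u ∈ K, ∃ v ∈ K, w = u + v * α := by
  have : Subfield.closure ((K : Set ℝ) ∪ {α}) ≤ quad K α h := by
    rw [Subfield.closure_le]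
    rintro x (hx | rfl)
    · exact ⟨x, hx, 0, K.zero_mem, by ring⟩
    · exact ⟨0, K.zero_mem, 1, K.one_mem, by ring⟩
  exact this hw

theorem quad_unique {K : Subfield ℝ} {x : ℝ} (hx : x ∉ K) {α β α' β' : ℝ} (hα : α ∈ K)
    (hβ : β ∈ K) (hα' : α' ∈ K) (hβ' : β' ∈ K) (h : α + β * x = α' + β' * x) :
    α = α' ∧ β = β' := by
  by_cases hb : β = β'
  · subst hb
    exact ⟨by linear_combination h, rfl⟩
  · exfalso
    apply hx
    have hne : β - β' ≠ 0 := sub_ne_zero.2 hb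
    have : x = (α' - α) / (β - β') := by
      field_simp
      linear_combination h
    rw [this]
    exact K.div_mem (K.sub_mem hα' hα) (K.sub_mem hβ hβ')

theorem kummer_one {K : Subfield ℝ} {α : ℝ} (h : α ^ 2 ∈ K) {c w : ℝ} (hc : c ∈ K)
    (hw : w ∈ Subfield.closure ((K : Set ℝ) ∪ {α})) (hcw : c = w ^ 2) :
    (∃ v ∈ K, c = v ^ 2) ∨ (α ≠ 0 ∧ ∃ v ∈ K, c * α ^ 2 = v ^ 2) := by
  obtain ⟨u, hu, v, hv, rfl⟩ := mem_quad_of_closure h hw
  by_cases hα : α ∈ K
  · exact Or.inl ⟨_, K.add_mem hu (K.mul_mem hv hα), hcw⟩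
  · have h1 : c + 0 * α = (u ^ 2 + v ^ 2 * α ^ 2) + (2 * u * v) * α := by
      rw [hcw]; ring
    have h2m : (2 : ℝ) ∈ K := by
      have h := K.add_mem K.one_mem K.one_mem
      rwa [one_add_one_eq_two] at h
    obtain ⟨h2, h3⟩ := quad_unique hα hc K.zero_mem
      (K.add_mem (K.pow_mem hu 2) (K.mul_mem (K.pow_mem hv 2) h))
      (K.mul_mem (K.mul_mem h2m hu) hv) h1
    have h4 : u = 0 ∨ v = 0 := by
      rcases mul_eq_zero.1 h3.symm with h | h
      · left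
        rcases mul_eq_zero.1 h with h | h
        · norm_num at h
        · exact h
      · exact Or.inr h
    rcases h4 with rfl | rfl
    · right
      refine ⟨fun h0 => hα (h0 ▸ K.zero_mem), v * α ^ 2, K.mul_mem hv h, ?_⟩
      rw [h2]; ring
    · left
      exact ⟨u, hu, by rw [h2]; ring⟩

theorem kummer_fin {ι : Type} (g : ι → ℝ) (J : Finset ι) : ∀ (K : Subfield ℝ), (∀ j ∈ J, g j ^ 2 ∈ K) →
    ∀ b ∈ K, ∀ w ∈ Subfield.closure ((K : Set ℝ) ∪ g '' (J : Set ι)), b = w ^ 2 →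
    ∃ U ⊆ J, (∀ j ∈ U, g j ≠ 0) ∧ ∃ v ∈ K, b * ∏ j ∈ U, g j ^ 2 = v ^ 2 := by
  classical
  induction J using Finset.induction_on with
  | empty =>
    intro K _ b hb w hw hbw
    refine ⟨∅, subset_rfl, by simp, w, ?_, by simpa using hbw⟩
    simp only [Finset.coe_empty, Set.image_empty, Set.union_empty, Subfield.closure_eq] at hw
    exact hw
  | insert j0 J hj0 ih =>
    intro K hK b hb w hw hbw
    set K' : Subfield ℝ := Subfield.closure ((K : Set ℝ) ∪ {g j0}) with hK'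
    have hKK' : K ≤ K' := fun x hx => Subfield.subset_closure (Or.inl hx)
    have hw' : w ∈ Subfield.closure ((K' : Set ℝ) ∪ g '' (J : Set ι)) := by
      refine Subfield.closure_mono ?_ hw
      rintro x (hx | ⟨j, hj, rfl⟩)
      · exact Or.inl (hKK' hx)
      · rw [Finset.coe_insert] at hj
        rcases hj with rfl | hj
        · exact Or.inl (Subfield.subset_closure (Or.inr rfl))
        · exact Or.inr ⟨j, hj, rfl⟩
    obtain ⟨U, hU, hU0, v', hv', hv⟩ := ih K' (fun j hj => hKK' (hK j (by simp [hj]))) b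
      (hKK' hb) w hw' hbw
    have hc : b * ∏ j ∈ U, g j ^ 2 ∈ K := K.mul_mem hb
      (K.prod_mem fun j hj => hK j (Finset.mem_insert_of_mem (hU hj)))
    rcases kummer_one (hK j0 (by simp)) hc hv' hv with ⟨v, hv1, hv2⟩ | ⟨h0, v, hv1, hv2⟩
    · exact ⟨U, hU.trans (Finset.subset_insert _ _), hU0, v, hv1, hv2⟩
    · refine ⟨insert j0 U, Finset.insert_subset_insert _ hU, ?_, v, hv1, ?_⟩
      · intro j hj
        rcases Finset.mem_insert.1 hj with rfl | hj
        · exact h0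
        · exact hU0 j hj
      · rw [Finset.prod_insert (fun h => hj0 (hU h)), ← hv2]
        ring

theorem finite_closure {ι : Type} (g : ι → ℝ) (J : Set ι) (K : Subfield ℝ) {w : ℝ}
    (hw : w ∈ Subfield.closure ((K : Set ℝ) ∪ g '' J)) :
    ∃ J0 : Finset ι, (∀ j ∈ J0, j ∈ J) ∧ w ∈ Subfield.closure ((K : Set ℝ) ∪ g '' (J0 : Set ι)) := by
  classical
  have mono : ∀ J0 J1 : Finset ι, J0 ⊆ J1 → Subfield.closure ((K : Set ℝ) ∪ g '' (J0 : Set ι)) ≤
      Subfield.closure ((K : Set ℝ) ∪ g '' (J1 : Set ι)) := fun J0 J1 h =>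
    Subfield.closure_mono (Set.union_subset_union_right _ (Set.image_mono (by exact_mod_cast h)))
  induction hw using Subfield.closure_induction with
  | mem x hx =>
    rcases hx with hx | ⟨j, hj, rfl⟩
    · exact ⟨∅, by simp, Subfield.subset_closure (Or.inl hx)⟩
    · exact ⟨{j}, by simpa using hj, Subfield.subset_closure (Or.inr ⟨j, by simp, rfl⟩)⟩
  | one => exact ⟨∅, by simp, Subfield.one_mem _⟩
  | add x y _ _ hx hy =>
    obtain ⟨J0, h0, hx⟩ := hx
    obtain ⟨J1, h1, hy⟩ := hy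
    refine ⟨J0 ∪ J1, ?_, Subfield.add_mem _ (mono _ _ Finset.subset_union_left hx)
      (mono _ _ Finset.subset_union_right hy)⟩
    intro j hj
    rcases Finset.mem_union.1 hj with h | h
    exacts [h0 j h, h1 j h]
  | neg x _ hx =>
    obtain ⟨J0, h0, hx⟩ := hx
    exact ⟨J0, h0, Subfield.neg_mem _ hx⟩
  | inv x _ hx =>
    obtain ⟨J0, h0, hx⟩ := hx
    exact ⟨J0, h0, Subfield.inv_mem _ hx⟩
  | mul x y _ _ hx hy =>
    obtain ⟨J0, h0, hx⟩ := hx
    obtain ⟨J1, h1, hy⟩ := hy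
    refine ⟨J0 ∪ J1, ?_, Subfield.mul_mem _ (mono _ _ Finset.subset_union_left hx)
      (mono _ _ Finset.subset_union_right hy)⟩
    intro j hj
    rcases Finset.mem_union.1 hj with h | h
    exacts [h0 j h, h1 j h]

theorem kummer {ι : Type} (g : ι → ℝ) (J : Set ι) (K : Subfield ℝ) (hK : ∀ j ∈ J, g j ^ 2 ∈ K) {b w : ℝ}
    (hb : b ∈ K) (hw : w ∈ Subfield.closure ((K : Set ℝ) ∪ g '' J)) (hbw : b = w ^ 2) :
    ∃ U : Finset ι, (∀ j ∈ U, j ∈ J ∧ g j ≠ 0) ∧ ∃ v ∈ K, b * ∏ j ∈ U, g j ^ 2 = v ^ 2 := by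
  obtain ⟨J0, h0, hw0⟩ := finite_closure g J K hw
  obtain ⟨U, hU, hU0, h⟩ := kummer_fin g J0 K (fun j hj => hK j (h0 j hj)) b hb w hw0 hbw
  exact ⟨U, fun j hj => ⟨h0 j (hU hj), hU0 j hj⟩, h⟩

/-- norm relation -/
def Nrel (K : Subfield ℝ) (x : ℝ) (w n : ℝ) : Prop :=
  ∃ α ∈ K, ∃ β ∈ K, w = α + β * x ∧ n = α ^ 2 - x ^ 2 * β ^ 2

theorem Nrel.mul {K : Subfield ℝ} {x : ℝ} (hx : x ^ 2 ∈ K) {w n w' n' : ℝ} (h : Nrel K x w n)
    (h' : Nrel K x w' n') : Nrel K x (w * w') (n * n') := by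
  obtain ⟨α, hα, β, hβ, rfl, rfl⟩ := h
  obtain ⟨α', hα', β', hβ', rfl, rfl⟩ := h'
  exact ⟨α * α' + x ^ 2 * (β * β'), K.add_mem (K.mul_mem hα hα')
    (K.mul_mem hx (K.mul_mem hβ hβ')), α * β' + β * α',
    K.add_mem (K.mul_mem hα hβ') (K.mul_mem hβ hα'), by ring, by ring⟩

theorem Nrel.of_mem {K : Subfield ℝ} {x : ℝ} {w : ℝ} (h : w ∈ K) : Nrel K x w (w ^ 2) :=
  ⟨w, h, 0, K.zero_mem, by ring, by ring⟩

theorem Nrel.prod {ι : Type} {K : Subfield ℝ} {x : ℝ} (hx : x ^ 2 ∈ K) (U : Finset ι) (f n : ι → ℝ)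
    (h : ∀ j ∈ U, Nrel K x (f j) (n j)) : Nrel K x (∏ j ∈ U, f j) (∏ j ∈ U, n j) := by
  classical
  induction U using Finset.induction_on with
  | empty => simpa using Nrel.of_mem (x := x) K.one_mem
  | insert j U hj ih =>
    rw [Finset.prod_insert hj, Finset.prod_insert hj]
    exact (h j (by simp)).mul hx (ih fun i hi => h i (by simp [hi]))

theorem Nrel.sq {K : Subfield ℝ} {x : ℝ} (hxK : x ∉ K) (hx : x ^ 2 ∈ K) {w n v : ℝ}
    (h : Nrel K x w n) (hv : v ∈ Subfield.closure ((K : Set ℝ) ∪ {x})) (hw : w = v ^ 2) :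
    ∃ r ∈ K, n = r ^ 2 := by
  obtain ⟨α, hα, β, hβ, rfl, rfl⟩ := h
  obtain ⟨u, hu, t, ht, rfl⟩ := mem_quad_of_closure hx hv
  have h2m : (2 : ℝ) ∈ K := by
    have h := K.add_mem K.one_mem K.one_mem
    rwa [one_add_one_eq_two] at h
  have h1 : α + β * x = (u ^ 2 + t ^ 2 * x ^ 2) + (2 * u * t) * x := by rw [hw]; ring
  obtain ⟨h2, h3⟩ := quad_unique hxK hα hβ
    (K.add_mem (K.pow_mem hu 2) (K.mul_mem (K.pow_mem ht 2) hx))
    (K.mul_mem (K.mul_mem h2m hu) ht) h1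
  refine ⟨u ^ 2 - x ^ 2 * t ^ 2, K.sub_mem (K.pow_mem hu 2) (K.mul_mem hx (K.pow_mem ht 2)), ?_⟩
  rw [h2, h3]; ring

/-! ### the integers -/

/-- pairwise coprime integers, all `≡ 3 mod 4` -/
def a : ℕ → ℕ
  | 0 => 3
  | n + 1 => a n * (a n - 1) + 1

theorem a_mod (n : ℕ) : a n % 4 = 3 := by
  induction n with
  | zero => rfl
  | succ n ih =>
    obtain ⟨k, hk⟩ : ∃ k, a n = 4 * k + 3 := ⟨a n / 4, by omega⟩
    have : a (n + 1) = 4 * (4 * k * k + 5 * k + 1) + 3 := by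
      change a n * (a n - 1) + 1 = _
      rw [hk]
      have : 4 * k + 3 - 1 = 4 * k + 2 := rfl
      rw [this]; ring
    omega

theorem a_ge (n : ℕ) : 3 ≤ a n := by
  have := a_mod n
  omega

theorem a_dvd {m n : ℕ} (h : m < n) : a m ∣ a n - 1 := by
  induction n with
  | zero => omega
  | succ n ih =>
    have h1 : a (n + 1) - 1 = a n * (a n - 1) := by
      change a n * (a n - 1) + 1 - 1 = _
      omega
    rw [h1]
    rcases Nat.lt_succ_iff_lt_or_eq.1 h with h | rfl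
    · exact (ih h).mul_left _
    · exact Dvd.intro _ rfl

theorem a_coprime {m n : ℕ} (h : m ≠ n) : Nat.Coprime (a m) (a n) := by
  have key : ∀ m n : ℕ, m < n → Nat.Coprime (a m) (a n) := by
    intro m n h
    obtain ⟨k, hk⟩ := a_dvd h
    have h3 := a_ge n
    have : a n = a m * k + 1 := by omega
    rw [this]
    simp
  rcases lt_or_gt_of_ne h with h | h
  · exact key _ _ h
  · exact (key _ _ h).symm

theorem prod_odd (V : Finset ℕ) : (∏ i ∈ V, a i) % 2 = 1 := by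
  classical
  induction V using Finset.induction_on with
  | empty => rfl
  | insert j V hj ih =>
    rw [Finset.prod_insert hj, Nat.mul_mod, ih]
    have := a_mod j
    omega

theorem not_sq_two (n : ℕ) (V : Finset ℕ) : ¬ IsSquare ((a n * (a n - 1)) * ∏ i ∈ V, a i) := by
  rintro ⟨m, hm⟩
  have h1 := a_mod n
  have h2 := prod_odd V
  obtain ⟨k, hk⟩ : ∃ k, a n = 4 * k + 3 := ⟨a n / 4, by omega⟩
  obtain ⟨l, hl⟩ : ∃ l, ∏ i ∈ V, a i = 2 * l + 1 := ⟨(∏ i ∈ V, a i) / 2, by omega⟩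
  rw [hk, hl] at hm
  have h3 : 4 * k + 3 - 1 = 4 * k + 2 := rfl
  rw [h3] at hm
  have h4 : (4 * k + 3) * (4 * k + 2) * (2 * l + 1) =
      4 * ((4 * k * k + 5 * k + 1) * (2 * l + 1) + l) + 2 := by ring
  rw [h4] at hm
  rcases Nat.even_or_odd' m with ⟨t, rfl | rfl⟩
  · have : 2 * t * (2 * t) = 4 * (t * t) := by ring
    omega
  · have : (2 * t + 1) * (2 * t + 1) = 4 * (t * t + t) + 1 := by ring
    omega

theorem not_sq_a (n : ℕ) (V : Finset ℕ) (hn : n ∉ V) : ¬ IsSquare (a n * ∏ i ∈ V, a i) := by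
  rintro ⟨m, hm⟩
  have hc : Nat.Coprime (a n) (∏ i ∈ V, a i) :=
    Nat.Coprime.prod_right fun i hi => a_coprime (by rintro rfl; exact hn hi)
  have h1 : ∃ r, a n = r ^ 2 := by
    refine exists_eq_pow_of_mul_eq_pow (b := ∏ i ∈ V, a i) (c := m) ?_ (hm.trans (sq m).symm)
    exact Nat.isUnit_iff.2 hc
  obtain ⟨r, hr⟩ := h1
  have h3 := a_mod n
  rcases Nat.even_or_odd' r with ⟨t, rfl | rfl⟩
  · have : (2 * t) ^ 2 = 4 * (t * t) := by ring
    omega
  · have : (2 * t + 1) ^ 2 = 4 * (t * t + t) + 1 := by ring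
    omega

end Pool.Agent.Helper22.OF
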