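import Pool.Agent.Helper22.OFField

set_option autoImplicit false

namespace Pool.Agent.Helper22.OF

open Encodable Denumerable
open Nat.Partrec (Code)

/-- stage `t` of the diagonal computation `φ_n(n)` -/
def stg (t n : ℕ) : Option ℕ := Code.evaln t (ofNat Code n) n

/-- the events: `φ_n(n) = 0` or `φ_n(n) = 1` is first seen at stage `t + 1` -/
def ev0 (s : ℕ) : Option (ℕ × Bool) :=
  if stg s.unpair.2 s.unpair.1 = none then
    if stg (s.unpair.2 + 1) s.unpair.1 = some 0 then some (s.unpair.1, false)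
    else if stg (s.unpair.2 + 1) s.unpair.1 = some 1 then some (s.unpair.1, true)
    else none
  else none

theorem prim_stg {α : Type*} [Primcodable α] {t n : α → ℕ} (ht : Primrec t) (hn : Primrec n) :
    Primrec fun z => stg (t z) (n z) := by
  have h1 : Primrec fun z : α => ((t z, ofNat Code (n z)), n z) :=
    Primrec.pair (Primrec.pair ht ((Primrec.ofNat Code).comp hn)) hn
  exact Code.primrec_evaln.comp h1

theorem prim_ev0 : Primrec ev0 := by
  have h1 : Primrec fun s : ℕ => s.unpair.1 := Primrec.fst.comp Primrec.unpair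
  have h2 : Primrec fun s : ℕ => s.unpair.2 := Primrec.snd.comp Primrec.unpair
  have h3 : Primrec fun s : ℕ => s.unpair.2 + 1 := Primrec.nat_add.comp h2 (Primrec.const 1)
  unfold ev0
  refine Primrec.ite (Primrec.eq.comp (prim_stg h2 h1) (Primrec.const none)) (Primrec.ite
    (Primrec.eq.comp (prim_stg h3 h1) (Primrec.const (some 0)))
    (Primrec.option_some.comp (Primrec.pair h1 (Primrec.const false))) (Primrec.ite
    (Primrec.eq.comp (prim_stg h3 h1) (Primrec.const (some 1)))
    (Primrec.option_some.comp (Primrec.pair h1 (Primrec.const true))) (Primrec.const none)))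
    (Primrec.const none)

theorem ev0_spec {s n : ℕ} {b : Bool} (h : ev0 s = some (n, b)) :
    s.unpair.1 = n ∧ stg s.unpair.2 n = none ∧
      stg (s.unpair.2 + 1) n = some (if b then 1 else 0) := by
  unfold ev0 at h
  split_ifs at h with h1 h2 h3
  · rw [Option.some.injEq, Prod.mk.injEq] at h
    obtain ⟨rfl, rfl⟩ := h
    exact ⟨rfl, h1, by simpa using h2⟩
  · rw [Option.some.injEq, Prod.mk.injEq] at h
    obtain ⟨rfl, rfl⟩ := h
    exact ⟨rfl, h1, by simpa using h3⟩

theorem stg_mono {t t' n v : ℕ} (h : t ≤ t') (hv : stg t n = some v) : stg t' n = some v := by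
  have h1 : v ∈ Code.evaln t (ofNat Code n) n := hv
  exact Code.evaln_mono h h1

theorem ev0_ok : EvOK ev0 where
  le := by
    intro s n b h
    obtain ⟨rfl, -, -⟩ := ev0_spec h
    exact Nat.unpair_left_le s
  inj := by
    have key : ∀ s s' n b b', ev0 s = some (n, b) → ev0 s' = some (n, b') →
        ¬ s.unpair.2 < s'.unpair.2 := by
      intro s s' n b b' h h' hlt
      obtain ⟨-, -, h3⟩ := ev0_spec h
      obtain ⟨-, h2, -⟩ := ev0_spec h'
      have := stg_mono (Nat.succ_le_of_lt hlt) h3
      rw [h2] at this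
      simp at this
    intro s s' n b b' h h'
    have h1 := (ev0_spec h).1
    have h2 := (ev0_spec h').1
    have h3 : s.unpair.2 = s'.unpair.2 :=
      le_antisymm (not_lt.1 (key _ _ _ _ _ h' h)) (not_lt.1 (key _ _ _ _ _ h h'))
    rw [← Nat.pair_unpair s, ← Nat.pair_unpair s', h1, h2, h3]

theorem ev0_complete {n : ℕ} {b : Bool}
    (h : (if b then 1 else 0) ∈ (ofNat Code n).eval n) : ∃ s, ev0 s = some (n, b) := by
  classical
  obtain ⟨k, hk⟩ := Code.evaln_complete.1 h
  have hex : ∃ k, stg k n = some (if b then 1 else 0) := ⟨k, hk⟩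
  obtain ⟨k0, hk0, hmin⟩ : ∃ k0, stg k0 n = some (if b then 1 else 0) ∧
      ∀ m < k0, stg m n ≠ some (if b then 1 else 0) :=
    ⟨Nat.find hex, Nat.find_spec hex, fun m hm => Nat.find_min hex hm⟩
  rcases k0 with _ | t
  · exfalso
    have : stg 0 n = none := by simp [stg, Code.evaln]
    rw [this] at hk0
    simp at hk0
  · have ht : stg t n = none := by
      rcases hs : stg t n with _ | v
      · rfl
      · exfalso
        have h1 := stg_mono (Nat.le_succ t) hs
        rw [hk0] at h1
        exact hmin t (Nat.lt_succ_self t) (by rw [hs, h1])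
    refine ⟨Nat.pair n t, ?_⟩
    unfold ev0
    rw [Nat.unpair_pair, if_pos ht]
    cases b
    · rw [if_pos (by simpa using hk0)]
    · have hk1 : stg (t + 1) n = some 1 := by simpa using hk0
      rw [if_neg (by simp [hk1]), if_pos hk1]

theorem main (e : ℕ ≃ FF ev0)
    (hadd : Computable₂ (fun a b : ℕ => e.symm (e a + e b)))
    (hmul : Computable₂ (fun a b : ℕ => e.symm (e a * e b)))
    (P : Set (FF ev0)) (hP : ComputablePred (fun a : ℕ => e a ∈ P))
    (h0 : (0 : FF ev0) ∉ P) (h1 : ∀ x y : FF ev0, x ∈ P → y ∈ P → x + y ∈ P)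
    (h2 : ∀ x y : FF ev0, x ∈ P → y ∈ P → x * y ∈ P)
    (h3 : ∀ x : FF ev0, x ≠ 0 → x ∈ P ∨ -x ∈ P) : False := by
  classical
  have hD := sep ev0 ev0_ok e hadd hmul P hP
  obtain ⟨inst, hd⟩ := hD
  have hf : Computable fun n : ℕ => cond (decide
      ((⟨x (sgn ev0) n, x_memFF ev0 n⟩ : FF ev0) ∈ P)) 1 0 :=
    Computable.cond hd (Computable.const 1) (Computable.const 0)
  obtain ⟨c, hc⟩ := Code.exists_code.1 (show Nat.Partrec _ from Partrec.nat_iff.1 hf.partrec)
  set n0 := encode c with hn0
  have hcn : (ofNat Code n0).eval n0 = Part.some (cond (decide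
      ((⟨x (sgn ev0) n0, x_memFF ev0 n0⟩ : FF ev0) ∈ P)) 1 0) := by
    rw [hn0, ofNat_encode, hc]
    rfl
  -- squares are positive
  have hsq : ∀ z : FF ev0, z ≠ 0 → z * z ∈ P := by
    intro z hz
    rcases h3 z hz with h | h
    · exact h2 _ _ h h
    · have := h2 _ _ h h
      rwa [neg_mul_neg] at this
  by_cases hm : (⟨x (sgn ev0) n0, x_memFF ev0 n0⟩ : FF ev0) ∈ P
  · have he : (if true = true then 1 else 0) ∈ (ofNat Code n0).eval n0 := by
      rw [hcn, decide_eq_true hm]
      exact Part.mem_some _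
    obtain ⟨s, hs⟩ := ev0_complete (b := true) he
    have hsg : sgn ev0 n0 = -1 := by simpa using sgn_eq ev0 ev0_ok hs
    have hz := hsq ⟨_, z_memFF ev0 hs⟩ (by
      intro h
      have := congrArg (fun z : FF ev0 => (z : ℝ)) h
      exact (mk_pos (sgn_or ev0) (true, n0)).ne' this)
    have he2 : (⟨mk (sgn ev0) (true, n0), z_memFF ev0 hs⟩ : FF ev0) *
        ⟨mk (sgn ev0) (true, n0), z_memFF ev0 hs⟩ = -⟨x (sgn ev0) n0, x_memFF ev0 n0⟩ := by
      apply Subtype.ext
      change mk (sgn ev0) (true, n0) * mk (sgn ev0) (true, n0) = - x (sgn ev0) n0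
      have := mk_true (sgn_or ev0) n0
      rw [hsg] at this
      linear_combination this
    rw [he2] at hz
    have := h1 _ _ hm hz
    rw [add_neg_cancel] at this
    exact h0 this
  · have he : (if false = true then 1 else 0) ∈ (ofNat Code n0).eval n0 := by
      rw [hcn, decide_eq_false hm]
      exact Part.mem_some _
    obtain ⟨s, hs⟩ := ev0_complete (b := false) he
    have hsg : sgn ev0 n0 = 1 := by simpa using sgn_eq ev0 ev0_ok hs
    have hz := hsq ⟨_, z_memFF ev0 hs⟩ (by
      intro h
      have := congrArg (fun z : FF ev0 => (z : ℝ)) h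
      exact (mk_pos (sgn_or ev0) (true, n0)).ne' this)
    have he2 : (⟨mk (sgn ev0) (true, n0), z_memFF ev0 hs⟩ : FF ev0) *
        ⟨mk (sgn ev0) (true, n0), z_memFF ev0 hs⟩ = ⟨x (sgn ev0) n0, x_memFF ev0 n0⟩ := by
      apply Subtype.ext
      change mk (sgn ev0) (true, n0) * mk (sgn ev0) (true, n0) = x (sgn ev0) n0
      have := mk_true (sgn_or ev0) n0
      rw [hsg] at this
      linear_combination this
    rw [he2] at hz
    exact hm hz

end Pool.Agent.Helper22.OF
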