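import Pool.Agent.Helper22.OFZero

set_option autoImplicit false

namespace Pool.Agent.Helper22.OF

open Encodable

theorem prim_pow2 {α : Type*} [Primcodable α] {f : α → ℕ} (hf : Primrec f) :
    Primrec fun n => 2 ^ f n := by
  have h : Primrec₂ ((· ^ ·) : ℕ → ℕ → ℕ) := Primrec₂.unpaired'.1 Nat.Primrec.pow
  exact h.comp (Primrec.const 2) hf

theorem prim_testBit {α : Type*} [Primcodable α] {f h : α → ℕ} (hf : Primrec f)
    (hh : Primrec h) : PrimrecPred fun n => (f n).testBit (h n) = true := by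
  have h1 : PrimrecPred fun n => f n / 2 ^ h n % 2 = 1 :=
    Primrec.eq.comp (Primrec.nat_mod.comp (Primrec.nat_div.comp hf (prim_pow2 hh))
      (Primrec.const 2)) (Primrec.const 1)
  refine h1.of_eq fun n => ?_
  rw [Nat.testBit_eq_decide_div_mod_eq, decide_eq_true_iff]

theorem prim_a : Primrec a := by
  have h : Primrec (Nat.rec 3 (fun _ p => p * (p - 1) + 1) : ℕ → ℕ) := by
    refine Primrec.nat_rec₁ 3 ?_
    exact Primrec.nat_add.comp (Primrec.nat_mul.comp Primrec.snd
      (Primrec.nat_sub.comp Primrec.snd (Primrec.const 1))) (Primrec.const 1)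
  refine h.of_eq fun n => ?_
  induction n with
  | zero => rfl
  | succ n ih =>
    change (Nat.rec 3 (fun _ p => p * (p - 1) + 1) n : ℕ) * ((Nat.rec 3 (fun _ p => p * (p - 1) + 1) n : ℕ) - 1) + 1 = _
    rw [ih]
    rfl

section
variable {α : Type*} [Primcodable α]

theorem prim_mulx {n : α → ℕ} {t : α → Tm} (hn : Primrec n) (ht : Primrec t) :
    Primrec fun z => mulx (n z) (t z) := by
  unfold mulx
  have h3 : Primrec fun z => 3 * n z := Primrec.nat_mul.comp (Primrec.const 3) hn
  have ht2 : Primrec fun z => (t z).2 := Primrec.snd.comp ht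
  have h11 : Primrec fun z => (t z).1.1 := Primrec.fst.comp (Primrec.fst.comp ht)
  have h12 : Primrec fun z => (t z).1.2 := Primrec.snd.comp (Primrec.fst.comp ht)
  have ha : Primrec fun z => a (n z) := prim_a.comp hn
  exact Primrec.ite (prim_testBit ht2 h3)
    (Primrec.pair (Primrec.pair (Primrec.nat_mul.comp h11 ha) (Primrec.nat_mul.comp h12 ha))
      (Primrec.nat_sub.comp ht2 (prim_pow2 h3)))
    (Primrec.pair (Primrec.fst.comp ht) (Primrec.nat_add.comp ht2 (prim_pow2 h3)))

variable {ev : ℕ → Option (ℕ × Bool)} (hp : Primrec ev)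

theorem prim_single {β : Type*} [Primcodable β] {f : α → β} (hf : Primrec f) :
    Primrec fun z => [f z] := Primrec.list_cons.comp hf (Primrec.const [])

include hp in
theorem prim_mg : Primrec₂ (mg ev) := by
  unfold mg
  have hj : Primrec fun z : ℕ × Tm => z.1 := Primrec.fst
  have hj3 : Primrec fun z : ℕ × Tm => z.1 / 3 := Primrec.nat_div.comp hj (Primrec.const 3)
  have hm : Primrec fun z : ℕ × Tm => z.1 % 3 := Primrec.nat_mod.comp hj (Primrec.const 3)
  have ht1 : Primrec fun z : ℕ × Tm => z.2.1 := Primrec.fst.comp Primrec.snd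
  have ht2 : Primrec fun z : ℕ × Tm => z.2.2 := Primrec.snd.comp Primrec.snd
  have h11 : Primrec fun z : ℕ × Tm => z.2.1.1 := Primrec.fst.comp ht1
  have h12 : Primrec fun z : ℕ × Tm => z.2.1.2 := Primrec.snd.comp ht1
  have ha : Primrec fun z : ℕ × Tm => a (z.1 / 3) := prim_a.comp hj3
  have hsub : Primrec fun z : ℕ × Tm => z.2.2 - 2 ^ z.1 := Primrec.nat_sub.comp ht2 (prim_pow2 hj)
  have hadd : Primrec fun z : ℕ × Tm => z.2.2 + 2 ^ z.1 := Primrec.nat_add.comp ht2 (prim_pow2 hj)
  have hA : Primrec fun z : ℕ × Tm =>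
      (((z.2.1.1 * a (z.1 / 3), z.2.1.2 * a (z.1 / 3)), z.2.2 - 2 ^ z.1) : Tm) :=
    Primrec.pair (Primrec.pair (Primrec.nat_mul.comp h11 ha) (Primrec.nat_mul.comp h12 ha)) hsub
  refine Primrec.ite (prim_testBit ht2 hj) (Primrec.ite (Primrec.eq.comp hm (Primrec.const 0))
    (prim_single hA) (Primrec.ite (Primrec.eq.comp hm (Primrec.const 1)) ?_ ?_))
    (prim_single (Primrec.pair ht1 hadd))
  · exact Primrec.list_cons.comp hA (prim_single (prim_mulx hj3 (Primrec.pair ht1 hsub)))
  · have h : Primrec fun z : ℕ × Tm => Option.casesOn (motive := fun _ => Cd) (ev (z.1 / 3)) []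
        (fun nb => [mulx nb.1 (cond nb.2 (z.2.1.2, z.2.1.1) z.2.1, z.2.2 - 2 ^ z.1)]) := by
      refine Primrec.option_casesOn (hp.comp hj3) (Primrec.const []) ?_
      have f1 : Primrec fun z : (ℕ × Tm) × (ℕ × Bool) => z.1 := Primrec.fst
      refine prim_single (prim_mulx (Primrec.fst.comp Primrec.snd) (Primrec.pair
        (Primrec.cond (Primrec.snd.comp Primrec.snd) (Primrec.pair (h12.comp f1) (h11.comp f1))
          (ht1.comp f1)) (hsub.comp f1)))
    refine h.of_eq fun z => ?_
    rcases ev (z.1 / 3) with _ | nb <;> rfl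

include hp in
theorem prim_mulE : Primrec₂ (mulE ev) := by
  unfold mulE
  refine Primrec.list_foldr (f := fun z : ℕ × Cd => List.range z.1) (g := fun z => z.2)
    (h := fun (z : ℕ × Cd) (b : ℕ × Cd) => if z.1.testBit b.1 then b.2.flatMap (mg ev b.1) else b.2)
    (Primrec.list_range.comp Primrec.fst) Primrec.snd ?_
  refine Primrec.ite (prim_testBit (Primrec.fst.comp Primrec.fst) (Primrec.fst.comp Primrec.snd)) ?_
    (Primrec.snd.comp Primrec.snd)
  refine Primrec.list_flatMap (Primrec.snd.comp Primrec.snd) ?_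
  exact (prim_mg hp).comp (Primrec.fst.comp (Primrec.snd.comp Primrec.fst)) Primrec.snd

theorem prim_cmulT : Primrec₂ cmulT := by
  unfold cmulT
  have a1 : Primrec fun z : Tm × Tm => z.1.1.1 := Primrec.fst.comp (Primrec.fst.comp Primrec.fst)
  have a2 : Primrec fun z : Tm × Tm => z.1.1.2 := Primrec.snd.comp (Primrec.fst.comp Primrec.fst)
  have b1 : Primrec fun z : Tm × Tm => z.2.1.1 := Primrec.fst.comp (Primrec.fst.comp Primrec.snd)
  have b2 : Primrec fun z : Tm × Tm => z.2.1.2 := Primrec.snd.comp (Primrec.fst.comp Primrec.snd)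
  exact Primrec.pair (Primrec.pair
    (Primrec.nat_add.comp (Primrec.nat_mul.comp a1 b1) (Primrec.nat_mul.comp a2 b2))
    (Primrec.nat_add.comp (Primrec.nat_mul.comp a1 b2) (Primrec.nat_mul.comp a2 b1)))
    (Primrec.snd.comp Primrec.snd)

include hp in
theorem prim_mulC : Primrec₂ (mulC ev) := by
  unfold mulC
  refine Primrec.list_flatMap (f := fun z : Cd × Cd => z.1) Primrec.fst ?_
  refine Primrec.list_map (f := fun z : (Cd × Cd) × Tm => mulE ev z.2.2 z.1.2) ?_ ?_
  · exact (prim_mulE hp).comp (Primrec.snd.comp Primrec.snd) (Primrec.snd.comp Primrec.fst)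
  · exact prim_cmulT.comp (Primrec.snd.comp Primrec.fst) Primrec.snd

theorem prim_scal : Primrec₂ scal := by
  unfold scal
  refine Primrec.list_map (f := fun z : ℕ × Cd => z.2) Primrec.snd ?_
  have k : Primrec fun z : (ℕ × Cd) × Tm => z.1.1 := Primrec.fst.comp Primrec.fst
  have b1 : Primrec fun z : (ℕ × Cd) × Tm => z.2.1.1 := Primrec.fst.comp (Primrec.fst.comp Primrec.snd)
  have b2 : Primrec fun z : (ℕ × Cd) × Tm => z.2.1.2 := Primrec.snd.comp (Primrec.fst.comp Primrec.snd)
  exact Primrec.pair (Primrec.pair (Primrec.nat_mul.comp k b1) (Primrec.nat_mul.comp k b2))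
    (Primrec.snd.comp Primrec.snd)

theorem prim_negC : Primrec negC := by
  unfold negC
  refine Primrec.list_map (f := fun z : Cd => z) Primrec.id ?_
  have b1 : Primrec fun z : Cd × Tm => z.2.1.1 := Primrec.fst.comp (Primrec.fst.comp Primrec.snd)
  have b2 : Primrec fun z : Cd × Tm => z.2.1.2 := Primrec.snd.comp (Primrec.fst.comp Primrec.snd)
  exact Primrec.pair (Primrec.pair b2 b1) (Primrec.snd.comp Primrec.snd)

theorem prim_den : Primrec₂ fun c d : FC => c.2 * d.2 + c.2 + d.2 := by
  have c2 : Primrec fun z : FC × FC => z.1.2 := Primrec.snd.comp Primrec.fst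
  have d2 : Primrec fun z : FC × FC => z.2.2 := Primrec.snd.comp Primrec.snd
  exact Primrec.nat_add.comp (Primrec.nat_add.comp (Primrec.nat_mul.comp c2 d2) c2) d2

theorem prim_addF : Primrec₂ addF := by
  unfold addF
  have c1 : Primrec fun z : FC × FC => z.1.1 := Primrec.fst.comp Primrec.fst
  have d1 : Primrec fun z : FC × FC => z.2.1 := Primrec.fst.comp Primrec.snd
  have c2 : Primrec fun z : FC × FC => z.1.2 + 1 :=
    Primrec.nat_add.comp (Primrec.snd.comp Primrec.fst) (Primrec.const 1)
  have d2 : Primrec fun z : FC × FC => z.2.2 + 1 :=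
    Primrec.nat_add.comp (Primrec.snd.comp Primrec.snd) (Primrec.const 1)
  exact Primrec.pair (Primrec.list_append.comp (prim_scal.comp d2 c1) (prim_scal.comp c2 d1))
    prim_den

include hp in
theorem prim_mulF : Primrec₂ (mulF ev) := by
  unfold mulF
  have c1 : Primrec fun z : FC × FC => z.1.1 := Primrec.fst.comp Primrec.fst
  have d1 : Primrec fun z : FC × FC => z.2.1 := Primrec.fst.comp Primrec.snd
  exact Primrec.pair ((prim_mulC hp).comp c1 d1) prim_den

theorem prim_negF : Primrec negF := by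
  unfold negF
  exact Primrec.pair (prim_negC.comp Primrec.fst) Primrec.snd

theorem prim_sP : Primrec₂ sP := by
  unfold sP
  refine Primrec.list_foldr (f := fun z : ℕ × Cd => z.2) (g := fun _ => 0)
    (h := fun (z : ℕ × Cd) (b : Tm × ℕ) => (if b.1.2 = z.1 then b.1.1.1 else 0) + b.2)
    Primrec.snd (Primrec.const 0) ?_
  refine Primrec.nat_add.comp (Primrec.ite (Primrec.eq.comp
    (Primrec.snd.comp (Primrec.fst.comp Primrec.snd)) (Primrec.fst.comp Primrec.fst))
    (Primrec.fst.comp (Primrec.fst.comp (Primrec.fst.comp Primrec.snd))) (Primrec.const 0))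
    (Primrec.snd.comp Primrec.snd)

theorem prim_sQ : Primrec₂ sQ := by
  unfold sQ
  refine Primrec.list_foldr (f := fun z : ℕ × Cd => z.2) (g := fun _ => 0)
    (h := fun (z : ℕ × Cd) (b : Tm × ℕ) => (if b.1.2 = z.1 then b.1.1.2 else 0) + b.2)
    Primrec.snd (Primrec.const 0) ?_
  refine Primrec.nat_add.comp (Primrec.ite (Primrec.eq.comp
    (Primrec.snd.comp (Primrec.fst.comp Primrec.snd)) (Primrec.fst.comp Primrec.fst))
    (Primrec.snd.comp (Primrec.fst.comp (Primrec.fst.comp Primrec.snd))) (Primrec.const 0))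
    (Primrec.snd.comp Primrec.snd)

include hp in
theorem prim_gdS : PrimrecPred (gdS ev) := by
  have h1 : PrimrecPred (gd ev) := by
    have h2 : PrimrecPred fun j : ℕ => ¬ (j % 3 = 2) ∨ (ev (j / 3)).isSome = true := by
      refine PrimrecPred.or (PrimrecPred.not ?_) ?_
      · exact Primrec.eq.comp (Primrec.nat_mod.comp Primrec.id (Primrec.const 3)) (Primrec.const 2)
      · exact Primrec.eq.comp (Primrec.option_isSome.comp
          (hp.comp (Primrec.nat_div.comp Primrec.id (Primrec.const 3)))) (Primrec.const true)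
    exact h2.of_eq fun j => imp_iff_not_or.symm
  have h3 : PrimrecRel fun (j S : ℕ) => ¬ (S.testBit j = true) ∨ gd ev j :=
    PrimrecPred.or (PrimrecPred.not (prim_testBit Primrec.snd Primrec.fst)) (h1.comp Primrec.fst)
  have h4 := h3.forall_lt
  refine (h4.comp Primrec.id Primrec.id).of_eq fun S => ?_
  exact forall₂_congr fun j _ => imp_iff_not_or.symm

include hp in
theorem prim_zeroC : PrimrecPred (zeroC ev) := by
  have h3 : PrimrecRel fun (t : Tm) (L : Cd) => ¬ gdS ev t.2 ∨ sP t.2 L = sQ t.2 L := by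
    refine PrimrecPred.or (PrimrecPred.not ((prim_gdS hp).comp (Primrec.snd.comp Primrec.fst))) ?_
    exact Primrec.eq.comp (prim_sP.comp (Primrec.snd.comp Primrec.fst) Primrec.snd)
      (prim_sQ.comp (Primrec.snd.comp Primrec.fst) Primrec.snd)
  have h4 := h3.forall_mem_list
  refine (h4.comp Primrec.id Primrec.id).of_eq fun S => ?_
  exact forall₂_congr fun j _ => imp_iff_not_or.symm

end

end Pool.Agent.Helper22.OF
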