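import Pool.Agent.Helper22.OFCodes

set_option autoImplicit false

namespace Pool.Agent.Helper22.OF

open Encodable

variable (ev : ℕ → Option (ℕ × Bool))

/-- good indices -/
def gd (j : ℕ) : Prop := j % 3 = 2 → (ev (j / 3)).isSome = true
def gdS (S : ℕ) : Prop := ∀ j < S, S.testBit j = true → gd ev j

theorem gdS_iff (S : ℕ) : gdS ev S ↔ ∀ j, S.testBit j = true → gd ev j :=
  ⟨fun h j hj => h j (lt_of_tb hj) hj, fun h j _ hj => h j hj⟩

noncomputable def Fm (m : ℕ) : Subfield ℝ := Subfield.closure (g ev '' {j | j < m})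

theorem g_bad {j : ℕ} (h : ¬ gd ev j) : g ev j = 0 := by
  unfold gd at h
  push Not at h
  obtain ⟨h1, h2⟩ := h
  unfold g
  rw [if_neg (by omega), if_neg (by omega)]
  rw [Option.not_isSome_iff_eq_none.1 h2]
  rfl

theorem g_cases (hev : EvOK ev) (j : ℕ) :
    (∃ n, j = 3 * n ∧ g ev j = x (sgn ev) n) ∨
    (∃ n, j = 3 * n + 1 ∧ g ev j = mk (sgn ev) (false, n)) ∨
    (∃ s n b, j = 3 * s + 2 ∧ ev s = some (n, b) ∧ n ≤ s ∧ g ev j = mk (sgn ev) (true, n)) ∨
    (∃ s, j = 3 * s + 2 ∧ ev s = none ∧ g ev j = 0) := by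
  rcases (by omega : j % 3 = 0 ∨ j % 3 = 1 ∨ j % 3 = 2) with h | h | h
  · refine Or.inl ⟨j / 3, by omega, ?_⟩
    unfold g; rw [if_pos h]
  · refine Or.inr (Or.inl ⟨j / 3, by omega, ?_⟩)
    unfold g; rw [if_neg (by omega), if_pos h]
  · refine Or.inr (Or.inr ?_)
    rcases he : ev (j / 3) with _ | ⟨n, b⟩
    · refine Or.inr ⟨j / 3, by omega, he, ?_⟩
      unfold g; rw [if_neg (by omega), if_neg (by omega), he]; rfl
    · refine Or.inl ⟨j / 3, n, b, by omega, he, hev.le _ _ _ he, ?_⟩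
      unfold g; rw [if_neg (by omega), if_neg (by omega), he]; rfl

theorem g_notin (hev : EvOK ev) {m : ℕ} (h : gd ev m) : g ev m ∉ Fm ev m := by
  rcases g_cases ev hev m with ⟨n, rfl, hg⟩ | ⟨n, rfl, hg⟩ | ⟨s, n, b, rfl, he, hn, hg⟩ |
    ⟨s, rfl, he, hg⟩
  · rw [hg]
    intro hx
    refine indep_x (sgn_or ev) n ?_
    refine Subfield.closure_le.2 ?_ hx
    rintro _ ⟨j, hj, rfl⟩
    change j < 3 * n at hj
    rcases g_cases ev hev j with ⟨i, rfl, hg⟩ | ⟨i, rfl, hg⟩ | ⟨s, i, b, rfl, he, hi, hg⟩ |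
      ⟨s, rfl, he, hg⟩
    · rw [hg]
      exact Subfield.subset_closure (Or.inl ⟨i, (by omega : i ≠ n), rfl⟩)
    · rw [hg]
      exact Subfield.subset_closure (Or.inr ⟨(false, i), (by omega : i ≠ n), rfl⟩)
    · rw [hg]
      exact Subfield.subset_closure (Or.inr ⟨(true, i), (by omega : i ≠ n), rfl⟩)
    · rw [hg]; exact Subfield.zero_mem _
  · rw [hg]
    intro hx
    refine indep_mk (sgn_or ev) (false, n) ?_
    refine Subfield.closure_le.2 ?_ hx
    rintro _ ⟨j, hj, rfl⟩
    change j < 3 * n + 1 at hj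
    rcases g_cases ev hev j with ⟨i, rfl, hg⟩ | ⟨i, rfl, hg⟩ | ⟨s, i, b, rfl, he, hi, hg⟩ |
      ⟨s, rfl, he, hg⟩
    · rw [hg]
      exact Subfield.subset_closure (Or.inl ⟨i, trivial, rfl⟩)
    · rw [hg]
      refine Subfield.subset_closure (Or.inr ⟨(false, i), ?_, rfl⟩)
      intro h
      rw [Prod.mk.injEq] at h
      omega
    · rw [hg]
      refine Subfield.subset_closure (Or.inr ⟨(true, i), ?_, rfl⟩)
      intro h
      rw [Prod.mk.injEq] at h
      exact absurd h.1 (by simp)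
    · rw [hg]; exact Subfield.zero_mem _
  · rw [hg]
    intro hx
    refine indep_mk (sgn_or ev) (true, n) ?_
    refine Subfield.closure_le.2 ?_ hx
    rintro _ ⟨j, hj, rfl⟩
    change j < 3 * s + 2 at hj
    rcases g_cases ev hev j with ⟨i, rfl, hg⟩ | ⟨i, rfl, hg⟩ | ⟨s', i, b', rfl, he', hi, hg⟩ |
      ⟨s', rfl, he', hg⟩
    · rw [hg]
      exact Subfield.subset_closure (Or.inl ⟨i, trivial, rfl⟩)
    · rw [hg]
      refine Subfield.subset_closure (Or.inr ⟨(false, i), ?_, rfl⟩)
      intro h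
      rw [Prod.mk.injEq] at h
      exact absurd h.1 (by simp)
    · rw [hg]
      refine Subfield.subset_closure (Or.inr ⟨(true, i), ?_, rfl⟩)
      intro h
      rw [Prod.mk.injEq] at h
      obtain ⟨-, rfl⟩ := h
      have := hev.inj _ _ _ _ _ he he'
      omega
    · rw [hg]; exact Subfield.zero_mem _
  · exfalso
    have := h (by omega)
    rw [show (3 * s + 2) / 3 = s by omega, he] at this
    simp at this

theorem E_mem {m S : ℕ} (h : S < 2 ^ m) : E ev S ∈ Fm ev m := by
  refine Subfield.prod_mem _ fun j _ => ?_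
  split_ifs with hb
  · refine Subfield.subset_closure ⟨j, ?_, rfl⟩
    change j < m
    have := Nat.ge_two_pow_of_testBit hb
    exact (Nat.pow_lt_pow_iff_right (by norm_num)).1 (lt_of_le_of_lt this h)
  · exact Subfield.one_mem _

theorem E_bad {S : ℕ} (h : ¬ gdS ev S) : E ev S = 0 := by
  unfold gdS at h
  push Not at h
  obtain ⟨j, h1, h2, h3⟩ := h
  refine Finset.prod_eq_zero (Finset.mem_range.2 h1) ?_
  rw [if_pos h2, g_bad ev h3]

theorem indep (hev : EvOK ev) : ∀ (m : ℕ) (c : ℕ → ℤ),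
    ∑ S ∈ Finset.range (2 ^ m), (c S : ℝ) * E ev S = 0 → ∀ S < 2 ^ m, gdS ev S → c S = 0 := by
  intro m
  induction m with
  | zero =>
    intro c h S hS _
    have : S = 0 := by simpa using hS
    subst this
    simp only [pow_zero, Finset.range_one, Finset.sum_singleton, E_zero, mul_one] at h
    exact_mod_cast h
  | succ m ih =>
    intro c h
    have h2 : 2 ^ (m + 1) = 2 ^ m + 2 ^ m := by ring
    rw [h2, Finset.sum_range_add] at h
    have hE : ∀ i ∈ Finset.range (2 ^ m), (c (2 ^ m + i) : ℝ) * E ev (2 ^ m + i) =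
        g ev m * ((c (2 ^ m + i) : ℝ) * E ev i) := by
      intro i hi
      rw [add_comm (2 ^ m) i, E_add ev (Nat.testBit_lt_two_pow (Finset.mem_range.1 hi))]
      ring
    rw [Finset.sum_congr rfl hE, ← Finset.mul_sum] at h
    set A := ∑ S ∈ Finset.range (2 ^ m), (c S : ℝ) * E ev S with hA
    set B := ∑ S ∈ Finset.range (2 ^ m), (c (2 ^ m + S) : ℝ) * E ev S with hB
    have hAm : A ∈ Fm ev m := Subfield.sum_mem _ fun S hS =>
      Subfield.mul_mem _ (intCast_mem _ _) (E_mem ev (Finset.mem_range.1 hS))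
    have hBm : B ∈ Fm ev m := Subfield.sum_mem _ fun S hS =>
      Subfield.mul_mem _ (intCast_mem _ _) (E_mem ev (Finset.mem_range.1 hS))
    intro S hS hgS
    rw [h2] at hS
    by_cases hgd : gd ev m
    · have hB0 : B = 0 := by
        by_contra hB0
        refine g_notin ev hev hgd ?_
        have : g ev m = -A / B := by field_simp; linear_combination h
        rw [this]
        exact Subfield.div_mem _ (Subfield.neg_mem _ hAm) hBm
      have hA0 : A = 0 := by rw [hB0, mul_zero, add_zero] at h; exact h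
      rcases lt_or_ge S (2 ^ m) with h | h
      · exact ih c hA0 S h hgS
      · obtain ⟨i, rfl⟩ := Nat.exists_eq_add_of_le h
        refine ih (fun S => c (2 ^ m + S)) hB0 i (by omega) ?_
        rw [gdS_iff] at hgS ⊢
        intro j hj
        refine hgS j ?_
        have hi : i.testBit m = false := Nat.testBit_lt_two_pow (by omega)
        rw [add_comm, tb_add hi]
        split_ifs
        · rfl
        · exact hj
    · rw [g_bad ev hgd, zero_mul, add_zero] at h
      rcases lt_or_ge S (2 ^ m) with h' | h'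
      · exact ih c h S h' hgS
      · exfalso
        obtain ⟨i, rfl⟩ := Nat.exists_eq_add_of_le h'
        refine hgd ((gdS_iff ev _).1 hgS m ?_)
        have hi : i.testBit m = false := Nat.testBit_lt_two_pow (by omega)
        rw [add_comm, tb_add hi, if_pos rfl]

def sP (S : ℕ) (L : Cd) : ℕ := L.foldr (fun t acc => (if t.2 = S then t.1.1 else 0) + acc) 0
def sQ (S : ℕ) (L : Cd) : ℕ := L.foldr (fun t acc => (if t.2 = S then t.1.2 else 0) + acc) 0

theorem vl_eq (L : Cd) (N : ℕ) (hN : ∀ t ∈ L, t.2 < N) :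
    vl ev L = ∑ S ∈ Finset.range N, ((((sP S L : ℤ) - sQ S L : ℤ)) : ℝ) * E ev S := by
  induction L with
  | nil => simp [vl_nil, sP, sQ]
  | cons t L ih =>
    rw [vl_cons, ih fun t ht => hN t (by simp [ht])]
    have h1 : ∀ S ∈ Finset.range N, ((((sP S (t :: L) : ℤ) - sQ S (t :: L) : ℤ)) : ℝ) * E ev S =
        (if S = t.2 then ((t.1.1 : ℝ) - t.1.2) * E ev S else 0) +
          ((((sP S L : ℤ) - sQ S L : ℤ)) : ℝ) * E ev S := by
      intro S _
      have e1 : sP S (t :: L) = (if t.2 = S then t.1.1 else 0) + sP S L := rfl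
      have e2 : sQ S (t :: L) = (if t.2 = S then t.1.2 else 0) + sQ S L := rfl
      rw [e1, e2]
      by_cases h : t.2 = S
      · rw [if_pos h, if_pos h, if_pos h.symm]
        push_cast
        ring
      · rw [if_neg h, if_neg h, if_neg (Ne.symm h)]
        push_cast
        ring
    rw [Finset.sum_congr rfl h1, Finset.sum_add_distrib, Finset.sum_ite_eq',
      if_pos (Finset.mem_range.2 (hN t (by simp)))]
    rfl

def zeroC (L : Cd) : Prop := ∀ t ∈ L, gdS ev t.2 → sP t.2 L = sQ t.2 L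

theorem sum_zero_of_notin {L : Cd} {S : ℕ} (h : ∀ t ∈ L, t.2 ≠ S) : sP S L = 0 ∧ sQ S L = 0 := by
  induction L with
  | nil => exact ⟨rfl, rfl⟩
  | cons t L ih =>
    have e1 : sP S (t :: L) = (if t.2 = S then t.1.1 else 0) + sP S L := rfl
    have e2 : sQ S (t :: L) = (if t.2 = S then t.1.2 else 0) + sQ S L := rfl
    obtain ⟨h1, h2⟩ := ih fun t ht => h t (by simp [ht])
    rw [e1, e2, if_neg (h t (by simp)), if_neg (h t (by simp)), h1, h2]
    exact ⟨rfl, rfl⟩

theorem zero_iff (hev : EvOK ev) (L : Cd) : vl ev L = 0 ↔ zeroC ev L := by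
  obtain ⟨N, hN⟩ : ∃ N, ∀ t ∈ L, t.2 < 2 ^ N := by
    obtain ⟨M, hM⟩ : ∃ M, ∀ t ∈ L, t.2 ≤ M := by
      induction L with
      | nil => exact ⟨0, by simp⟩
      | cons t L ih =>
        obtain ⟨M, hM⟩ := ih
        refine ⟨max t.2 M, fun t' ht' => ?_⟩
        rcases List.mem_cons.1 ht' with rfl | h
        · exact le_max_left _ _
        · exact (hM t' h).trans (le_max_right _ _)
    exact ⟨M, fun t ht => lt_of_le_of_lt (hM t ht) Nat.lt_two_pow_self⟩
  rw [vl_eq ev L _ hN]
  constructor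
  · intro h t ht hg
    have := indep ev hev N (fun S => (sP S L : ℤ) - sQ S L) h t.2 (hN t ht) hg
    omega
  · intro h
    refine Finset.sum_eq_zero fun S _ => ?_
    by_cases hg : gdS ev S
    · by_cases hm : ∃ t ∈ L, t.2 = S
      · obtain ⟨t, ht, rfl⟩ := hm
        rw [h t ht hg]
        simp
      · push Not at hm
        obtain ⟨h1, h2⟩ := sum_zero_of_notin hm
        rw [h1, h2]
        simp
    · rw [E_bad ev hg, mul_zero]

end Pool.Agent.Helper22.OF
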