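import Mathlib

set_option autoImplicit false

namespace Pool.Agent.Helper22.Orbits

open Set

/-- numbers whose first `n` binary digits agree with `z` -/
def cyl (z : ℕ → Bool) (n : ℕ) : Set ℕ := {s | ∀ i < n, s.testBit i = z i}

/-- numbers whose binary digits differ from `z` for the first time at `n` -/
def shell (z : ℕ → Bool) (n : ℕ) : Set ℕ :=
  {s | (∀ i < n, s.testBit i = z i) ∧ s.testBit n ≠ z n}

/-- `R α S`: the Cantor-Bendixson type rank of `S` is at least `α` -/
def R (α : Ordinal.{0}) (S : Set ℕ) : Prop :=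
  S.Nonempty ∧ ∀ β : Ordinal.{0}, β < α → ∃ z : ℕ → Bool, ∀ N : ℕ, ∃ n, N ≤ n ∧
    R β (S ∩ shell z n)
termination_by α

theorem R_iff (α : Ordinal.{0}) (S : Set ℕ) : R α S ↔
    S.Nonempty ∧ ∀ β : Ordinal.{0}, β < α → ∃ z : ℕ → Bool, ∀ N : ℕ, ∃ n, N ≤ n ∧
      R β (S ∩ shell z n) := by
  rw [R]

theorem R.nonempty {α : Ordinal.{0}} {S : Set ℕ} (h : R α S) : S.Nonempty := ((R_iff α S).1 h).1

theorem R_zero (S : Set ℕ) : R 0 S ↔ S.Nonempty := by
  rw [R_iff]
  constructor
  · exact fun h => h.1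
  · intro h
    exact ⟨h, fun β hβ => absurd hβ (not_lt_bot)⟩

theorem R.anti {α β : Ordinal.{0}} {S : Set ℕ} (h : R α S) (hβ : β ≤ α) : R β S := by
  rw [R_iff] at h ⊢
  exact ⟨h.1, fun γ hγ => h.2 γ (lt_of_lt_of_le hγ hβ)⟩

theorem R.mono {α : Ordinal.{0}} : ∀ {S T : Set ℕ}, R α S → S ⊆ T → R α T := by
  induction α using WellFoundedLT.induction with
  | ind α ih =>
    intro S T h hST
    rw [R_iff] at h ⊢
    refine ⟨h.1.mono hST, fun β hβ => ?_⟩
    obtain ⟨z, hz⟩ := h.2 β hβ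
    refine ⟨z, fun N => ?_⟩
    obtain ⟨n, hn, hR⟩ := hz N
    exact ⟨n, hn, ih β hβ hR (inter_subset_inter_left _ hST)⟩

theorem R_empty (α : Ordinal.{0}) : ¬ R α ∅ := fun h => by
  simpa using h.nonempty

/-- the next stage -/
theorem R_succ_iff {α : Ordinal.{0}} {S : Set ℕ} : R (Order.succ α) S ↔
    ∃ z : ℕ → Bool, ∀ N : ℕ, ∃ n, N ≤ n ∧ R α (S ∩ shell z n) := by
  constructor
  · intro h
    exact ((R_iff _ _).1 h).2 α (Order.lt_succ α)
  · rintro ⟨z, hz⟩
    rw [R_iff]
    refine ⟨?_, fun β hβ => ?_⟩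
    · obtain ⟨n, -, hn⟩ := hz 0
      exact hn.nonempty.mono inter_subset_left
    · refine ⟨z, fun N => ?_⟩
      obtain ⟨n, hn, hR⟩ := hz N
      exact ⟨n, hn, hR.anti (Order.lt_succ_iff.1 hβ)⟩

theorem R_iff_succ {α : Ordinal.{0}} {S : Set ℕ} : R α S ↔
    S.Nonempty ∧ ∀ β < α, R (Order.succ β) S := by
  rw [R_iff]
  constructor
  · rintro ⟨h1, h2⟩
    exact ⟨h1, fun β hβ => R_succ_iff.2 (h2 β hβ)⟩
  · rintro ⟨h1, h2⟩
    exact ⟨h1, fun β hβ => R_succ_iff.1 (h2 β hβ)⟩

theorem not_freq {P : ℕ → Prop} (h : ¬ ∀ N : ℕ, ∃ n, N ≤ n ∧ P n) : ∃ N : ℕ, ∀ n, N ≤ n → ¬ P n := by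
  push Not at h
  exact h

theorem freq_or {P Q : ℕ → Prop} (h : ∀ N : ℕ, ∃ n, N ≤ n ∧ (P n ∨ Q n)) :
    (∀ N : ℕ, ∃ n, N ≤ n ∧ P n) ∨ (∀ N : ℕ, ∃ n, N ≤ n ∧ Q n) := by
  by_contra hcon
  rw [not_or] at hcon
  obtain ⟨N1, h1⟩ := not_freq hcon.1
  obtain ⟨N2, h2⟩ := not_freq hcon.2
  obtain ⟨n, hn, h3⟩ := h (max N1 N2)
  rcases h3 with h3 | h3
  · exact h1 n ((le_max_left _ _).trans hn) h3
  · exact h2 n ((le_max_right _ _).trans hn) h3

theorem R.union {α : Ordinal.{0}} : ∀ {S T : Set ℕ}, R α (S ∪ T) → R α S ∨ R α T := by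
  induction α using WellFoundedLT.induction with
  | ind α ih =>
    intro S T h
    by_contra hcon
    rw [not_or] at hcon
    obtain ⟨hS, hT⟩ := hcon
    rcases S.eq_empty_or_nonempty with rfl | hSne
    · rw [empty_union] at h; exact hT h
    rcases T.eq_empty_or_nonempty with rfl | hTne
    · rw [union_empty] at h; exact hS h
    rw [R_iff_succ] at hS hT
    push Not at hS hT
    obtain ⟨β1, hβ1, h1⟩ := hS hSne
    obtain ⟨β2, hβ2, h2⟩ := hT hTne
    obtain ⟨z, hz⟩ := ((R_iff _ _).1 h).2 (max β1 β2) (max_lt hβ1 hβ2)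
    have h3 : (∀ N : ℕ, ∃ n, N ≤ n ∧ R (max β1 β2) (S ∩ shell z n)) ∨
        (∀ N : ℕ, ∃ n, N ≤ n ∧ R (max β1 β2) (T ∩ shell z n)) := by
      apply freq_or
      intro N
      obtain ⟨n, hn, hR⟩ := hz N
      rw [union_inter_distrib_right] at hR
      exact ⟨n, hn, ih _ (max_lt hβ1 hβ2) hR⟩
    rcases h3 with h3 | h3
    · exact h1 ((R_succ_iff.2 ⟨z, h3⟩).anti (Order.succ_le_succ (le_max_left _ _)))
    · exact h2 ((R_succ_iff.2 ⟨z, h3⟩).anti (Order.succ_le_succ (le_max_right _ _)))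

theorem R_union {α : Ordinal.{0}} {S T : Set ℕ} : R α (S ∪ T) ↔ R α S ∨ R α T :=
  ⟨R.union, fun h => h.elim (fun h => h.mono subset_union_left) (fun h => h.mono subset_union_right)⟩

/-! ### cylinders and shells -/

theorem cyl_zero (z : ℕ → Bool) : cyl z 0 = univ := by
  ext s; simp [cyl]

theorem cyl_anti {z : ℕ → Bool} {m n : ℕ} (h : m ≤ n) : cyl z n ⊆ cyl z m :=
  fun _ hs i hi => hs i (lt_of_lt_of_le hi h)

theorem shell_subset_cyl (z : ℕ → Bool) (n : ℕ) : shell z n ⊆ cyl z n := fun _ hs => hs.1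

theorem cyl_eq (z : ℕ → Bool) (n : ℕ) : cyl z n = cyl z (n + 1) ∪ shell z n := by
  ext s
  constructor
  · intro hs
    by_cases h : s.testBit n = z n
    · left
      intro i hi
      rcases Nat.lt_succ_iff_lt_or_eq.1 hi with h1 | h1
      · exact hs i h1
      · rw [h1]; exact h
    · right; exact ⟨hs, h⟩
  · rintro (hs | hs)
    · exact cyl_anti (Nat.le_succ n) hs
    · exact hs.1

theorem shell_disjoint {z : ℕ → Bool} {m n : ℕ} (h : m ≠ n) : Disjoint (shell z m) (shell z n) := by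
  rw [Set.disjoint_left]
  intro s h1 h2
  rcases lt_or_gt_of_ne h with h3 | h3
  · exact h1.2 (h2.1 m h3)
  · exact h2.2 (h1.1 n h3)

theorem cyl_disjoint_shell {z : ℕ → Bool} {m n : ℕ} (h : m < n) : Disjoint (cyl z n) (shell z m) := by
  rw [Set.disjoint_left]
  intro s h1 h2
  exact h2.2 (h1 m h)

theorem cyl_congr {z w : ℕ → Bool} {n : ℕ} (h : ∀ i < n, z i = w i) : cyl z n = cyl w n := by
  ext s
  constructor
  · intro hs i hi; rw [hs i hi, h i hi]
  · intro hs i hi; rw [hs i hi, h i hi]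

theorem shell_eq_cyl (z : ℕ → Bool) (n : ℕ) : shell z n = cyl (Function.update z n (!z n)) (n + 1) := by
  ext s
  constructor
  · intro hs i hi
    rcases Nat.lt_succ_iff_lt_or_eq.1 hi with h1 | h1
    · rw [Function.update_of_ne (by omega)]; exact hs.1 i h1
    · subst h1
      rw [Function.update_self]
      have := hs.2
      cases h2 : s.testBit i <;> cases h3 : z i <;> simp_all
  · intro hs
    refine ⟨fun i hi => ?_, ?_⟩
    · have := hs i (by omega)
      rwa [Function.update_of_ne (by omega)] at this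
    · have := hs n (by omega)
      rw [Function.update_self] at this
      rw [this]
      simp

/-- first difference -/
theorem first_diff {z w : ℕ → Bool} (h : z ≠ w) : ∃ k, (∀ i < k, z i = w i) ∧ z k ≠ w k := by
  classical
  have hex : ∃ k, z k ≠ w k := by
    by_contra hcon
    push Not at hcon
    exact h (funext hcon)
  refine ⟨Nat.find hex, fun i hi => ?_, Nat.find_spec hex⟩
  have := Nat.find_min hex hi
  push Not at this
  exact this

theorem cyl_subset_shell {z w : ℕ → Bool} {k n : ℕ} (h1 : ∀ i < k, z i = w i) (h2 : z k ≠ w k)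
    (hn : k < n) : cyl z n ⊆ shell w k := by
  intro s hs
  refine ⟨fun i hi => ?_, ?_⟩
  · rw [hs i (by omega), h1 i hi]
  · rw [hs k hn]; exact h2

/-- König's lemma -/
theorem koenig (Q : Set ℕ → Prop) (hQ : ∀ S T, Q (S ∪ T) → Q S ∨ Q T) (A : Set ℕ) (hA : Q A) :
    ∃ z : ℕ → Bool, ∀ n, Q (A ∩ cyl z n) := by
  classical
  have step : ∀ (n : ℕ) (z : ℕ → Bool), Q (A ∩ cyl z n) →
      ∃ b : Bool, Q (A ∩ cyl (Function.update z n b) (n + 1)) := by
    intro n z h
    rw [cyl_eq, inter_union_distrib_left] at h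
    rcases hQ _ _ h with h | h
    · refine ⟨z n, ?_⟩
      rwa [Function.update_eq_self]
    · refine ⟨!z n, ?_⟩
      rwa [← shell_eq_cyl]
  let F : (n : ℕ) → {z : ℕ → Bool // Q (A ∩ cyl z n)} := fun n =>
    Nat.rec (motive := fun n => {z : ℕ → Bool // Q (A ∩ cyl z n)})
      ⟨fun _ => false, by rw [cyl_zero, inter_univ]; exact hA⟩
      (fun n z => ⟨Function.update z.1 n (step n z.1 z.2).choose, (step n z.1 z.2).choose_spec⟩) n
  have hF : ∀ n, ∃ b, (F (n + 1)).1 = Function.update (F n).1 n b := fun n => ⟨_, rfl⟩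
  have hF2 : ∀ n i, i < n → (F n).1 i = (F (i + 1)).1 i := by
    intro n
    induction n with
    | zero => intro i hi; omega
    | succ n ih =>
      intro i hi
      rcases Nat.lt_succ_iff_lt_or_eq.1 hi with h1 | h1
      · obtain ⟨b, hb⟩ := hF n
        rw [hb, Function.update_of_ne (by omega)]
        exact ih i h1
      · rw [h1]
  refine ⟨fun i => (F (i + 1)).1 i, fun n => ?_⟩
  have h := (F n).2
  rwa [cyl_congr (fun i hi => hF2 n i hi)] at h

/-- one point works for all smaller ranks -/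
theorem exists_center {α : Ordinal.{0}} {B : Set ℕ} (h : R α B) :
    ∃ z : ℕ → Bool, (∀ n, R α (B ∩ cyl z n)) ∧
      ∀ β < α, ∀ N : ℕ, ∃ n, N ≤ n ∧ R β (B ∩ shell z n) := by
  obtain ⟨z, hz⟩ := koenig (R α) (fun S T => R.union) B h
  refine ⟨z, hz, fun β hβ => ?_⟩
  by_contra hcon
  obtain ⟨N, hN⟩ := not_freq hcon
  obtain ⟨z', hz'⟩ := ((R_iff _ _).1 (hz N)).2 β hβ
  by_cases hzz : z' = z
  · subst hzz
    obtain ⟨n, hn, hR⟩ := hz' N
    apply hN n hn
    apply hR.mono
    exact inter_subset_inter_left _ inter_subset_left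
  · obtain ⟨k, hk1, hk2⟩ := first_diff hzz
    obtain ⟨n, hn, hR⟩ := hz' (k + 1)
    have h1 : shell z' n ⊆ shell z k :=
      (shell_subset_cyl z' n).trans (cyl_subset_shell hk1 hk2 (by omega))
    rcases Nat.lt_or_ge k N with h2 | h2
    · have h3 : B ∩ cyl z N ∩ shell z' n = ∅ := by
        rw [Set.eq_empty_iff_forall_notMem]
        rintro s ⟨⟨-, hs1⟩, hs2⟩
        exact Set.disjoint_left.1 (cyl_disjoint_shell h2) hs1 (h1 hs2)
      rw [h3] at hR
      exact R_empty _ hR
    · apply hN k h2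
      apply hR.mono
      rintro s ⟨⟨hs0, -⟩, hs2⟩
      exact ⟨hs0, h1 hs2⟩

theorem exists_shell (z : ℕ → Bool) (s : ℕ) (h : ¬ ∀ i, s.testBit i = z i) : ∃ n, s ∈ shell z n := by
  classical
  push Not at h
  refine ⟨Nat.find h, fun i hi => ?_, Nat.find_spec h⟩
  have := Nat.find_min h hi
  push Not at this
  exact this

theorem one_eq_succ : (1 : Ordinal.{0}) = Order.succ 0 := by
  rw [Order.succ_eq_add_one, zero_add]

theorem R_one_iff (S : Set ℕ) : R 1 S ↔ S.Infinite := by
  constructor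
  · intro h hfin
    rw [one_eq_succ, R_succ_iff] at h
    obtain ⟨z, hz⟩ := h
    have h1 : ({n | (S ∩ shell z n).Nonempty}).Infinite := by
      rw [Set.infinite_iff_exists_gt]
      intro N
      obtain ⟨n, hn, hR⟩ := hz (N + 1)
      exact ⟨n, hR.nonempty, by omega⟩
    apply h1
    have h2 : ∀ n ∈ {n | (S ∩ shell z n).Nonempty}, ∃ s, s ∈ S ∧ s ∈ shell z n := fun n hn => hn
    choose! g hg1 hg2 using h2
    apply Set.Finite.of_finite_image (f := g)
    · apply hfin.subset
      rintro _ ⟨n, hn, rfl⟩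
      exact hg1 n hn
    · intro n hn m hm heq
      by_contra hne
      exact Set.disjoint_left.1 (shell_disjoint hne) (hg2 n hn) (heq ▸ hg2 m hm)
  · intro h
    obtain ⟨z, hz⟩ := koenig (fun S => S.Infinite) (fun S T => by
      intro h; rwa [Set.infinite_union] at h) S h
    rw [one_eq_succ, R_succ_iff]
    refine ⟨z, fun N => ?_⟩
    have h1 : ∃ s ∈ S ∩ cyl z N, ¬ ∀ i, s.testBit i = z i := by
      by_contra hcon
      push Not at hcon
      apply hz N
      apply Set.Subsingleton.finite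
      intro s hs t ht
      apply Nat.eq_of_testBit_eq
      intro i
      rw [hcon s hs i, hcon t ht i]
    obtain ⟨s, hs, hs2⟩ := h1
    obtain ⟨n, hn⟩ := exists_shell z s hs2
    refine ⟨n, ?_, ?_⟩
    · by_contra hlt
      push Not at hlt
      exact hn.2 (hs.2 n hlt)
    · rw [R_zero]
      exact ⟨s, hs.1, hn⟩

/-! ### Rank preserving maps -/

/-- `f` preserves ranks of subsets of `A` -/
def Pres (f : ℕ → ℕ) (A : Set ℕ) : Prop := ∀ S ⊆ A, ∀ β : Ordinal.{0}, R β (f '' S) ↔ R β S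

/-- rank preserving embeddability -/
def Emb (A B : Set ℕ) : Prop := ∃ f : ℕ → ℕ, Set.InjOn f A ∧ Set.MapsTo f A B ∧ Pres f A

theorem pres_union {f : ℕ → ℕ} {A B : Set ℕ} (hA : Pres f A) (hB : Pres f B) : Pres f (A ∪ B) := by
  intro S hS β
  have h : S = (S ∩ A) ∪ (S ∩ B) := by
    rw [← inter_union_distrib_left]
    exact (inter_eq_self_of_subset_left hS).symm
  rw [h, image_union, R_union, R_union, hA _ inter_subset_right, hB _ inter_subset_right]

theorem pres_congr {f g : ℕ → ℕ} {A : Set ℕ} (hf : Pres f A) (h : ∀ a ∈ A, g a = f a) :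
    Pres g A := by
  intro S hS β
  have : g '' S = f '' S := Set.image_congr fun a ha => h a (hS ha)
  rw [this]
  exact hf S hS β

theorem Pres.mono {f : ℕ → ℕ} {A B : Set ℕ} (hf : Pres f B) (h : A ⊆ B) : Pres f A :=
  fun S hS β => hf S (hS.trans h) β

theorem Emb.mono_right {A B C : Set ℕ} (h : Emb A B) (hBC : B ⊆ C) : Emb A C := by
  obtain ⟨f, h1, h2, h3⟩ := h
  exact ⟨f, h1, fun a ha => hBC (h2 ha), h3⟩

theorem Emb.mono_left {A B C : Set ℕ} (h : Emb B C) (hAB : A ⊆ B) : Emb A C := by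
  obtain ⟨f, h1, h2, h3⟩ := h
  exact ⟨f, h1.mono hAB, fun a ha => h2 (hAB ha), h3.mono hAB⟩

theorem Emb.union {A1 A2 B1 B2 : Set ℕ} (h1 : Emb A1 B1) (h2 : Emb A2 B2) (hA : Disjoint A1 A2)
    (hB : Disjoint B1 B2) : Emb (A1 ∪ A2) (B1 ∪ B2) := by
  classical
  obtain ⟨f, f1, f2, f3⟩ := h1
  obtain ⟨g, g1, g2, g3⟩ := h2
  have hg : ∀ a ∈ A2, (if a ∈ A1 then f a else g a) = g a := fun a ha =>
    if_neg (Set.disjoint_right.1 hA ha)
  have hf : ∀ a ∈ A1, (if a ∈ A1 then f a else g a) = f a := fun a ha => if_pos ha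
  refine ⟨fun a => if a ∈ A1 then f a else g a, ?_, ?_, ?_⟩
  · rintro a (ha | ha) b (hb | hb) hab
    · simp only [hf a ha, hf b hb] at hab; exact f1 ha hb hab
    · simp only [hf a ha, hg b hb] at hab
      exact absurd (hab ▸ f2 ha : g b ∈ B1) (Set.disjoint_right.1 hB (g2 hb))
    · simp only [hg a ha, hf b hb] at hab
      exact absurd (hab ▸ f2 hb : g a ∈ B1) (Set.disjoint_right.1 hB (g2 ha))
    · simp only [hg a ha, hg b hb] at hab; exact g1 ha hb hab
  · rintro a (ha | ha)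
    · simp only [hf a ha]; exact Or.inl (f2 ha)
    · simp only [hg a ha]; exact Or.inr (g2 ha)
  · exact pres_union (pres_congr f3 hf) (pres_congr g3 hg)

/-- Cantor-Schröder-Bernstein -/
theorem csb {A B : Set ℕ} (h1 : Emb A B) (h2 : Emb B A) :
    ∃ f : ℕ → ℕ, Set.BijOn f A B ∧ Pres f A := by
  classical
  obtain ⟨f, f1, f2, f3⟩ := h1
  obtain ⟨g, g1, g2, g3⟩ := h2
  obtain ⟨h, hbij, hrel⟩ := Function.Embedding.schroeder_bernstein_of_rel
    (f := Set.MapsTo.restrict f A B f2) (g := Set.MapsTo.restrict g B A g2)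
    ((Set.MapsTo.restrict_inj f2).2 f1)
    ((Set.MapsTo.restrict_inj g2).2 g1)
    (fun a b => (b : ℕ) = f a ∨ (a : ℕ) = g b) (fun a => Or.inl rfl) (fun b => Or.inr rfl)
  let k : ℕ → ℕ := fun a => if ha : a ∈ A then (h ⟨a, ha⟩ : ℕ) else 0
  have hk : ∀ a (ha : a ∈ A), k a = h ⟨a, ha⟩ := fun a ha => dif_pos ha
  refine ⟨k, ⟨?_, ?_, ?_⟩, ?_⟩
  · intro a ha
    rw [hk a ha]; exact (h ⟨a, ha⟩).2
  · intro a ha b hb hab
    rw [hk a ha, hk b hb] at hab
    have := hbij.1 (Subtype.ext hab)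
    exact congrArg Subtype.val this
  · intro b hb
    obtain ⟨a, ha⟩ := hbij.2 ⟨b, hb⟩
    refine ⟨a, a.2, ?_⟩
    rw [hk a a.2]
    exact congrArg Subtype.val ha
  · have hcover : A = {a ∈ A | k a = f a} ∪ {a ∈ A | a = g (k a)} := by
      ext a
      constructor
      · intro ha
        rcases hrel ⟨a, ha⟩ with h4 | h4
        · exact Or.inl ⟨ha, by rw [hk a ha]; exact h4⟩
        · exact Or.inr ⟨ha, by rw [hk a ha]; exact h4⟩
      · rintro (h4 | h4)
        · exact h4.1
        · exact h4.1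
    rw [hcover]
    apply pres_union
    · exact pres_congr (f3.mono fun a ha => ha.1) fun a ha => ha.2
    · intro S hS β
      have hSA : S ⊆ A := fun a ha => (hS ha).1
      have h5 : g '' (k '' S) = S := by
        rw [← Set.image_comp]
        ext a
        constructor
        · rintro ⟨b, hb, rfl⟩
          change g (k b) ∈ S
          rw [← (hS hb).2]; exact hb
        · intro ha
          exact ⟨a, ha, (hS ha).2.symm⟩
      have h6 : k '' S ⊆ B := by
        rintro _ ⟨a, ha, rfl⟩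
        rw [hk a (hSA ha)]; exact (h _).2
      have h7 := g3 (k '' S) h6 β
      rw [h5] at h7
      exact h7.symm

/-! ### Embeddings between sets of countable rank -/

theorem emb_finite {A B : Set ℕ} (hA : A.Finite) (hB : B.Infinite) : Emb A B := by
  classical
  have : Infinite B := hB.to_subtype
  let e : ℕ → B := fun n => Infinite.natEmbedding B n
  have he : Function.Injective e := (Infinite.natEmbedding B).injective
  refine ⟨fun a => (e a : ℕ), ?_, ?_, ?_⟩
  · intro a _ b _ h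
    exact he (Subtype.ext h)
  · intro a _; exact (e a).2
  · intro S hS β
    have hSf : S.Finite := hA.subset hS
    rcases (show (0 : Ordinal.{0}) ≤ β from zero_le).eq_or_lt with h | h
    · rw [← h, R_zero, R_zero, Set.image_nonempty]
    · have h1 : (1 : Ordinal.{0}) ≤ β := by
        rw [one_eq_succ]; exact Order.succ_le_of_lt h
      constructor
      · intro h2
        exact absurd (hSf.image _) ((R_one_iff _).1 (h2.anti h1))
      · intro h2
        exact absurd hSf ((R_one_iff _).1 (h2.anti h1))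

theorem emb_shells {A B : Set ℕ} {z w : ℕ → Bool} (hA : ∀ s ∈ A, ∃ n, s ∈ shell z n)
    (π : ℕ → ℕ) (hπ : Function.Injective π)
    (h : ∀ n, Emb (A ∩ shell z n) (B ∩ shell w (π n))) :
    Emb A (B ∩ ⋃ n, shell w (π n)) := by
  classical
  choose F F1 F2 F3 using h
  choose! N hN using hA
  have hNu : ∀ s ∈ A, ∀ n, s ∈ shell z n → N s = n := by
    intro s hs n hn
    by_contra hne
    exact Set.disjoint_left.1 (shell_disjoint hne) (hN s hs) hn
  have hmem : ∀ s ∈ A, F (N s) s ∈ B ∩ shell w (π (N s)) := fun s hs => F2 (N s) ⟨hs, hN s hs⟩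
  have key : ∀ S ⊆ A, ∀ n, ((fun s => F (N s) s) '' S) ∩ shell w (π n) = F n '' (S ∩ shell z n) := by
    intro S hS n
    ext b
    constructor
    · rintro ⟨⟨s, hs, rfl⟩, hb⟩
      have h1 : π (N s) = π n := by
        by_contra hne
        exact Set.disjoint_left.1 (shell_disjoint hne) (hmem s (hS hs)).2 hb
      have h2 : N s = n := hπ h1
      refine ⟨s, ⟨hs, h2 ▸ hN s (hS hs)⟩, ?_⟩
      simp only [h2]
    · rintro ⟨s, ⟨hs, hsn⟩, rfl⟩
      have h2 : N s = n := hNu s (hS hs) n hsn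
      refine ⟨⟨s, hs, by simp only [h2]⟩, ?_⟩
      exact (F2 n ⟨hS hs, hsn⟩).2
  have hempty : ∀ S ⊆ A, ∀ k, (¬ ∃ n, π n = k) → ((fun s => F (N s) s) '' S) ∩ shell w k = ∅ := by
    intro S hS k hk
    rw [Set.eq_empty_iff_forall_notMem]
    rintro _ ⟨⟨s, hs, rfl⟩, hb⟩
    apply hk
    refine ⟨N s, ?_⟩
    by_contra hne
    exact Set.disjoint_left.1 (shell_disjoint hne) (hmem s (hS hs)).2 hb
  refine ⟨fun s => F (N s) s, ?_, ?_, ?_⟩
  · intro s hs t ht hst
    simp only at hst
    have h1 : π (N s) = π (N t) := by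
      by_contra hne
      exact Set.disjoint_left.1 (shell_disjoint hne) (hmem s hs).2 (hst ▸ (hmem t ht).2)
    have h2 : N s = N t := hπ h1
    rw [← h2] at hst
    exact F1 (N s) ⟨hs, hN s hs⟩ ⟨ht, h2 ▸ hN t ht⟩ hst
  · intro s hs
    exact ⟨(hmem s hs).1, Set.mem_iUnion.2 ⟨N s, (hmem s hs).2⟩⟩
  · intro S hS γ
    have hunb : ∀ K : ℕ, ∃ M : ℕ, ∀ n, M ≤ n → K ≤ π n := by
      intro K
      have hfin : ({n | π n < K}).Finite := by
        apply Set.Finite.of_finite_image (f := π) _ hπ.injOn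
        apply (Set.finite_lt_nat K).subset
        rintro _ ⟨n, hn, rfl⟩; exact hn
      obtain ⟨M, hM⟩ := hfin.bddAbove
      refine ⟨M + 1, fun n hn => ?_⟩
      by_contra hlt
      push Not at hlt
      have := hM hlt
      omega
    rw [R_iff_succ, R_iff_succ, Set.image_nonempty]
    apply and_congr_right
    intro _
    apply forall₂_congr
    intro β _
    constructor
    · intro hR
      obtain ⟨z', hz'⟩ := R_succ_iff.1 hR
      by_cases hzz : z' = w
      · subst hzz
        apply R_succ_iff.2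
        refine ⟨z, fun M => ?_⟩
        obtain ⟨K, hK⟩ : ∃ K, ∀ n < M, π n < K := by
          obtain ⟨K, hK⟩ := ((Set.finite_lt_nat M).image π).bddAbove
          exact ⟨K + 1, fun n hn => Nat.lt_succ_of_le (hK ⟨n, hn, rfl⟩)⟩
        obtain ⟨k, hk, hRk⟩ := hz' K
        by_cases hex : ∃ n, π n = k
        · obtain ⟨n, rfl⟩ := hex
          refine ⟨n, ?_, ?_⟩
          · by_contra hlt
            push Not at hlt
            have := hK n hlt
            omega
          · rw [key S hS n] at hRk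
            exact (F3 n _ (inter_subset_inter_left _ hS) β).1 hRk
        · rw [hempty S hS k hex] at hRk
          exact absurd hRk (R_empty _)
      · obtain ⟨k, hk1, hk2⟩ := first_diff hzz
        have h1 : R (Order.succ β) (((fun s => F (N s) s) '' S) ∩ shell w k) := by
          apply R_succ_iff.2
          refine ⟨z', fun M => ?_⟩
          obtain ⟨n, hn, hRn⟩ := hz' (max M (k + 1))
          refine ⟨n, (le_max_left _ _).trans hn, hRn.mono ?_⟩
          rintro s ⟨hs1, hs2⟩
          refine ⟨⟨hs1, ?_⟩, hs2⟩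
          exact cyl_subset_shell hk1 hk2 (lt_of_lt_of_le (Nat.lt_succ_self k)
            ((le_max_right _ _).trans hn)) (shell_subset_cyl _ _ hs2)
        by_cases hex : ∃ n, π n = k
        · obtain ⟨n, rfl⟩ := hex
          rw [key S hS n, F3 n _ (inter_subset_inter_left _ hS)] at h1
          exact h1.mono inter_subset_left
        · rw [hempty S hS k hex] at h1
          exact absurd h1 (R_empty _)
    · intro hR
      obtain ⟨z', hz'⟩ := R_succ_iff.1 hR
      by_cases hzz : z' = z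
      · subst hzz
        apply R_succ_iff.2
        refine ⟨w, fun K => ?_⟩
        obtain ⟨M, hM⟩ := hunb K
        obtain ⟨n, hn, hRn⟩ := hz' M
        refine ⟨π n, hM n hn, ?_⟩
        rw [key S hS n]
        exact (F3 n _ (inter_subset_inter_left _ hS) β).2 hRn
      · obtain ⟨k, hk1, hk2⟩ := first_diff hzz
        have h1 : R (Order.succ β) (S ∩ shell z k) := by
          apply R_succ_iff.2
          refine ⟨z', fun M => ?_⟩
          obtain ⟨n, hn, hRn⟩ := hz' (max M (k + 1))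
          refine ⟨n, (le_max_left _ _).trans hn, hRn.mono ?_⟩
          rintro s ⟨hs1, hs2⟩
          refine ⟨⟨hs1, ?_⟩, hs2⟩
          exact cyl_subset_shell hk1 hk2 (lt_of_lt_of_le (Nat.lt_succ_self k)
            ((le_max_right _ _).trans hn)) (shell_subset_cyl _ _ hs2)
        rw [← F3 k _ (inter_subset_inter_left _ hS), ← key S hS k] at h1
        exact h1.mono inter_subset_left

theorem exists_enum {α : Ordinal.{0}} (h1 : α < Ordinal.omega 1) (h0 : 0 < α) :
    ∃ b : ℕ → Ordinal.{0}, (∀ n, b n < α) ∧ ∀ β < α, ∀ N : ℕ, ∃ n, N ≤ n ∧ b n = β := by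
  have hc : (Set.Iio α).Countable := by
    rw [← Cardinal.le_aleph0_iff_set_countable, Cardinal.mk_Iio_ordinal, ← Cardinal.lift_aleph0.{1, 0},
      Cardinal.lift_le]
    have h2 : α.card < Cardinal.aleph 1 := by
      rw [← Cardinal.lt_ord, Cardinal.ord_aleph]
      exact h1
    rw [← Cardinal.succ_aleph0] at h2
    exact Order.lt_succ_iff.1 h2
  obtain ⟨f, hf⟩ := hc.exists_eq_range ⟨0, h0⟩
  refine ⟨fun n => f n.unpair.1, fun n => ?_, fun β hβ N => ?_⟩
  · have : f n.unpair.1 ∈ Set.Iio α := by rw [hf]; exact mem_range_self _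
    exact this
  · have : β ∈ Set.range f := by rw [← hf]; exact hβ
    obtain ⟨i, hi⟩ := this
    refine ⟨Nat.pair i N, Nat.right_le_pair i N, ?_⟩
    simp only [Nat.unpair_pair]
    exact hi

/-- greedy selection -/
theorem greedy {P : Ordinal.{0} → ℕ → Prop} {α : Ordinal.{0}}
    (hP : ∀ β < α, ∀ N : ℕ, ∃ n, N ≤ n ∧ P β n) (c : ℕ → Ordinal.{0}) (hc : ∀ k, c k < α) :
    ∃ ν : ℕ → ℕ, StrictMono ν ∧ ∀ k, P (c k) (ν k) := by
  apply Filter.extraction_forall_of_frequently
  intro k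
  rw [Filter.frequently_atTop]
  intro N
  obtain ⟨n, hn, h⟩ := hP (c k) (hc k) N
  exact ⟨n, hn, h⟩

theorem split {α : Ordinal.{0}} (h1 : α < Ordinal.omega 1) (h0 : 0 < α) {B : Set ℕ} (hB : R α B) :
    ∃ B1 B2 : Set ℕ, B1 ⊆ B ∧ B2 ⊆ B ∧ Disjoint B1 B2 ∧ R α B1 ∧ R α B2 := by
  obtain ⟨w, -, hw⟩ := exists_center hB
  obtain ⟨b, hb1, hb2⟩ := exists_enum h1 h0
  obtain ⟨ν, hν, hν2⟩ := greedy (P := fun β n => R β (B ∩ shell w n)) hw
    (fun k => b (k / 2)) (fun k => hb1 _)
  have key : ∀ r < 2, R α (⋃ j, B ∩ shell w (ν (2 * j + r))) := by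
    intro r hr
    rw [R_iff_succ]
    refine ⟨?_, fun β hβ => ?_⟩
    · obtain ⟨s, hs⟩ := (hν2 (2 * 0 + r)).nonempty
      exact ⟨s, Set.mem_iUnion.2 ⟨0, hs⟩⟩
    · apply R_succ_iff.2
      refine ⟨w, fun N => ?_⟩
      obtain ⟨j, hj, hbj⟩ := hb2 β hβ N
      refine ⟨ν (2 * j + r), ?_, ?_⟩
      · have := hν.le_apply (x := 2 * j + r)
        omega
      · have h3 := hν2 (2 * j + r)
        rw [show (2 * j + r) / 2 = j by omega, hbj] at h3
        apply h3.mono
        rintro s ⟨hs1, hs2⟩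
        exact ⟨Set.mem_iUnion.2 ⟨j, hs1, hs2⟩, hs2⟩
  refine ⟨_, _, ?_, ?_, ?_, key 0 (by norm_num), key 1 (by norm_num)⟩
  · exact Set.iUnion_subset fun j => inter_subset_left
  · exact Set.iUnion_subset fun j => inter_subset_left
  · rw [Set.disjoint_left]
    intro s hs1 hs2
    obtain ⟨j, hj⟩ := Set.mem_iUnion.1 hs1
    obtain ⟨k, hk⟩ := Set.mem_iUnion.1 hs2
    have hne : ν (2 * j + 0) ≠ ν (2 * k + 1) := by
      intro h
      have := hν.injective h
      omega
    exact Set.disjoint_left.1 (shell_disjoint hne) hj.2 hk.2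

theorem R.infinite {α : Ordinal.{0}} {S : Set ℕ} (h : R α S) (hα : 1 ≤ α) : S.Infinite :=
  (R_one_iff S).1 (h.anti hα)

/-- sets of rank one -/
theorem emb_rank_one {A B : Set ℕ} (hA : ¬ R (Order.succ 1) A) (hB : B.Infinite) : Emb A B := by
  obtain ⟨w, -, hw⟩ := exists_center ((R_one_iff B).2 hB)
  obtain ⟨ν, hν, hν2⟩ := greedy (P := fun β n => R β (B ∩ shell w n)) hw (fun _ => 0)
    (fun _ => zero_lt_one)
  have h1 : ∀ k, ∃ b, b ∈ B ∩ shell w (ν k) := fun k => (hν2 k).nonempty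
  choose b hb using h1
  have hinj : Function.Injective b := by
    intro i j hij
    by_contra hne
    have hne' : ν i ≠ ν j := fun h => hne (hν.injective h)
    exact Set.disjoint_left.1 (shell_disjoint hne') (hb i).2 (hij ▸ (hb j).2)
  have hsub : ∀ k, (Set.range b ∩ shell w k).Subsingleton := by
    rintro k _ ⟨⟨i, rfl⟩, hi⟩ _ ⟨⟨j, rfl⟩, hj⟩
    have h2 : ν i = k := by
      by_contra hne
      exact Set.disjoint_left.1 (shell_disjoint hne) (hb i).2 hi
    have h3 : ν j = k := by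
      by_contra hne
      exact Set.disjoint_left.1 (shell_disjoint hne) (hb j).2 hj
    rw [hν.injective (h2.trans h3.symm)]
  have hB0 : ¬ R (Order.succ 1) (Set.range b) := by
    intro h
    obtain ⟨z, hz⟩ := R_succ_iff.1 h
    by_cases hzz : z = w
    · subst hzz
      obtain ⟨n, -, hn⟩ := hz 0
      exact (R_one_iff _).1 hn (hsub n).finite
    · obtain ⟨k, hk1, hk2⟩ := first_diff hzz
      obtain ⟨n, hn, hRn⟩ := hz (k + 1)
      apply (R_one_iff _).1 hRn
      apply Set.Finite.subset (hsub k).finite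
      apply inter_subset_inter_right
      exact (shell_subset_cyl _ _).trans (cyl_subset_shell hk1 hk2 hn)
  refine ⟨b, hinj.injOn, fun a _ => (hb a).1, ?_⟩
  intro S hS β
  rcases (show (0 : Ordinal.{0}) ≤ β from zero_le).eq_or_lt with h | h
  · rw [← h, R_zero, R_zero, Set.image_nonempty]
  · have h1 : (1 : Ordinal.{0}) ≤ β := by
      rw [one_eq_succ]; exact Order.succ_le_of_lt h
    rcases h1.eq_or_lt with h2 | h2
    · rw [← h2, R_one_iff, R_one_iff, Set.infinite_image_iff hinj.injOn]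
    · have h3 : Order.succ 1 ≤ β := Order.succ_le_of_lt h2
      constructor
      · intro h4
        exact absurd ((h4.anti h3).mono (Set.image_subset_range _ _)) hB0
      · intro h4
        exact absurd ((h4.anti h3).mono hS) hA

theorem main_emb (α : Ordinal.{0}) (hα : α < Ordinal.omega 1) :
    ∀ A B : Set ℕ, ¬ R (Order.succ α) A → R α B → B.Infinite → Emb A B := by
  induction α using WellFoundedLT.induction with
  | ind α ih =>
    intro A B hA hB hBi
    rcases (show (0 : Ordinal.{0}) ≤ α from zero_le).eq_or_lt with h | h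
    · subst h
      rw [← one_eq_succ, R_one_iff, Set.not_infinite] at hA
      exact emb_finite hA hBi
    have h1 : (1 : Ordinal.{0}) ≤ α := by
      rw [one_eq_succ]; exact Order.succ_le_of_lt h
    rcases h1.eq_or_lt with h2 | h2
    · subst h2
      exact emb_rank_one hA hBi
    -- now `1 < α`
    by_contra hcon
    have hQ : ∀ S T : Set ℕ, (¬ ∀ B, R α B → Emb (S ∪ T) B) →
        (¬ ∀ B, R α B → Emb S B) ∨ (¬ ∀ B, R α B → Emb T B) := by
      intro S T hST
      by_contra hcon2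
      rw [not_or, not_not, not_not] at hcon2
      apply hST
      intro B hB
      obtain ⟨B1, B2, hB1, hB2, hd, hR1, hR2⟩ := split hα h hB
      have h3 : S ∪ T = S ∪ (T \ S) := by rw [Set.union_sdiff_self]
      rw [h3]
      exact ((hcon2.1 B1 hR1).union ((hcon2.2 B2 hR2).mono_left Set.sdiff_subset)
        Set.disjoint_sdiff_right hd).mono_right (Set.union_subset hB1 hB2)
    obtain ⟨z, hz⟩ := koenig (fun S => ¬ ∀ B, R α B → Emb S B) hQ A
      (fun h3 => hcon (h3 B hB))
    have h3 : ∃ N : ℕ, ∀ n, N ≤ n → ¬ R α (A ∩ shell z n) := by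
      apply not_freq
      intro h4
      exact hA (R_succ_iff.2 ⟨z, h4⟩)
    obtain ⟨N, hN⟩ := h3
    apply hz N
    clear hB hBi hcon hz hA hQ B
    intro B hB
    -- ranks of the shells of `A ∩ cyl z N`
    have h5 : ∀ n, ∃ β, 1 ≤ β ∧ β < α ∧ ¬ R (Order.succ β) (A ∩ cyl z N ∩ shell z n) := by
      intro n
      have h6 : ¬ R α (A ∩ cyl z N ∩ shell z n) := by
        intro h7
        rcases Nat.lt_or_ge n N with h8 | h8
        · obtain ⟨s, ⟨-, hs1⟩, hs2⟩ := h7.nonempty
          exact Set.disjoint_left.1 (cyl_disjoint_shell h8) hs1 hs2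
        · apply hN n h8
          exact h7.mono (inter_subset_inter_left _ inter_subset_left)
      rcases (A ∩ cyl z N ∩ shell z n).eq_empty_or_nonempty with h7 | h7
      · exact ⟨1, le_refl _, h2, by rw [h7]; exact R_empty _⟩
      · rw [R_iff_succ] at h6
        push Not at h6
        obtain ⟨β, hβ, h8⟩ := h6 h7
        refine ⟨max β 1, le_max_right _ _, max_lt hβ h2, fun h9 => h8 (h9.anti ?_)⟩
        exact Order.succ_le_succ (le_max_left _ _)
    choose γ hγ1 hγ2 hγ3 using h5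
    obtain ⟨w, -, hw⟩ := exists_center hB
    obtain ⟨ν, hν, hν2⟩ := greedy (P := fun β n => R β (B ∩ shell w n)) hw
      (fun k => Nat.rec 1 (fun n _ => γ n) k) (fun k => by
        cases k with
        | zero => exact h2
        | succ n => exact hγ2 n)
    have e0 : R 1 (B ∩ shell w (ν 0)) := hν2 0
    have e1 : ∀ n, R (γ n) (B ∩ shell w (ν (n + 1))) := fun n => hν2 (n + 1)
    have hA0 : Emb (A ∩ cyl z N ∩ {s | ∃ n, s ∈ shell z n})
        (B ∩ ⋃ n, shell w (ν (n + 1))) := by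
      apply emb_shells (z := z) (fun s hs => hs.2) (fun n => ν (n + 1))
      · intro i j hij
        have := hν.injective hij
        omega
      · intro n
        apply (ih (γ n) (hγ2 n) ((hγ2 n).trans hα) _ _ (hγ3 n) (e1 n)
          ((e1 n).infinite (hγ1 n))).mono_left
        exact inter_subset_inter_left _ inter_subset_left
    have hA1 : Emb (A ∩ cyl z N ∩ {s | ¬ ∃ n, s ∈ shell z n}) (B ∩ shell w (ν 0)) := by
      apply emb_finite _ ((R_one_iff _).1 e0)
      apply Set.Subsingleton.finite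
      rintro s ⟨-, hs⟩ t ⟨-, ht⟩
      apply Nat.eq_of_testBit_eq
      intro i
      have h7 : ∀ i, s.testBit i = z i := by
        by_contra h8
        exact hs (exists_shell z s h8)
      have h8 : ∀ i, t.testBit i = z i := by
        by_contra h8
        exact ht (exists_shell z t h8)
      rw [h7, h8]
    have h9 := hA0.union hA1 (by
      rw [Set.disjoint_left]
      rintro s ⟨-, hs⟩ ⟨-, ht⟩
      exact ht hs) (by
      rw [Set.disjoint_left]
      rintro s ⟨-, hs⟩ ⟨-, ht⟩
      obtain ⟨n, hn⟩ := Set.mem_iUnion.1 hs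
      have hne : ν (n + 1) ≠ ν 0 := fun h => by
        have := hν.injective h
        omega
      exact Set.disjoint_left.1 (shell_disjoint hne) hn ht)
    have h10 : (A ∩ cyl z N ∩ {s | ∃ n, s ∈ shell z n}) ∪
        (A ∩ cyl z N ∩ {s | ¬ ∃ n, s ∈ shell z n}) = A ∩ cyl z N := by
      rw [← inter_union_distrib_left]
      apply inter_eq_self_of_subset_left
      intro s _
      exact em _
    rw [h10] at h9
    exact h9.mono_right (Set.union_subset inter_subset_left inter_subset_left)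

end Pool.Agent.Helper22.Orbits
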