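import Pool.Agent.Helper22.OrbitsRank

set_option autoImplicit false

namespace Pool.Agent.Helper22.Orbits

open Set

theorem pigeon {ι : Type} [Countable ι] (P : Ordinal.{0} → ι → Prop)
    (hanti : ∀ α β i, β ≤ α → P α i → P β i) (h : ∀ α < Ordinal.omega 1, ∃ i, P α i) :
    ∃ i, ∀ α < Ordinal.omega 1, P α i := by
  by_contra hcon
  push Not at hcon
  choose a ha1 ha2 using hcon
  have h1 : iSup a < Ordinal.omega 1 := Ordinal.iSup_lt_omega_one ha1
  obtain ⟨i, hi⟩ := h _ h1
  exact ha2 i (hanti _ _ i (Ordinal.le_iSup a i) hi)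

/-- the cylinder coded by a pair -/
def C (p : ℕ × ℕ) : Set ℕ := cyl (Nat.testBit p.1) p.2

/-- cylinders in which `B` has all countable ranks -/
def Top (B : Set ℕ) (p : ℕ × ℕ) : Prop := ∀ α < Ordinal.omega 1, R α (B ∩ C p)

theorem omega_one_succ {α : Ordinal.{0}} (h : α < Ordinal.omega 1) :
    Order.succ α < Ordinal.omega 1 := by
  have h2 := (Cardinal.isSuccLimit_omega 1)
  exact h2.succ_lt h

theorem one_lt_omega_one : (1 : Ordinal.{0}) < Ordinal.omega 1 := by
  have h1 : (0 : Ordinal.{0}) < Ordinal.omega 1 :=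
    lt_of_le_of_lt zero_le Ordinal.omega0_lt_omega_one
  have := omega_one_succ h1
  rwa [← one_eq_succ] at this

theorem mem_cyl_self (s n : ℕ) : s ∈ cyl (Nat.testBit s) n := fun _ _ => rfl

/-- a shell meeting a cylinder and deep enough is a cylinder inside it -/
theorem shell_code {z : ℕ → Bool} {m : ℕ} {s : ℕ} (hs : s ∈ shell z m) :
    shell z m = C (s, m + 1) := by
  ext t
  constructor
  · intro ht i hi
    rcases Nat.lt_succ_iff_lt_or_eq.1 hi with h1 | h1
    · rw [ht.1 i h1, hs.1 i h1]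
    · subst h1
      have h2 := ht.2
      have h3 := hs.2
      cases h4 : t.testBit i <;> cases h5 : s.testBit i <;> cases h6 : z i <;> simp_all
  · intro ht
    refine ⟨fun i hi => ?_, ?_⟩
    · rw [ht i (by simp only; omega), hs.1 i hi]
    · rw [ht m (by simp only; omega)]; exact hs.2

theorem top_split {B : Set ℕ} {p : ℕ × ℕ} (h : Top B p) :
    ∃ q : (ℕ × ℕ) × (ℕ × ℕ), Top B q.1 ∧ Top B q.2 ∧ p.2 < q.1.2 ∧ p.2 < q.2.2 ∧
      C q.1 ⊆ C p ∧ C q.2 ⊆ C p ∧ Disjoint (C q.1) (C q.2) := by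
  have h1 := pigeon (ι := (ℕ × ℕ) × (ℕ × ℕ)) (fun α q => R α (B ∩ C q.1) ∧ R α (B ∩ C q.2) ∧
    p.2 < q.1.2 ∧ p.2 < q.2.2 ∧ C q.1 ⊆ C p ∧ C q.2 ⊆ C p ∧ Disjoint (C q.1) (C q.2))
    (fun α β i hβ hi => ⟨hi.1.anti hβ, hi.2.1.anti hβ, hi.2.2⟩) (by
      intro α hα
      obtain ⟨z, hz⟩ := R_succ_iff.1 (h (Order.succ α) (omega_one_succ hα))
      obtain ⟨m1, hm1, hR1⟩ := hz (p.2 + 1)
      obtain ⟨m2, hm2, hR2⟩ := hz (m1 + 1)
      obtain ⟨s1, hs1⟩ := hR1.nonempty
      obtain ⟨s2, hs2⟩ := hR2.nonempty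
      have hsub : ∀ m s, p.2 < m → s ∈ B ∩ C p ∩ shell z m → C (s, m + 1) ⊆ C p := by
        intro m s hm hs t ht i hi
        have e1 : t.testBit i = s.testBit i := ht i (by simp only; omega)
        have e2 : s.testBit i = p.1.testBit i := hs.1.2 i hi
        rw [e1, e2]
      refine ⟨((s1, m1 + 1), (s2, m2 + 1)), ?_, ?_, ?_, ?_, ?_, ?_, ?_⟩
      · rw [← shell_code hs1.2]
        exact hR1.mono fun t ht => ⟨ht.1.1, ht.2⟩
      · rw [← shell_code hs2.2]
        exact hR2.mono fun t ht => ⟨ht.1.1, ht.2⟩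
      · simp only; omega
      · simp only; omega
      · exact hsub m1 s1 (by omega) hs1
      · exact hsub m2 s2 (by omega) hs2
      · rw [← shell_code hs1.2, ← shell_code hs2.2]
        exact shell_disjoint (by omega))
  obtain ⟨q, hq⟩ := h1
  have h0 := hq 1 one_lt_omega_one
  exact ⟨q, fun α hα => (hq α hα).1, fun α hα => (hq α hα).2.1, h0.2.2⟩

theorem top_step {B : Set ℕ} (p : {p : ℕ × ℕ // Top B p}) :
    ∃ (q : {p : ℕ × ℕ // Top B p} × {p : ℕ × ℕ // Top B p}) (b : ℕ),
      p.1.2 < q.1.1.2 ∧ p.1.2 < q.2.1.2 ∧ C q.1.1 ⊆ C p.1 ∧ C q.2.1 ⊆ C p.1 ∧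
      Disjoint (C q.1.1) (C q.2.1) ∧ b ∈ B ∧ b ∈ C p.1 ∧ b ∉ C q.1.1 ∧ b ∉ C q.2.1 := by
  obtain ⟨q, h1, h2, h3, h4, h5, h6, h7⟩ := top_split p.2
  obtain ⟨r, k1, k2, k3, k4, k5, k6, k7⟩ := top_split h2
  obtain ⟨b, hb1, hb2⟩ := (k2 1 one_lt_omega_one).nonempty
  refine ⟨(⟨q.1, h1⟩, ⟨r.1, k1⟩), b, h3, h4.trans k3, h5, k5.trans h6, ?_, hb1, h6 (k6 hb2), ?_, ?_⟩
  · exact Set.disjoint_of_subset_right k5 h7
  · exact Set.disjoint_right.1 h7 (k6 hb2)
  · exact Set.disjoint_right.1 k7 hb2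

section scheme

variable {B : Set ℕ} (hB : ∀ α < Ordinal.omega 1, R α B)

noncomputable def stepQ (p : {p : ℕ × ℕ // Top B p}) :
    {p : ℕ × ℕ // Top B p} × {p : ℕ × ℕ // Top B p} := (top_step p).choose

noncomputable def stepB (p : {p : ℕ × ℕ // Top B p}) : ℕ := (top_step p).choose_spec.choose

theorem step_spec (p : {p : ℕ × ℕ // Top B p}) :
    p.1.2 < (stepQ p).1.1.2 ∧ p.1.2 < (stepQ p).2.1.2 ∧ C (stepQ p).1.1 ⊆ C p.1 ∧
      C (stepQ p).2.1 ⊆ C p.1 ∧ Disjoint (C (stepQ p).1.1) (C (stepQ p).2.1) ∧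
      stepB p ∈ B ∧ stepB p ∈ C p.1 ∧ stepB p ∉ C (stepQ p).1.1 ∧ stepB p ∉ C (stepQ p).2.1 :=
  (top_step p).choose_spec.choose_spec

include hB in
theorem top_zero : Top B (0, 0) := by
  intro α hα
  rw [C, cyl_zero, inter_univ]
  exact hB α hα

noncomputable def node : List Bool → {p : ℕ × ℕ // Top B p}
  | [] => ⟨(0, 0), top_zero hB⟩
  | false :: σ => (stepQ (node σ)).1
  | true :: σ => (stepQ (node σ)).2

theorem node_lt (b : Bool) (σ : List Bool) : (node hB σ).1.2 < (node hB (b :: σ)).1.2 := by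
  cases b
  · exact (step_spec (node hB σ)).1
  · exact (step_spec (node hB σ)).2.1

theorem node_subset (b : Bool) (σ : List Bool) : C (node hB (b :: σ)).1 ⊆ C (node hB σ).1 := by
  cases b
  · exact (step_spec (node hB σ)).2.2.1
  · exact (step_spec (node hB σ)).2.2.2.1

theorem node_disj {b b' : Bool} (h : b ≠ b') (σ : List Bool) :
    Disjoint (C (node hB (b :: σ)).1) (C (node hB (b' :: σ)).1) := by
  cases b <;> cases b'
  · exact absurd rfl h
  · exact (step_spec (node hB σ)).2.2.2.2.1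
  · exact (step_spec (node hB σ)).2.2.2.2.1.symm
  · exact absurd rfl h

theorem stepB_mem (σ : List Bool) : stepB (node hB σ) ∈ B :=
  (step_spec (node hB σ)).2.2.2.2.2.1

theorem stepB_mem' (σ : List Bool) : stepB (node hB σ) ∈ C (node hB σ).1 :=
  (step_spec (node hB σ)).2.2.2.2.2.2.1

theorem stepB_notMem (b : Bool) (σ : List Bool) :
    stepB (node hB σ) ∉ C (node hB (b :: σ)).1 := by
  cases b
  · exact (step_spec (node hB σ)).2.2.2.2.2.2.2.1
  · exact (step_spec (node hB σ)).2.2.2.2.2.2.2.2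

/-- initial part of `z` of length `n`, in reverse order -/
def nd (z : ℕ → Bool) : ℕ → List Bool
  | 0 => []
  | n + 1 => z n :: nd z n

theorem nd_congr {z w : ℕ → Bool} {n : ℕ} (h : ∀ i < n, z i = w i) : nd z n = nd w n := by
  induction n with
  | zero => rfl
  | succ n ih =>
    rw [nd, nd, ih (fun i hi => h i (by omega)), h n (by omega)]

/-- the cylinder and its length -/
noncomputable def cy (z : ℕ → Bool) (n : ℕ) : Set ℕ := C (node hB (nd z n)).1
noncomputable def len (z : ℕ → Bool) (n : ℕ) : ℕ := (node hB (nd z n)).1.2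

theorem len_lt (z : ℕ → Bool) (n : ℕ) : len hB z n < len hB z (n + 1) := node_lt hB _ _

theorem len_strictMono (z : ℕ → Bool) : StrictMono (len hB z) := strictMono_nat_of_lt_succ (len_lt hB z)

theorem le_len (z : ℕ → Bool) (n : ℕ) : n ≤ len hB z n := (len_strictMono hB z).le_apply

theorem cy_anti (z : ℕ → Bool) : Antitone (cy hB z) :=
  antitone_nat_of_succ_le fun _ => node_subset hB _ _

theorem cy_congr {z w : ℕ → Bool} {n : ℕ} (h : ∀ i < n, z i = w i) : cy hB z n = cy hB w n := by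
  rw [cy, cy, nd_congr h]

/-- the embedding -/
noncomputable def emb (s : ℕ) : ℕ := stepB (node hB (nd (Nat.testBit s) s))

theorem emb_mem (s : ℕ) : emb hB s ∈ B := stepB_mem hB _

theorem emb_mem_iff (z : ℕ → Bool) (n s : ℕ) : emb hB s ∈ cy hB z n ↔ s ∈ cyl z n ∧ n ≤ s := by
  constructor
  · intro h
    by_contra hcon
    by_cases hs : s ∈ cyl z n
    · have hlt : s < n := by
        by_contra h2
        exact hcon ⟨hs, by omega⟩
      have h3 : emb hB s ∈ cy hB z (s + 1) := cy_anti hB z hlt h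
      have h4 : nd z s = nd (Nat.testBit s) s := (nd_congr fun i hi => hs i (by omega)).symm
      rw [cy, nd, h4] at h3
      exact stepB_notMem hB _ _ h3
    · -- first difference
      have h5 : ∃ k, k < n ∧ s.testBit k ≠ z k ∧ ∀ i < k, s.testBit i = z i := by
        classical
        have h6 : ∃ k, k < n ∧ s.testBit k ≠ z k := by
          by_contra h7
          push Not at h7
          exact hs fun i hi => h7 i hi
        refine ⟨Nat.find h6, (Nat.find_spec h6).1, (Nat.find_spec h6).2, fun i hi => ?_⟩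
        by_contra h8
        exact Nat.find_min h6 hi ⟨hi.trans (Nat.find_spec h6).1, h8⟩
      obtain ⟨k, hk, hk2, hk3⟩ := h5
      rcases Nat.lt_or_ge k s with hks | hks
      · have h6 : emb hB s ∈ cy hB (Nat.testBit s) s := stepB_mem' hB _
        have h7 : emb hB s ∈ cy hB (Nat.testBit s) (k + 1) := cy_anti hB _ hks h6
        have h8 : emb hB s ∈ cy hB z (k + 1) := cy_anti hB z hk h
        rw [cy, nd, nd_congr hk3] at h7
        rw [cy, nd] at h8
        exact Set.disjoint_left.1 (node_disj hB hk2 (nd z k)) h7 h8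
      · have h3 : emb hB s ∈ cy hB z (s + 1) := cy_anti hB z (by omega) h
        have h4 : nd z s = nd (Nat.testBit s) s :=
          (nd_congr fun i hi => hk3 i (by omega)).symm
        rw [cy, nd, h4] at h3
        exact stepB_notMem hB _ _ h3
  · rintro ⟨h1, h2⟩
    have h6 : emb hB s ∈ cy hB (Nat.testBit s) s := stepB_mem' hB _
    have h7 := cy_anti hB (Nat.testBit s) h2 h6
    rwa [cy_congr hB h1] at h7

theorem emb_injective : Function.Injective (emb hB) := by
  have key : ∀ s t, s < t → emb hB s ≠ emb hB t := by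
    intro s t hst h
    have h1 : emb hB t ∈ cy hB (Nat.testBit t) t := stepB_mem' hB _
    rw [← h, emb_mem_iff] at h1
    omega
  intro s t h
  rcases lt_trichotomy s t with h1 | h1 | h1
  · exact absurd h (key s t h1)
  · exact h1
  · exact absurd h.symm (key t s h1)

/-- the limit point of the cylinders along `z` -/
noncomputable def lim (z : ℕ → Bool) (i : ℕ) : Bool := (node hB (nd z (i + 1))).1.1.testBit i

theorem center_mem (z : ℕ → Bool) (n : ℕ) : (node hB (nd z n)).1.1 ∈ cy hB z n := fun _ _ => rfl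

theorem lim_eq (z : ℕ → Bool) (n i : ℕ) (hi : i < len hB z n) :
    lim hB z i = (node hB (nd z n)).1.1.testBit i := by
  rcases Nat.le_total n (i + 1) with h | h
  · exact cy_anti hB z h (center_mem hB z (i + 1)) i hi
  · have h2 : i < len hB z (i + 1) := lt_of_lt_of_le (Nat.lt_succ_self i) (le_len hB z (i + 1))
    exact (cy_anti hB z h (center_mem hB z n) i h2).symm

theorem cy_eq (z : ℕ → Bool) (n : ℕ) : cy hB z n = cyl (lim hB z) (len hB z n) :=
  cyl_congr fun i hi => (lim_eq hB z n i hi).symm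

theorem exists_shell_between {β : Ordinal.{0}} {X : Set ℕ} {w : ℕ → Bool} {a b : ℕ} (hab : a ≤ b)
    (h : R β (X ∩ (cyl w a \ cyl w b))) : ∃ k, a ≤ k ∧ k < b ∧ R β (X ∩ shell w k) := by
  induction b, hab using Nat.le_induction with
  | base =>
    rw [Set.sdiff_self, inter_empty] at h
    exact absurd h (R_empty _)
  | succ b hab ih =>
    have h1 : X ∩ (cyl w a \ cyl w (b + 1)) ⊆ (X ∩ (cyl w a \ cyl w b)) ∪ (X ∩ shell w b) := by
      rintro s ⟨hs1, hs2, hs3⟩
      by_cases h2 : s ∈ cyl w b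
      · right
        rw [cyl_eq] at h2
        exact ⟨hs1, h2.resolve_left hs3⟩
      · exact Or.inl ⟨hs1, hs2, h2⟩
    rcases (h.mono h1).union with h2 | h2
    · obtain ⟨k, hk1, hk2, hk3⟩ := ih h2
      exact ⟨k, hk1, by omega, hk3⟩
    · exact ⟨b, hab, by omega, h2⟩

theorem not_R_finite {β : Ordinal.{0}} (hβ : 1 ≤ β) {S : Set ℕ} (hS : S.Finite) : ¬ R β S :=
  fun h => h.infinite hβ hS

theorem emb_step {β : Ordinal.{0}} (hβ : 1 ≤ β) (ih : ∀ S, R β (emb hB '' S) ↔ R β S) (S : Set ℕ) :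
    R (Order.succ β) (emb hB '' S) ↔ R (Order.succ β) S := by
  constructor
  · intro h
    obtain ⟨w, hw⟩ := R_succ_iff.1 h
    obtain ⟨z, hz⟩ := koenig (fun T => ∀ N : ℕ, ∃ k, N ≤ k ∧ R β (emb hB '' T ∩ shell w k)) (by
      intro T T' h
      apply freq_or
      intro N
      obtain ⟨k, hk, hR⟩ := h N
      refine ⟨k, hk, ?_⟩
      rw [image_union, union_inter_distrib_right] at hR
      exact hR.union) S hw
    have hlim : w = lim hB z := by
      funext i
      have h1 : i < len hB z (i + 1) := lt_of_lt_of_le (Nat.lt_succ_self i) (le_len hB z (i + 1))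
      obtain ⟨k, hk, hR⟩ := hz (i + 1) (i + 1)
      have hinf : ((emb hB '' (S ∩ cyl z (i + 1)) ∩ shell w k) \ (emb hB '' {s | s < i + 1})).Nonempty := by
        apply Set.Infinite.nonempty
        exact (hR.infinite hβ).sdiff ((Set.finite_lt_nat (i + 1)).image _)
      obtain ⟨t, ⟨⟨s, hs, rfl⟩, ht2⟩, ht3⟩ := hinf
      have hs2 : i + 1 ≤ s := by
        by_contra hlt
        exact ht3 ⟨s, by simpa using hlt, rfl⟩
      have h3 : emb hB s ∈ cy hB z (i + 1) := (emb_mem_iff hB z (i + 1) s).2 ⟨hs.2, hs2⟩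
      rw [cy_eq] at h3
      have h4 : (emb hB s).testBit i = w i := ht2.1 i (by omega)
      have h5 : (emb hB s).testBit i = lim hB z i := h3 i h1
      rw [← h4, h5]
    subst hlim
    apply R_succ_iff.2
    refine ⟨z, fun K => ?_⟩
    obtain ⟨k, hk, hR⟩ := hw (len hB z K)
    -- find `n` with `len n ≤ k < len (n+1)`
    obtain ⟨n, hn1, hn2⟩ : ∃ n, len hB z n ≤ k ∧ k < len hB z (n + 1) := by
      classical
      have hex : ∃ n, k < len hB z n := ⟨k + 1, lt_of_lt_of_le (Nat.lt_succ_self k) (le_len hB z (k + 1))⟩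
      have h1 := Nat.find_spec hex
      have h2 : 0 < Nat.find hex := by
        rcases Nat.eq_zero_or_pos (Nat.find hex) with h3 | h3
        · exfalso
          rw [h3] at h1
          have : len hB z 0 ≤ len hB z K := (len_strictMono hB z).monotone (Nat.zero_le K)
          omega
        · exact h3
      refine ⟨Nat.find hex - 1, ?_, ?_⟩
      · have := Nat.find_min hex (m := Nat.find hex - 1) (by omega)
        omega
      · rwa [Nat.sub_add_cancel h2]
    refine ⟨n, ?_, ?_⟩
    · by_contra hlt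
      push Not at hlt
      have : len hB z (n + 1) ≤ len hB z K := (len_strictMono hB z).monotone hlt
      omega
    · have h1 : emb hB '' S ∩ shell (lim hB z) k =
          emb hB '' {s ∈ S | emb hB s ∈ shell (lim hB z) k} := by
        ext t
        constructor
        · rintro ⟨⟨s, hs, rfl⟩, ht⟩; exact ⟨s, ⟨hs, ht⟩, rfl⟩
        · rintro ⟨s, ⟨hs, ht⟩, rfl⟩; exact ⟨⟨s, hs, rfl⟩, ht⟩
      rw [h1, ih] at hR
      have h2 : {s ∈ S | emb hB s ∈ shell (lim hB z) k} ⊆ (S ∩ shell z n) ∪ {n} := by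
        rintro s ⟨hs, hs2⟩
        have h3 : emb hB s ∈ cy hB z n := by
          rw [cy_eq]; exact cyl_anti hn1 hs2.1
        have h4 : emb hB s ∉ cy hB z (n + 1) := by
          rw [cy_eq]
          intro h5
          exact Set.disjoint_left.1 (cyl_disjoint_shell hn2) h5 hs2
        rw [emb_mem_iff] at h3 h4
        by_cases h5 : s = n
        · exact Or.inr h5
        · left
          refine ⟨hs, ?_⟩
          have h6 := h3.1
          rw [cyl_eq] at h6
          refine h6.resolve_left fun h7 => h4 ⟨h7, ?_⟩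
          have := h3.2
          omega
      rcases (hR.mono h2).union with h3 | h3
      · exact h3
      · exact absurd h3 (not_R_finite hβ (Set.finite_singleton n))
  · intro h
    obtain ⟨z, hz⟩ := R_succ_iff.1 h
    apply R_succ_iff.2
    refine ⟨lim hB z, fun K => ?_⟩
    obtain ⟨n, hn, hR⟩ := hz K
    rw [← ih] at hR
    have h1 : emb hB '' (S ∩ shell z n) ⊆
        (emb hB '' S ∩ (cyl (lim hB z) (len hB z n) \ cyl (lim hB z) (len hB z (n + 1)))) ∪
          emb hB '' {s | s < n} := by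
      rintro _ ⟨s, ⟨hs1, hs2⟩, rfl⟩
      rcases Nat.lt_or_ge s n with h2 | h2
      · exact Or.inr ⟨s, h2, rfl⟩
      · left
        refine ⟨⟨s, hs1, rfl⟩, ?_, ?_⟩
        · rw [← cy_eq, emb_mem_iff]
          exact ⟨hs2.1, h2⟩
        · rw [← cy_eq, emb_mem_iff]
          rintro ⟨h3, -⟩
          exact Set.disjoint_left.1 (cyl_disjoint_shell (Nat.lt_succ_self n)) h3 hs2
    rcases (hR.mono h1).union with h2 | h2
    · obtain ⟨k, hk1, -, hk3⟩ := exists_shell_between (len_lt hB z n).le h2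
      have := le_len hB z n
      exact ⟨k, by omega, hk3⟩
    · exact absurd h2 (not_R_finite hβ ((Set.finite_lt_nat n).image _))

theorem emb_pres (γ : Ordinal.{0}) : ∀ S, R γ (emb hB '' S) ↔ R γ S := by
  induction γ using WellFoundedLT.induction with
  | ind γ ih =>
    intro S
    rw [R_iff_succ, R_iff_succ, Set.image_nonempty]
    apply and_congr_right
    intro _
    apply forall₂_congr
    intro β hβ
    rcases (show (0 : Ordinal.{0}) ≤ β from zero_le).eq_or_lt with h | h
    · rw [← h, ← one_eq_succ, R_one_iff, R_one_iff, Set.infinite_image_iff (emb_injective hB).injOn]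
    · have h1 : (1 : Ordinal.{0}) ≤ β := by
        rw [one_eq_succ]; exact Order.succ_le_of_lt h
      exact emb_step hB h1 (ih β hβ) S

end scheme

theorem top_emb {B : Set ℕ} (hB : ∀ α < Ordinal.omega 1, R α B) (A : Set ℕ) : Emb A B :=
  ⟨emb hB, (emb_injective hB).injOn, fun s _ => emb_mem hB s, fun S _ β => emb_pres hB β S⟩

/-- homogeneity -/
theorem homog {A B : Set ℕ} (hA : A.Infinite) (hB : B.Infinite)
    (h : ∀ α < Ordinal.omega 1, R α A ↔ R α B) : ∃ f : ℕ → ℕ, Set.BijOn f A B ∧ Pres f A := by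
  by_cases hT : ∀ α < Ordinal.omega 1, R α A
  · exact csb (top_emb (fun α hα => (h α hα).1 (hT α hα)) A) (top_emb hT B)
  · push Not at hT
    obtain ⟨α, hα, hR⟩ := hT
    have hex : ∃ γ, γ < Ordinal.omega 1 ∧ ¬ R (Order.succ γ) A := by
      rw [R_iff_succ] at hR
      push Not at hR
      obtain ⟨β, hβ, h1⟩ := hR hA.nonempty
      exact ⟨β, hβ.trans hα, h1⟩
    obtain ⟨γ, ⟨hγ1, hγ2⟩, hmin⟩ := WellFounded.has_min (wellFounded_lt (α := Ordinal.{0}))
      {γ | γ < Ordinal.omega 1 ∧ ¬ R (Order.succ γ) A} hex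
    have hRA : R γ A := by
      rw [R_iff_succ]
      refine ⟨hA.nonempty, fun β hβ => ?_⟩
      by_contra hcon
      exact hmin β ⟨hβ.trans hγ1, hcon⟩ hβ
    have hRB : R γ B := (h γ hγ1).1 hRA
    have hγB : ¬ R (Order.succ γ) B := fun h1 => hγ2 ((h _ (omega_one_succ hγ1)).2 h1)
    exact csb (main_emb γ hγ1 A B hγ2 hRB hB) (main_emb γ hγ1 B A hγB hRA hA)

end Pool.Agent.Helper22.Orbits
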