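import Mathlib

set_option autoImplicit false

namespace Pool.Agent.Helper22.REH

open Encodable Denumerable Nat.Partrec

/-- c.e. predicates as projections of primitive recursive relations -/
def RE' {α : Type} [Primcodable α] (p : α → Prop) : Prop :=
  ∃ R : α → ℕ → Prop, PrimrecRel R ∧ ∀ a, p a ↔ ∃ n, R a n

variable {α β : Type} [Primcodable α] [Primcodable β]

theorem RE'.toRE {p : α → Prop} (h : RE' p) : REPred p := by
  classical
  obtain ⟨R, hR, hp⟩ := h
  have h1 : Partrec fun a => Nat.rfind (fun t => Part.some (decide (R a t))) := by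
    apply Partrec.rfind
    have h : Computable₂ (fun (a : α) (t : ℕ) => decide (R a t)) := hR.decide.to_comp
    exact h.partrec₂
  refine h1.dom_re.of_eq fun a => ?_
  rw [hp]
  change (∃ n : ℕ, true ∈ (Part.some (decide (R a n)) : Part Bool) ∧
      ∀ {m : ℕ}, m < n → (Part.some (decide (R a m)) : Part Bool).Dom) ↔ _
  constructor
  · rintro ⟨n, h, -⟩
    rw [Part.mem_some_iff] at h
    exact ⟨n, by simpa using h.symm⟩
  · rintro ⟨t, ht⟩
    exact ⟨t, by rw [Part.mem_some_iff]; simpa using ht, fun _ => trivial⟩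

/-- a code for a c.e. predicate -/
theorem exists_code {p : α → Prop} (h : REPred p) :
    ∃ c : Code, ∀ a, p a ↔ (c.eval (encode a)).Dom := by
  obtain ⟨c, hc⟩ := Code.exists_code.1 h
  refine ⟨c, fun a => ?_⟩
  rw [hc]
  simp only [encodek, Part.coe_some, Part.bind_some]
  exact ⟨fun h => ⟨h, trivial⟩, fun ⟨h, _⟩ => h⟩

theorem code_dom_iff (c : Code) (n : ℕ) : (c.eval n).Dom ↔ ∃ k, (Code.evaln k c n).isSome = true := by
  rw [Part.dom_iff_mem]
  constructor
  · rintro ⟨x, hx⟩
    obtain ⟨k, hk⟩ := Code.evaln_complete.1 hx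
    exact ⟨k, Option.isSome_iff_exists.2 ⟨x, hk⟩⟩
  · rintro ⟨k, hk⟩
    obtain ⟨x, hx⟩ := Option.isSome_iff_exists.1 hk
    exact ⟨x, Code.evaln_sound hx⟩

theorem RE'.ofRE {p : α → Prop} (h : REPred p) : RE' p := by
  obtain ⟨c, hc⟩ := exists_code h
  refine ⟨fun a k => (Code.evaln k c (encode a)).isSome = true, ?_, fun a => ?_⟩
  · have h1 : Primrec fun q : α × ℕ => ((q.2, c), encode q.1) :=
      Primrec.pair (Primrec.pair Primrec.snd (Primrec.const c)) (Primrec.encode.comp Primrec.fst)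
    exact Primrec.eq.comp (Primrec.option_isSome.comp (Code.primrec_evaln.comp h1))
      (Primrec.const true)
  · rw [hc, code_dom_iff]

theorem RE'.of_prim {p : α → Prop} (h : PrimrecPred p) : RE' p :=
  ⟨fun a _ => p a, h.comp Primrec.fst, fun _ => ⟨fun h => ⟨0, h⟩, fun ⟨_, h⟩ => h⟩⟩

theorem RE'.comp {p : β → Prop} (h : RE' p) {f : α → β} (hf : Primrec f) :
    RE' fun a => p (f a) := by
  obtain ⟨R, hR, hp⟩ := h
  exact ⟨fun a n => R (f a) n, hR.comp (hf.comp Primrec.fst) Primrec.snd,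
    fun a => hp (f a)⟩

theorem RE'.or {p q : α → Prop} (hp : RE' p) (hq : RE' q) : RE' fun a => p a ∨ q a := by
  obtain ⟨R, hR, hp⟩ := hp
  obtain ⟨S, hS, hq⟩ := hq
  refine ⟨fun a n => R a n ∨ S a n, PrimrecPred.or hR hS, fun a => ?_⟩
  change p a ∨ q a ↔ ∃ n, R a n ∨ S a n
  rw [hp, hq, exists_or]

theorem RE'.and {p q : α → Prop} (hp : RE' p) (hq : RE' q) : RE' fun a => p a ∧ q a := by
  obtain ⟨R, hR, hp⟩ := hp
  obtain ⟨S, hS, hq⟩ := hq
  refine ⟨fun a n => R a n.unpair.1 ∧ S a n.unpair.2, PrimrecPred.and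
    (hR.comp Primrec.fst (Primrec.fst.comp (Primrec.unpair.comp Primrec.snd)))
    (hS.comp Primrec.fst (Primrec.snd.comp (Primrec.unpair.comp Primrec.snd))),
    fun a => ?_⟩
  change p a ∧ q a ↔ ∃ n : ℕ, R a n.unpair.1 ∧ S a n.unpair.2
  rw [hp, hq]
  constructor
  · rintro ⟨⟨m, hm⟩, ⟨n, hn⟩⟩
    exact ⟨Nat.pair m n, by simpa using ⟨hm, hn⟩⟩
  · rintro ⟨n, h1, h2⟩
    exact ⟨⟨_, h1⟩, ⟨_, h2⟩⟩

theorem RE'.ex {p : α × ℕ → Prop} (hp : RE' p) : RE' fun a => ∃ b, p (a, b) := by
  obtain ⟨R, hR, hp⟩ := hp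
  refine ⟨fun a n => R (a, n.unpair.1) n.unpair.2,
    hR.comp (Primrec.pair Primrec.fst
      (Primrec.fst.comp (Primrec.unpair.comp Primrec.snd)))
      (Primrec.snd.comp (Primrec.unpair.comp Primrec.snd)), fun a => ?_⟩
  constructor
  · rintro ⟨b, hb⟩
    obtain ⟨n, hn⟩ := (hp (a, b)).1 hb
    exact ⟨Nat.pair b n, by simpa using hn⟩
  · rintro ⟨n, hn⟩
    exact ⟨_, (hp _).2 ⟨_, hn⟩⟩

/-- one step of the chain checker -/
def stepc (B : ℕ → ℕ → Prop) (E : ℕ × ℕ → ℕ → Prop) [DecidableRel B] [DecidableRel E]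
    (s y acc : ℕ) : ℕ :=
  if acc = 0 then (if B y s then y + 2 else 1) else
    if acc = 1 then 1 else if E (y, acc - 2) s then y + 2 else 1

/-- inductively generated c.e. sets -/
theorem closure_re (A : ℕ → Prop) (Base : ℕ → Prop) (E : ℕ × ℕ → Prop) (hB : REPred Base)
    (hE : REPred E) (h1 : ∀ y, Base y → A y) (h2 : ∀ y x, E (y, x) → A x → A y)
    (h3 : ∀ y, A y → Base y ∨ ∃ x < y, E (y, x) ∧ A x) : REPred A := by
  classical
  obtain ⟨RB, hRB, hB'⟩ := RE'.ofRE hB
  obtain ⟨RE, hRE, hE'⟩ := RE'.ofRE hE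
  -- stage versions
  set B : ℕ → ℕ → Prop := fun y s => ∃ n ∈ List.range s, RB y n with hBdef
  set F : ℕ × ℕ → ℕ → Prop := fun y s => ∃ n ∈ List.range s, RE y n with hFdef
  have hBp : PrimrecRel B := by
    have h0 : PrimrecRel fun (n : ℕ) (y : ℕ) => RB y n := hRB.comp Primrec.snd Primrec.fst
    exact h0.exists_mem_list.comp (Primrec.list_range.comp Primrec.snd) Primrec.fst
  have hFp : PrimrecRel F := by
    have h0 : PrimrecRel fun (n : ℕ) (y : ℕ × ℕ) => RE y n :=
      hRE.comp Primrec.snd Primrec.fst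
    exact h0.exists_mem_list.comp (Primrec.list_range.comp Primrec.snd) Primrec.fst
  have hBm : ∀ y s s', s ≤ s' → B y s → B y s' := by
    rintro y s s' hs ⟨n, hn, h⟩
    exact ⟨n, List.mem_range.2 (by have := List.mem_range.1 hn; omega), h⟩
  have hFm : ∀ y s s', s ≤ s' → F y s → F y s' := by
    rintro y s s' hs ⟨n, hn, h⟩
    exact ⟨n, List.mem_range.2 (by have := List.mem_range.1 hn; omega), h⟩
  let chk : ℕ → List ℕ → ℕ := fun s l => l.foldr (fun y acc => stepc B F s y acc) 0
  have hchk : Primrec₂ chk := by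
    refine Primrec.list_foldr (f := fun a : ℕ × List ℕ => a.2) (g := fun _ => 0)
      (h := fun (a : ℕ × List ℕ) (b : ℕ × ℕ) => stepc B F a.1 b.1 b.2) Primrec.snd
      (Primrec.const 0) ?_
    unfold stepc
    have hs : Primrec fun q : (ℕ × List ℕ) × ℕ × ℕ => q.1.1 := Primrec.fst.comp Primrec.fst
    have hy : Primrec fun q : (ℕ × List ℕ) × ℕ × ℕ => q.2.1 := Primrec.fst.comp Primrec.snd
    have ha : Primrec fun q : (ℕ × List ℕ) × ℕ × ℕ => q.2.2 := Primrec.snd.comp Primrec.snd
    have hy2 : Primrec fun q : (ℕ × List ℕ) × ℕ × ℕ => q.2.1 + 2 :=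
      Primrec.nat_add.comp hy (Primrec.const 2)
    refine Primrec.ite (Primrec.eq.comp ha (Primrec.const 0)) (Primrec.ite
      (hBp.comp hy hs) hy2 (Primrec.const 1)) (Primrec.ite
      (Primrec.eq.comp ha (Primrec.const 1)) (Primrec.const 1) (Primrec.ite
      (hFp.comp (Primrec.pair hy (Primrec.nat_sub.comp ha (Primrec.const 2))) hs)
      hy2 (Primrec.const 1)))
  have hcons : ∀ s y l, chk s (y :: l) = stepc B F s y (chk s l) := fun _ _ _ => rfl
  have hmono : ∀ s s' l, s ≤ s' → ∀ y, chk s l = y + 2 → chk s' l = y + 2 := by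
    intro s s' l hs
    induction l with
    | nil => intro y h; simp [chk] at h
    | cons z l ih =>
      intro y h
      rw [hcons] at h ⊢
      unfold stepc at h
      split_ifs at h with c1 c2 c3 c4
      · have hl : l = [] := by
          cases l with
          | nil => rfl
          | cons w l =>
            exfalso
            rw [hcons] at c1
            unfold stepc at c1
            split_ifs at c1
        subst hl
        have : chk s' [] = 0 := rfl
        rw [this]
        unfold stepc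
        rw [if_pos rfl, if_pos (hBm _ _ _ hs c2)]
        exact h
      · omega
      · omega
      · obtain ⟨x, hx⟩ : ∃ x, chk s l = x + 2 := ⟨chk s l - 2, by omega⟩
        rw [hx] at c4
        rw [ih x hx]
        unfold stepc
        rw [if_neg (by omega), if_neg (by omega), if_pos (hFm _ _ _ hs c4)]
        exact h
      · omega
  have hsound : ∀ s l y, chk s l = y + 2 → A y := by
    intro s l
    induction l with
    | nil => intro y h; simp [chk] at h
    | cons z l ih =>
      intro y h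
      rw [hcons] at h
      unfold stepc at h
      split_ifs at h with c1 c2 c3 c4
      · have : z = y := by omega
        subst this
        obtain ⟨n, _, hn⟩ := c2
        exact h1 _ ((hB' _).2 ⟨n, hn⟩)
      · omega
      · omega
      · have : z = y := by omega
        subst this
        obtain ⟨x, hx⟩ : ∃ x, chk s l = x + 2 := ⟨chk s l - 2, by omega⟩
        rw [hx] at c4
        obtain ⟨n, _, hn⟩ := c4
        exact h2 _ _ ((hE' _).2 ⟨n, hn⟩) (ih x hx)
      · omega
  have hcomplete : ∀ y, A y → ∃ s l, chk s l = y + 2 := by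
    intro y
    induction y using Nat.strong_induction_on with
    | _ y ih =>
      intro hy
      rcases h3 y hy with h | ⟨x, hxy, hE1, hx⟩
      · obtain ⟨n, hn⟩ := (hB' y).1 h
        refine ⟨n + 1, [y], ?_⟩
        have : chk (n + 1) [] = 0 := rfl
        rw [hcons, this]
        unfold stepc
        rw [if_pos rfl, if_pos ⟨n, by simp, hn⟩]
      · obtain ⟨s, l, hl⟩ := ih x hxy hx
        obtain ⟨n, hn⟩ := (hE' _).1 hE1
        refine ⟨s + n + 1, y :: l, ?_⟩
        rw [hcons, hmono s (s + n + 1) l (by omega) x hl]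
        unfold stepc
        rw [if_neg (by omega), if_neg (by omega), if_pos ⟨n, by simp, hn⟩]
  apply RE'.toRE
  refine ⟨fun y n => chk n.unpair.1 (ofNat (List ℕ) n.unpair.2) = y + 2, ?_, fun y => ?_⟩
  · have hn : Primrec fun q : ℕ × ℕ => q.2.unpair.1 := Primrec.fst.comp (Primrec.unpair.comp Primrec.snd)
    have hl : Primrec fun q : ℕ × ℕ => ofNat (List ℕ) q.2.unpair.2 :=
      (Primrec.ofNat (List ℕ)).comp (Primrec.snd.comp (Primrec.unpair.comp Primrec.snd))
    exact Primrec.eq.comp (hchk.comp hn hl) (Primrec.nat_add.comp Primrec.fst (Primrec.const 2))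
  · constructor
    · intro hy
      obtain ⟨s, l, h⟩ := hcomplete y hy
      refine ⟨Nat.pair s (encode l), ?_⟩
      simp only [Nat.unpair_pair, ofNat_encode]
      exact h
    · rintro ⟨n, hn⟩
      exact hsound _ _ y hn

end Pool.Agent.Helper22.REH
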