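import Pool.Agent.Helper22.REHelp

set_option autoImplicit false

namespace Pool.Agent.Helper22.SInf

open Encodable Denumerable Pool.Agent.Helper22.REH

open Nat.Partrec (Code)

/-- singleton reducibility -/
def SRed (X Y : Set ℕ) : Prop :=
  ∃ W : ℕ × Option ℕ → Prop, REPred W ∧ ∀ x : ℕ, x ∈ X ↔ ∃ o : Option ℕ, W (x, o) ∧ ∀ y ∈ o, y ∈ Y

/-- requirement `e` finds at `t` an axiom for `y` with an element in a column of index at least
`max e y` -/
def Fnd (n t : ℕ) : Prop :=
  (Code.evaln t.unpair.1 (ofNat Code n.unpair.1) (encode (n.unpair.2, some t.unpair.2))).isSome = true ∧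
    n.unpair.1 ≤ t.unpair.2.unpair.1 ∧ n.unpair.2 ≤ t.unpair.2.unpair.1

/-- `t` is the least such -/
def Fst (n t : ℕ) : Prop := Fnd n t ∧ ∀ t' < t, ¬ Fnd n t'

/-- the dumped elements -/
def Dmp (b : ℕ) : Prop := ∃ n t, Fst n t ∧ t.unpair.2 = b

theorem primrec_Fnd : PrimrecRel Fnd := by
  have e1 : Primrec fun q : ℕ × ℕ => q.1.unpair.1 := Primrec.fst.comp (Primrec.unpair.comp Primrec.fst)
  have y1 : Primrec fun q : ℕ × ℕ => q.1.unpair.2 := Primrec.snd.comp (Primrec.unpair.comp Primrec.fst)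
  have s1 : Primrec fun q : ℕ × ℕ => q.2.unpair.1 := Primrec.fst.comp (Primrec.unpair.comp Primrec.snd)
  have b1 : Primrec fun q : ℕ × ℕ => q.2.unpair.2 := Primrec.snd.comp (Primrec.unpair.comp Primrec.snd)
  have x1 : Primrec fun q : ℕ × ℕ => q.2.unpair.2.unpair.1 :=
    Primrec.fst.comp (Primrec.unpair.comp b1)
  have h1 : Primrec fun q : ℕ × ℕ => ((q.2.unpair.1, ofNat Code q.1.unpair.1),
      encode (q.1.unpair.2, some q.2.unpair.2)) :=
    Primrec.pair (Primrec.pair s1 ((Primrec.ofNat Code).comp e1))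
      (Primrec.encode.comp (Primrec.pair y1 (Primrec.option_some.comp b1)))
  exact (Primrec.eq.comp (Primrec.option_isSome.comp (Code.primrec_evaln.comp h1))
    (Primrec.const true)).and ((Primrec.nat_le.comp e1 x1).and (Primrec.nat_le.comp y1 x1))

theorem primrec_Fst : PrimrecRel Fst := by
  have h1 : PrimrecRel fun (t' n : ℕ) => ¬ Fnd n t' :=
    (primrec_Fnd.comp Primrec.snd Primrec.fst).not
  have h2 : PrimrecRel fun (t n : ℕ) => ∀ t' < t, ¬ Fnd n t' := h1.forall_lt
  exact primrec_Fnd.and (h2.comp Primrec.snd Primrec.fst)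

theorem re_Dmp : RE' Dmp := by
  have h : PrimrecPred fun a : (ℕ × ℕ) × ℕ => Fst a.1.2 a.2 ∧ a.2.unpair.2 = a.1.1 :=
    (primrec_Fst.comp (Primrec.snd.comp Primrec.fst) Primrec.snd).and
      (Primrec.eq.comp (Primrec.snd.comp (Primrec.unpair.comp Primrec.snd))
        (Primrec.fst.comp Primrec.fst))
  exact RE'.ex (RE'.ex (RE'.of_prim h))

theorem Fst_unique {n t t' : ℕ} (h : Fst n t) (h' : Fst n t') : t = t' := by
  rcases lt_trichotomy t t' with h1 | h1 | h1
  · exact absurd h.1 (h'.2 t h1)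
  · exact h1
  · exact absurd h'.1 (h.2 t' h1)

theorem exists_Fst {n t : ℕ} (h : Fnd n t) : ∃ t', Fst n t' := by
  classical
  exact ⟨Nat.find ⟨t, h⟩, Nat.find_spec ⟨t, h⟩, fun t' ht' => Nat.find_min ⟨t, h⟩ ht'⟩

/-- size of the used part of a column -/
def sz (x : ℕ) : ℕ := (x + 1) * (x + 1) + 1

/-- no column is dumped entirely -/
theorem exists_not_Dmp (x : ℕ) : ∃ i < sz x, ¬ Dmp (Nat.pair x i) := by
  classical
  by_contra hcon
  push Not at hcon
  have h1 : ∀ i, ∃ n, i < sz x → ∃ t, Fst n t ∧ t.unpair.2 = Nat.pair x i := by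
    intro i
    by_cases hi : i < sz x
    · obtain ⟨n, t, h⟩ := hcon i hi
      exact ⟨n, fun _ => ⟨t, h⟩⟩
    · exact ⟨0, fun h => absurd h hi⟩
  choose n hn using h1
  have h2 : (Finset.range (sz x)).card ≤
      ((Finset.range (x + 1)) ×ˢ (Finset.range (x + 1))).card := by
    apply Finset.card_le_card_of_injOn (fun i => (n i).unpair)
    · intro i hi
      obtain ⟨t, h3, h4⟩ := hn i (Finset.mem_range.1 hi)
      have h5 := h3.1.2
      rw [h4, Nat.unpair_pair] at h5
      simp only [Finset.coe_product, Finset.coe_range, Set.mem_prod, Set.mem_Iio]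
      exact ⟨Nat.lt_succ_of_le h5.1, Nat.lt_succ_of_le h5.2⟩
    · intro i hi j hj hij
      have hij' : n i = n j := by
        have := congrArg (fun p : ℕ × ℕ => Nat.pair p.1 p.2) hij
        simpa using this
      obtain ⟨t, h3, h4⟩ := hn i (Finset.mem_range.1 hi)
      obtain ⟨t', h3', h4'⟩ := hn j (Finset.mem_range.1 hj)
      rw [hij'] at h3
      have h6 := Fst_unique h3 h3'
      subst h6
      rw [h4] at h4'
      exact (Nat.pair_eq_pair.1 h4').2
  rw [Finset.card_product, Finset.card_range, Finset.card_range] at h2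
  unfold sz at h2
  omega

/-- the operator -/
def Bop (A : Set ℕ) : Set ℕ := {b | Dmp b ∨ b.unpair.1 ∈ A}

theorem mem_iff_col (A : Set ℕ) (x : ℕ) : x ∈ A ↔ ∀ i < sz x, Nat.pair x i ∈ Bop A := by
  constructor
  · intro h i _
    exact Or.inr (by rw [Nat.unpair_pair]; exact h)
  · intro h
    obtain ⟨i, hi, hi'⟩ := exists_not_Dmp x
    have := (h i hi).resolve_left hi'
    rwa [Nat.unpair_pair] at this

/-- **the main point** -/
theorem not_SRed (A : Set ℕ) (hA : ¬ REPred fun x : ℕ => x ∈ A) : ¬ SRed A (Bop A) := by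
  classical
  rintro ⟨W, hW, hWA⟩
  apply hA
  obtain ⟨c, hc⟩ := exists_code hW
  set e := encode c with he
  have hW' := RE'.ofRE hW
  -- the base
  let Base : ℕ → Prop := fun y => (y < e ∧ y ∈ A) ∨ W (y, none) ∨ ∃ b : ℕ, W (y, some b) ∧ Dmp b
  let E : ℕ × ℕ → Prop := fun a => ∃ b : ℕ, W (a.1, some b) ∧ b.unpair.1 = a.2
  have hBase : REPred Base := by
    have h1 : RE' fun y : ℕ => y < e ∧ y ∈ A := by
      apply RE'.of_prim
      have h2 : ∀ F : Finset ℕ, PrimrecPred fun y : ℕ => y ∈ F := by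
        intro F
        induction F using Finset.induction_on with
        | empty =>
          apply PrimrecPred.of_eq (p := fun _ : ℕ => (0 : ℕ) = 1)
          · exact Primrec.eq.comp (Primrec.const 0) (Primrec.const 1)
          · intro a; simp
        | insert a G _ ih =>
          apply PrimrecPred.of_eq (PrimrecPred.or (Primrec.eq.comp Primrec.id (Primrec.const a)) ih)
          intro y; simp
      exact (h2 ((Finset.range e).filter fun y => y ∈ A)).of_eq fun y => by simp
    have h2 : RE' fun y : ℕ => W (y, none) :=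
      hW'.comp (Primrec.pair Primrec.id (Primrec.const none))
    have h3 : RE' fun y : ℕ => ∃ b : ℕ, W (y, some b) ∧ Dmp b := by
      refine RE'.ex (p := fun a : ℕ × ℕ => W (a.1, some a.2) ∧ Dmp a.2) ?_
      exact (hW'.comp (Primrec.pair Primrec.fst (Primrec.option_some.comp Primrec.snd))).and
        (re_Dmp.comp Primrec.snd)
    exact (h1.or (h2.or h3)).toRE
  have hE : REPred E := by
    apply RE'.toRE
    refine RE'.ex (p := fun a : (ℕ × ℕ) × ℕ => W (a.1.1, some a.2) ∧ a.2.unpair.1 = a.1.2) ?_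
    refine (hW'.comp (Primrec.pair (Primrec.fst.comp Primrec.fst)
      (Primrec.option_some.comp Primrec.snd))).and (RE'.of_prim ?_)
    exact Primrec.eq.comp (Primrec.fst.comp (Primrec.unpair.comp Primrec.snd))
      (Primrec.snd.comp Primrec.fst)
  refine closure_re (fun x => x ∈ A) Base E hBase hE ?_ ?_ ?_
  · rintro y (⟨_, h⟩ | h | ⟨b, hb, hb'⟩)
    · exact h
    · exact (hWA y).2 ⟨none, h, by simp⟩
    · refine (hWA y).2 ⟨some b, hb, ?_⟩
      intro z hz
      rw [Option.mem_some_iff] at hz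
      subst hz
      exact Or.inl hb'
  · rintro y x ⟨b, hb, hb'⟩ hx
    refine (hWA y).2 ⟨some b, hb, ?_⟩
    intro z hz
    rw [Option.mem_some_iff] at hz
    subst hz
    exact Or.inr (by rw [hb']; exact hx)
  · intro y hy
    by_cases hye : y < e
    · exact Or.inl (Or.inl ⟨hye, hy⟩)
    obtain ⟨o, ho, ho'⟩ := (hWA y).1 hy
    cases o with
    | none => exact Or.inl (Or.inr (Or.inl ho))
    | some b =>
      have hb : b ∈ Bop A := ho' b rfl
      rcases hb with hb | hb
      · exact Or.inl (Or.inr (Or.inr ⟨b, ho, hb⟩))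
      · by_cases hxy : b.unpair.1 < y
        · exact Or.inr ⟨b.unpair.1, hxy, ⟨b, ho, rfl⟩, hb⟩
        · -- the requirement acts
          obtain ⟨k, hk⟩ := (code_dom_iff c _).1 ((hc (y, some b)).1 ho)
          have hF : Fnd (Nat.pair e y) (Nat.pair k b) := by
            unfold Fnd
            simp only [Nat.unpair_pair]
            refine ⟨?_, by omega, by omega⟩
            rw [he, ofNat_encode]
            exact hk
          obtain ⟨t, ht⟩ := exists_Fst hF
          refine Or.inl (Or.inr (Or.inr ⟨t.unpair.2, ?_, ⟨_, t, ht, rfl⟩⟩))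
          rw [hc, code_dom_iff]
          refine ⟨t.unpair.1, ?_⟩
          have := ht.1.1
          rw [Nat.unpair_pair] at this
          change (Code.evaln t.unpair.1 (ofNat Code e) (encode (y, some t.unpair.2))).isSome = true at this
          rw [he, ofNat_encode] at this
          exact this

/-! ### iteration -/

/-- iterates -/
def Bit (A : Set ℕ) (n : ℕ) : Set ℕ := Nat.rec A (fun _ S => Bop S) n

theorem Bit_succ (A : Set ℕ) (n : ℕ) : Bit A (n + 1) = Bop (Bit A n) := rfl

theorem Bit_add (A : Set ℕ) (m n : ℕ) : Bit A (m + n) = Bit (Bit A m) n := by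
  induction n with
  | zero => rfl
  | succ n ih =>
    change Bop (Bit A (m + n)) = Bop (Bit (Bit A m) n)
    rw [ih]

/-- every iterate is singleton-reducible to the original set, by a uniform c.e. set -/
theorem exists_W (n : ℕ) : ∃ W : ℕ × Option ℕ → Prop, RE' W ∧
    ∀ (A : Set ℕ) (x : ℕ), x ∈ Bit A n ↔ ∃ o : Option ℕ, W (x, o) ∧ ∀ y ∈ o, y ∈ A := by
  induction n with
  | zero =>
    refine ⟨fun a => a.2 = some a.1, RE'.of_prim (Primrec.eq.comp Primrec.snd
      (Primrec.option_some.comp Primrec.fst)), fun A x => ?_⟩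
    constructor
    · intro h
      refine ⟨some x, rfl, ?_⟩
      intro y hy
      rw [Option.mem_some_iff] at hy
      subst hy
      exact h
    · rintro ⟨o, ho, h⟩
      have ho' : o = some x := ho
      rw [ho'] at h
      exact h x rfl
  | succ n ih =>
    obtain ⟨W, hW, hWA⟩ := ih
    refine ⟨fun a => (Dmp a.1 ∧ a.2 = none) ∨ W (a.1.unpair.1, a.2), ?_, fun A x => ?_⟩
    · refine ((re_Dmp.comp Primrec.fst).and (RE'.of_prim (Primrec.eq.comp Primrec.snd
        (Primrec.const none)))).or ?_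
      exact hW.comp (Primrec.pair (Primrec.fst.comp (Primrec.unpair.comp Primrec.fst)) Primrec.snd)
    · rw [Bit_succ]
      constructor
      · rintro (h | h)
        · exact ⟨none, Or.inl ⟨h, rfl⟩, by simp⟩
        · obtain ⟨o, h1, h2⟩ := (hWA A _).1 h
          exact ⟨o, Or.inr h1, h2⟩
      · rintro ⟨o, ⟨h1, rfl⟩ | h1, h2⟩
        · exact Or.inl h1
        · exact Or.inr ((hWA A _).2 ⟨o, h1, h2⟩)

/-- the finite sets deciding membership -/
def gl (n x : ℕ) : List ℕ :=
  Nat.rec [x] (fun _ l => l.flatMap fun z => (List.range (sz z)).map fun i => Nat.pair z i) n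

theorem gl_succ (n x : ℕ) : gl (n + 1) x =
    (gl n x).flatMap fun z => (List.range (sz z)).map fun i => Nat.pair z i := rfl

theorem gl_spec (A : Set ℕ) (n x : ℕ) : x ∈ A ↔ ∀ y ∈ gl n x, y ∈ Bit A n := by
  induction n with
  | zero =>
    change x ∈ A ↔ ∀ y ∈ [x], y ∈ A
    simp
  | succ n ih =>
    rw [ih, gl_succ]
    constructor
    · intro h y hy
      rw [List.mem_flatMap] at hy
      obtain ⟨z, hz, hy⟩ := hy
      rw [List.mem_map] at hy
      obtain ⟨i, hi, rfl⟩ := hy
      exact (mem_iff_col (Bit A n) z).1 (h z hz) i (List.mem_range.1 hi)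
    · intro h z hz
      rw [mem_iff_col]
      intro i hi
      apply h
      rw [List.mem_flatMap]
      exact ⟨z, hz, List.mem_map.2 ⟨i, List.mem_range.2 hi, rfl⟩⟩

theorem primrec_gl (n : ℕ) : Primrec (gl n) := by
  induction n with
  | zero =>
    change Primrec fun x : ℕ => [x]
    exact Primrec.list_cons.comp Primrec.id (Primrec.const [])
  | succ n ih =>
    have h1 : Primrec fun z : ℕ => sz z := by
      unfold sz
      exact Primrec.succ.comp (Primrec.nat_mul.comp Primrec.succ Primrec.succ)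
    have h2 : Primrec₂ fun (_ : ℕ) (z : ℕ) => (List.range (sz z)).map fun i => Nat.pair z i := by
      refine Primrec.list_map (f := fun a : ℕ × ℕ => List.range (sz a.2))
        (g := fun (a : ℕ × ℕ) (i : ℕ) => Nat.pair a.2 i) ?_ ?_
      · exact Primrec.list_range.comp (h1.comp Primrec.snd)
      · exact Primrec₂.natPair.comp (Primrec.snd.comp Primrec.fst) Primrec.snd
    exact Primrec.list_flatMap ih h2

theorem SRed_trans {X Y Z : Set ℕ} (h1 : SRed X Y) (h2 : SRed Y Z) : SRed X Z := by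
  obtain ⟨W, hW, hWX⟩ := h1
  obtain ⟨V, hV, hVY⟩ := h2
  have hW' := RE'.ofRE hW
  have hV' := RE'.ofRE hV
  refine ⟨fun a => (W (a.1, none) ∧ a.2 = none) ∨ ∃ b : ℕ, W (a.1, some b) ∧ V (b, a.2), ?_, ?_⟩
  · apply RE'.toRE
    refine ((hW'.comp (Primrec.pair Primrec.fst (Primrec.const none))).and
      (RE'.of_prim (Primrec.eq.comp Primrec.snd (Primrec.const none)))).or ?_
    refine RE'.ex (p := fun a : (ℕ × Option ℕ) × ℕ => W (a.1.1, some a.2) ∧ V (a.2, a.1.2)) ?_
    exact (hW'.comp (Primrec.pair (Primrec.fst.comp Primrec.fst)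
      (Primrec.option_some.comp Primrec.snd))).and
      (hV'.comp (Primrec.pair Primrec.snd (Primrec.snd.comp Primrec.fst)))
  · intro x
    rw [hWX]
    constructor
    · rintro ⟨o, ho, ho'⟩
      cases o with
      | none => exact ⟨none, Or.inl ⟨ho, rfl⟩, by simp⟩
      | some b =>
        obtain ⟨o', h3, h4⟩ := (hVY b).1 (ho' b rfl)
        exact ⟨o', Or.inr ⟨b, ho, h3⟩, h4⟩
    · rintro ⟨o, ⟨h3, rfl⟩ | ⟨b, h3, h4⟩, h5⟩
      · exact ⟨none, h3, by simp⟩
      · refine ⟨some b, h3, ?_⟩
        intro y hy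
        rw [Option.mem_some_iff] at hy
        subst hy
        exact (hVY b).2 ⟨o, h4, h5⟩

theorem SRed_Bit (A : Set ℕ) (n : ℕ) : SRed (Bit A n) A := by
  obtain ⟨W, hW, hWA⟩ := exists_W n
  exact ⟨W, hW.toRE, hWA A⟩

/-- iterates are not c.e. -/
theorem Bit_not_re (A : Set ℕ) (hA : ¬ REPred fun x : ℕ => x ∈ A) (n : ℕ) :
    ¬ REPred fun x : ℕ => x ∈ Bit A n := by
  intro h
  apply hA
  classical
  obtain ⟨c, hc⟩ := exists_code h
  apply RE'.toRE
  refine ⟨fun x s => ∀ y ∈ gl n x, (Code.evaln s c (encode y)).isSome = true, ?_, fun x => ?_⟩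
  · have h1 : PrimrecRel fun (y : ℕ) (s : ℕ) => (Code.evaln s c (encode y)).isSome = true := by
      have h2 : Primrec fun q : ℕ × ℕ => ((q.2, c), encode q.1) :=
        Primrec.pair (Primrec.pair Primrec.snd (Primrec.const c)) (Primrec.encode.comp Primrec.fst)
      exact Primrec.eq.comp (Primrec.option_isSome.comp (Code.primrec_evaln.comp h2))
        (Primrec.const true)
    exact h1.forall_mem_list.comp ((primrec_gl n).comp Primrec.fst) Primrec.snd
  · refine (gl_spec A n x).trans ?_
    constructor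
    · intro h2
      have h3 : ∀ y, ∃ k, y ∈ gl n x → (Code.evaln k c (encode y)).isSome = true := by
        intro y
        by_cases hy : y ∈ gl n x
        · obtain ⟨k, hk⟩ := (code_dom_iff c _).1 ((hc y).1 (h2 y hy))
          exact ⟨k, fun _ => hk⟩
        · exact ⟨0, fun h => absurd h hy⟩
      choose k hk using h3
      refine ⟨((gl n x).map k).sum, fun y hy => ?_⟩
      have h4 := hk y hy
      have h5 : k y ≤ ((gl n x).map k).sum := List.single_le_sum (by simp) _ (List.mem_map_of_mem hy)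
      obtain ⟨v, hv⟩ := Option.isSome_iff_exists.1 h4
      exact Option.isSome_iff_exists.2 ⟨v, Code.evaln_mono h5 hv⟩
    · rintro ⟨s, hs⟩ y hy
      exact (hc y).2 ((code_dom_iff c _).2 ⟨s, hs y hy⟩)

theorem Bit_not_SRed (A : Set ℕ) (hA : ¬ REPred fun x : ℕ => x ∈ A) (i j : ℕ) (hij : i < j) :
    ¬ SRed (Bit A i) (Bit A j) := by
  intro h
  apply not_SRed (Bit A i) (Bit_not_re A hA i)
  rw [← Bit_succ]
  refine SRed_trans h ?_
  have : j = (i + 1) + (j - (i + 1)) := by omega
  rw [this, Bit_add]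
  exact SRed_Bit _ _

end Pool.Agent.Helper22.SInf
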