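import Mathlib

set_option autoImplicit false

namespace Pool.Agent.Helper22.SMinPair

open Finset

/-! ### Abstract part -/

/-- a system of cells: every cell has three points on each of two sides -/
structure Sys where
  P : Bool → ℕ → Finset ℕ
  card_eq : ∀ b m, (P b m).card = 3
  inter_le : ∀ b m m', m ≠ m' → (P b m ∩ P b m').card ≤ 1
  fresh : ∀ (b : Bool) (a : ℕ) (F G : Finset ℕ), a ∉ F → ∃ m, a ∈ P b m ∧
    Disjoint (P b m) F ∧ Disjoint (P (!b) m) G

variable (S : Sys)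

/-- the points of a finite set of cells -/
def pts (E : Finset ℕ) (b : Bool) : Finset ℕ := E.biUnion (S.P b)

/-- conditions -/
structure Cond where
  E : Finset ℕ
  N : Bool → Finset ℕ
  closed : ∀ b m, S.P b m ⊆ pts S E b → m ∈ E
  disj : ∀ b, Disjoint (pts S E b) (N b)

variable {S}

instance : Preorder (Cond S) where
  le p q := p.E ⊆ q.E ∧ ∀ b, p.N b ⊆ q.N b
  le_refl p := ⟨Subset.refl _, fun _ => Subset.refl _⟩
  le_trans p q r h1 h2 := ⟨h1.1.trans h2.1, fun b => (h1.2 b).trans (h2.2 b)⟩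

theorem le_def {p q : Cond S} : p ≤ q ↔ p.E ⊆ q.E ∧ ∀ b, p.N b ⊆ q.N b := Iff.rfl

theorem pts_mono {E E' : Finset ℕ} (h : E ⊆ E') (b : Bool) : pts S E b ⊆ pts S E' b :=
  biUnion_subset_biUnion_of_subset_left _ h

/-- the exceptional points of `E` on side `b` -/
def Ex (S : Sys) (E : Finset ℕ) (b : Bool) : Set ℕ :=
  {a | ∃ m, a ∈ S.P b m ∧ (S.P b m).erase a ⊆ pts S E b}

theorem cells_finite (E : Finset ℕ) (b : Bool) :
    {m | 2 ≤ (S.P b m ∩ pts S E b).card}.Finite := by
  classical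
  have h : ∀ m ∈ {m | 2 ≤ (S.P b m ∩ pts S E b).card}, ∃ t : Finset ℕ,
      t ⊆ S.P b m ∩ pts S E b ∧ t.card = 2 := fun m hm => exists_subset_card_eq hm
  choose! t ht1 ht2 using h
  apply Set.Finite.of_finite_image (f := t)
  · apply Set.Finite.subset (finite_toSet (powersetCard 2 (pts S E b)))
    rintro _ ⟨m, hm, rfl⟩
    rw [mem_coe, mem_powersetCard]
    exact ⟨(ht1 m hm).trans inter_subset_right, ht2 m hm⟩
  · intro m hm m' hm' heq
    by_contra hne
    have h1 := S.inter_le b m m' hne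
    have h2 : t m ⊆ S.P b m ∩ S.P b m' :=
      subset_inter ((ht1 m hm).trans inter_subset_left)
        (by rw [heq]; exact (ht1 m' hm').trans inter_subset_left)
    have h3 := card_le_card h2
    rw [ht2 m hm] at h3
    omega

theorem Ex_finite (E : Finset ℕ) (b : Bool) : (Ex S E b).Finite := by
  classical
  have h := (cells_finite (S := S) E b).biUnion (t := fun m => (↑(S.P b m) : Set ℕ))
    (fun m _ => finite_toSet _)
  apply h.subset
  rintro a ⟨m, ha, hsub⟩
  rw [Set.mem_iUnion₂]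
  refine ⟨m, ?_, ha⟩
  have h1 : (S.P b m).erase a ⊆ S.P b m ∩ pts S E b := subset_inter (erase_subset _ _) hsub
  have h2 := card_le_card h1
  rw [card_erase_of_mem ha, S.card_eq] at h2
  exact h2

/-- adding a point -/
theorem add_point (p : Cond S) (b : Bool) (a : ℕ) (ha1 : a ∉ p.N b) (ha2 : a ∉ pts S p.E b)
    (ha3 : a ∉ Ex S p.E b) (F : Finset ℕ) (hF : Disjoint F (pts S p.E (!b))) :
    ∃ q : Cond S, p ≤ q ∧ a ∈ pts S q.E b ∧ F ⊆ q.N (!b) := by
  classical
  have hfin := Ex_finite (S := S) p.E b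
  have hfin' := Ex_finite (S := S) p.E (!b)
  obtain ⟨m, hm, hd1, hd2⟩ := S.fresh b a (pts S p.E b ∪ p.N b ∪ hfin.toFinset)
    (pts S p.E (!b) ∪ p.N (!b) ∪ hfin'.toFinset ∪ F) (by
      simp only [mem_union, Set.Finite.mem_toFinset, not_or]
      exact ⟨⟨ha2, ha1⟩, ha3⟩)
  have hd : ∀ c, Disjoint (S.P c m) (pts S p.E c) ∧ Disjoint (S.P c m) (p.N c) ∧
      (∀ x ∈ S.P c m, x ∉ Ex S p.E c) := by
    intro c
    have hc : c = b ∨ c = !b := by cases b <;> cases c <;> simp
    rcases hc with rfl | rfl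
    · refine ⟨disjoint_of_subset_right ?_ hd1, disjoint_of_subset_right ?_ hd1, ?_⟩
      · intro x hx; simp [hx]
      · intro x hx; simp [hx]
      · intro x hx hx'
        exact disjoint_left.1 hd1 hx (by simp [hx'])
    · refine ⟨disjoint_of_subset_right ?_ hd2, disjoint_of_subset_right ?_ hd2, ?_⟩
      · intro x hx; simp [hx]
      · intro x hx; simp [hx]
      · intro x hx hx'
        exact disjoint_left.1 hd2 hx (by simp [hx'])
  have hpts : ∀ c, pts S (insert m p.E) c = S.P c m ∪ pts S p.E c := fun c => biUnion_insert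
  have hFd : Disjoint F (pts S (insert m p.E) (!b)) := by
    rw [hpts, disjoint_union_right]
    refine ⟨?_, hF⟩
    apply Disjoint.symm
    apply disjoint_of_subset_right _ hd2
    intro x hx; simp [hx]
  refine ⟨⟨insert m p.E, fun c => if c = !b then p.N c ∪ F else p.N c, ?_, ?_⟩, ?_, ?_, ?_⟩
  · intro c m' hm'
    by_contra hnot
    rw [mem_insert, not_or] at hnot
    obtain ⟨hne, hnE⟩ := hnot
    have h1 : ¬ S.P c m' ⊆ pts S p.E c := fun h => hnE (p.closed c m' h)
    rw [not_subset] at h1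
    obtain ⟨x, hx, hxE⟩ := h1
    have hxm : x ∈ S.P c m := by
      have := hm' hx
      rw [hpts, mem_union] at this
      exact this.resolve_right hxE
    apply (hd c).2.2 x hxm
    refine ⟨m', hx, ?_⟩
    intro y hy
    rw [mem_erase] at hy
    have h2 := hm' hy.2
    rw [hpts, mem_union] at h2
    refine h2.resolve_left ?_
    intro hym
    have h3 := S.inter_le c m' m hne
    have h4 : ({x, y} : Finset ℕ) ⊆ S.P c m' ∩ S.P c m := by
      intro z hz
      rw [mem_insert, mem_singleton] at hz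
      rcases hz with rfl | rfl
      · exact mem_inter.2 ⟨hx, hxm⟩
      · exact mem_inter.2 ⟨hy.2, hym⟩
    have h5 := card_le_card h4
    rw [card_pair hy.1.symm] at h5
    omega
  · intro c
    have h0 : Disjoint (pts S (insert m p.E) c) (p.N c) := by
      rw [hpts, disjoint_union_left]
      exact ⟨(hd c).2.1, p.disj c⟩
    by_cases hc : c = !b
    · simp only [hc, if_true]
      rw [hc] at h0
      rw [disjoint_union_right]
      exact ⟨h0, hFd.symm⟩
    · simp only [if_neg hc]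
      exact h0
  · refine ⟨subset_insert _ _, fun c => ?_⟩
    by_cases hc : c = !b
    · simp only [hc, if_true]; exact subset_union_left
    · simp only [if_neg hc]; exact Subset.refl _
  · change a ∈ pts S (insert m p.E) b
    rw [hpts]
    exact mem_union_left _ hm
  · change F ⊆ (if (!b) = !b then p.N (!b) ∪ F else p.N (!b))
    simp only [if_true]
    exact subset_union_right

/-- excluding a point -/
theorem exclude_point (p : Cond S) (b : Bool) (a : ℕ) (ha : a ∉ pts S p.E b) :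
    ∃ q : Cond S, p ≤ q ∧ a ∈ q.N b := by
  classical
  refine ⟨⟨p.E, fun c => if c = b then insert a (p.N c) else p.N c, p.closed, ?_⟩, ?_, ?_⟩
  · intro c
    by_cases hc : c = b
    · subst hc
      simp only [if_true]
      rw [disjoint_insert_right]
      exact ⟨ha, p.disj c⟩
    · simp only [if_neg hc]; exact p.disj c
  · refine ⟨Subset.refl _, fun c => ?_⟩
    by_cases hc : c = b
    · simp only [hc, if_true]; exact subset_insert _ _
    · simp only [if_neg hc]; exact Subset.refl _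
  · change a ∈ (if b = b then insert a (p.N b) else p.N b)
    simp

/-- the requirement of the third kind -/
def phi (U T : ℕ → Set ℕ) (p : Cond S) : Prop :=
  ∃ n, (∃ a ∈ U n, a ∈ pts S p.E false) ∧ ∀ y ∈ T n, y ∈ p.N true

theorem phi_mono {U T : ℕ → Set ℕ} {p q : Cond S} (h : p ≤ q) (hp : phi U T p) : phi U T q := by
  obtain ⟨n, ⟨a, ha, hap⟩, h2⟩ := hp
  exact ⟨n, ⟨a, ha, pts_mono h.1 _ hap⟩, fun y hy => h.2 _ (h2 y hy)⟩

theorem generic (S : Sys) {ι κ : Type} [Countable ι] [Countable κ] (R : ι → Set ℕ)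
    (hR : ∀ i, (R i).Infinite) (U : κ → ℕ → Set ℕ) :
    ∃ A : Bool → Set ℕ,
      (∀ b a, a ∈ A b ↔ ∃ m, a ∈ S.P b m ∧ ∀ y ∈ S.P (!b) m, y ∈ A (!b)) ∧
      (∀ i b, ∃ a ∈ R i, a ∈ A b) ∧ (∀ i b, ∃ a ∈ R i, a ∉ A b) ∧
      (∀ k l, (∀ n, (∃ a ∈ U k n, a ∈ A false) ↔ (∃ a ∈ U l n, a ∈ A true)) →
        (∀ n, (U l n).Infinite → ∃ a ∈ U l n, a ∈ A true) →
        ∃ G : Set ℕ, G.Finite ∧ ∀ n, (∃ a ∈ U k n, a ∈ A false) ↔ ∃ a ∈ U k n, a ∉ G) := by
  classical
  have : Encodable ι := Encodable.ofCountable ι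
  have : Encodable κ := Encodable.ofCountable κ
  let D : (ι × Bool) ⊕ (ι × Bool) ⊕ (κ × κ) → Order.Cofinal (Cond S) := fun j =>
    match j with
    | Sum.inl (i, b) => ⟨{p | ∃ a ∈ R i, a ∈ pts S p.E b}, by
        intro p
        have hfin := Ex_finite (S := S) p.E b
        obtain ⟨a, ha, hna⟩ := (hR i).exists_notMem_finset (p.N b ∪ pts S p.E b ∪ hfin.toFinset)
        simp only [mem_union, Set.Finite.mem_toFinset, not_or] at hna
        obtain ⟨q, hq, hq2, -⟩ := add_point p b a hna.1.1 hna.1.2 hna.2 ∅ (disjoint_empty_left _)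
        exact ⟨q, ⟨a, ha, hq2⟩, hq⟩⟩
    | Sum.inr (Sum.inl (i, b)) => ⟨{p | ∃ a ∈ R i, a ∈ p.N b}, by
        intro p
        obtain ⟨a, ha, hna⟩ := (hR i).exists_notMem_finset (pts S p.E b)
        obtain ⟨q, hq, hq2⟩ := exclude_point p b a hna
        exact ⟨q, ⟨a, ha, hq2⟩, hq⟩⟩
    | Sum.inr (Sum.inr (k, l)) => ⟨{p | phi (U k) (U l) p ∨ ∀ q, p ≤ q → ¬ phi (U k) (U l) q}, by
        intro p
        by_cases h : ∃ q, p ≤ q ∧ phi (U k) (U l) q
        · obtain ⟨q, hq, hq2⟩ := h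
          exact ⟨q, Or.inl hq2, hq⟩
        · push Not at h
          exact ⟨p, Or.inr h, le_refl p⟩⟩
  let p0 : Cond S := ⟨∅, fun _ => ∅, by
      intro b m h
      have h1 := card_le_card h
      rw [S.card_eq] at h1
      simp [pts] at h1, by
      intro b; exact disjoint_empty_right _⟩
  let I := Order.idealOfCofinals p0 D
  have hI : ∀ j, ∃ x, x ∈ D j ∧ x ∈ I := fun j => Order.cofinal_meets_idealOfCofinals p0 D j
  have hdir : ∀ p ∈ I, ∀ q ∈ I, ∃ r ∈ I, p ≤ r ∧ q ≤ r := fun p hp q hq => I.directed p hp q hq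
  have hne : ∃ p, p ∈ I := ⟨p0, Order.mem_idealOfCofinals p0 D⟩
  let A : Bool → Set ℕ := fun b => {a | ∃ p ∈ I, a ∈ pts S p.E b}
  have hNA : ∀ p ∈ I, ∀ b, ∀ a ∈ p.N b, a ∉ A b := by
    rintro p hp b a ha ⟨q, hq, haq⟩
    obtain ⟨r, hr, hpr, hqr⟩ := hdir p hp q hq
    exact disjoint_left.1 (r.disj b) (pts_mono hqr.1 b haq) (hpr.2 b ha)
  have hcomp : ∀ b (F : Finset ℕ), (∀ y ∈ F, y ∈ A b) → ∃ p ∈ I, F ⊆ pts S p.E b := by
    intro b F
    induction F using Finset.induction_on with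
    | empty => intro _; obtain ⟨p, hp⟩ := hne; exact ⟨p, hp, empty_subset _⟩
    | insert a F _ ih =>
      intro h
      obtain ⟨p, hp, hpF⟩ := ih (fun y hy => h y (mem_insert_of_mem hy))
      obtain ⟨q, hq, hqa⟩ := h a (mem_insert_self a F)
      obtain ⟨r, hr, hpr, hqr⟩ := hdir p hp q hq
      refine ⟨r, hr, ?_⟩
      rw [insert_subset_iff]
      exact ⟨pts_mono hqr.1 b hqa, hpF.trans (pts_mono hpr.1 b)⟩
  refine ⟨A, ?_, ?_, ?_, ?_⟩
  · intro b a
    constructor
    · rintro ⟨p, hp, ha⟩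
      rw [pts, mem_biUnion] at ha
      obtain ⟨m, hm, ham⟩ := ha
      refine ⟨m, ham, fun y hy => ⟨p, hp, ?_⟩⟩
      rw [pts, mem_biUnion]
      exact ⟨m, hm, hy⟩
    · rintro ⟨m, ham, h⟩
      obtain ⟨p, hp, hpm⟩ := hcomp (!b) _ h
      have hm := p.closed _ m hpm
      refine ⟨p, hp, ?_⟩
      rw [pts, mem_biUnion]
      exact ⟨m, hm, ham⟩
  · intro i b
    obtain ⟨p, ⟨a, ha, hap⟩, hp⟩ := hI (Sum.inl (i, b))
    exact ⟨a, ha, p, hp, hap⟩
  · intro i b
    obtain ⟨p, ⟨a, ha, hap⟩, hp⟩ := hI (Sum.inr (Sum.inl (i, b)))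
    exact ⟨a, ha, hNA p hp b a hap⟩
  · intro k l heq hinf
    obtain ⟨p, hpD, hp⟩ := hI (Sum.inr (Sum.inr (k, l)))
    change phi (U k) (U l) p ∨ ∀ q, p ≤ q → ¬ phi (U k) (U l) q at hpD
    have hno : ∀ q, p ≤ q → ¬ phi (U k) (U l) q := by
      rcases hpD with ⟨n, ⟨a, ha, hap⟩, hT⟩ | h
      · exfalso
        obtain ⟨y, hy, hyA⟩ := (heq n).1 ⟨a, ha, p, hp, hap⟩
        exact hNA p hp true y (hT y hy) hyA
      · exact h
    refine ⟨↑(p.N false) ∪ (Ex S p.E false \ A false), ?_, ?_⟩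
    · exact (finite_toSet _).union ((Ex_finite p.E false).subset Set.sdiff_subset)
    · intro n
      constructor
      · rintro ⟨a, ha, haA⟩
        refine ⟨a, ha, ?_⟩
        rintro (h | h)
        · exact hNA p hp false a h haA
        · exact h.2 haA
      · rintro ⟨a, ha, haG⟩
        by_contra hcon
        have haA : a ∉ A false := fun h => hcon ⟨a, ha, h⟩
        have h1 : a ∉ p.N false := fun h => haG (Or.inl h)
        have h2 : a ∉ Ex S p.E false := fun h => haG (Or.inr ⟨h, haA⟩)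
        have h3 : a ∉ pts S p.E false := fun h => haA ⟨p, hp, h⟩
        by_cases hT : (U l n).Infinite
        · exact hcon ((heq n).2 (hinf n hT))
        · rw [Set.not_infinite] at hT
          by_cases hd : Disjoint hT.toFinset (pts S p.E (!false))
          · obtain ⟨q, hq, hq1, hq2⟩ := add_point p false a h1 h3 h2 hT.toFinset hd
            apply hno q hq
            exact ⟨n, ⟨a, ha, hq1⟩, fun y hy => hq2 (hT.mem_toFinset.2 hy)⟩
          · rw [not_disjoint_iff] at hd
            obtain ⟨y, hy1, hy2⟩ := hd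
            exact hcon ((heq n).2 ⟨y, hT.mem_toFinset.1 hy1, p, hp, hy2⟩)

/-! ### The concrete system: grid cells and six directions of lines -/

/-- code of the integer `x - y` -/
def cz (x y : ℕ) : ℕ := 2 * (x - y) + (2 * (y - x) - 1)

theorem cz_inj {x y x' y' : ℕ} (h : cz x y = cz x' y') : x + y' = x' + y := by
  unfold cz at h; omega

/-- the line of slope `s` through the cell `t` -/
def L (s t : ℕ) : ℕ := cz t.unpair.1 (s * t.unpair.2)

theorem L_orth {s s' t t' : ℕ} (hs : s ≠ s') (h1 : L s t = L s t') (h2 : L s' t = L s' t') :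
    t = t' := by
  have e1 := cz_inj h1
  have e2 := cz_inj h2
  obtain ⟨i, hi⟩ : ∃ i, i = t.unpair.1 := ⟨_, rfl⟩
  obtain ⟨j, hj⟩ : ∃ j, j = t.unpair.2 := ⟨_, rfl⟩
  obtain ⟨i', hi'⟩ : ∃ i', i' = t'.unpair.1 := ⟨_, rfl⟩
  obtain ⟨j', hj'⟩ : ∃ j', j' = t'.unpair.2 := ⟨_, rfl⟩
  rw [← hi, ← hj, ← hi', ← hj'] at e1 e2
  zify at e1 e2 hs
  have h3 : ((s : ℤ) - s') * ((j' : ℤ) - j) = 0 := by linear_combination e1 - e2
  have h4 : (s : ℤ) - s' ≠ 0 := sub_ne_zero.2 hs
  have h5 : (j' : ℤ) - j = 0 := (mul_eq_zero.1 h3).resolve_left h4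
  have h6 : (j' : ℤ) = j := by linarith
  have h7 : (i : ℤ) = i' := by rw [h6] at e1; linarith
  have h8 : j = j' := by exact_mod_cast h6.symm
  have h9 : i = i' := by exact_mod_cast h7
  rw [← Nat.pair_unpair t, ← Nat.pair_unpair t', ← hi, ← hj, ← hi', ← hj', h8, h9]

theorem L_surj (s c j : ℕ) (hs : 1 ≤ s) (hj : c + 1 ≤ j) : ∃ i, L s (Nat.pair i j) = c := by
  have hsj : c + 1 ≤ s * j := le_trans hj (Nat.le_mul_of_pos_left j hs)
  rcases Nat.even_or_odd' c with ⟨z, hz | hz⟩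
  · refine ⟨z + s * j, ?_⟩
    simp only [L, cz, Nat.unpair_pair]
    omega
  · refine ⟨s * j - (z + 1), ?_⟩
    simp only [L, cz, Nat.unpair_pair]
    omega

/-- shift of the slopes -/
def bs (b : Bool) : ℕ := if b then 3 else 0

/-- the points of a cell -/
def P (b : Bool) (t : ℕ) : Finset ℕ := (range 3).image (fun r => 3 * L (r + 1 + bs b) t + r)

theorem mem_P {b : Bool} {t a : ℕ} : a ∈ P b t ↔ ∃ r < 3, a = 3 * L (r + 1 + bs b) t + r := by
  simp only [P, mem_image, mem_range]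
  constructor
  · rintro ⟨r, hr, h⟩; exact ⟨r, hr, h.symm⟩
  · rintro ⟨r, hr, h⟩; exact ⟨r, hr, h.symm⟩

/-- the system of cells -/
def sys : Sys where
  P := P
  card_eq := by
    intro b t
    rw [P, card_image_of_injOn, card_range]
    intro r hr r' hr' h
    rw [mem_coe, mem_range] at hr hr'
    simp only at h
    omega
  inter_le := by
    intro b m m' hne
    rw [card_le_one]
    intro x hx y hy
    rw [mem_inter, mem_P, mem_P] at hx hy
    obtain ⟨⟨r, hr, e1⟩, ⟨r', hr', e2⟩⟩ := hx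
    obtain ⟨⟨q, hq, e3⟩, ⟨q', hq', e4⟩⟩ := hy
    have h1 : r' = r := by omega
    have h2 : q' = q := by omega
    subst h1
    subst h2
    by_contra hxy
    have hrq : r' ≠ q' := by
      rintro rfl
      exact hxy (by rw [e1, e3])
    apply hne
    apply L_orth (s := r' + 1 + bs b) (s' := q' + 1 + bs b) (by omega)
    · omega
    · omega
  fresh := by
    intro b a F G haF
    obtain ⟨r, hr⟩ : ∃ r, r = a % 3 := ⟨_, rfl⟩
    obtain ⟨c, hc⟩ : ∃ c, c = a / 3 := ⟨_, rfl⟩
    have hr3 : r < 3 := by omega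
    have ha : a = 3 * c + r := by omega
    have hex : ∀ j, c + 1 ≤ j → ∃ i, L (r + 1 + bs b) (Nat.pair i j) = c := fun j hj =>
      L_surj _ _ _ (by omega) hj
    choose! i hi using hex
    have haP : ∀ j, c + 1 ≤ j → a ∈ P b (Nat.pair (i j) j) := by
      intro j hj
      rw [mem_P]
      exact ⟨r, hr3, by rw [hi j hj]; exact ha⟩
    have hinj : ∀ j j', Nat.pair (i j) j = Nat.pair (i j') j' → j = j' := by
      intro j j' h
      have := congrArg (fun t => t.unpair.2) h
      simpa using this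
    have hfin1 : ({j | c + 1 ≤ j ∧ ∃ x ∈ F, x ∈ P b (Nat.pair (i j) j)}).Finite := by
      have : {j | c + 1 ≤ j ∧ ∃ x ∈ F, x ∈ P b (Nat.pair (i j) j)} ⊆
          ⋃ x ∈ (↑F : Set ℕ), {j | c + 1 ≤ j ∧ x ∈ P b (Nat.pair (i j) j)} := by
        rintro j ⟨h1, x, hx, h2⟩
        rw [Set.mem_iUnion₂]
        exact ⟨x, hx, h1, h2⟩
      apply Set.Finite.subset _ this
      apply Set.Finite.biUnion (finite_toSet F)
      intro x hx
      apply Set.Subsingleton.finite
      rintro j ⟨h1, h2⟩ j' ⟨h1', h2'⟩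
      apply hinj
      rw [mem_P] at h2 h2'
      obtain ⟨q, hq, e1⟩ := h2
      obtain ⟨q', hq', e2⟩ := h2'
      have hqq : q' = q := by omega
      subst hqq
      have hqr : q' ≠ r := by
        rintro rfl
        apply haF
        have : x = a := by rw [e1, hi j h1]; exact ha.symm
        rw [← this]; exact hx
      apply L_orth (s := q' + 1 + bs b) (s' := r + 1 + bs b) (by omega)
      · omega
      · rw [hi j h1, hi j' h1']
    have hfin2 : ({j | c + 1 ≤ j ∧ ∃ x ∈ G, x ∈ P (!b) (Nat.pair (i j) j)}).Finite := by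
      have : {j | c + 1 ≤ j ∧ ∃ x ∈ G, x ∈ P (!b) (Nat.pair (i j) j)} ⊆
          ⋃ x ∈ (↑G : Set ℕ), {j | c + 1 ≤ j ∧ x ∈ P (!b) (Nat.pair (i j) j)} := by
        rintro j ⟨h1, x, hx, h2⟩
        rw [Set.mem_iUnion₂]
        exact ⟨x, hx, h1, h2⟩
      apply Set.Finite.subset _ this
      apply Set.Finite.biUnion (finite_toSet G)
      intro x hx
      apply Set.Subsingleton.finite
      rintro j ⟨h1, h2⟩ j' ⟨h1', h2'⟩
      apply hinj
      rw [mem_P] at h2 h2'
      obtain ⟨q, hq, e1⟩ := h2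
      obtain ⟨q', hq', e2⟩ := h2'
      have hqq : q' = q := by omega
      subst hqq
      apply L_orth (s := q' + 1 + bs (!b)) (s' := r + 1 + bs b)
      · unfold bs
        cases b <;> simp <;> omega
      · omega
      · rw [hi j h1, hi j' h1']
    obtain ⟨j, hj, hj2⟩ := ((Set.Ici_infinite (c + 1)).sdiff (hfin1.union hfin2)).nonempty
    rw [Set.mem_Ici] at hj
    refine ⟨Nat.pair (i j) j, haP j hj, ?_, ?_⟩
    · rw [disjoint_left]
      intro x hx hxF
      exact hj2 (Or.inl ⟨hj, x, hxF, hx⟩)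
    · rw [disjoint_left]
      intro x hx hxG
      exact hj2 (Or.inr ⟨hj, x, hxG, hx⟩)

/-! ### Computability -/

theorem cz_primrec : Primrec₂ cz :=
  Primrec.nat_add.comp₂
    (Primrec.nat_mul.comp₂ (Primrec₂.const 2) (Primrec.nat_sub.comp₂ Primrec₂.left Primrec₂.right))
    (Primrec.nat_sub.comp₂
      (Primrec.nat_mul.comp₂ (Primrec₂.const 2)
        (Primrec.nat_sub.comp₂ Primrec₂.right Primrec₂.left))
      (Primrec₂.const 1))

theorem L_primrec (s : ℕ) : Primrec (L s) :=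
  cz_primrec.comp (Primrec.fst.comp Primrec.unpair)
    (Primrec.nat_mul.comp (Primrec.const s) (Primrec.snd.comp Primrec.unpair))

theorem pt_primrec (s r : ℕ) : Primrec (fun t => 3 * L s t + r) :=
  Primrec.nat_add.comp (Primrec.nat_mul.comp (Primrec.const 3) (L_primrec s)) (Primrec.const r)

/-- projections of primitive recursive relations are domains of partial recursive functions -/
theorem dom_of_rel {α : Type} [Primcodable α] (R : α → ℕ → Prop)
    (hR : PrimrecRel R) :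
    ∃ f : α →. ℕ, Partrec f ∧ ∀ a, (f a).Dom ↔ ∃ t, R a t := by
  classical
  refine ⟨fun a => Nat.rfind (fun t => Part.some (decide (R a t))), ?_, ?_⟩
  · apply Partrec.rfind
    have h : Computable₂ (fun (a : α) (t : ℕ) => decide (R a t)) := hR.decide.to_comp
    exact h.partrec₂
  · intro a
    change (∃ n : ℕ, true ∈ (Part.some (decide (R a n)) : Part Bool) ∧
      ∀ {m : ℕ}, m < n → (Part.some (decide (R a m)) : Part Bool).Dom) ↔ _
    constructor
    · rintro ⟨n, h, -⟩
      rw [Part.mem_some_iff] at h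
      exact ⟨n, by simpa using h.symm⟩
    · rintro ⟨t, ht⟩
      exact ⟨t, by rw [Part.mem_some_iff]; simpa using ht, fun _ => trivial⟩

/-- the axioms -/
theorem axioms_re (b : Bool) : ∃ W : Set (ℕ × List ℕ),
    (∃ f : ℕ × List ℕ →. ℕ, Partrec f ∧ ∀ p : ℕ × List ℕ, (f p).Dom ↔ p ∈ W) ∧
    ∀ (X : Set ℕ) (x : ℕ), (∃ m, x ∈ P b m ∧ ∀ y ∈ P (!b) m, y ∈ X) ↔
      ∃ l : List ℕ, (x, l) ∈ W ∧ ∀ y ∈ l, y ∈ X := by
  have hprim : PrimrecRel (fun (p : ℕ × List ℕ) (t : ℕ) =>
      (p.1 = 3 * L (0 + 1 + bs b) t + 0 ∨ p.1 = 3 * L (1 + 1 + bs b) t + 1 ∨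
        p.1 = 3 * L (2 + 1 + bs b) t + 2) ∧
      p.2 = [3 * L (0 + 1 + bs (!b)) t + 0, 3 * L (1 + 1 + bs (!b)) t + 1,
        3 * L (2 + 1 + bs (!b)) t + 2]) := by
    have h1 : Primrec (fun q : (ℕ × List ℕ) × ℕ => q.1.1) := Primrec.fst.comp Primrec.fst
    have h2 : Primrec (fun q : (ℕ × List ℕ) × ℕ => q.1.2) := Primrec.snd.comp Primrec.fst
    have h3 : ∀ s r, Primrec (fun q : (ℕ × List ℕ) × ℕ => 3 * L s q.2 + r) := fun s r =>
      (pt_primrec s r).comp Primrec.snd
    apply PrimrecPred.and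
    · apply PrimrecPred.or
      · exact Primrec.eq.comp h1 (h3 _ _)
      · apply PrimrecPred.or
        · exact Primrec.eq.comp h1 (h3 _ _)
        · exact Primrec.eq.comp h1 (h3 _ _)
    · apply Primrec.eq.comp h2
      exact Primrec.list_cons.comp (h3 _ _) (Primrec.list_cons.comp (h3 _ _)
        (Primrec.list_cons.comp (h3 _ _) (Primrec.const [])))
  obtain ⟨f, hf, hdom⟩ := dom_of_rel _ hprim
  refine ⟨{p | (f p).Dom}, ⟨f, hf, fun p => Iff.rfl⟩, ?_⟩
  intro X x
  constructor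
  · rintro ⟨m, hx, hm⟩
    refine ⟨[3 * L (0 + 1 + bs (!b)) m + 0, 3 * L (1 + 1 + bs (!b)) m + 1,
        3 * L (2 + 1 + bs (!b)) m + 2], ?_, ?_⟩
    · change (f _).Dom
      rw [hdom]
      refine ⟨m, ?_, rfl⟩
      rw [mem_P] at hx
      obtain ⟨r, hr, h⟩ := hx
      interval_cases r
      · exact Or.inl h
      · exact Or.inr (Or.inl h)
      · exact Or.inr (Or.inr h)
    · intro y hy
      apply hm
      rw [mem_P]
      simp only [List.mem_cons, List.not_mem_nil, or_false] at hy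
      rcases hy with h | h | h
      · exact ⟨0, by norm_num, h⟩
      · exact ⟨1, by norm_num, h⟩
      · exact ⟨2, by norm_num, h⟩
  · rintro ⟨l, hl, hX⟩
    change (f _).Dom at hl
    rw [hdom] at hl
    obtain ⟨m, h1, h2⟩ := hl
    refine ⟨m, ?_, ?_⟩
    · rw [mem_P]
      rcases h1 with h | h | h
      · exact ⟨0, by norm_num, h⟩
      · exact ⟨1, by norm_num, h⟩
      · exact ⟨2, by norm_num, h⟩
    · intro y hy
      apply hX
      change l = _ at h2
      rw [h2]
      rw [mem_P] at hy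
      obtain ⟨r, hr, h⟩ := hy
      simp only [List.mem_cons, List.not_mem_nil, or_false]
      interval_cases r
      · exact Or.inl h
      · exact Or.inr (Or.inl h)
      · exact Or.inr (Or.inr h)

theorem code_of_partrec {α : Type} [Primcodable α] {f : α →. ℕ} (hf : Partrec f) :
    ∃ c : Nat.Partrec.Code, ∀ a, (c.eval (Encodable.encode a)).Dom ↔ (f a).Dom := by
  obtain ⟨c, hc⟩ := Nat.Partrec.Code.exists_code.1 hf
  refine ⟨c, fun a => ?_⟩
  rw [hc]
  simp

theorem finset_primrec (G : Finset ℕ) : PrimrecPred (fun y : ℕ => y ∈ G) := by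
  classical
  induction G using Finset.induction_on with
  | empty =>
    apply PrimrecPred.of_eq (p := fun _ : ℕ => (0 : ℕ) = 1)
    · exact Primrec.eq.comp (Primrec.const 0) (Primrec.const 1)
    · intro a; simp
  | insert a G _ ih =>
    apply PrimrecPred.of_eq (PrimrecPred.or (Primrec.eq.comp Primrec.id (Primrec.const a)) ih)
    intro y; simp

/-- projections of c.e. sets, with a finite set removed, are c.e. -/
theorem proj_re (c : Nat.Partrec.Code) (G : Finset ℕ) :
    ∃ f : ℕ →. ℕ, Partrec f ∧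
      ∀ n, (f n).Dom ↔ ∃ y, (c.eval (Nat.pair n y)).Dom ∧ y ∉ G := by
  have hprim : PrimrecRel (fun (n : ℕ) (t : ℕ) =>
      ((Nat.Partrec.Code.evaln t.unpair.1 c (Nat.pair n t.unpair.2)).isSome = true) ∧
        t.unpair.2 ∉ G) := by
    have h1 : Primrec (fun q : ℕ × ℕ => q.2.unpair.1) :=
      Primrec.fst.comp (Primrec.unpair.comp Primrec.snd)
    have h2 : Primrec (fun q : ℕ × ℕ => q.2.unpair.2) :=
      Primrec.snd.comp (Primrec.unpair.comp Primrec.snd)
    apply PrimrecPred.and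
    · apply Primrec.eq.comp _ (Primrec.const true)
      apply Primrec.option_isSome.comp
      exact Nat.Partrec.Code.primrec_evaln.comp
        (Primrec.pair (Primrec.pair h1 (Primrec.const c))
          (Primrec₂.natPair.comp Primrec.fst h2))
    · exact ((finset_primrec G).comp h2).not
  obtain ⟨f, hf, hdom⟩ := dom_of_rel _ hprim
  refine ⟨f, hf, fun n => ?_⟩
  rw [hdom]
  constructor
  · rintro ⟨t, h1, h2⟩
    refine ⟨t.unpair.2, ?_, h2⟩
    rw [Option.isSome_iff_exists] at h1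
    obtain ⟨x, hx⟩ := h1
    rw [Part.dom_iff_mem]
    exact ⟨x, Nat.Partrec.Code.evaln_sound hx⟩
  · rintro ⟨y, h1, h2⟩
    rw [Part.dom_iff_mem] at h1
    obtain ⟨x, hx⟩ := h1
    rw [Nat.Partrec.Code.evaln_complete] at hx
    obtain ⟨k, hk⟩ := hx
    refine ⟨Nat.pair k y, ?_, ?_⟩
    · rw [Nat.unpair_pair]
      change (Nat.Partrec.Code.evaln k c (Nat.pair n y)).isSome = true
      rw [Option.isSome_iff_exists]
      exact ⟨x, hk⟩
    · rw [Nat.unpair_pair]; exact h2

end Pool.Agent.Helper22.SMinPair
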